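import Mathlib

/-!
Square sequences, the Ostaszewski square, and a way to change a square sequence.
-/

set_option autoImplicit false
set_option linter.unusedSectionVars false

namespace Q209.OS

open Cardinal Set Order Ordinal

section defs

variable {K : Type} [LinearOrder K]

/-- The accumulation points of `C`: the members `β` of `C` with `sup (C ∩ β) = β`. -/
def acc (C : Set K) : Set K := {β | β ∈ C ∧ ∀ x < β, ∃ y ∈ C, x < y ∧ y < β}

/-- `C` is a closed unbounded subset of (the set of the predecessors of) `α`. -/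
structure IsClubIn (C : Set K) (α : K) : Prop where
  subset : C ⊆ Iio α
  unbounded : ∀ x < α, ∃ y ∈ C, x < y
  closed : ∀ β < α, (∃ y, y < β) → (∀ x < β, ∃ y ∈ C, x < y ∧ y < β) → β ∈ C

/-- `x` is the element of `C` at position `i`: `x = C (i)`. -/
def Nth [WellFoundedLT K] (C : Set K) (i : Ordinal.{0}) (x : K) : Prop :=
  x ∈ C ∧ typeLT (C ∩ Iio x : Set K) = i

end defs

section T

variable {K : Type} [LinearOrder K] [WellFoundedLT K]

open Classical in
/-- Some point with property `Q`, or `y` if there is none. -/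
noncomputable def pick (Q : K → Prop) (y : K) : K := if h : ∃ w, Q w then h.choose else y

theorem pick_spec {Q : K → Prop} {y : K} (h : ∃ w, Q w) : Q (pick Q y) := by
  unfold pick
  rw [dif_pos h]
  exact h.choose_spec

theorem pick_neg {Q : K → Prop} {y : K} (h : ¬ ∃ w, Q w) : pick Q y = y := by
  unfold pick
  rw [dif_neg h]

theorem type_set_congr {A B : Set K} (h : A = B) : typeLT A = typeLT B := by
  subst h
  rfl

variable (ψ : K → Set K) (cd : Set K → K → K → K)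

/-- `z` has an immediate predecessor in `c`. -/
def HasPred (c : Set K) (z : K) : Prop := ∃ x, IsGreatest (c ∩ Iio z) x

/-- The new version of the element `y` of `c`. -/
noncomputable def T (c : Set K) : K → K :=
  WellFounded.fix (wellFounded_lt (α := K)) fun y rec =>
    pick (fun w => ∃ x, IsGreatest (c ∩ Iio y) x ∧ x < w ∧ w < y ∧
      cd {v | ∃ z, ∃ hz : z < y, z ∈ c ∧ HasPred c z ∧ v = rec z hz} x w ∈ ψ y) y

/-- The new versions of the elements of `c` below `y` with an immediate predecessor. -/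
def Hist (c : Set K) (y : K) : Set K :=
  {v | ∃ z, z < y ∧ z ∈ c ∧ HasPred c z ∧ v = T ψ cd c z}

/-- The property of the new version. -/
def QT (c : Set K) (y w : K) : Prop :=
  ∃ x, IsGreatest (c ∩ Iio y) x ∧ x < w ∧ w < y ∧ cd (Hist ψ cd c y) x w ∈ ψ y

theorem T_eq (c : Set K) (y : K) : T ψ cd c y = pick (QT ψ cd c y) y := by
  rw [T, WellFounded.fix_eq]
  congr 1
  funext w
  have : {v | ∃ z, ∃ _ : z < y, z ∈ c ∧ HasPred c z ∧ v = WellFounded.fix (wellFounded_lt (α := K))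
      (fun y rec => pick (fun w => ∃ x, IsGreatest (c ∩ Iio y) x ∧ x < w ∧ w < y ∧
      cd {v | ∃ z, ∃ hz : z < y, z ∈ c ∧ HasPred c z ∧ v = rec z hz} x w ∈ ψ y) y) z} =
      Hist ψ cd c y := by
    ext v
    simp only [Hist, mem_ofPred_eq, exists_prop]
    rfl
  rw [this]
  rfl

theorem T_le (c : Set K) (y : K) : T ψ cd c y ≤ y := by
  rw [T_eq]
  by_cases h : ∃ w, QT ψ cd c y w
  · obtain ⟨x, -, -, h2, -⟩ := pick_spec (y := y) h
    exact h2.le
  · rw [pick_neg h]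

theorem lt_T {c : Set K} {x y : K} (hx : x ∈ c) (hxy : x < y) : x < T ψ cd c y := by
  rw [T_eq]
  by_cases h : ∃ w, QT ψ cd c y w
  · obtain ⟨x', h0, h1, -, -⟩ := pick_spec (y := y) h
    exact (h0.2 ⟨hx, hxy⟩).trans_lt h1
  · rwa [pick_neg h]

theorem T_lt {c : Set K} {x y : K} (hx : x ∈ c) (hxy : x < y) : T ψ cd c x < T ψ cd c y :=
  (T_le ψ cd c x).trans_lt (lt_T ψ cd hx hxy)

theorem T_of_not_pred {c : Set K} {y : K} (h : ¬ HasPred c y) : T ψ cd c y = y := by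
  rw [T_eq]
  refine pick_neg ?_
  rintro ⟨w, x, h0, -⟩
  exact h ⟨x, h0⟩

theorem T_congr {c c' : Set K} : ∀ {y : K}, c ∩ Iio y = c' ∩ Iio y → T ψ cd c y = T ψ cd c' y := by
  intro y
  induction y using WellFoundedLT.induction with
  | ind y ih =>
    intro h
    have hmem : ∀ z < y, (z ∈ c ↔ z ∈ c') := by
      intro z hz
      have : z ∈ c ∩ Iio y ↔ z ∈ c' ∩ Iio y := by rw [h]
      simpa [hz] using this
    have hz : ∀ z ≤ y, c ∩ Iio z = c' ∩ Iio z := by
      intro z hz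
      ext v
      simp only [mem_inter_iff, mem_Iio]
      constructor
      · rintro ⟨h1, h2⟩
        exact ⟨(hmem v (h2.trans_le hz)).1 h1, h2⟩
      · rintro ⟨h1, h2⟩
        exact ⟨(hmem v (h2.trans_le hz)).2 h1, h2⟩
    have hhist : Hist ψ cd c y = Hist ψ cd c' y := by
      ext v
      constructor
      · rintro ⟨z, h1, h2, h3, h4⟩
        refine ⟨z, h1, (hmem z h1).1 h2, ?_, ?_⟩
        · rwa [HasPred, ← hz z h1.le]
        · rw [h4, ih z h1 (hz z h1.le)]
      · rintro ⟨z, h1, h2, h3, h4⟩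
        refine ⟨z, h1, (hmem z h1).2 h2, ?_, ?_⟩
        · rwa [HasPred, hz z h1.le]
        · rw [h4, ih z h1 (hz z h1.le)]
    rw [T_eq, T_eq]
    congr 1
    funext w
    simp only [QT, hhist, h]

/-- The new set. -/
def Cn (c : Set K) : Set K := T ψ cd c '' c

/-- The changed sequence. -/
def Cnew (C : K → Set K) (α : K) : Set K := Cn ψ cd (C α)

theorem strictMonoOn_T (c : Set K) : StrictMonoOn (T ψ cd c) c :=
  fun _ hx _ _ hxy => T_lt ψ cd hx hxy

/-- The order isomorphism between a set and its new version. -/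
noncomputable def isoT (c : Set K) : c ≃o (Cn ψ cd c) :=
  (strictMonoOn_T ψ cd c).orderIso (T ψ cd c) c

theorem type_Cn (c : Set K) : typeLT (Cn ψ cd c) = typeLT c :=
  (isoT ψ cd c).ordinalType_congr.symm

theorem Cn_inter {c : Set K} {y : K} (hy : y ∈ c) :
    Cn ψ cd c ∩ Iio (T ψ cd c y) = T ψ cd c '' (c ∩ Iio y) := by
  ext v
  constructor
  · rintro ⟨⟨z, hz, rfl⟩, hv⟩
    refine ⟨z, ⟨hz, ?_⟩, rfl⟩
    by_contra hcon
    rcases (not_lt.1 hcon).eq_or_lt with h | h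
    · rw [h] at hv
      exact lt_irrefl _ hv
    · exact absurd (T_lt ψ cd hy h) (not_lt.2 (le_of_lt hv))
  · rintro ⟨z, ⟨hz, hzy⟩, rfl⟩
    exact ⟨⟨z, hz, rfl⟩, T_lt ψ cd hz hzy⟩

theorem nth_Cn {c : Set K} {i : Ordinal.{0}} {v : K} (h : Nth (Cn ψ cd c) i v) :
    ∃ y ∈ c, v = T ψ cd c y ∧ typeLT (c ∩ Iio y : Set K) = i := by
  obtain ⟨⟨y, hy, rfl⟩, h2⟩ := h
  refine ⟨y, hy, rfl, ?_⟩
  rw [type_set_congr (Cn_inter ψ cd hy)] at h2
  rw [← h2]
  exact ((strictMonoOn_T ψ cd c).mono inter_subset_left |>.orderIso (T ψ cd c)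
    (c ∩ Iio y)).ordinalType_congr

/-- The type of the history of `y` is the position of the predecessor of `y`. -/
theorem type_Hist {c : Set K} {x y : K} (hxy : IsGreatest (c ∩ Iio y) x) :
    typeLT (Hist ψ cd c y) = typeLT (c ∩ Iio x : Set K) := by
  classical
  have hne : ∀ z : (c ∩ Iio x : Set K), ({w | w ∈ c ∧ z.1 < w} : Set K).Nonempty :=
    fun z => ⟨x, hxy.1.1, z.2.2⟩
  let nx : (c ∩ Iio x : Set K) → K := fun z =>
    (wellFounded_lt (α := K)).min {w | w ∈ c ∧ z.1 < w} (hne z)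
  have hnx : ∀ z, nx z ∈ c ∧ z.1 < nx z := fun z =>
    (wellFounded_lt (α := K)).min_mem {w | w ∈ c ∧ z.1 < w} (hne z)
  have hmin : ∀ z, ∀ w ∈ c, z.1 < w → nx z ≤ w := fun z w hw hzw =>
    not_lt.1 ((wellFounded_lt (α := K)).not_lt_min {w | w ∈ c ∧ z.1 < w} (x := w) ⟨hw, hzw⟩)
  have hpred : ∀ z, IsGreatest (c ∩ Iio (nx z)) z.1 := by
    intro z
    refine ⟨⟨z.2.1, (hnx z).2⟩, ?_⟩
    rintro w ⟨hw, hwz⟩
    by_contra hcon
    exact absurd (hmin z w hw (not_le.1 hcon)) (not_le.2 hwz)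
  let g : (c ∩ Iio x : Set K) → K := fun z => T ψ cd c (nx z)
  have hg : StrictMono g := by
    intro z z' hzz
    have h1 : nx z ≤ z'.1 := hmin z z'.1 z'.2.1 hzz
    exact T_lt ψ cd (hnx z).1 (h1.trans_lt (hnx z').2)
  have hr : range g = Hist ψ cd c y := by
    ext v
    constructor
    · rintro ⟨z, rfl⟩
      exact ⟨nx z, (hmin z x hxy.1.1 z.2.2).trans_lt hxy.1.2, (hnx z).1, ⟨_, hpred z⟩, rfl⟩
    · rintro ⟨z, h1, h2, ⟨x', hx'⟩, rfl⟩
      have h3 : z ≤ x := hxy.2 ⟨h2, h1⟩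
      refine ⟨⟨x', hx'.1.1, hx'.1.2.trans_le h3⟩, ?_⟩
      have h4 : nx ⟨x', hx'.1.1, hx'.1.2.trans_le h3⟩ = z := by
        apply le_antisymm
        · exact hmin _ z h2 hx'.1.2
        · by_contra hcon
          have h5 := hnx ⟨x', hx'.1.1, hx'.1.2.trans_le h3⟩
          exact absurd h5.2 (not_lt.2 (hx'.2 ⟨h5.1, not_le.1 hcon⟩))
      simp only [g, h4]
  rw [← hr]
  exact ((hg.orderIso g).ordinalType_congr).symm

/-- The changed sequence keeps the clubs and the coherence. -/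
theorem club_Cn {c : Set K} {α : K} (hc : IsClubIn c α) :
    IsClubIn (Cn ψ cd c) α ∧ acc (Cn ψ cd c) ⊆ acc c ∧
      ∀ β ∈ acc (Cn ψ cd c), Cn ψ cd c ∩ Iio β = Cn ψ cd (c ∩ Iio β) := by
  have key : ∀ β ≤ α, (∃ y, y < β) → (∀ x < β, ∃ y ∈ Cn ψ cd c, x < y ∧ y < β) →
      ∀ x < β, ∃ y ∈ c, x < y ∧ y < β := by
    intro β hβ hne h x hx
    obtain ⟨_, ⟨y, hy, rfl⟩, h1, h2⟩ := h x hx
    -- a larger element
    obtain ⟨_, ⟨z, hz, rfl⟩, h3, h4⟩ := h _ h2
    have hyz : y < z := by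
      by_contra hcon
      rcases (not_lt.1 hcon).eq_or_lt with h | h
      · rw [h] at h3
        exact lt_irrefl _ h3
      · exact absurd (T_lt ψ cd hz h) (not_lt.2 h3.le)
    exact ⟨y, hy, h1.trans_le (T_le ψ cd c y), (lt_T ψ cd hy hyz).trans h4⟩
  have hT : ∀ β, β ∈ c → (∀ x < β, ∃ y ∈ c, x < y ∧ y < β) → T ψ cd c β = β := by
    intro β _ h
    refine T_of_not_pred ψ cd ?_
    rintro ⟨x, hx⟩
    obtain ⟨y, hy, h1, h2⟩ := h x hx.1.2
    exact absurd h1 (not_lt.2 (hx.2 ⟨hy, h2⟩))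
  refine ⟨⟨?_, ?_, ?_⟩, ?_, ?_⟩
  · rintro _ ⟨y, hy, rfl⟩
    exact (T_le ψ cd c y).trans_lt (hc.subset hy)
  · intro x hx
    obtain ⟨y, hy, hxy⟩ := hc.unbounded x hx
    obtain ⟨z, hz, hyz⟩ := hc.unbounded y (hc.subset hy)
    exact ⟨_, ⟨z, hz, rfl⟩, hxy.trans (lt_T ψ cd hy hyz)⟩
  · intro β hβ hne h
    have h1 := key β hβ.le hne h
    have h2 := hc.closed β hβ hne h1
    exact ⟨β, h2, hT β h2 h1⟩
  · rintro _ ⟨⟨y, hy, rfl⟩, h⟩
    by_cases hne : ∃ z, z < T ψ cd c y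
    · have h1 := key _ ((T_le ψ cd c y).trans (hc.subset hy).le) hne h
      have h2 : T ψ cd c y ∈ c := hc.closed _ ((T_le ψ cd c y).trans_lt (hc.subset hy)) hne h1
      exact ⟨h2, h1⟩
    · have hy' : ¬ HasPred c y := by
        rintro ⟨x, hx⟩
        exact hne ⟨x, lt_T ψ cd hx.1.1 hx.1.2⟩
      rw [T_of_not_pred ψ cd hy'] at hne ⊢
      exact ⟨hy, fun x hx => absurd ⟨x, hx⟩ hne⟩
  · rintro _ ⟨⟨y, hy, rfl⟩, h⟩
    rw [Cn_inter ψ cd hy]
    -- the point is not moved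
    have hfix : T ψ cd c y = y := by
      by_cases hne : ∃ z, z < T ψ cd c y
      · have h1 := key _ ((T_le ψ cd c y).trans (hc.subset hy).le) hne h
        have h2 : T ψ cd c y ∈ c := hc.closed _ ((T_le ψ cd c y).trans_lt (hc.subset hy)) hne h1
        by_contra hne2
        have hlt : T ψ cd c y < y := lt_of_le_of_ne (T_le ψ cd c y) hne2
        exact lt_irrefl _ (lt_T ψ cd h2 hlt)
      · refine T_of_not_pred ψ cd ?_
        rintro ⟨x, hx⟩
        exact hne ⟨x, lt_T ψ cd hx.1.1 hx.1.2⟩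
    rw [hfix]
    unfold Cn
    apply image_congr
    rintro z ⟨hz, hzy⟩
    apply T_congr
    rw [inter_assoc]
    congr 1
    exact (inter_eq_right.2 (Iio_subset_Iio (le_of_lt hzy))).symm

end T

end Q209.OS
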