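import Mathlib
import Pool.Agent.Q209.OSDefs

/-!
Positions of the elements of a set in a well-order.
-/

set_option autoImplicit false
set_option linter.unusedSectionVars false

namespace Q209.OS

open Cardinal Set Order Ordinal

variable {K : Type} [LinearOrder K] [WellFoundedLT K]

/-- The position of `z` in `S`. -/
noncomputable abbrev pos (S : Set K) (z : K) : Ordinal.{0} := typeLT (S ∩ Iio z : Set K)

theorem typein_eq_pos (S : Set K) (z : S) : typein (α := S) (· < ·) z = pos S z.1 := by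
  have h : typein (α := S) (· < ·) z = typeLT (Iio z : Set S) := rfl
  rw [h]
  refine OrderIso.ordinalType_congr
    { toFun := fun w => ⟨w.1.1, w.1.2, w.2⟩
      invFun := fun w => ⟨⟨w.1, w.2.1⟩, w.2.2⟩
      left_inv := fun _ => rfl
      right_inv := fun _ => rfl
      map_rel_iff' := Iff.rfl }

theorem pos_lt_type {S : Set K} {z : K} (hz : z ∈ S) : pos S z < typeLT S := by
  rw [← typein_eq_pos S ⟨z, hz⟩]
  exact typein_lt_type _ _

theorem pos_lt_pos {S : Set K} {z w : K} (hz : z ∈ S) (hw : w ∈ S) (h : z < w) :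
    pos S z < pos S w := by
  rw [← typein_eq_pos S ⟨z, hz⟩, ← typein_eq_pos S ⟨w, hw⟩, typein_lt_typein]
  exact h

theorem lt_of_pos_lt {S : Set K} {z w : K} (hz : z ∈ S) (hw : w ∈ S) (h : pos S z < pos S w) :
    z < w := by
  by_contra hcon
  rcases (not_lt.1 hcon).eq_or_lt with h' | h'
  · rw [h'] at h
    exact lt_irrefl _ h
  · exact absurd h (not_lt.2 (pos_lt_pos hw hz h').le)

theorem exists_pos_eq {S : Set K} {o : Ordinal.{0}} (h : o < typeLT S) : ∃ z ∈ S, pos S z = o := by
  refine ⟨(enum (α := S) (· < ·) ⟨o, h⟩).1, (enum (α := S) (· < ·) ⟨o, h⟩).2, ?_⟩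
  rw [← typein_eq_pos, typein_enum]

theorem pos_succ {S : Set K} {x y : K} (hxy : IsGreatest (S ∩ Iio y) x) :
    pos S y = pos S x + 1 := by
  apply le_antisymm
  · by_contra hcon
    rw [not_le] at hcon
    obtain ⟨z, hz, hz2⟩ := exists_pos_eq (S := S ∩ Iio y) (o := pos S x + 1) hcon
    have h1 : pos (S ∩ Iio y) z = pos S z := by
      apply type_set_congr
      rw [inter_assoc]
      congr 1
      exact inter_eq_right.2 (Iio_subset_Iio (le_of_lt hz.2))
    rw [h1] at hz2
    have h2 : z ≤ x := hxy.2 hz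
    have h3 : pos S z ≤ pos S x := by
      rcases h2.eq_or_lt with h | h
      · rw [h]
      · exact (pos_lt_pos hz.1 hxy.1.1 h).le
    rw [hz2] at h3
    exact absurd (lt_add_one (pos S x)) (not_lt.2 h3)
  · rw [← succ_eq_add_one, succ_le_iff]
    have h1 : pos (S ∩ Iio y) x < typeLT (S ∩ Iio y : Set K) := pos_lt_type hxy.1
    have h2 : pos (S ∩ Iio y) x = pos S x := by
      apply type_set_congr
      rw [inter_assoc]
      congr 1
      exact inter_eq_right.2 (Iio_subset_Iio (le_of_lt hxy.1.2))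
    rwa [h2] at h1

theorem card_pos (S : Set K) (z : K) : (pos S z).card = #(S ∩ Iio z : Set K) := card_type _

theorem greatest_of_nth {S : Set K} {x y : K} {i : Ordinal.{0}} (hx : Nth S i x)
    (hy : Nth S (i + 1) y) : IsGreatest (S ∩ Iio y) x := by
  have hlt : x < y := lt_of_pos_lt hx.1 hy.1 (by
    have h1 : pos S x = i := hx.2
    have h2 : pos S y = i + 1 := hy.2
    rw [h1, h2]
    exact lt_add_one i)
  refine ⟨⟨hx.1, hlt⟩, ?_⟩
  rintro z ⟨hz, hzy⟩
  by_contra hcon
  have h1 := pos_lt_pos hx.1 hz (not_le.1 hcon)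
  have h2 := pos_lt_pos hz hy.1 hzy
  have h3 : pos S x = i := hx.2
  have h4 : pos S y = i + 1 := hy.2
  rw [h3] at h1
  rw [h4, ← succ_eq_add_one, lt_succ_iff] at h2
  exact absurd h1 (not_lt.2 h2)

end Q209.OS
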