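import Mathlib
import Pool.Agent.Q209.OSPos
import Pool.Agent.Y671.GV.Gen

/-!
Changing an Ostaszewski square sequence so that it guesses functions of the history.
-/

set_option autoImplicit false
set_option linter.unusedSectionVars false

namespace Q209.OS

open Cardinal Set Order Ordinal Pool.Agent.H348R6.GV Pool.Agent.Y671.GV

variable {lam : Cardinal.{0}}

/-- The set `lam⁺`. -/
abbrev Kp (lam : Cardinal.{0}) : Type := (succ lam).ord.ToType

theorem mk_Kp (lam : Cardinal.{0}) : #(Kp lam) = succ lam := by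
  rw [Cardinal.mk_toType, card_ord]

theorem reg_succ (hω : ℵ₀ ≤ lam) : (succ lam).IsRegular := isRegular_succ hω

theorem bdd_of_le (hω : ℵ₀ ≤ lam) {ι : Type} (g : ι → Kp lam) (h : #ι ≤ lam) :
    ∃ b, ∀ i, g i < b :=
  bdd_of_lt (reg_succ hω) g (lt_succ_of_le h)

theorem mk_Iic_le (hω : ℵ₀ ≤ lam) (x : Kp lam) : #(Iic x) ≤ lam :=
  lt_succ_iff.1 (mk_Iic_lt (reg_succ hω) x)

/-- The number of subsets of `lam⁺` of size at most `lam`. -/
theorem mk_small (hω : ℵ₀ ≤ lam) (h2 : 2 ^ lam = succ lam) :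
    #{H : Set (Kp lam) // #H ≤ lam} ≤ #(Kp lam) := by
  refine (mk_bounded_set_le (Kp lam) lam).trans ?_
  rw [mk_Kp]
  have h3 : max (succ lam) ℵ₀ = succ lam := max_eq_left (hω.trans (le_succ lam))
  rw [h3, ← h2, ← Cardinal.power_mul, mul_eq_self hω]

/-- Codes. -/
theorem exists_codes (hω : ℵ₀ ≤ lam) (h2 : 2 ^ lam = succ lam) :
    ∃ (ψ : Kp lam → Set (Kp lam)) (cd : Set (Kp lam) → Kp lam → Kp lam → Kp lam),
      (∀ ρ, ∀ Y : Set (Kp lam), Y ⊆ Iio ρ → ∀ η, ∃ γ, η < γ ∧ ψ γ = Y) ∧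
      (∀ (H : Set (Kp lam)) x w (H' : Set (Kp lam)) x' w', #H ≤ lam → #H' ≤ lam → cd H x w = cd H' x' w' →
        H = H' ∧ x = x' ∧ w = w') := by
  classical
  have hK : ℵ₀ ≤ #(Kp lam) := by rw [mk_Kp]; exact hω.trans (le_succ lam)
  have hne : Nonempty (Kp lam) := by
    rw [← mk_ne_zero_iff]
    exact (aleph0_pos.trans_le hK).ne'
  have e1 : #({H : Set (Kp lam) // #H ≤ lam} × Kp lam × Kp lam) ≤ #(Kp lam) := by
    simp only [mk_prod, Cardinal.lift_id]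
    exact mul_le_of_le hK (mk_small hω h2) (mul_le_of_le hK le_rfl le_rfl)
  have e2 : #({H : Set (Kp lam) // #H ≤ lam} × Kp lam) ≤ #(Kp lam) := by
    simp only [mk_prod, Cardinal.lift_id]
    exact mul_le_of_le hK (mk_small hω h2) le_rfl
  obtain ⟨e⟩ := e1
  obtain ⟨g⟩ := e2
  refine ⟨fun γ => if h : ∃ q, g q = γ then h.choose.1.1 else ∅,
    fun H x w => if h : #H ≤ lam then e (⟨H, h⟩, x, w) else hne.some, ?_, ?_⟩
  · intro ρ Y hY η
    have hYc : #Y ≤ lam := (mk_le_mk_of_subset (hY.trans Iio_subset_Iic_self)).trans (mk_Iic_le hω ρ)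
    obtain ⟨ξ, hξ⟩ : ∃ ξ, η < g (⟨Y, hYc⟩, ξ) := by
      by_contra hcon
      push Not at hcon
      have h1 : #(Kp lam) ≤ #(Iic η) :=
        ⟨⟨fun ξ => ⟨g (⟨Y, hYc⟩, ξ), hcon ξ⟩, fun ξ ξ' h => by
          have := g.injective (congrArg (fun q : Iic η => q.1) h)
          simpa using this⟩⟩
      rw [mk_Kp] at h1
      exact absurd (h1.trans (mk_Iic_le hω η)) (not_le.2 (lt_succ lam))
    refine ⟨_, hξ, ?_⟩
    have hex : ∃ q, g q = g (⟨Y, hYc⟩, ξ) := ⟨_, rfl⟩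
    have h3 := g.injective hex.choose_spec
    simp only [hex, dite_true]
    rw [h3]
  · intro H x w H' x' w' hH hH' h
    simp only [hH, hH', dite_true] at h
    have := e.injective h
    simp only [Prod.mk.injEq, Subtype.mk.injEq] at this
    exact this

/-- The number of small subsets of a bounded set. -/
theorem mk_bdd_small (hreg : lam.IsRegular) (hp : lam ^< lam = lam) (x : Kp lam) :
    #{H : Set (Kp lam) // H ⊆ Iic x ∧ #H < lam} ≤ lam := by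
  classical
  have hω := hreg.aleph0_le
  have h1 : #{H : Set (Kp lam) // H ⊆ Iic x ∧ #H < lam} ≤
      #(Σ d : lam.ord.ToType, (Iio d → Iic x)) := by
    have h2 : ∀ H : {H : Set (Kp lam) // H ⊆ Iic x ∧ #H < lam},
        ∃ q : (Σ d : lam.ord.ToType, (Iio d → Iic x)), range (fun i => (q.2 i).1) = H.1 := by
      rintro ⟨H, hH, hHl⟩
      -- a point with the right number of predecessors
      have h3 : (#H).ord < typeLT lam.ord.ToType := by
        rw [type_toType]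
        exact ord_lt_ord.2 hHl
      set d : lam.ord.ToType := enum (α := lam.ord.ToType) (· < ·) ⟨(#H).ord, h3⟩ with hd
      have h4 : #(Iio d) = #H := by
        have h5 : (typein (α := lam.ord.ToType) (· < ·) d).card = #(Iio d) := card_typein d
        rw [← h5, hd, typein_enum, card_ord]
      obtain ⟨e⟩ := Cardinal.eq.1 h4
      refine ⟨⟨d, fun i => ⟨(e i).1, hH (e i).2⟩⟩, ?_⟩
      ext v
      constructor
      · rintro ⟨i, rfl⟩
        exact (e i).2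
      · intro hv
        exact ⟨e.symm ⟨v, hv⟩, by simp⟩
    choose q hq using h2
    refine ⟨⟨q, fun H H' h => ?_⟩⟩
    apply Subtype.ext
    rw [← hq H, ← hq H', h]
  refine h1.trans ?_
  rw [mk_sigma]
  have h6 : ∀ d : lam.ord.ToType, #(Iio d → Iic x) ≤ lam := by
    intro d
    rw [← Cardinal.power_def]
    refine (Cardinal.power_le_power_right (mk_Iic_le hω x)).trans ?_
    conv_rhs => rw [← hp]
    refine le_powerlt lam ?_
    exact (mk_le_mk_of_subset Iio_subset_Iic_self).trans_lt (mk_Iic_lt hreg d)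
  refine (sum_le_sum _ (fun _ => lam) h6).trans ?_
  rw [sum_const, Cardinal.lift_id, Cardinal.lift_id, Cardinal.mk_toType, card_ord, mul_eq_self hω]

/-- Closed unbounded sets contain the suprema of their nonempty bounded subsets. -/
theorem club_closed {K : Type} [LinearOrder K] {D : Set K} (hD : IsClub D) {β : K}
    (hne : ∃ y, y < β) (h : ∀ x < β, ∃ y ∈ D, x < y ∧ y < β) : β ∈ D := by
  obtain ⟨y₀, hy₀⟩ := hne
  obtain ⟨y, hy, -, hyβ⟩ := h y₀ hy₀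
  refine hD.isLUB_mem (t := D ∩ Iio β) inter_subset_left ⟨y, hy, hyβ⟩ ⟨fun z hz => hz.2.le, ?_⟩
  intro b hb
  by_contra hcon
  obtain ⟨z, hz, h1, h2⟩ := h b (not_le.1 hcon)
  exact absurd (hb ⟨hz, h2⟩) (not_le.2 h1)

/-- The guessing property of an Ostaszewski square sequence. -/
def Guesses (lam : Cardinal.{0}) (C : Kp lam → Set (Kp lam)) : Prop :=
  ∀ A : Ordinal.{0} → Set (Kp lam), (∀ i < lam.ord, ∀ x, ∃ y ∈ A i, x < y) →
    ∀ θ < lam.ord, IsSuccLimit θ → ∀ D : Set (Kp lam), IsClub D →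
      ∃ α, IsSuccLimit α ∧ typeLT (C α) = θ ∧ ∀ i < θ, ∀ x y, Nth (C α) i x →
        Nth (C α) (i + 1) y → y ∈ A i ∧ ∃ β ∈ D, x < β ∧ β < y

/-- The guessing property of the changed sequence: it guesses functions of the history. -/
theorem guess_fun (hreg : lam.IsRegular) (hp : lam ^< lam = lam)
    {ψ : Kp lam → Set (Kp lam)} {cd : Set (Kp lam) → Kp lam → Kp lam → Kp lam}
    (hψ : ∀ ρ, ∀ Y : Set (Kp lam), Y ⊆ Iio ρ → ∀ η, ∃ γ, η < γ ∧ ψ γ = Y)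
    (hcd : ∀ (H : Set (Kp lam)) x w (H' : Set (Kp lam)) x' w', #H ≤ lam → #H' ≤ lam → cd H x w = cd H' x' w' →
        H = H' ∧ x = x' ∧ w = w')
    {C : Kp lam → Set (Kp lam)} (hC : Guesses lam C)
    (F : Set (Kp lam) → Kp lam → Kp lam) (hF : ∀ (H : Set (Kp lam)) x, #H < lam → x < F H x)
    {θ : Ordinal.{0}} (hθ : θ < lam.ord) (hθl : IsSuccLimit θ) :
    ∃ α, IsSuccLimit α ∧ typeLT (C α) = θ ∧
      ∀ x y, y ∈ C α → IsGreatest (C α ∩ Iio y) x →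
        T ψ cd (C α) y = F (Hist ψ cd (C α) y) x := by
  classical
  have hω := hreg.aleph0_le
  have hreg' := reg_succ hω
  have hω' : ℵ₀ < succ lam := lt_succ_of_le hω
  have hne : Nonempty (Kp lam) := nonempty_toType hreg'
  have hno : ∀ a : Kp lam, ∃ b, a < b := fun a => by
    obtain ⟨b, hb⟩ := bdd_of_le hω (fun _ : PUnit => a) (by simpa using one_lt_aleph0.le.trans hω)
    exact ⟨b, hb ⟨⟩⟩
  -- the set of codes
  let X : Set (Kp lam) := {v | ∃ (H : Set (Kp lam)) (x : Kp lam), #H < lam ∧ v = cd H x (F H x)}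
  have hbound : ∀ x : Kp lam, ∃ b : Kp lam, (∀ H : Set (Kp lam), H ⊆ Iic x → #H < lam →
      ∀ x' ≤ x, F H x' < b ∧ cd H x' (F H x') < b) ∧ ∃ γ, x < γ ∧ γ < b ∧ ψ γ = X ∩ Iio x := by
    intro x
    let ι : Type := {H : Set (Kp lam) // H ⊆ Iic x ∧ #H < lam} × Iic x
    have hι : #ι ≤ lam := by
      simp only [ι, mk_prod, Cardinal.lift_id]
      exact mul_le_of_le hω (mk_bdd_small hreg hp x) (mk_Iic_le hω x)
    obtain ⟨b1, hb1⟩ := bdd_of_le hω (fun q : ι => F q.1.1 q.2.1) hι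
    obtain ⟨b2, hb2⟩ := bdd_of_le hω (fun q : ι => cd q.1.1 q.2.1 (F q.1.1 q.2.1)) hι
    obtain ⟨γ, hγ1, hγ2⟩ := hψ x (X ∩ Iio x) inter_subset_right x
    obtain ⟨b3, hb3⟩ := hno γ
    refine ⟨max (max b1 b2) b3, fun H hH hHl x' hx' => ⟨?_, ?_⟩, γ, hγ1, ?_, hγ2⟩
    · exact (hb1 ⟨⟨H, hH, hHl⟩, ⟨x', hx'⟩⟩).trans_le ((le_max_left _ _).trans (le_max_left _ _))
    · exact (hb2 ⟨⟨H, hH, hHl⟩, ⟨x', hx'⟩⟩).trans_le ((le_max_right _ _).trans (le_max_left _ _))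
    · exact hb3.trans_le (le_max_right _ _)
  choose f hf1 hf2 using hbound
  let D : Set (Kp lam) := {a | (∃ b, b < a) ∧ ∀ b < a, f b < a}
  have hD : IsClub D := club_closure (hc_toType hreg' hω') (hreg_toType hreg') f
  have hDunb : ∀ x : Kp lam, ∃ δ ∈ D, x < δ := by
    intro x
    obtain ⟨y, hy⟩ := hno x
    obtain ⟨δ, hδ, hyδ⟩ := hD.isCofinal y
    exact ⟨δ, hδ, hy.trans_le hyδ⟩
  -- the set to be guessed
  let A : Set (Kp lam) := {γ | ∃ δ ∈ D, δ < γ ∧ (∀ d ∈ D, d < γ → d ≤ δ) ∧ ψ γ = X ∩ Iio δ}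
  have hA : ∀ x, ∃ y ∈ A, x < y := by
    intro x
    obtain ⟨δ, hδ, hxδ⟩ := hDunb x
    have hne2 : {d | d ∈ D ∧ δ < d}.Nonempty := by
      obtain ⟨d, hd, hδd⟩ := hDunb δ
      exact ⟨d, hd, hδd⟩
    set δ' := (wellFounded_lt (α := Kp lam)).min {d | d ∈ D ∧ δ < d} hne2 with hδ'
    have h1 : δ' ∈ D ∧ δ < δ' := (wellFounded_lt (α := Kp lam)).min_mem {d | d ∈ D ∧ δ < d} hne2
    have h2 : ∀ d ∈ D, δ < d → δ' ≤ d := fun d hd hδd => not_lt.1
      ((wellFounded_lt (α := Kp lam)).not_lt_min {d | d ∈ D ∧ δ < d} (x := d) ⟨hd, hδd⟩)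
    obtain ⟨γ, hγ1, hγ2, hγ3⟩ := hf2 δ
    have hγδ' : γ < δ' := hγ2.trans (h1.1.2 δ h1.2)
    refine ⟨γ, ⟨δ, hδ, hγ1, fun d hd hdγ => ?_, hγ3⟩, hxδ.trans hγ1⟩
    by_contra hcon
    exact absurd (h2 d hd (not_le.1 hcon)) (not_le.2 (hdγ.trans hγδ'))
  obtain ⟨α, hα, hαt, hαg⟩ := hC (fun _ => A) (fun _ _ => hA) θ hθ hθl D hD
  have hcard : #(C α) < lam := by
    rw [← card_type (α := C α) (· < ·), hαt]
    exact lt_ord.1 hθ
  refine ⟨α, hα, hαt, fun x y hy hxy => ?_⟩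
  have h1 : Nth (C α) (pos (C α) x) x := ⟨hxy.1.1, rfl⟩
  have h2 : Nth (C α) (pos (C α) x + 1) y := ⟨hy, pos_succ hxy⟩
  have h3 : pos (C α) x < θ := by
    rw [← hαt]
    exact pos_lt_type hxy.1.1
  obtain ⟨⟨δ, hδ, hδy, hδmax, hψy⟩, β, hβ, hxβ, hβy⟩ := hαg _ h3 x y h1 h2
  have hβδ : β ≤ δ := hδmax β hβ hβy
  have hxδ : x < δ := hxβ.trans_le hβδ
  set H := Hist ψ cd (C α) y with hH
  have hHx : H ⊆ Iic x := by
    rintro _ ⟨z, hz1, hz2, -, rfl⟩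
    exact (T_le ψ cd (C α) z).trans (hxy.2 ⟨hz2, hz1⟩)
  have hHl : #H < lam := by
    have h4 : H ⊆ T ψ cd (C α) '' (C α) := by
      rintro _ ⟨z, -, hz2, -, rfl⟩
      exact ⟨z, hz2, rfl⟩
    exact ((mk_le_mk_of_subset h4).trans mk_image_le).trans_lt hcard
  have h5 := hf1 x H hHx hHl x le_rfl
  have h6 : F H x < δ := h5.1.trans (hδ.2 x hxδ)
  have h7 : cd H x (F H x) < δ := h5.2.trans (hδ.2 x hxδ)
  have hQ : QT ψ cd (C α) y (F H x) := by
    refine ⟨x, hxy, hF H x hHl, h6.trans hδy, ?_⟩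
    rw [hψy, ← hH]
    exact ⟨⟨H, x, hHl, rfl⟩, h7⟩
  rw [T_eq]
  obtain ⟨x', h8, -, -, h9⟩ := pick_spec (y := y) ⟨_, hQ⟩
  have hxx : x' = x := le_antisymm (hxy.2 h8.1) (h8.2 hxy.1)
  subst hxx
  rw [hψy] at h9
  obtain ⟨⟨H', x'', hH', heq⟩, -⟩ := h9
  obtain ⟨e1, e2, e3⟩ := hcd _ _ _ _ _ _ hHl.le hH'.le heq
  rw [e3, ← e1, ← e2]

end Q209.OS
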