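import Mathlib
import Pool.Agent.Q209.OSGround
import Pool.Agent.Helper669.KDefs
import Pool.Agent.Helper669.KA2

/-!
The Ostaszewski square in extensions by closed forcing notions with a chain condition.
-/

set_option autoImplicit false
set_option linter.unusedSectionVars false

namespace Q209.OS

open Cardinal Set Order Ordinal Pool.Agent.Helper669.Forcing Pool.Agent.Helper669.K

section defs

variable {P : Type} [Preorder P]

/-- The named subset `A` of the linear order `K` is unbounded. -/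
def FUnb {K : Type} [LT K] (A : K → Set P) : Set P :=
  fall fun x : K => fex fun y : K => fand (fground (x < y)) (meets (A y))

/-- The named subset `D` of the linear order `K` is closed and unbounded: it is unbounded and
contains every point `β`, other than the first point of `K`, such that `D` is unbounded below
`β`. -/
def FClub {K : Type} [LT K] (D : K → Set P) : Set P :=
  fand (FUnb D) (fall fun β : K =>
    fimp (fand (fground (∃ y, y < β)) (fall fun x : K => fall fun _ : x < β => fex fun y : K =>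
      fand (fground (x < y ∧ y < β)) (meets (D y)))) (meets (D β)))

/-- The ground model sequence `C` has the guessing property of the Ostaszewski square for `lam` in
the extension: for all sequences of unbounded sets `A i`, `i < lam`, all limit ordinals `θ < lam` and
all clubs `D` there is a limit point `α` with `C α` of order type `θ` such that for all `i < θ`,
`C α (i + 1)` is in `A i` and some `β ∈ D` lies between `C α (i)` and `C α (i + 1)`. -/
def FGuesses (P : Type) [Preorder P] (lam : Cardinal.{0}) (C : Kp lam → Set (Kp lam)) : Set P :=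
  fall fun A : Ordinal.{0} → Kp lam → Set P => fall fun D : Kp lam → Set P =>
    fimp (fand (fall fun i : Ordinal.{0} => fall fun _ : i < lam.ord => FUnb (A i)) (FClub D))
      (fall fun θ : Ordinal.{0} => fall fun _ : θ < lam.ord ∧ IsSuccLimit θ =>
        fex fun α : Kp lam => fand (fground (IsSuccLimit α ∧ typeLT (C α) = θ))
          (fall fun i : Ordinal.{0} => fall fun _ : i < θ => fall fun x : Kp lam =>
            fall fun y : Kp lam => fall fun _ : Nth (C α) i x ∧ Nth (C α) (i + 1) y =>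
              fand (meets (A i y))
                (fex fun β : Kp lam => fand (fground (x < β ∧ β < y)) (meets (D β)))))

theorem down_FUnb {K : Type} [LT K] (A : K → Set P) : Down (FUnb A) :=
  down_fall fun _ => down_fex _

theorem down_FClub {K : Type} [LT K] (D : K → Set P) : Down (FClub D) :=
  down_fand (down_FUnb D) (down_fall fun _ => down_fimp _ _)

theorem meets_of_dense {N : Set P} {p : P} (h : ∀ q ≤ p, ∃ r ≤ q, r ∈ meets N) :
    p ∈ meets N := by
  intro q hq
  obtain ⟨r, hr, hr2⟩ := h q hq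
  obtain ⟨s, hs, t, ht, hst⟩ := hr2 r le_rfl
  exact ⟨s, hs.trans hr, t, ht, hst⟩

end defs

section cc

variable {lam : Cardinal.{0}} {P : Type} [Preorder P]

/-- `lam⁺`-chain condition: there are no antichains of size `lam⁺`. -/
def ChainC (lam : Cardinal.{0}) (P : Type) [Preorder P] : Prop :=
  ∀ (ι : Type) (f : ι → P), lam < #ι → ∃ i j, i ≠ j ∧ ∃ r, r ≤ f i ∧ r ≤ f j

/-- The next element of an unbounded set is bounded in the ground model. -/
theorem exists_next (hω : ℵ₀ ≤ lam) (hcc : ChainC lam P) {D : Kp lam → Set P} {q : P}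
    (hD : q ∈ FUnb D) (x : Kp lam) :
    ∃ b, ∀ r ≤ q, ∃ r' ≤ r, ∃ y, x < y ∧ y < b ∧ r' ∈ meets (D y) := by
  classical
  let W : Set (Kp lam) := {y | ∃ r ≤ q, r ∈ meets (D y) ∧ x < y ∧
    ∀ z < y, x < z → r ∈ fnot (meets (D z))}
  have hW : #W ≤ lam := by
    by_contra hcon
    choose f hf1 hf2 hf3 hf4 using fun y : W => y.2
    obtain ⟨i, j, hij, r, hri, hrj⟩ := hcc W f (not_le.1 hcon)
    have key : ∀ i j : W, i.1 < j.1 → r ≤ f i → r ≤ f j → False := by
      intro i j hlt hri hrj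
      exact hf4 j i.1 hlt (hf3 i) r hrj (down_meets _ _ (hf2 i) _ hri)
    rcases lt_trichotomy i.1 j.1 with h | h | h
    · exact key i j h hri hrj
    · exact hij (Subtype.ext h)
    · exact key j i h hrj hri
  obtain ⟨b, hb⟩ := bdd_of_le hω (fun y : W => y.1) hW
  refine ⟨b, fun r hr => ?_⟩
  obtain ⟨r0, hr0, y0, hy0⟩ := mem_fex.1 (hD x) r hr
  have hne : {y | x < y ∧ ∃ r' ≤ r, r' ∈ meets (D y)}.Nonempty := ⟨y0, hy0.1, r0, hr0, hy0.2⟩
  obtain ⟨y, ⟨hxy, r', hr', hr'y⟩, hmin'⟩ := (wellFounded_lt (α := Kp lam)).has_min _ hne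
  have hmin : ∀ z, x < z → (∃ r' ≤ r, r' ∈ meets (D z)) → y ≤ z := fun z h1 h2 =>
    not_lt.1 (hmin' z ⟨h1, h2⟩)
  have hyW : y ∈ W := by
    refine ⟨r', hr'.trans hr, hr'y, hxy, fun z hz hxz => ?_⟩
    intro s hs hsz
    exact absurd (hmin z hxz ⟨s, hs.trans hr', hsz⟩) (not_le.2 hz)
  exact ⟨r', hr', y, hxy, hb ⟨y, hyW⟩, hr'y⟩

/-- Every club of the extension contains a club of the ground model. -/
theorem exists_club (hω : ℵ₀ ≤ lam) (hcc : ChainC lam P) {D : Kp lam → Set P} {q : P}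
    (hD : q ∈ FClub D) : ∃ E : Set (Kp lam), IsClub E ∧ ∀ δ ∈ E, q ∈ meets (D δ) := by
  have hreg' := reg_succ hω
  have hω' : ℵ₀ < succ lam := lt_succ_of_le hω
  have hne : Nonempty (Kp lam) := Pool.Agent.H348R6.GV.nonempty_toType hreg'
  choose f hf using exists_next hω hcc hD.1
  refine ⟨{a | (∃ b, b < a) ∧ ∀ b < a, f b < a},
    Pool.Agent.Y671.GV.club_closure (Pool.Agent.H348R6.GV.hc_toType hreg' hω')
      (Pool.Agent.H348R6.GV.hreg_toType hreg') f, fun δ hδ => ?_⟩
  have h1 : q ∈ fand (fground (∃ y, y < δ)) (fall fun x : Kp lam => fall fun _ : x < δ =>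
      fex fun y : Kp lam => fand (fground (x < y ∧ y < δ)) (meets (D y))) := by
    refine ⟨hδ.1, fun x hx => mem_fex.2 fun r hr => ?_⟩
    obtain ⟨r', hr', y, h1, h2, h3⟩ := hf x r hr
    exact ⟨r', hr', y, ⟨h1, h2.trans (hδ.2 x hx)⟩, h3⟩
  refine meets_of_dense fun r hr => ?_
  refine mem_fimp.1 (hD.2 δ) r hr (down_fand (down_fground _) (down_fall fun _ =>
    down_fall fun _ => down_fex _) _ h1 _ hr)

end cc

section closed

variable {lam : Cardinal.{0}} {P : Type} [Preorder P] {K : Type} [LinearOrder K] [WellFoundedLT K]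
  (A : Ordinal.{0} → K → Set P) (p : P)

open Classical in
/-- A condition below `q` which puts `w` into `A i`, if there is one. -/
noncomputable def stp (i : Ordinal.{0}) (w : K) (q : P) : P :=
  if h : ∃ r ≤ q, r ∈ meets (A i w) then h.choose else q

theorem stp_le (i : Ordinal.{0}) (w : K) (q : P) : stp A i w q ≤ q := by
  unfold stp
  split_ifs with h
  · exact h.choose_spec.1
  · exact le_rfl

theorem stp_mem {i : Ordinal.{0}} {w : K} {q : P} (h : ∃ r ≤ q, r ∈ meets (A i w)) :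
    stp A i w q ∈ meets (A i w) := by
  unfold stp
  rw [dif_pos h]
  exact h.choose_spec.2

theorem type_inter_lt {S : Set K} {w : K} (hw : w ∈ S) :
    typeLT (S ∩ Iio w : Set K) < typeLT S := pos_lt_type hw

open Classical in
/-- The conditions given by a history. -/
noncomputable def pc : Set K → P :=
  WellFounded.fix (InvImage.wf (fun S : Set K => typeLT S) (wellFounded_lt (α := Ordinal.{0})))
    fun S rec => if h : ∃ r ≤ p, ∀ (w : K) (hw : w ∈ S),
      r ≤ stp A (pos S w) w (rec (S ∩ Iio w) (type_inter_lt hw)) then h.choose else p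

theorem pc_spec {S : Set K} (h : ∃ r ≤ p, ∀ w ∈ S, r ≤ stp A (pos S w) w (pc A p (S ∩ Iio w))) :
    pc A p S ≤ p ∧ ∀ w ∈ S, pc A p S ≤ stp A (pos S w) w (pc A p (S ∩ Iio w)) := by
  have h1 : pc A p S = h.choose := by
    unfold pc
    rw [WellFounded.fix_eq]
    exact dif_pos h
  rw [h1]
  exact ⟨h.choose_spec.1, h.choose_spec.2⟩

theorem pc_good (hP : DirClosed lam P) : ∀ S : Set K, #S < lam →
    pc A p S ≤ p ∧ ∀ w ∈ S, pc A p S ≤ stp A (pos S w) w (pc A p (S ∩ Iio w)) := by
  intro S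
  induction S using (InvImage.wf (fun S : Set K => typeLT S)
    (wellFounded_lt (α := Ordinal.{0}))).induction with
  | _ S ih =>
    intro hS
    apply pc_spec
    have hih : ∀ w ∈ S, pc A p (S ∩ Iio w) ≤ p ∧ ∀ v ∈ S ∩ Iio w, pc A p (S ∩ Iio w) ≤
        stp A (pos S v) v (pc A p (S ∩ Iio v)) := by
      intro w hw
      obtain ⟨h1, h2⟩ := ih (S ∩ Iio w) (type_inter_lt hw)
        ((mk_le_mk_of_subset inter_subset_left).trans_lt hS)
      refine ⟨h1, fun v hv => ?_⟩
      have h3 := h2 v hv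
      have h4 : S ∩ Iio w ∩ Iio v = S ∩ Iio v := by
        rw [inter_assoc]
        congr 1
        exact inter_eq_right.2 (Iio_subset_Iio (le_of_lt hv.2))
      have h5 : pos (S ∩ Iio w) v = pos S v := type_set_congr h4
      rwa [h4, h5] at h3
    rcases S.eq_empty_or_nonempty with hemp | hne
    · exact ⟨p, le_rfl, fun w hw => absurd hw (by rw [hemp]; exact notMem_empty w)⟩
    · obtain ⟨r, hr⟩ := hP (range fun w : S => stp A (pos S w.1) w.1 (pc A p (S ∩ Iio w.1)))
        (mk_range_le.trans_lt hS) (by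
          obtain ⟨w, hw⟩ := hne
          exact ⟨_, ⟨⟨w, hw⟩, rfl⟩⟩) (by
          have key : ∀ v w : S, v.1 ≤ w.1 → stp A (pos S w.1) w.1 (pc A p (S ∩ Iio w.1)) ≤
              stp A (pos S v.1) v.1 (pc A p (S ∩ Iio v.1)) := by
            intro v w hvw
            rcases hvw.eq_or_lt with h | h
            · rw [Subtype.ext h]
            · exact (stp_le A _ _ _).trans ((hih w.1 w.2).2 v.1 ⟨v.2, h⟩)
          rintro _ ⟨v, rfl⟩ _ ⟨w, rfl⟩
          rcases le_total v.1 w.1 with h | h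
          · exact ⟨_, ⟨w, rfl⟩, key v w h, le_rfl⟩
          · exact ⟨_, ⟨v, rfl⟩, le_rfl, key w v h⟩)
      obtain ⟨w, hw⟩ := hne
      refine ⟨r, (hr _ ⟨⟨w, hw⟩, rfl⟩).trans ((stp_le A _ _ _).trans (hih w hw).1),
        fun v hv => hr _ ⟨⟨v, hv⟩, rfl⟩⟩

end closed

/-- The changed sequence is an Ostaszewski square sequence in the extension. -/
theorem forced_guess {lam : Cardinal.{0}} {P : Type} [Preorder P]
    (hreg : lam.IsRegular) (hp : lam ^< lam = lam)
    {ψ : Kp lam → Set (Kp lam)} {cd : Set (Kp lam) → Kp lam → Kp lam → Kp lam}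
    (hψ : ∀ ρ, ∀ Y : Set (Kp lam), Y ⊆ Iio ρ → ∀ η, ∃ γ, η < γ ∧ ψ γ = Y)
    (hcd : ∀ (H : Set (Kp lam)) x w (H' : Set (Kp lam)) x' w', #H ≤ lam → #H' ≤ lam →
      cd H x w = cd H' x' w' → H = H' ∧ x = x' ∧ w = w')
    {C : Kp lam → Set (Kp lam)} (hC : Guesses lam C) (hP : DirClosed lam P) (hcc : ChainC lam P)
    (p : P) : p ∈ FGuesses P lam (Cnew ψ cd C) := by
  classical
  have hω := hreg.aleph0_le
  intro A D
  rw [mem_fimp]
  intro q _ hq
  refine ⟨q, le_rfl, fun θ hθ => mem_fex.2 fun q' hq' => ?_⟩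
  obtain ⟨E, hE, hED⟩ := exists_club hω hcc hq.2
  have hno : ∀ a : Kp lam, ∃ b, a < b := fun a => by
    obtain ⟨b, hb⟩ := bdd_of_le hω (fun _ : PUnit => a) (by simpa using one_lt_aleph0.le.trans hω)
    exact ⟨b, hb ⟨⟩⟩
  -- the function to be guessed
  have hF : ∀ (H : Set (Kp lam)) (x : Kp lam), ∃ w, #H < lam → (∃ d ∈ E, x < d ∧ d < w) ∧
      ∃ r ≤ pc A q' H, r ∈ meets (A (typeLT H) w) := by
    intro H x
    by_cases hH : #H < lam
    · obtain ⟨x1, hx1⟩ := hno x
      obtain ⟨d, hd, hd2⟩ := hE.isCofinal x1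
      have h1 := (pc_good A q' hP H hH).1
      have hty : typeLT H < lam.ord := by
        rw [lt_ord, card_type]
        exact hH
      obtain ⟨r, hr, w, hw⟩ := mem_fex.1 (hq.1 (typeLT H) hty d) _ (h1.trans hq')
      exact ⟨w, fun _ => ⟨⟨d, hd, hx1.trans_le hd2, hw.1⟩, r, hr, hw.2⟩⟩
    · exact ⟨x, fun h => absurd h hH⟩
  choose F hF using hF
  obtain ⟨α, hα, hαt, hαT⟩ := guess_fun hreg hp hψ hcd hC F
    (fun H x hH => by
      obtain ⟨d, -, h1, h2⟩ := (hF H x hH).1
      exact h1.trans h2) hθ.1 hθ.2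
  -- the set of the new successor points
  set c := C α with hc
  have hcard : #c < lam := by
    rw [← card_type (α := c) (· < ·), hαt]
    exact lt_ord.1 hθ.1
  let S : Set (Kp lam) := {v | ∃ z ∈ c, HasPred c z ∧ v = T ψ cd c z}
  have hSc : ∀ H ⊆ S, #H < lam := by
    intro H hH
    have h4 : H ⊆ T ψ cd c '' c := by
      intro v hv
      obtain ⟨z, hz, -, rfl⟩ := hH hv
      exact ⟨z, hz, rfl⟩
    exact ((mk_le_mk_of_subset h4).trans mk_image_le).trans_lt hcard
  have hSH : ∀ y ∈ c, S ∩ Iio (T ψ cd c y) = Hist ψ cd c y := by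
    intro y hy
    ext v
    constructor
    · rintro ⟨⟨z, hz, hzp, rfl⟩, hzy⟩
      refine ⟨z, ?_, hz, hzp, rfl⟩
      by_contra hcon
      rcases (not_lt.1 hcon).eq_or_lt with h | h
      · rw [h] at hzy
        exact lt_irrefl (T ψ cd c z) hzy
      · exact absurd (T_lt ψ cd hy h) (not_lt.2 (le_of_lt hzy))
    · rintro ⟨z, hzy, hz, hzp, rfl⟩
      exact ⟨⟨z, hz, hzp, rfl⟩, T_lt ψ cd hz hzy⟩
  obtain ⟨hr1, hr2⟩ := pc_good A q' hP S (hSc S subset_rfl)
  refine ⟨pc A q' S, hr1, α, ⟨hα, ?_⟩, ?_⟩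
  · exact (type_Cn ψ cd c).trans hαt
  · intro i hi x' y' hxy'
    obtain ⟨y, hy, rfl, hyp⟩ := nth_Cn ψ cd hxy'.2
    obtain ⟨x, hx, rfl, hxp⟩ := nth_Cn ψ cd hxy'.1
    have hgr : IsGreatest (c ∩ Iio y) x := greatest_of_nth (i := i) ⟨hx, hxp⟩ ⟨hy, hyp⟩
    have hTy := hαT x y hy hgr
    have hHl : #(Hist ψ cd c y) < lam := by
      rw [← hSH y hy]
      exact hSc _ inter_subset_left
    obtain ⟨⟨d, hdE, hd1, hd2⟩, hex⟩ := hF (Hist ψ cd c y) x hHl
    have hty : typeLT (Hist ψ cd c y) = i := by rw [type_Hist ψ cd hgr]; exact hxp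
    rw [← hTy] at hd2 hex
    rw [hty] at hex
    have hyS : T ψ cd c y ∈ S := ⟨y, hy, ⟨x, hgr⟩, rfl⟩
    have h5 := hr2 _ hyS
    have h6 : pos S (T ψ cd c y) = i := by
      rw [pos, type_set_congr (hSH y hy)]
      exact hty
    rw [h6, hSH y hy] at h5
    have h7 := stp_mem A hex
    refine ⟨down_meets _ _ h7 _ h5, mem_fex_of_mem d (down_fand (down_fground _) (down_meets _)) ?_⟩
    refine ⟨⟨(T_le ψ cd c x).trans_lt hd1, hd2⟩, ?_⟩
    exact down_meets _ _ (hED d hdE) _ (hr1.trans hq')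

end Q209.OS
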