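import Mathlib
import Pool.Agent.Q209.OSForce
import Pool.Agent.Helper669.KPowA
import Pool.Agent.Helper669.KPow
import Pool.Agent.TH785.WC.Cond

/-!
Adding many subsets of `lam` with conditions of size less than `lam`.
-/

set_option autoImplicit false
set_option linter.unusedSectionVars false

namespace Q209.OS

open Cardinal Set Order Ordinal Pool.Agent.Helper669.Forcing Pool.Agent.Helper669.K
open Pool.Agent.TH785.WC (Fn compat_aux)

/-- Partial functions from `D` to `Bool` of size less than `lam`. -/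
structure Ad (lam : Cardinal.{0}) (D : Type) where
  /-- the graph -/
  g : Set (D × Bool)
  small : #g < lam
  fn : ∀ d b b', (d, b) ∈ g → (d, b') ∈ g → b = b'

variable {lam : Cardinal.{0}} {D : Type}

instance : Preorder (Ad lam D) where
  le p q := q.g ⊆ p.g
  le_refl _ := subset_rfl
  le_trans _ _ _ h h' := h'.trans h

theorem Ad.le_iff {p q : Ad lam D} : p ≤ q ↔ q.g ⊆ p.g := Iff.rfl

theorem nonempty_Ad (hreg : lam.IsRegular) : Nonempty (Ad lam D) :=
  ⟨⟨∅, by simpa using hreg.pos, fun _ _ _ h => absurd h (notMem_empty _)⟩⟩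

theorem dirClosed_Ad (hreg : lam.IsRegular) : DirClosed lam (Ad lam D) := by
  intro E hE hne hdir
  refine ⟨⟨⋃ p : E, p.1.g, ?_, ?_⟩, fun a ha => ?_⟩
  · exact (card_iUnion_lt_iff_forall_of_isRegular hreg hE).2 fun p => p.1.small
  · intro d b b' h h'
    obtain ⟨p, hp⟩ := mem_iUnion.1 h
    obtain ⟨q, hq⟩ := mem_iUnion.1 h'
    obtain ⟨r, -, hrp, hrq⟩ := hdir p.1 p.2 q.1 q.2
    exact r.fn d b b' (hrp hp) (hrq hq)
  · exact subset_iUnion (fun p : E => p.1.g) ⟨a, ha⟩

/-- The number of small subsets of a set of size `lam`. -/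
theorem mk_small_sets (hreg : lam.IsRegular) (hp : lam ^< lam = lam) {α : Type}
    (hα : #α ≤ lam) : #{H : Set α // #H < lam} ≤ lam := by
  classical
  have hω := hreg.aleph0_le
  have h1 : #{H : Set α // #H < lam} ≤ #(Σ d : lam.ord.ToType, (Iio d → α)) := by
    have h2 : ∀ H : {H : Set α // #H < lam},
        ∃ q : (Σ d : lam.ord.ToType, (Iio d → α)), range q.2 = H.1 := by
      rintro ⟨H, hHl⟩
      have h3 : (#H).ord < typeLT lam.ord.ToType := by
        rw [type_toType]
        exact ord_lt_ord.2 hHl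
      set d : lam.ord.ToType := enum (α := lam.ord.ToType) (· < ·) ⟨(#H).ord, h3⟩ with hd
      have h4 : #(Iio d) = #H := by
        have h5 : (typein (α := lam.ord.ToType) (· < ·) d).card = #(Iio d) := card_typein d
        rw [← h5, hd, typein_enum, card_ord]
      obtain ⟨e⟩ := Cardinal.eq.1 h4
      refine ⟨⟨d, fun i => (e i).1⟩, ?_⟩
      ext v
      constructor
      · rintro ⟨i, rfl⟩
        exact (e i).2
      · intro hv
        exact ⟨e.symm ⟨v, hv⟩, by simp⟩
    choose q hq using h2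
    refine ⟨⟨q, fun H H' h => ?_⟩⟩
    apply Subtype.ext
    rw [← hq H, ← hq H', h]
  refine h1.trans ?_
  rw [mk_sigma]
  have h6 : ∀ d : lam.ord.ToType, #(Iio d → α) ≤ lam := by
    intro d
    rw [← Cardinal.power_def]
    refine (Cardinal.power_le_power_right hα).trans ?_
    conv_rhs => rw [← hp]
    refine le_powerlt lam ?_
    exact (mk_le_mk_of_subset Iio_subset_Iic_self).trans_lt
      (Pool.Agent.H348R6.GV.mk_Iic_lt hreg d)
  refine (sum_le_sum _ (fun _ => lam) h6).trans ?_
  rw [sum_const, Cardinal.lift_id, Cardinal.lift_id, Cardinal.mk_toType, card_ord,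
    mul_eq_self hω]

theorem chainC_Ad (hreg : lam.IsRegular) (hp : lam ^< lam = lam) : ChainC lam (Ad lam D) := by
  intro ι f hι
  obtain ⟨i, j, hij, h⟩ := compat_aux hreg.aleph0_le (not_le.2 hι) (fun i => (f i).g)
    (fun i => (f i).small) (fun i => (f i).fn) (fun Q hQ => by
      refine le_trans ?_ (mk_small_sets hreg hp hQ)
      refine ⟨⟨fun s => ⟨{x : Q | x.1 ∈ s.1}, ?_⟩, ?_⟩⟩
      · obtain ⟨i, hi⟩ := s.2.2
        refine lt_of_le_of_lt ?_ (f i).small
        refine ⟨⟨fun x => ⟨x.1.1, hi x.2⟩, fun x y hxy => ?_⟩⟩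
        apply Subtype.ext
        apply Subtype.ext
        exact congrArg (fun z : (f i).g => z.1) hxy
      · intro s s' hss
        apply Subtype.ext
        have h1 := congrArg (fun z : {H : Set Q // #H < lam} => z.1) hss
        simp only at h1
        apply Subset.antisymm
        · intro x hx
          have : (⟨x, s.2.1 hx⟩ : Q) ∈ {x : Q | x.1 ∈ s.1} := hx
          rw [h1] at this
          exact this
        · intro x hx
          have : (⟨x, s'.2.1 hx⟩ : Q) ∈ {x : Q | x.1 ∈ s'.1} := hx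
          rw [← h1] at this
          exact this)
  refine ⟨i, j, hij, ⟨(f i).g ∪ (f j).g, ?_, h⟩, subset_union_left, subset_union_right⟩
  exact (mk_union_le _ _).trans_lt (add_lt_of_lt hreg.aleph0_le (f i).small (f j).small)

/-- The generic subsets of `lam` are different. -/
theorem generic_ne (hreg : lam.IsRegular) {X : Type} (x y : X) (hxy : x ≠ y)
    (p : Ad lam (X × lam.ord.ToType)) :
    p ∈ fnot (SameSet (fun a : lam.ord.ToType => {q : Ad lam (X × lam.ord.ToType) |
      ((x, a), true) ∈ q.g}) (fun a => {q | ((y, a), true) ∈ q.g})) := by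
  classical
  intro q _ hq
  -- a new point
  obtain ⟨a, ha⟩ : ∃ a : lam.ord.ToType, ∀ z b, ((z, a), b) ∉ q.g := by
    by_contra hcon
    push Not at hcon
    choose z b hz using hcon
    have h1 : #(lam.ord.ToType) ≤ #q.g :=
      ⟨⟨fun a => ⟨((z a, a), b a), hz a⟩, fun a a' h => by
        have := congrArg (fun w : q.g => w.1.1.2) h
        exact this⟩⟩
    rw [Cardinal.mk_toType, card_ord] at h1
    exact absurd q.small (not_lt.2 h1)
  let r : Ad lam (X × lam.ord.ToType) := ⟨q.g ∪ {((x, a), true), ((y, a), false)}, by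
    refine (mk_union_le _ _).trans_lt (add_lt_of_lt hreg.aleph0_le q.small ?_)
    exact (Cardinal.lt_aleph0_iff_set_finite.2 ((finite_singleton _).insert _)).trans_le
      hreg.aleph0_le, by
    rintro d b b' (h | h | h) (h' | h' | h')
    · exact q.fn d b b' h h'
    · obtain ⟨rfl, rfl⟩ := Prod.mk.inj h'
      exact absurd h (ha _ _)
    · obtain ⟨rfl, rfl⟩ := Prod.mk.inj h'
      exact absurd h (ha _ _)
    · obtain ⟨rfl, rfl⟩ := Prod.mk.inj h
      exact absurd h' (ha _ _)
    · obtain ⟨rfl, rfl⟩ := Prod.mk.inj h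
      exact (Prod.mk.inj h').2.symm
    · obtain ⟨rfl, rfl⟩ := Prod.mk.inj h
      exact absurd (congrArg Prod.fst (Prod.mk.inj h').1) hxy
    · obtain ⟨rfl, rfl⟩ := Prod.mk.inj h
      exact absurd h' (ha _ _)
    · obtain ⟨rfl, rfl⟩ := Prod.mk.inj h
      exact absurd (congrArg Prod.fst (Prod.mk.inj h').1).symm hxy
    · obtain ⟨rfl, rfl⟩ := Prod.mk.inj h
      exact (Prod.mk.inj h').2.symm⟩
  have hrq : r ≤ q := subset_union_left
  have h1 : r ∈ meets {q : Ad lam (X × lam.ord.ToType) | ((x, a), true) ∈ q.g} :=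
    meets_of_mem (Or.inr (Or.inl rfl))
  obtain ⟨s, hsr, hs⟩ := mem_fimp.1 (hq a).1 r hrq h1
  obtain ⟨t, hts, u, hu, htu⟩ := hs s le_rfl
  have h2 : ((y, a), true) ∈ t.g := htu hu
  have h3 : ((y, a), false) ∈ t.g := hts (hsr (Or.inr (Or.inr rfl)))
  exact Bool.noConfusion (t.fn _ _ _ h2 h3)

/-- A closed forcing notion keeps `lam` regular. -/
theorem staysRegular_closed {P : Type} [Preorder P] (hreg : lam.IsRegular)
    (hP : DirClosed lam P) (p : P) : p ∈ StaysRegular P lam :=
  staysRegular_proj (Q := P) (Q' := P) hreg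
    (fun _ D hN hd hdense q => exists_forall_mem hreg.aleph0_le hP hN D hd hdense q)
    id (fun _ _ h => h) (fun _ q' h => ⟨q', h, le_rfl⟩) (fun q' => ⟨q', le_rfl⟩) p

end Q209.OS
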