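import Mathlib

/-!
Barely independent families over `κ` and eventually splitting sequences of length `κ`.
-/

set_option autoImplicit false

namespace Q209.BI

open Cardinal Set

/-- `A` for `b = false`, and the complement of `A` for `b = true`. -/
def side {X : Type} (A : Set X) (b : Bool) : Set X := if b = true then Aᶜ else A

/-- `I` is a barely independent family of subsets of `X`: it is infinite, its members have the
cardinality of `X`, the finite Boolean combinations of its members have the cardinality of `X` and
the countably infinite ones have smaller cardinality. -/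
def IsBarelyIndependent {X : Type} (I : Set (Set X)) : Prop :=
  I.Infinite ∧ (∀ A ∈ I, #A = #X) ∧
    (∀ C ⊆ I, C.Finite → ∀ h : Set X → Bool, #(⋂ A ∈ C, side A (h A) : Set X) = #X) ∧
    ∀ C ⊆ I, C.Countable → C.Infinite → ∀ h : Set X → Bool,
      #(⋂ A ∈ C, side A (h A) : Set X) < #X

/-- There is a barely independent family over the cardinal `κ`. -/
def ExistsOver (κ : Cardinal.{0}) : Prop :=
  ∃ I : Set (Set κ.ord.ToType), IsBarelyIndependent I

/-- `S` splits `R`: both `R ∩ S` and `R \ S` are infinite. -/
def Splits (S R : Set ℕ) : Prop := (R ∩ S).Infinite ∧ (R \ S).Infinite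

/-- There is a sequence of length `κ` of sets of natural numbers such that every infinite set of
natural numbers is split by all but fewer than `κ` of them. -/
def EventuallySplitting (κ : Cardinal.{0}) : Prop :=
  ∃ s : κ.ord.ToType → Set ℕ, ∀ R : Set ℕ, R.Infinite → #{a | ¬ Splits (s a) R} < κ

/-- The splitting number: the least cardinality of a family of sets of natural numbers such that
every infinite set of natural numbers is split by a member. -/
noncomputable def splittingNumber : Cardinal.{0} :=
  sInf {c | ∃ F : Set (Set ℕ), (∀ R : Set ℕ, R.Infinite → ∃ S ∈ F, Splits S R) ∧ #F = c}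

/-- The reaping number: the least cardinality of a family of infinite sets of natural numbers such
that no set splits all members. -/
noncomputable def reapingNumber : Cardinal.{0} :=
  sInf {c | ∃ F : Set (Set ℕ), (∀ R ∈ F, R.Infinite) ∧ (¬ ∃ S, ∀ R ∈ F, Splits S R) ∧ #F = c}

theorem lt_of_iUnion {X ι : Type} {κ : Cardinal.{0}} (hω : ℵ₀ ≤ κ) (hι : #ι < κ)
    (hκ : #ι < κ.ord.cof)
    (f : ι → Set X) (hf : ∀ i, #(f i) < κ) : #(⋃ i, f i) < κ := by
  refine (mk_iUnion_le f).trans_lt ?_
  refine mul_lt_of_lt hω hι ?_
  exact iSup_lt_of_lt_cof_ord hκ hf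

theorem mem_side {X : Type} {A : Set X} {b : Bool} {x : X} :
    x ∈ side A b ↔ (x ∈ A ↔ b = false) := by
  cases b <;> simp [side]

theorem countable_union_lt {X : Type} {κ : Cardinal.{0}} (hκ : ℵ₀ < κ.ord.cof)
    {ι : Type} [Countable ι]
    (f : ι → Set X) (hf : ∀ i, #(f i) < κ) : #(⋃ i, f i) < κ := by
  have hω : ℵ₀ < κ := hκ.trans_le (Ordinal.cof_ord_le κ)
  exact lt_of_iUnion hω.le ((mk_le_aleph0).trans_lt hω) ((mk_le_aleph0).trans_lt hκ) f hf

theorem iff_eventually {κ : Cardinal.{0}} (hκ : ℵ₀ < κ.ord.cof) :
    ExistsOver κ ↔ EventuallySplitting κ := by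
  classical
  have hω : ℵ₀ < κ := hκ.trans_le (Ordinal.cof_ord_le κ)
  have hX : #κ.ord.ToType = κ := by rw [mk_toType, card_ord]
  constructor
  · rintro ⟨I, hI1, hI2, hI3, hI4⟩
    let A : ℕ ↪ I := hI1.natEmbedding
    refine ⟨fun a => {n | a ∈ (A n : Set _)}, fun R hR => ?_⟩
    -- the elements which decide a cofinite part of `R` in one way
    have hAinj : Function.Injective fun n => (A n : Set κ.ord.ToType) :=
      Subtype.val_injective.comp A.injective
    have key : ∀ (b : Bool) (F : Finset ℕ),
        #{a : κ.ord.ToType | ∀ n ∈ R \ F, (a ∈ (A n : Set _) ↔ b = false)} < κ := by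
      intro b F
      let C : Set (Set κ.ord.ToType) := (fun n => (A n : Set κ.ord.ToType)) '' (R \ F)
      have h1 : C ⊆ I := by
        rintro _ ⟨n, _, rfl⟩
        exact (A n).2
      have h2 : C.Countable := (to_countable _).image _
      have h3 : C.Infinite := (hR.sdiff F.finite_toSet).image hAinj.injOn
      have h4 := hI4 C h1 h2 h3 fun _ => b
      rw [hX] at h4
      refine (mk_le_mk_of_subset ?_).trans_lt h4
      intro a ha
      rw [mem_iInter₂]
      rintro _ ⟨n, hn, rfl⟩
      exact mem_side.2 (ha n hn)
    refine (mk_le_mk_of_subset ?_).trans_lt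
      (countable_union_lt hκ (ι := Bool × Finset ℕ) _ fun p => key p.1 p.2)
    intro a ha
    rw [mem_ofPred_eq, Splits, not_and_or, not_infinite, not_infinite] at ha
    rw [mem_iUnion]
    rcases ha with ha | ha
    · refine ⟨(true, ha.toFinset), ?_⟩
      rw [mem_ofPred_eq]
      intro n hn
      constructor
      · intro h
        refine absurd ?_ hn.2
        rw [Finset.mem_coe, Finite.mem_toFinset]
        exact ⟨hn.1, h⟩
      · intro h
        exact absurd (show true = false from h) (by decide)
    · refine ⟨(false, ha.toFinset), ?_⟩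
      rw [mem_ofPred_eq]
      intro n hn
      refine ⟨fun _ => rfl, fun _ => ?_⟩
      by_contra h
      refine absurd ?_ hn.2
      rw [Finset.mem_coe, Finite.mem_toFinset]
      exact ⟨hn.1, h⟩
  · rintro ⟨s, hs⟩
    have hcard : #κ.ord.ToType = #(κ.ord.ToType × (Finset ℕ × Finset ℕ)) := by
      rw [mk_prod, lift_id, lift_id, hX]
      have : #(Finset ℕ × Finset ℕ) = ℵ₀ := mk_eq_aleph0 _
      rw [this, mul_aleph0_eq hω.le]
    obtain ⟨e⟩ := Cardinal.eq.1 hcard
    let t : κ.ord.ToType → Set ℕ := fun x => (s (e x).1 \ (e x).2.2) ∪ (e x).2.1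
    let A : ℕ → Set κ.ord.ToType := fun n => {x | n ∈ t x}
    have hfin : ∀ (p : ℕ → Bool) (F : Finset ℕ),
        #{x | ∀ n ∈ F, (x ∈ A n ↔ p n = false)} = κ := by
      intro p F
      apply le_antisymm
      · exact (mk_set_le _).trans hX.le
      · refine hX.ge.trans ?_
        refine mk_le_of_injective (f := fun a => ⟨e.symm (a, (F.filter fun n => p n = false,
          F.filter fun n => p n = true)), ?_⟩) ?_
        · rw [mem_ofPred_eq]
          intro n hn
          simp only [A, t, mem_ofPred_eq, Equiv.apply_symm_apply, mem_union, mem_sdiff,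
            Finset.coe_filter]
          cases hp : p n <;> simp [hn]
        · intro a b hab
          have := congrArg Subtype.val hab
          have := e.symm.injective this
          exact (Prod.mk.inj this).1
    have hne : ∀ m n, m ≠ n → A m ≠ A n := by
      intro m n hmn h
      have h1 := hfin (fun k => decide (k = m)) {m, n}
      have h2 : {x | ∀ k ∈ ({m, n} : Finset ℕ), (x ∈ A k ↔ decide (k = m) = false)} = ∅ := by
        rw [eq_empty_iff_forall_notMem]
        intro x hx
        have h3 := hx m (by simp)
        have h4 := hx n (by simp)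
        rw [h] at h3
        simp only [decide_eq_false_iff_not, not_true_eq_false, iff_false] at h3
        exact h3 (h4.2 (by simpa using hmn.symm))
      rw [h2, mk_eq_zero] at h1
      rw [← h1] at hω
      exact absurd hω (by simp)
    have hAinj : Function.Injective A := fun m n h => by
      by_contra hmn
      exact hne m n hmn h
    refine ⟨range A, infinite_range_of_injective hAinj, ?_, ?_, ?_⟩
    · rintro _ ⟨n, rfl⟩
      have h1 := hfin (fun _ => false) {n}
      have h2 : {x | ∀ k ∈ ({n} : Finset ℕ), (x ∈ A k ↔ false = false)} = A n := by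
        ext x
        simp
      rw [h2] at h1
      exact h1.trans hX.symm
    · intro C hC hCf h
      apply le_antisymm
      · exact mk_set_le _
      · obtain ⟨F, hF⟩ : ∃ F : Finset ℕ, C = A '' F := by
          refine ⟨(hCf.preimage hAinj.injOn).toFinset, ?_⟩
          rw [Finite.coe_toFinset, image_preimage_eq_of_subset hC]
        refine (hX.trans (hfin (fun n => h (A n)) F).symm).le.trans ?_
        refine mk_le_mk_of_subset ?_
        intro x hx
        rw [mem_iInter₂, hF]
        rintro _ ⟨n, hn, rfl⟩
        exact mem_side.2 (hx n hn)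
    · intro C hC _ hCi h
      refine lt_of_lt_of_eq ?_ hX.symm
      let B : Set ℕ := A ⁻¹' C
      have hB : B.Infinite := by
        have h1 : A '' B = C := image_preimage_eq_of_subset hC
        rw [← h1] at hCi
        exact hCi.of_image A
      have key : ∀ R : Set ℕ, R.Infinite → #{x | ¬ Splits (s (e x).1) R} < κ := by
        intro R hR
        have h1 := hs R hR
        have h2 : #{x | ¬ Splits (s (e x).1) R} ≤
            #({a | ¬ Splits (s a) R} × (Finset ℕ × Finset ℕ)) := by
          refine mk_le_of_injective (f := fun x => (⟨(e x.1).1, x.2⟩, (e x.1).2)) ?_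
          intro x y hxy
          simp only [Prod.mk.injEq, Subtype.mk.injEq] at hxy
          exact Subtype.ext (e.injective (Prod.ext hxy.1 hxy.2))
        refine h2.trans_lt ?_
        rw [mk_prod, lift_id, lift_id]
        exact mul_lt_of_lt hω.le h1 ((mk_le_aleph0).trans_lt hω)
      by_cases hB0 : {n ∈ B | h (A n) = false}.Infinite
      · refine (mk_le_mk_of_subset ?_).trans_lt (key _ hB0)
        intro x hx hsp
        refine hsp.2 (((e x).2.2.finite_toSet.union (e x).2.1.finite_toSet).subset ?_)
        rintro n ⟨⟨hnB, hn⟩, hns⟩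
        rw [mem_iInter₂] at hx
        have h1 := (mem_side.1 (hx (A n) hnB)).2 hn
        rcases h1 with h1 | h1
        · exact absurd h1.1 hns
        · exact Or.inr h1
      · have hB1 : {n ∈ B | h (A n) = true}.Infinite := by
          intro hfi
          rw [not_infinite] at hB0
          refine hB ((hB0.union hfi).subset ?_)
          intro n hn
          cases hh : h (A n)
          · exact Or.inl ⟨hn, hh⟩
          · exact Or.inr ⟨hn, hh⟩
        refine (mk_le_mk_of_subset ?_).trans_lt (key _ hB1)
        intro x hx hsp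
        refine hsp.1 (((e x).2.2.finite_toSet.union (e x).2.1.finite_toSet).subset ?_)
        rintro n ⟨⟨hnB, hn⟩, hns⟩
        rw [mem_iInter₂] at hx
        have h1 := (mem_side.1 (hx (A n) hnB)).not.2 (by rw [hn]; decide)
        by_contra hcon
        rw [mem_union, not_or] at hcon
        exact h1 (Or.inl ⟨hns, hcon.1⟩)

/-- Consequences for the splitting number and the reaping number. -/
theorem splitting_le {κ : Cardinal.{0}} (h : EventuallySplitting κ) :
    splittingNumber ≤ κ := by
  obtain ⟨s, hs⟩ := h
  have hX : #κ.ord.ToType = κ := by rw [mk_toType, card_ord]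
  have key : ∀ R : Set ℕ, R.Infinite → ∃ S ∈ range s, Splits S R := by
    intro R hR
    by_contra hcon
    push Not at hcon
    have h1 : {a | ¬ Splits (s a) R} = Set.univ := by
      rw [eq_univ_iff_forall]
      intro a
      exact hcon _ (mem_range_self a)
    have h2 := hs R hR
    rw [h1, mk_univ, hX] at h2
    exact lt_irrefl _ h2
  have h0 : splittingNumber ≤ #(range s) := csInf_le' ⟨range s, key, rfl⟩
  exact h0.trans (mk_range_le.trans hX.le)

theorem cof_le_reaping {κ : Cardinal.{0}} (hω : ℵ₀ ≤ κ) (h : EventuallySplitting κ) :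
    κ.ord.cof ≤ reapingNumber := by
  obtain ⟨s, hs⟩ := h
  have hX : #κ.ord.ToType = κ := by rw [mk_toType, card_ord]
  refine le_csInf ?_ ?_
  · refine ⟨#{R : Set ℕ | R.Infinite}, {R | R.Infinite}, fun R hR => hR, ?_, rfl⟩
    rintro ⟨S, hS⟩
    by_cases h1 : S.Infinite
    · have := (hS S h1).2
      rw [sdiff_self] at this
      exact this finite_empty
    · have h2 : Sᶜ.Infinite := (not_infinite.1 h1).infinite_compl
      have := (hS _ h2).1
      rw [compl_inter_self] at this
      exact this finite_empty
  · rintro _ ⟨F, hF1, hF2, rfl⟩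
    by_contra hcon
    push Not at hcon
    have h1 : #(⋃ R : F, {a | ¬ Splits (s a) R}) < κ :=
      lt_of_iUnion hω (hcon.trans_le (Ordinal.cof_ord_le κ)) hcon _ fun R => hs R (hF1 R R.2)
    have h2 : (⋃ R : F, {a | ¬ Splits (s a) R}) ≠ Set.univ := by
      intro h3
      rw [h3, mk_univ, hX] at h1
      exact lt_irrefl _ h1
    rw [ne_univ_iff_exists_notMem] at h2
    obtain ⟨a, ha⟩ := h2
    refine hF2 ⟨s a, fun R hR => ?_⟩
    by_contra hns
    exact ha (mem_iUnion.2 ⟨⟨R, hR⟩, hns⟩)

end Q209.BI
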