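import Mathlib
import Pool.Agent.Results.MP_3edc48_gt.MinSizeNonM

/-!
Fewer than `non(M)` functions, slaloms, or predictors with slaloms as values can be avoided almost
everywhere by a single function.
-/

set_option autoImplicit false

open Set Filter

namespace Q209.NonM

open Pool.Agent.Results.MP_3edc48_gt.MinSizeNonM

/-! ### Sequential choice of a new key from lists of pairs -/

/-- The entry of the list `l` whose key is not in `u`, if there is one. -/
noncomputable def pickE (u : List ℕ) (l : List (ℕ × ℕ)) : Option (ℕ × ℕ) :=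
  l.find? fun p => decide (p.1 ∉ u)

/-- The keys chosen before step `n`. -/
noncomputable def used (L : ℕ → List (ℕ × ℕ)) : ℕ → List ℕ
  | 0 => []
  | n + 1 => match pickE (used L n) (L n) with
    | none => used L n
    | some p => p.1 :: used L n

theorem used_length (L : ℕ → List (ℕ × ℕ)) (n : ℕ) : (used L n).length ≤ n := by
  induction n with
  | zero => simp [used]
  | succ n ih =>
    rw [used]
    split
    · omega
    · simpa using ih

theorem used_mono (L : ℕ → List (ℕ × ℕ)) {m n : ℕ} (h : m ≤ n) {k : ℕ} (hk : k ∈ used L m) :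
    k ∈ used L n := by
  induction n, h using Nat.le_induction with
  | base => exact hk
  | succ n _ ih =>
    rw [used]
    split
    · exact ih
    · exact List.mem_cons_of_mem _ ih

open Classical in
/-- The function defined by the chosen entries. -/
noncomputable def fn (L : ℕ → List (ℕ × ℕ)) (k : ℕ) : ℕ :=
  if h : ∃ v, ∃ n, pickE (used L n) (L n) = some (k, v) then h.choose else 0

theorem fn_eq (L : ℕ → List (ℕ × ℕ)) {n k v : ℕ} (h : pickE (used L n) (L n) = some (k, v)) :
    fn L k = v := by
  classical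
  have hex : ∃ v, ∃ n, pickE (used L n) (L n) = some (k, v) := ⟨v, n, h⟩
  rw [fn, dif_pos hex]
  obtain ⟨m, hm⟩ := hex.choose_spec
  have key : ∀ (a b : ℕ) (x y : ℕ), pickE (used L a) (L a) = some (k, x) →
      pickE (used L b) (L b) = some (k, y) → ¬ a < b := by
    intro a b x y ha hb hab
    have h1 : k ∈ used L (a + 1) := by
      rw [used, ha]
      exact List.mem_cons_self
    have h2 : k ∈ used L b := used_mono L hab h1
    have h3 := List.find?_some hb
    simp only [decide_eq_true_eq] at h3
    exact h3 h2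
  have hmn : m = n := by
    rcases lt_trichotomy m n with hlt | heq | hgt
    · exact absurd hlt (key m n _ _ hm h)
    · exact heq
    · exact absurd hgt (key n m _ _ h hm)
  rw [hmn, h] at hm
  exact (Prod.mk.inj (Option.some.inj hm)).2.symm

theorem mem_used_of_pick (L : ℕ → List (ℕ × ℕ)) {n k v : ℕ}
    (h : pickE (used L n) (L n) = some (k, v)) : k ∈ used L (n + 1) := by
  rw [used, h]
  exact List.mem_cons_self

/-- Unavoidable families of functions are unavoidable on each infinite set, after a
transformation. -/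
theorem frequently_on {S : Type} (f : S → ℕ → List (ℕ × ℕ))
    (hf : ∀ h : ℕ → List (ℕ × ℕ), ∃ s, ∃ᶠ n in atTop, h n = f s n) (g : ℕ → ℕ) (κ : ℕ → ℕ)
    (hκ : StrictMono κ) : ∃ s, ∃ᶠ l in atTop, fn (f s) (κ l) = g (κ l) := by
  obtain ⟨s, hs⟩ := hf fun n => (List.range (n + 1)).map fun i => (κ i, g (κ i))
  refine ⟨s, ?_⟩
  rw [frequently_atTop] at hs ⊢
  intro l0
  -- at each good step, an entry with a key `κ i` is chosen
  have step : ∀ n, ((List.range (n + 1)).map fun i => (κ i, g (κ i))) = f s n →
      ∃ i, pickE (used (f s) n) (f s n) = some (κ i, g (κ i)) := by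
    intro n hn
    rw [← hn, pickE]
    have hne : ((List.range (n + 1)).map fun i => (κ i, g (κ i))).find?
        (fun p => decide (p.1 ∉ used (f s) n)) ≠ none := by
      intro hnone
      rw [List.find?_eq_none] at hnone
      have h1 : (Finset.range (n + 1)).image κ ⊆ (used (f s) n).toFinset := by
        intro k hk
        obtain ⟨i, hi, rfl⟩ := Finset.mem_image.1 hk
        have := hnone (κ i, g (κ i)) (List.mem_map.2 ⟨i, List.mem_range.2
          (Finset.mem_range.1 hi), rfl⟩)
        simp only [decide_eq_true_eq, not_not] at this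
        exact List.mem_toFinset.2 this
      have h2 := Finset.card_le_card h1
      rw [Finset.card_image_of_injective _ hκ.injective, Finset.card_range] at h2
      have h3 := List.toFinset_card_le (used (f s) n)
      have h4 := used_length (f s) n
      omega
    obtain ⟨p, hp⟩ := Option.ne_none_iff_exists'.1 hne
    have hmem := List.mem_of_find?_eq_some hp
    obtain ⟨i, _, rfl⟩ := List.mem_map.1 hmem
    exact ⟨i, hp⟩
  -- infinitely many different keys
  by_contra hcon
  push Not at hcon
  -- keys chosen at good steps are `κ i` with `i < l0`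
  have hgood : ∀ n, ((List.range (n + 1)).map fun i => (κ i, g (κ i))) = f s n →
      ∃ i < l0, pickE (used (f s) n) (f s n) = some (κ i, g (κ i)) := by
    intro n hn
    obtain ⟨i, hi⟩ := step n hn
    refine ⟨i, ?_, hi⟩
    by_contra h
    exact hcon i (not_lt.1 h) (fn_eq _ hi)
  -- pigeonhole
  have hinf : {n | ((List.range (n + 1)).map fun i => (κ i, g (κ i))) = f s n}.Infinite := by
    rw [Set.infinite_iff_exists_gt]
    intro a
    obtain ⟨b, hb, h⟩ := hs (a + 1)
    exact ⟨b, h, by omega⟩
  choose! i hi1 hi2 using hgood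
  have hmaps : MapsTo i {n | ((List.range (n + 1)).map fun i => (κ i, g (κ i))) = f s n}
      (Set.Iio l0) := fun n hn => hi1 n hn
  obtain ⟨a, ha, b, hb, hab, hii⟩ := hinf.exists_ne_map_eq_of_mapsTo hmaps (Set.finite_Iio l0)
  have key : ∀ a b, ((List.range (a + 1)).map fun i => (κ i, g (κ i))) = f s a →
      ((List.range (b + 1)).map fun i => (κ i, g (κ i))) = f s b → i a = i b → ¬ a < b := by
    intro a b ha hb hii hlt
    have h1 := used_mono (f s) hlt (mem_used_of_pick _ (hi2 a ha))
    have h2 := List.find?_some (hi2 b hb)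
    simp only [decide_eq_true_eq] at h2
    rw [hii] at h1
    exact h2 h1
  rcases lt_or_gt_of_ne hab with h | h
  · exact key a b ha hb hii h
  · exact key b a hb ha hii.symm h

/-- Fewer than `non(M)` functions on `ω` can be avoided. -/
theorem avoid_list {S : Type} (hS : Cardinal.mk S < nonM) (f : S → ℕ → List (ℕ × ℕ)) :
    ∃ h : ℕ → List (ℕ × ℕ), ∀ s, ∀ᶠ n in atTop, h n ≠ f s n := by
  classical
  by_contra hcon
  push Not at hcon
  have hf : ∀ h : ℕ → List (ℕ × ℕ), ∃ s, ∃ᶠ n in atTop, h n = f s n := by
    intro h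
    obtain ⟨s, hs⟩ := hcon h
    refine ⟨s, ?_⟩
    rw [Filter.Frequently]
    intro h'
    exact hs h'
  -- the codes form an unbounded family
  have hub : ¬ ∃ F : ℕ → ℕ, ∀ s, ∀ᶠ n in atTop, Encodable.encode (f s n) ≤ F n := by
    rintro ⟨F, hF⟩
    have hex : ∀ n, ∃ l : List (ℕ × ℕ), F n < Encodable.encode l := by
      intro n
      by_contra h
      push Not at h
      have : Finite (List (ℕ × ℕ)) := by
        refine Finite.of_injective (fun l => (⟨Encodable.encode l, Nat.lt_succ_of_le (h l)⟩ :
          Fin (F n + 1))) fun a b hab => ?_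
        exact Encodable.encode_injective (Fin.mk.inj_iff.1 hab)
      exact not_finite (List (ℕ × ℕ))
    choose l hl using hex
    obtain ⟨s, hs⟩ := hf l
    obtain ⟨n, h1, h2⟩ := (hs.and_eventually (hF s)).exists
    rw [← h1] at h2
    exact absurd (hl n) (not_lt.2 h2)
  choose h hm h0 hh using fun s => exists_partition fun n => Encodable.encode (f s n)
  choose K hK1 hK2 using fun (x : S) (j : ℕ) => exists_block (hm x) (h0 x) j
  have hKu : ∀ x k j, h x k ≤ j → j < h x (k + 1) → K x j = k := by
    intro x k j h1 h2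
    have b1 := (hm x).lt_iff_lt.1 (lt_of_le_of_lt (hK1 x j) h2)
    have b2 := (hm x).lt_iff_lt.1 (lt_of_le_of_lt h1 (hK2 x j))
    omega
  let φ : S × S → ℕ → Bool := fun p j => Nat.testBit (fn (f p.2) (K p.1 j)) j
  have hZ : IsMeagre (range φ) := by
    apply meagre_cantor
    refine lt_of_le_of_lt Cardinal.mk_range_le ?_
    rw [Cardinal.mk_prod, Cardinal.lift_id]
    exact Cardinal.mul_lt_of_lt aleph0_le_nonM hS hS
  obtain ⟨i, hi, z, hz⟩ := meagre_capture hZ
  obtain ⟨x, hx⟩ := partition_unbounded (fun s n => Encodable.encode (f s n)) h hm h0 hh hub i hi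
  obtain ⟨κ, hκ, hκ2⟩ := extraction_of_frequently_atTop hx
  choose N hN1 hN2 using hκ2
  choose b hb1 hb2 hb3 using exists_bits z
  obtain ⟨s, hs⟩ := frequently_on f hf (fun k => b (h x (k + 1))) κ hκ
  have h1 := hz (φ (x, s)) (mem_range_self _)
  rw [eventually_atTop] at h1
  obtain ⟨n0, hn0⟩ := h1
  obtain ⟨l, hl, hfn⟩ := (frequently_atTop.1 hs) (i n0)
  have h2 : l ≤ i (N l) := by
    calc l ≤ κ l := hκ.id_le l
      _ ≤ h x (κ l) := (hm x).id_le _
      _ ≤ i (N l) := hN1 l
  have h3 : n0 ≤ N l := hi.le_iff_le.1 (hl.trans h2)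
  obtain ⟨j, hj1, hj2, hj3⟩ := hn0 (N l) h3
  apply hj3
  have hj4 : K x j = κ l := hKu x (κ l) j ((hN1 l).trans hj1) (lt_of_lt_of_le hj2 (hN2 l))
  simp only [φ]
  rw [hj4, hfn]
  exact hb3 _ j (lt_of_lt_of_le hj2 (hN2 l))

/-- Fewer than `non(M)` functions on `ω` can be avoided. -/
theorem avoid {S : Type} (hS : Cardinal.mk S < nonM) {T : Type} [Countable T] (f : S → ℕ → T)
    (hT : Infinite T) :
    ∃ h : ℕ → T, ∀ s, ∀ᶠ n in atTop, h n ≠ f s n := by
  classical
  obtain ⟨e⟩ : Nonempty (T ≃ List (ℕ × ℕ)) := by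
    rw [← Cardinal.eq, Cardinal.mk_eq_aleph0, Cardinal.mk_eq_aleph0]
  obtain ⟨h, hh⟩ := avoid_list hS fun s n => e (f s n)
  refine ⟨fun n => e.symm (h n), fun s => (hh s).mono fun n hn h' => hn ?_⟩
  rw [← h', Equiv.apply_symm_apply]

/-- Fewer than `non(M)` slaloms can be avoided. -/
theorem avoid_slalom {S : Type} (hS : Cardinal.mk S < nonM) (w : ℕ → ℕ)
    (A : S → ℕ → Finset ℕ) (hA : ∀ s n, (A s n).card ≤ w n) :
    ∃ h : ℕ → ℕ, ∀ s, ∀ᶠ n in atTop, h n ∉ A s n := by
  classical
  -- the functions
  let f : S → ℕ → ℕ := fun s m => ((Encodable.decode (α := List ℕ)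
    ((A s m.unpair.1).toList.getD m.unpair.2 0)).getD []).getD m.unpair.2 0
  obtain ⟨h, hh⟩ := avoid hS f inferInstance
  refine ⟨fun n => Encodable.encode ((List.range (w n)).map fun i => h (Nat.pair n i)),
    fun s => ?_⟩
  obtain ⟨m0, hm0⟩ := eventually_atTop.1 (hh s)
  filter_upwards [eventually_ge_atTop m0] with n hn hmem
  have h1 : Encodable.encode ((List.range (w n)).map fun i => h (Nat.pair n i)) ∈
      (A s n).toList := Finset.mem_toList.2 hmem
  obtain ⟨i, hi, hi2⟩ := List.mem_iff_getElem.1 h1
  have hiw : i < w n := lt_of_lt_of_le (by simpa using hi) (hA s n)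
  apply hm0 (Nat.pair n i) (hn.trans (Nat.left_le_pair n i))
  simp only [f, Nat.unpair_pair]
  rw [List.getD_eq_getElem _ _ hi, hi2, Encodable.encodek, Option.getD_some,
    List.getD_eq_getElem _ _ (by simpa using hiw)]
  simp

/-- Fewer than `non(M)` predictors with slaloms as values can be avoided. -/
theorem avoid_predictor {S : Type} (hS : Cardinal.mk S < nonM) (w : ℕ → ℕ)
    (A : S → List ℕ → Finset ℕ) (hA : ∀ s σ, (A s σ).card ≤ w σ.length) :
    ∃ g : ℕ → ℕ, ∀ s, ∀ᶠ n in atTop, g n ∉ A s ((List.range n).map g) := by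
  classical
  let A' : S → ℕ → Finset ℕ := fun s m => match Encodable.decode (α := List ℕ) m with
    | none => ∅
    | some σ => A s σ
  let w' : ℕ → ℕ := fun m => match Encodable.decode (α := List ℕ) m with
    | none => 0
    | some σ => w σ.length
  have hA' : ∀ s m, (A' s m).card ≤ w' m := by
    intro s m
    simp only [A', w']
    cases Encodable.decode (α := List ℕ) m with
    | none => simp
    | some σ => exact hA s σ
  obtain ⟨h, hh⟩ := avoid_slalom hS w' A' hA'
  -- the recursion
  let G : ℕ → List ℕ := fun n => Nat.rec [] (fun _ l => l ++ [h (Encodable.encode l)]) n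
  have hG : ∀ n, G (n + 1) = G n ++ [h (Encodable.encode (G n))] := fun n => rfl
  let g : ℕ → ℕ := fun n => h (Encodable.encode (G n))
  have hGg : ∀ n, G n = (List.range n).map g := by
    intro n
    induction n with
    | zero => rfl
    | succ n ih => rw [hG, List.range_succ, List.map_append, ← ih]; rfl
  refine ⟨g, fun s => ?_⟩
  obtain ⟨m0, hm0⟩ := eventually_atTop.1 (hh s)
  have hinj : Function.Injective fun n => Encodable.encode (G n) := by
    intro a b hab
    have h1 : G a = G b := Encodable.encode_injective hab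
    have h2 := congrArg List.length h1
    rw [hGg, hGg] at h2
    simpa using h2
  have htend : Tendsto (fun n => Encodable.encode (G n)) atTop atTop :=
    hinj.nat_tendsto_atTop
  filter_upwards [htend.eventually_ge_atTop m0] with n hn
  have h1 := hm0 _ hn
  simp only [A', Encodable.encodek] at h1
  rw [← hGg]
  exact h1

end Q209.NonM
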