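import Mathlib
import Pool.Agent.Results.MP_43e680_lc.NonMeagerBound

/-!
Block subspaces of the space of finitely supported sequences.
-/

set_option autoImplicit false

namespace Q209.Blk

open Set Module Submodule

variable {F : Type} [Field F]

/-- `z` is a sequence of nonzero vectors `z 0 < z 1 < ...`: all elements of the support of `z n`
are smaller than all elements of the support of `z (n + 1)`. -/
def IsBlockSeq (z : ℕ → ℕ →₀ F) : Prop :=
  (∀ n, z n ≠ 0) ∧ ∀ n, ∀ i ∈ (z n).support, ∀ j ∈ (z (n + 1)).support, i < j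

/-- `X` is the span of a block sequence. -/
def IsBlock (X : Submodule F (ℕ →₀ F)) : Prop :=
  ∃ z : ℕ → ℕ →₀ F, IsBlockSeq z ∧ X = span F (range z)

theorem IsBlockSeq.lt {z : ℕ → ℕ →₀ F} (hz : IsBlockSeq z) {m n : ℕ} (h : m < n) :
    ∀ i ∈ (z m).support, ∀ j ∈ (z n).support, i < j := by
  induction n, h using Nat.le_induction with
  | base => exact hz.2 m
  | succ n _ ih =>
    intro i hi j hj
    obtain ⟨k, hk⟩ := Finsupp.support_nonempty_iff.2 (hz.1 n)
    exact (ih i hi k hk).trans (hz.2 n k hk j hj)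

theorem IsBlockSeq.le {z : ℕ → ℕ →₀ F} (hz : IsBlockSeq z) (n : ℕ) :
    ∀ i ∈ (z n).support, n ≤ i := by
  induction n with
  | zero => intro i _; exact Nat.zero_le i
  | succ n ih =>
    intro j hj
    obtain ⟨k, hk⟩ := Finsupp.support_nonempty_iff.2 (hz.1 n)
    exact Nat.succ_le_of_lt ((ih k hk).trans_lt (hz.2 n k hk j hj))

/-- Nonzero vectors with pairwise disjoint supports are linearly independent. -/
theorem li_of_disjoint {ι : Type} (v : ι → ℕ →₀ F) (h0 : ∀ i, v i ≠ 0)
    (hd : ∀ i j, i ≠ j → Disjoint (v i).support (v j).support) : LinearIndependent F v := by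
  classical
  rw [linearIndependent_iff']
  intro s c hc i hi
  obtain ⟨p, hp⟩ := Finsupp.support_nonempty_iff.2 (h0 i)
  have h1 := DFunLike.congr_fun hc p
  rw [Finsupp.finsetSum_apply] at h1
  rw [Finset.sum_eq_single i] at h1
  · rw [Finsupp.smul_apply, smul_eq_mul, Finsupp.zero_apply] at h1
    rcases mul_eq_zero.1 h1 with h | h
    · exact h
    · exact absurd h (Finsupp.mem_support_iff.1 hp)
  · intro j _ hji
    have : p ∉ (v j).support := fun h => Finset.disjoint_left.1 (hd i j hji.symm) hp h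
    rw [Finsupp.smul_apply, Finsupp.notMem_support_iff.1 this, smul_zero]
  · intro h
    exact absurd hi h

theorem IsBlockSeq.li {z : ℕ → ℕ →₀ F} (hz : IsBlockSeq z) : LinearIndependent F z := by
  refine li_of_disjoint z hz.1 fun i j hij => ?_
  rw [Finset.disjoint_left]
  intro p hp hp'
  rcases lt_or_gt_of_ne hij with h | h
  · exact lt_irrefl _ (hz.lt h p hp p hp')
  · exact lt_irrefl _ (hz.lt h p hp' p hp)

theorem not_fd_of_li {X : Submodule F (ℕ →₀ F)} {ι : Type} [Infinite ι] (v : ι → ℕ →₀ F)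
    (hv : LinearIndependent F v) (hX : ∀ i, v i ∈ X) : ¬ FiniteDimensional F X := by
  intro h
  have h1 : LinearIndependent F fun i => (⟨v i, hX i⟩ : X) :=
    LinearIndependent.of_comp X.subtype hv
  have := h1.finite
  exact not_finite ι

theorem IsBlock.not_fd {X : Submodule F (ℕ →₀ F)} (hX : IsBlock X) :
    ¬ FiniteDimensional F X := by
  obtain ⟨z, hz, rfl⟩ := hX
  exact not_fd_of_li z hz.li fun n => subset_span (mem_range_self n)

/-- The elements of a finite-dimensional space have bounded supports. -/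
theorem bdd_support (X : Submodule F (ℕ →₀ F)) (hX : FiniteDimensional F X) :
    ∃ M, ∀ x ∈ X, ∀ i ∈ x.support, i < M := by
  classical
  obtain ⟨s, hs⟩ := (Submodule.fg_iff_finiteDimensional X).2 hX
  refine ⟨(s.sup fun x => x.support.sup id) + 1, fun x hx i hi => ?_⟩
  have h1 : X ≤ Finsupp.supported F F (Iio ((s.sup fun x => x.support.sup id) + 1)) := by
    rw [← hs, span_le]
    intro y hy j hj
    refine Nat.lt_succ_of_le ((Finset.le_sup (f := id) hj).trans ?_)
    exact Finset.le_sup (f := fun x : ℕ →₀ F => x.support.sup id) hy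
  exact h1 hx hi

/-- Elements of the span of vectors with supports in `S` have support in `S`. -/
theorem span_support (s : Set (ℕ →₀ F)) (S : Set ℕ) (h : ∀ x ∈ s, ∀ i ∈ x.support, i ∈ S) :
    ∀ x ∈ span F s, ∀ i ∈ x.support, i ∈ S := by
  have h1 : span F s ≤ Finsupp.supported F F S := by
    rw [span_le]
    intro y hy j hj
    exact h y hy j hj
  intro x hx i hi
  exact h1 hx hi

/-- Counting. -/
theorem card_le (Y H : Submodule F (ℕ →₀ F)) (hH : FiniteDimensional F H)
    (K : Finset (ℕ →₀ F)) (hK : LinearIndepOn F id (K : Set (ℕ →₀ F)))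
    (hKY : span F (K : Set (ℕ →₀ F)) ⊓ Y = ⊥) (hKH : ∀ v ∈ K, v ∈ Y ⊔ H) :
    K.card ≤ finrank F H := by
  classical
  let f : span F (K : Set (ℕ →₀ F)) →ₗ[F] ((ℕ →₀ F) ⧸ Y) :=
    Y.mkQ ∘ₗ (span F (K : Set (ℕ →₀ F))).subtype
  have hf : Function.Injective f := by
    rw [injective_iff_map_eq_zero]
    intro x hx
    have h1 : (x : ℕ →₀ F) ∈ Y := by
      simpa only [f, LinearMap.comp_apply, Submodule.subtype_apply, Submodule.mkQ_apply,
        Submodule.Quotient.mk_eq_zero] using hx
    have h2 : (x : ℕ →₀ F) ∈ span F (K : Set (ℕ →₀ F)) ⊓ Y := ⟨x.2, h1⟩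
    rw [hKY, mem_bot] at h2
    exact Subtype.ext h2
  have hr : LinearMap.range f ≤ H.map Y.mkQ := by
    rintro _ ⟨x, rfl⟩
    have h1 : (x : ℕ →₀ F) ∈ Y ⊔ H := by
      have : span F (K : Set (ℕ →₀ F)) ≤ Y ⊔ H := span_le.2 fun v hv => hKH v hv
      exact this x.2
    obtain ⟨y, hy, u, hu, hyu⟩ := mem_sup.1 h1
    refine ⟨u, hu, ?_⟩
    simp only [f, LinearMap.comp_apply, subtype_apply, ← hyu, map_add]
    rw [(show Y.mkQ y = 0 from (Quotient.mk_eq_zero Y (x := y)).2 hy), zero_add]
  have h1 : finrank F (span F (K : Set (ℕ →₀ F))) = K.card := finrank_span_finset_eq_card hK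
  have h2 : finrank F (LinearMap.range f) = finrank F (span F (K : Set (ℕ →₀ F))) :=
    LinearMap.finrank_range_of_inj hf
  rw [← h1, ← h2]
  exact (finrank_mono hr).trans (finrank_map_le _ _)

/-- Avoiding finitely many subspaces. -/
theorem exists_good (T : ℕ → Submodule F (ℕ →₀ F)) (H : Submodule F (ℕ →₀ F)) (n : ℕ)
    (hH : FiniteDimensional F H) (hHn : finrank F H ≤ n) (K : Finset (ℕ →₀ F))
    (hK : LinearIndepOn F id (K : Set (ℕ →₀ F))) (hc : n * (n + 1) < K.card)
    (hKT : ∀ i ≤ n, span F (K : Set (ℕ →₀ F)) ⊓ T i = ⊥) :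
    ∃ v ∈ K, ∀ i ≤ n, v ∉ T i ⊔ H := by
  classical
  by_contra hcon
  push Not at hcon
  have h1 : K ⊆ (Finset.range (n + 1)).biUnion fun i => K.filter fun v => v ∈ T i ⊔ H := by
    intro v hv
    obtain ⟨i, hi, hvi⟩ := hcon v hv
    exact Finset.mem_biUnion.2 ⟨i, Finset.mem_range.2 (Nat.lt_succ_of_le hi),
      Finset.mem_filter.2 ⟨hv, hvi⟩⟩
  have h2 : ∀ i ∈ Finset.range (n + 1), (K.filter fun v => v ∈ T i ⊔ H).card ≤ n := by
    intro i hi
    have hi' : i ≤ n := Nat.lt_succ_iff.1 (Finset.mem_range.1 hi)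
    refine (card_le (T i) H hH _ ?_ ?_ ?_).trans hHn
    · exact hK.mono (by intro v hv; exact Finset.mem_coe.2 (Finset.mem_filter.1 hv).1)
    · rw [eq_bot_iff, ← hKT i hi']
      refine inf_le_inf_right _ (span_mono ?_)
      intro v hv
      exact Finset.mem_coe.2 (Finset.mem_filter.1 hv).1
    · intro v hv
      exact (Finset.mem_filter.1 hv).2
  have h3 := (Finset.card_le_card h1).trans (Finset.card_biUnion_le_card_mul _ _ n h2)
  rw [Finset.card_range] at h3
  have : (n + 1) * n = n * (n + 1) := Nat.mul_comm _ _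
  omega

/-- The space of the vectors with support in `[M, ∞)`. -/
def tail (F : Type) [Field F] (M : ℕ) : Submodule F (ℕ →₀ F) := Finsupp.supported F F (Ici M)

theorem exists_tail (X : Submodule F (ℕ →₀ F)) (hX : ¬ FiniteDimensional F X) (M : ℕ) :
    ∃ x ∈ X, x ≠ 0 ∧ ∀ i ∈ x.support, M ≤ i := by
  by_contra hcon
  push Not at hcon
  apply hX
  -- restriction to the first coordinates is injective
  let f : X →ₗ[F] (Fin M → F) :=
    LinearMap.pi fun i => (Finsupp.lapply (i : ℕ)) ∘ₗ X.subtype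
  have hf : Function.Injective f := by
    rw [injective_iff_map_eq_zero]
    intro x hx
    by_contra hne
    have hne' : (x : ℕ →₀ F) ≠ 0 := fun h => hne (Subtype.ext h)
    obtain ⟨i, hi, hiM⟩ := hcon x x.2 hne'
    have h1 := congrFun hx ⟨i, hiM⟩
    simp only [f, LinearMap.pi_apply, LinearMap.comp_apply, subtype_apply, Finsupp.lapply_apply,
      Pi.zero_apply] at h1
    exact (Finsupp.mem_support_iff.1 hi) h1
  exact FiniteDimensional.of_injective f hf

/-- Every infinite-dimensional subspace contains a block subspace. -/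
theorem exists_block_le (X : Submodule F (ℕ →₀ F)) (hX : ¬ FiniteDimensional F X) :
    ∃ Y ≤ X, IsBlock Y := by
  classical
  choose x hx1 hx2 hx3 using exists_tail X hX
  let z : ℕ → ℕ →₀ F := fun n => Nat.rec (x 0) (fun _ y => x (y.support.sup id + 1)) n
  have hz : ∀ n, z (n + 1) = x ((z n).support.sup id + 1) := fun n => rfl
  have hzx : ∀ n, ∃ m, z n = x m := by
    intro n
    cases n with
    | zero => exact ⟨0, rfl⟩
    | succ n => exact ⟨_, hz n⟩
  refine ⟨span F (range z), ?_, z, ⟨?_, ?_⟩, rfl⟩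
  · rw [span_le]
    rintro _ ⟨n, rfl⟩
    obtain ⟨m, hm⟩ := hzx n
    rw [hm]
    exact hx1 m
  · intro n
    obtain ⟨m, hm⟩ := hzx n
    rw [hm]
    exact hx2 m
  · intro n i hi j hj
    rw [hz] at hj
    have h1 := hx3 _ j hj
    have h2 : i ≤ (z n).support.sup id := Finset.le_sup (f := id) hi
    omega

/-- Infinitely many nonzero vectors with supports in different intervals of a partition span a
block subspace. -/
theorem isBlock_of_intervals (h : ℕ → ℕ) (hh : StrictMono h) (K : Set ℕ) (hK : K.Infinite)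
    (v : ℕ → ℕ →₀ F) (h0 : ∀ k ∈ K, v k ≠ 0)
    (hv : ∀ k ∈ K, ∀ i ∈ (v k).support, h k ≤ i ∧ i < h (k + 1)) :
    IsBlock (span F (v '' K)) := by
  let p : ℕ → Prop := fun k => k ∈ K
  have hK' : {k | p k}.Infinite := hK
  have hmem : ∀ n, Nat.nth p n ∈ K := fun n => Nat.nth_mem_of_infinite hK' n
  have hlt : ∀ n, Nat.nth p n < Nat.nth p (n + 1) := fun n =>
    Nat.nth_strictMono hK' (Nat.lt_succ_self n)
  have hran : ∀ k ∈ K, ∃ n, Nat.nth p n = k := by
    intro k hk
    have h1 : k ∈ range (Nat.nth p) := by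
      rw [Nat.range_nth_of_infinite hK']
      exact hk
    exact h1
  refine ⟨fun n => v (Nat.nth p n), ⟨fun n => h0 _ (hmem n), ?_⟩, ?_⟩
  · intro n i hi j hj
    have h1 := (hv _ (hmem n) i hi).2
    have h2 := (hv _ (hmem (n + 1)) j hj).1
    have h4 : h (Nat.nth p n + 1) ≤ h (Nat.nth p (n + 1)) := hh.monotone (hlt n)
    omega
  · congr 1
    ext x
    constructor
    · rintro ⟨k, hk, rfl⟩
      obtain ⟨n, hn⟩ := hran k hk
      exact ⟨n, congrArg v hn⟩
    · rintro ⟨n, rfl⟩
      exact ⟨_, hmem n, rfl⟩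

end Q209.Blk
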