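import Mathlib
import Pool.Agent.Q209.Blk

/-!
Construction of a block subspace which is almost disjoint from countably many given subspaces and
which contains vectors suggested by a sequence of guesses.
-/

set_option autoImplicit false

namespace Q209.Blk

open Set Module Submodule

variable {F : Type} [Field F]

/-- The span of the vectors in a list of pairs. -/
noncomputable def H (S : List (ℕ × (ℕ →₀ F))) : Submodule F (ℕ →₀ F) := span F {v | ∃ p ∈ S, p.2 = v}

/-- The pair `p` can be added at step `n`. -/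
def Acc (h : ℕ → ℕ) (T : ℕ → Submodule F (ℕ →₀ F)) (n : ℕ) (S : List (ℕ × (ℕ →₀ F)))
    (c : List (ℕ × List (ℕ →₀ F))) (p : ℕ × (ℕ →₀ F)) : Prop :=
  (∀ q ∈ S, q.1 ≠ p.1) ∧ (∃ q ∈ c, q.1 = p.1 ∧ p.2 ∈ q.2) ∧
    (∀ i ∈ p.2.support, h p.1 ≤ i ∧ i < h (p.1 + 1)) ∧ ∀ i ≤ n, p.2 ∉ T i ⊔ H S

open Classical in
/-- The pairs chosen before step `n`. -/
noncomputable def St (h : ℕ → ℕ) (T : ℕ → Submodule F (ℕ →₀ F))
    (G : ℕ → List (ℕ × List (ℕ →₀ F))) : ℕ → List (ℕ × (ℕ →₀ F))
  | 0 => []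
  | n + 1 => if hp : ∃ p, Acc h T n (St h T G n) (G n) p then hp.choose :: St h T G n
      else St h T G n

variable (h : ℕ → ℕ) (T : ℕ → Submodule F (ℕ →₀ F)) (G : ℕ → List (ℕ × List (ℕ →₀ F)))

theorem St_cases (n : ℕ) : (∃ p, Acc h T n (St h T G n) (G n) p ∧
    St h T G (n + 1) = p :: St h T G n) ∨
    ((¬ ∃ p, Acc h T n (St h T G n) (G n) p) ∧ St h T G (n + 1) = St h T G n) := by
  by_cases hp : ∃ p, Acc h T n (St h T G n) (G n) p
  · exact Or.inl ⟨hp.choose, hp.choose_spec, by rw [St, dif_pos hp]⟩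
  · exact Or.inr ⟨hp, by rw [St, dif_neg hp]⟩

theorem St_mono {m n : ℕ} (hmn : m ≤ n) {p : ℕ × (ℕ →₀ F)} (hp : p ∈ St h T G m) :
    p ∈ St h T G n := by
  induction n, hmn using Nat.le_induction with
  | base => exact hp
  | succ n _ ih =>
    rcases St_cases h T G n with ⟨q, _, hq⟩ | ⟨_, hq⟩
    · rw [hq]
      exact List.mem_cons_of_mem _ ih
    · rw [hq]
      exact ih

theorem St_length (n : ℕ) : (St h T G n).length ≤ n := by
  induction n with
  | zero => simp [St]
  | succ n ih =>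
    rcases St_cases h T G n with ⟨q, _, hq⟩ | ⟨_, hq⟩
    · rw [hq]
      simpa using ih
    · rw [hq]
      omega

theorem St_support (n : ℕ) : ∀ p ∈ St h T G n,
    p.2 ≠ 0 ∧ ∀ i ∈ p.2.support, h p.1 ≤ i ∧ i < h (p.1 + 1) := by
  induction n with
  | zero => simp [St]
  | succ n ih =>
    rcases St_cases h T G n with ⟨q, hq1, hq⟩ | ⟨_, hq⟩
    · rw [hq]
      intro p hp
      rcases List.mem_cons.1 hp with rfl | hp
      · refine ⟨fun h0 => hq1.2.2.2 0 (Nat.zero_le _) (by rw [h0]; exact zero_mem _), hq1.2.2.1⟩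
      · exact ih p hp
    · rw [hq]
      exact ih

theorem St_inj (n : ℕ) : ∀ p ∈ St h T G n, ∀ q ∈ St h T G n, p.1 = q.1 → p = q := by
  induction n with
  | zero => simp [St]
  | succ n ih =>
    rcases St_cases h T G n with ⟨r, hr1, hr⟩ | ⟨_, hr⟩
    · rw [hr]
      intro p hp q hq hpq
      rcases List.mem_cons.1 hp with hp | hp <;> rcases List.mem_cons.1 hq with hq | hq
      · rw [hp, hq]
      · rw [hp] at hpq
        exact absurd hpq.symm (hr1.1 q hq)
      · rw [hq] at hpq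
        exact absurd hpq (hr1.1 p hp)
      · exact ih p hp q hq hpq
    · rw [hr]
      exact ih

theorem H_mono {m n : ℕ} (hmn : m ≤ n) : H (St h T G m) ≤ H (St h T G n) := by
  refine span_mono ?_
  rintro v ⟨p, hp, rfl⟩
  exact ⟨p, St_mono h T G hmn hp, rfl⟩

theorem H_fd (S : List (ℕ × (ℕ →₀ F))) : FiniteDimensional F (H S) := by
  classical
  have : {v | ∃ p ∈ S, p.2 = v} = ((S.map Prod.snd).toFinset : Set (ℕ →₀ F)) := by
    ext v
    simp
  rw [H, this]
  infer_instance

theorem H_rank (S : List (ℕ × (ℕ →₀ F))) : finrank F (H S) ≤ S.length := by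
  classical
  have : {v | ∃ p ∈ S, p.2 = v} = ((S.map Prod.snd).toFinset : Set (ℕ →₀ F)) := by
    ext v
    simp
  rw [H, this]
  refine (finrank_span_finset_le_card _).trans ?_
  refine (List.toFinset_card_le _).trans ?_
  rw [List.length_map]

/-- The space which is constructed. -/
noncomputable def Lim : Submodule F (ℕ →₀ F) := ⨆ n, H (St h T G n)

theorem mem_Lim {x : ℕ →₀ F} : x ∈ Lim h T G ↔ ∃ n, x ∈ H (St h T G n) := by
  rw [Lim, mem_iSup_of_directed]
  exact Monotone.directed_le fun m n hmn => H_mono h T G hmn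

theorem inf_le_H (i n : ℕ) (hn : i ≤ n) : H (St h T G n) ⊓ T i ≤ H (St h T G i) := by
  induction n, hn using Nat.le_induction with
  | base => exact inf_le_left
  | succ n hn ih =>
    rcases St_cases h T G n with ⟨p, hp1, hp⟩ | ⟨_, hp⟩
    · rw [hp]
      rintro x ⟨hx, hxT⟩
      have h1 : H (p :: St h T G n) = span F (insert p.2 {v | ∃ q ∈ St h T G n, q.2 = v}) := by
        rw [H]
        congr 1
        ext v
        simp only [List.mem_cons, exists_eq_or_imp, mem_ofPred_eq, mem_insert_iff]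
        rw [eq_comm (a := p.2)]
      rw [SetLike.mem_coe, h1, mem_span_insert] at hx
      obtain ⟨a, z, hz, rfl⟩ := hx
      by_cases ha : a = 0
      · rw [ha, zero_smul, zero_add] at hxT ⊢
        exact ih ⟨hz, hxT⟩
      · exfalso
        apply hp1.2.2.2 i hn
        have h2 : p.2 = a⁻¹ • (a • p.2 + z) + (-a⁻¹) • z := by
          rw [smul_add, smul_smul, inv_mul_cancel₀ ha, one_smul, neg_smul]
          abel
        rw [h2]
        exact add_mem_sup ((T i).smul_mem _ hxT) (Submodule.smul_mem _ _ hz)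
    · rw [hp]
      exact ih

theorem Lim_ad (i : ℕ) : FiniteDimensional F (Lim h T G ⊓ T i : Submodule F (ℕ →₀ F)) := by
  have h1 : Lim h T G ⊓ T i ≤ H (St h T G i) := by
    rintro x ⟨hx, hxT⟩
    obtain ⟨n, hn⟩ := (mem_Lim h T G).1 hx
    rcases le_total i n with hin | hin
    · exact inf_le_H h T G i n hin ⟨hn, hxT⟩
    · exact H_mono h T G hin hn
  have := H_fd (St h T G i)
  exact Submodule.finiteDimensional_of_le h1

/-- The set of all keys. -/
def Keys : Set ℕ := {k | ∃ n, ∃ p ∈ St h T G n, p.1 = k}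

theorem Lim_block (hh : StrictMono h) (hK : (Keys h T G).Infinite) : IsBlock (Lim h T G) := by
  classical
  have hex : ∀ k, ∃ v : ℕ →₀ F, k ∈ Keys h T G → ∃ n, (k, v) ∈ St h T G n := by
    intro k
    by_cases hk : k ∈ Keys h T G
    · obtain ⟨n, p, hp, rfl⟩ := hk
      exact ⟨p.2, fun _ => ⟨n, hp⟩⟩
    · exact ⟨0, fun h' => absurd h' hk⟩
  choose v hv using hex
  have huniq : ∀ n, ∀ p ∈ St h T G n, p.2 = v p.1 := by
    intro n p hp
    obtain ⟨m, hm⟩ := hv p.1 ⟨n, p, hp, rfl⟩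
    have h1 := St_inj h T G (max n m) p (St_mono h T G (le_max_left _ _) hp) (p.1, v p.1)
      (St_mono h T G (le_max_right _ _) hm) rfl
    exact congrArg Prod.snd h1
  have h1 : Lim h T G = span F (v '' Keys h T G) := by
    apply le_antisymm
    · refine iSup_le fun n => span_le.2 ?_
      rintro _ ⟨p, hp, rfl⟩
      exact subset_span ⟨p.1, ⟨n, p, hp, rfl⟩, (huniq n p hp).symm⟩
    · rw [span_le]
      rintro _ ⟨k, hk, rfl⟩
      obtain ⟨n, hn⟩ := hv k hk
      exact (mem_Lim h T G).2 ⟨n, subset_span ⟨_, hn, rfl⟩⟩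
  rw [h1]
  refine isBlock_of_intervals h hh _ hK v (fun k hk => ?_) fun k hk => ?_
  · obtain ⟨n, hn⟩ := hv k hk
    exact (St_support h T G n _ hn).1
  · obtain ⟨n, hn⟩ := hv k hk
    exact (St_support h T G n _ hn).2

/-- A correct guess: `c` is a list of `n + 1` intervals, each with many vectors in the set `ζ` with
supports in this interval, whose span has trivial intersection with the sets `τ i`, `i ≤ n`. -/
def Good (τ : ℕ → (ℕ →₀ F) → Prop) (ζ : (ℕ →₀ F) → Prop) (n : ℕ)
    (c : List (ℕ × List (ℕ →₀ F))) : Prop :=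
  ((c.map Prod.fst).Nodup ∧ c.length = n + 1 ∧ ∀ q ∈ c, q.2.Nodup ∧
    q.2.length = n * (n + 1) + 1 ∧ LinearIndepOn F id {v | v ∈ q.2} ∧
    ∀ v ∈ q.2, ∀ i ∈ v.support, h q.1 ≤ i ∧ i < h (q.1 + 1)) ∧
  (∀ q ∈ c, ∀ v ∈ q.2, ζ v) ∧ ∀ q ∈ c, ∀ i ≤ n, ∀ x ∈ span F {v | v ∈ q.2}, τ i x → x = 0

variable {h T G}

theorem exists_acc {ζ : (ℕ →₀ F) → Prop} {n : ℕ}
    (hg : Good h (fun i x => x ∈ T i) ζ n (G n)) : ∃ p, Acc h T n (St h T G n) (G n) p := by
  classical
  obtain ⟨⟨hnd, hlen, hq⟩, hζ, hτ⟩ := hg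
  -- a new key
  have h1 : ∃ q ∈ G n, ∀ r ∈ St h T G n, r.1 ≠ q.1 := by
    by_contra hcon
    push Not at hcon
    have h2 : ((G n).map Prod.fst).toFinset ⊆ ((St h T G n).map Prod.fst).toFinset := by
      intro k hk
      rw [List.mem_toFinset, List.mem_map] at hk
      obtain ⟨q, hq1, rfl⟩ := hk
      obtain ⟨r, hr1, hr2⟩ := hcon q hq1
      rw [List.mem_toFinset, List.mem_map]
      exact ⟨r, hr1, hr2⟩
    have h3 := Finset.card_le_card h2
    rw [List.toFinset_card_of_nodup hnd, List.length_map, hlen] at h3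
    have h4 := List.toFinset_card_le ((St h T G n).map Prod.fst)
    rw [List.length_map] at h4
    have h5 := St_length h T G n
    omega
  obtain ⟨q, hqG, hqnew⟩ := h1
  obtain ⟨hq1, hq2, hq3, hq4⟩ := hq q hqG
  have hset : ((q.2.toFinset : Finset (ℕ →₀ F)) : Set (ℕ →₀ F)) = {v | v ∈ q.2} := by
    ext v
    simp
  obtain ⟨v, hv, hv2⟩ := exists_good T (H (St h T G n)) n (H_fd _)
    ((H_rank _).trans (St_length h T G n)) q.2.toFinset (by rw [hset]; exact hq3)
    (by rw [List.toFinset_card_of_nodup hq1, hq2]; exact Nat.lt_succ_self _) (by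
      intro i hi
      rw [hset, eq_bot_iff]
      rintro x ⟨hx, hxT⟩
      exact (mem_bot F).2 (hτ q hqG i hi x hx hxT))
  exact ⟨(q.1, v), hqnew, ⟨q, hqG, rfl, List.mem_toFinset.1 hv⟩,
    hq4 v (List.mem_toFinset.1 hv), hv2⟩

theorem step_good {ζ : (ℕ →₀ F) → Prop} {n : ℕ}
    (hg : Good h (fun i x => x ∈ T i) ζ n (G n)) :
    ∃ p, St h T G (n + 1) = p :: St h T G n ∧ (∀ q ∈ St h T G n, q.1 ≠ p.1) ∧ ζ p.2 := by
  rcases St_cases h T G n with ⟨p, hp1, hp⟩ | ⟨hp1, _⟩
  · refine ⟨p, hp, hp1.1, ?_⟩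
    obtain ⟨q, hq, _, hq3⟩ := hp1.2.1
    exact hg.2.1 q hq _ hq3
  · exact absurd (exists_acc hg) hp1

/-- If infinitely many guesses are correct, then the intersection with the guessed space is
infinite-dimensional. -/
theorem Lim_meets (hh : StrictMono h) {Z : Submodule F (ℕ →₀ F)}
    (hg : {n | Good h (fun i x => x ∈ T i) (fun x => x ∈ Z) n (G n)}.Infinite) :
    (Keys h T G).Infinite ∧
      ¬ FiniteDimensional F (Lim h T G ⊓ Z : Submodule F (ℕ →₀ F)) := by
  classical
  let N := {n | Good h (fun i x => x ∈ T i) (fun x => x ∈ Z) n (G n)}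
  have hN : Infinite N := hg.to_subtype
  have hstep : ∀ n : N, ∃ p, St h T G (n + 1) = p :: St h T G n ∧
      (∀ q ∈ St h T G n, q.1 ≠ p.1) ∧ p.2 ∈ Z := fun n => step_good n.2
  choose p hp1 hp2 hp3 using hstep
  have hmem : ∀ n : N, p n ∈ St h T G (n + 1) := fun n => by
    rw [hp1]
    exact List.mem_cons_self
  have hne : ∀ m n : N, (m : ℕ) < n → (p m).1 ≠ (p n).1 := fun m n hmn =>
    hp2 n _ (St_mono h T G hmn (hmem m))
  have hinj : Function.Injective fun n : N => (p n).1 := by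
    intro m n hmn
    rcases lt_trichotomy (m : ℕ) n with hlt | heq | hgt
    · exact absurd hmn (hne m n hlt)
    · exact Subtype.ext heq
    · exact absurd hmn.symm (hne n m hgt)
  refine ⟨?_, ?_⟩
  · refine (Set.infinite_range_of_injective hinj).mono ?_
    rintro _ ⟨n, rfl⟩
    exact ⟨n + 1, p n, hmem n, rfl⟩
  · refine not_fd_of_li (fun n : N => (p n).2) ?_ fun n =>
      ⟨(mem_Lim h T G).2 ⟨n + 1, subset_span ⟨p n, hmem n, rfl⟩⟩, hp3 n⟩
    refine li_of_disjoint _ (fun n => (St_support h T G _ _ (hmem n)).1) fun m n hmn => ?_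
    rw [Finset.disjoint_left]
    intro i hi hi'
    have h1 := (St_support h T G _ _ (hmem m)).2 i hi
    have h2 := (St_support h T G _ _ (hmem n)).2 i hi'
    have h3 : (p m).1 ≠ (p n).1 := fun h' => hmn (hinj h')
    rcases lt_or_gt_of_ne h3 with hlt | hgt
    · have := hh.monotone (Nat.succ_le_of_lt hlt)
      simp only [Nat.succ_eq_add_one] at this
      omega
    · have := hh.monotone (Nat.succ_le_of_lt hgt)
      simp only [Nat.succ_eq_add_one] at this
      omega

/-- The existence of correct guesses. -/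
theorem exists_good_code (hh : StrictMono h) {z : ℕ → ℕ →₀ F} (hz : IsBlockSeq z)
    (i : ℕ → ℕ) (hi : ∀ n, ∀ j < (i n + 1) * (i n + 2) + 1, ∀ a ∈ (z (i n + j)).support,
      i n ≤ a ∧ a < i (n + 1))
    (hhi : ∃ᶠ k in Filter.atTop, ∃ n, h k ≤ i n ∧ i (n + 1) ≤ h (k + 1))
    (hT : ∀ j, FiniteDimensional F (span F (range z) ⊓ T j : Submodule F (ℕ →₀ F))) (n : ℕ) :
    ∃ c, Good h (fun i x => x ∈ T i) (fun x => x ∈ span F (range z)) n c := by
  classical
  -- a bound for the supports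
  choose M hM using fun j => bdd_support _ (hT j)
  let B := (Finset.range (n + 1)).sup M + n
  -- infinitely many good intervals
  have hinf : {k | B ≤ k ∧ ∃ m, h k ≤ i m ∧ i (m + 1) ≤ h (k + 1)}.Infinite := by
    rw [Set.infinite_iff_exists_gt]
    intro a
    obtain ⟨k, hk, m, hm⟩ := (Filter.frequently_atTop.1 hhi) (max B (a + 1))
    exact ⟨k, ⟨(le_max_left _ _).trans hk, m, hm⟩, by have := (le_max_right _ _).trans hk; omega⟩
  obtain ⟨s, hs, hsc⟩ := hinf.exists_subset_card_eq (n + 1)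
  have hs' : ∀ k ∈ s, B ≤ k ∧ ∃ m, h k ≤ i m ∧ i (m + 1) ≤ h (k + 1) := fun k hk => hs hk
  have hex : ∀ k, ∃ m, k ∈ s → h k ≤ i m ∧ i (m + 1) ≤ h (k + 1) := by
    intro k
    by_cases hk : k ∈ s
    · obtain ⟨_, m, hm⟩ := hs' k hk
      exact ⟨m, fun _ => hm⟩
    · exact ⟨0, fun h' => absurd h' hk⟩
  choose m hm using hex
  let l : ℕ → List (ℕ →₀ F) := fun k =>
    (List.range (n * (n + 1) + 1)).map fun j => z (i (m k) + j)
  have hinj : Function.Injective z := hz.li.injective
  have hsup : ∀ k ∈ s, ∀ v ∈ l k, ∀ a ∈ v.support, h k ≤ a ∧ a < h (k + 1) := by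
    intro k hk v hv a ha
    obtain ⟨j, hj, rfl⟩ := List.mem_map.1 hv
    have hj' := List.mem_range.1 hj
    obtain ⟨h1, h2⟩ := hm k hk
    have h3 : n ≤ i (m k) := by
      have := (hs' k hk).1
      have h4 := hh.id_le k
      simp only [id] at h4
      omega
    have h5 : j < (i (m k) + 1) * (i (m k) + 2) + 1 := by
      have : n * (n + 1) ≤ (i (m k) + 1) * (i (m k) + 2) := Nat.mul_le_mul (by omega) (by omega)
      omega
    obtain ⟨h6, h7⟩ := hi (m k) j h5 a ha
    exact ⟨h1.trans h6, h7.trans_le h2⟩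
  refine ⟨s.toList.map fun k => (k, l k), ⟨?_, ?_, ?_⟩, ?_, ?_⟩
  · rw [List.map_map]
    have : (Prod.fst ∘ fun k => (k, l k)) = id := rfl
    rw [this, List.map_id]
    exact s.nodup_toList
  · rw [List.length_map, Finset.length_toList, hsc]
  · intro q hq
    obtain ⟨k, hk, rfl⟩ := List.mem_map.1 hq
    rw [Finset.mem_toList] at hk
    refine ⟨?_, ?_, ?_, hsup k hk⟩
    · refine (List.nodup_range).map ?_
      intro a b hab
      have := hinj hab
      omega
    · simp [l]
    · have h1 : LinearIndepOn F id (range z) := hz.li.linearIndepOn_id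
      refine h1.mono ?_
      intro v hv
      obtain ⟨j, _, rfl⟩ := List.mem_map.1 hv
      exact mem_range_self _
  · intro q hq v hv
    obtain ⟨k, hk, rfl⟩ := List.mem_map.1 hq
    obtain ⟨j, _, rfl⟩ := List.mem_map.1 hv
    exact subset_span (mem_range_self _)
  · intro q hq j hj x hx hxT
    obtain ⟨k, hk, rfl⟩ := List.mem_map.1 hq
    rw [Finset.mem_toList] at hk
    by_contra hne
    obtain ⟨a, ha⟩ := Finsupp.support_nonempty_iff.2 hne
    have hxZ : x ∈ span F (range z) := by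
      refine span_le.2 ?_ hx
      intro v hv
      obtain ⟨j, _, rfl⟩ := List.mem_map.1 hv
      exact subset_span (mem_range_self _)
    have h1 : a < M j := hM j x ⟨hxZ, hxT⟩ a ha
    have h2 : a ∈ Ici (h k) := by
      refine span_support _ (Ici (h k)) ?_ x hx a ha
      intro v hv b hb
      exact (hsup k hk v hv b hb).1
    have h3 : M j ≤ (Finset.range (n + 1)).sup M :=
      Finset.le_sup (f := M) (Finset.mem_range.2 (Nat.lt_succ_of_le hj))
    have h4 := (hs' k hk).1
    have h5 := hh.id_le k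
    simp only [id, mem_Ici] at h5 h2
    omega

/-- A partition such that each interval contains the supports of many vectors of a block
sequence. -/
theorem exists_int {z : ℕ → ℕ →₀ F} (hz : IsBlockSeq z) : ∃ i : ℕ → ℕ, StrictMono i ∧
    ∀ n, ∀ j < (i n + 1) * (i n + 2) + 1, ∀ a ∈ (z (i n + j)).support,
      i n ≤ a ∧ a < i (n + 1) := by
  classical
  let nx : ℕ → ℕ := fun x => x + 1 +
    (Finset.range (x + ((x + 1) * (x + 2) + 1))).sup fun j => (z j).support.sup id
  let i : ℕ → ℕ := fun n => Nat.rec 0 (fun _ x => nx x) n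
  have his : ∀ n, i (n + 1) = nx (i n) := fun n => rfl
  refine ⟨i, strictMono_nat_of_lt_succ fun n => by rw [his]; simp only [nx]; omega, ?_⟩
  intro n j hj a ha
  refine ⟨?_, ?_⟩
  · have := hz.le (i n + j) a ha
    omega
  · rw [his]
    have h1 : (z (i n + j)).support.sup id ≤
        (Finset.range (i n + ((i n + 1) * (i n + 2) + 1))).sup fun j => (z j).support.sup id :=
      Finset.le_sup (f := fun j => (z j).support.sup id) (Finset.mem_range.2 (by omega))
    have h2 : a ≤ (z (i n + j)).support.sup id := Finset.le_sup (f := id) ha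
    simp only [nx]
    omega

end Q209.Blk
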