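import Mathlib
import Pool.Agent.H348R6.GV1

/-!
The well-ordered set `ω₁`, its closed unbounded and its stationary subsets.
-/

set_option autoImplicit false

namespace Q209.Om

open Cardinal Set

/-- The well-ordered set `ω₁`. -/
abbrev W1 : Type := (aleph 1).ord.ToType

/-- `C` is a closed unbounded subset of `ω₁`. -/
def IsClubSet (C : Set W1) : Prop :=
  (∀ x, ∃ y ∈ C, x < y) ∧
    ∀ δ, (∃ x, x < δ) → (∀ x < δ, ∃ y ∈ C, x < y ∧ y < δ) → δ ∈ C

/-- `S` is a stationary subset of `ω₁`. -/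
def IsStat (S : Set W1) : Prop := ∀ C, IsClubSet C → (S ∩ C).Nonempty

theorem reg1 : (aleph 1).IsRegular := isRegular_aleph_one

theorem lt_aleph_one {κ : Cardinal.{0}} : κ < aleph 1 ↔ κ ≤ ℵ₀ := by
  rw [← succ_aleph0, Order.lt_succ_iff]

theorem bdd {ι : Type} [Countable ι] (g : ι → W1) : ∃ b, ∀ i, g i < b :=
  Pool.Agent.H348R6.GV.bdd_of_lt reg1 g (lt_aleph_one.2 (mk_le_aleph0_iff.2 inferInstance))

theorem countable_Iic (a : W1) : Countable (Iic a) := by
  rw [← mk_le_aleph0_iff]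
  exact lt_aleph_one.1 (Pool.Agent.H348R6.GV.mk_Iic_lt reg1 a)

theorem countable_Iio (a : W1) : Countable (Iio a) := by
  have := countable_Iic a
  exact Countable.mono Iio_subset_Iic_self (Set.countable_coe_iff.1 this)

theorem exists_gt (a : W1) : ∃ b, a < b := by
  obtain ⟨b, hb⟩ := bdd fun _ : Unit => a
  exact ⟨b, hb ()⟩

/-- The set of the closure points of a family of countably many functions is closed
unbounded. -/
theorem club_closure (f : W1 → W1) (c : W1) :
    IsClubSet {δ | c < δ ∧ ∀ a < δ, f a < δ} := by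
  constructor
  · intro x
    have hBex : ∀ a : W1, ∃ b, ∀ i : Option (Iic a), (match i with
      | none => a
      | some i => f i) < b := by
      intro a
      have := countable_Iic a
      exact bdd _
    choose B hB using hBex
    have hB1 : ∀ a, a < B a := fun a => hB a none
    have hB2 : ∀ a, ∀ i ≤ a, f i < B a := fun a i hi => hB a (some ⟨i, hi⟩)
    let y : ℕ → W1 := fun n => Nat.rec (max x c) (fun _ a => B a) n
    have hy : ∀ n, y (n + 1) = B (y n) := fun n => rfl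
    obtain ⟨b, hb⟩ := bdd y
    let δ := WellFounded.min wellFounded_lt {b | ∀ n, y n < b} ⟨b, hb⟩
    have hδ : ∀ n, y n < δ := WellFounded.min_mem wellFounded_lt {b | ∀ n, y n < b} ⟨b, hb⟩
    have hδ2 : ∀ a < δ, ∃ n, a ≤ y n := by
      intro a ha
      by_contra h
      push Not at h
      exact WellFounded.not_lt_min wellFounded_lt {b | ∀ n, y n < b} h ha
    refine ⟨δ, ⟨(le_max_right x c).trans_lt (hδ 0), fun a ha => ?_⟩,
      (le_max_left x c).trans_lt (hδ 0)⟩
    obtain ⟨n, hn⟩ := hδ2 a ha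
    exact (hB2 (y n) a hn).trans (by rw [← hy]; exact hδ (n + 1))
  · intro δ hne h
    obtain ⟨x, hx⟩ := hne
    obtain ⟨y, hy, _, hyδ⟩ := h x hx
    refine ⟨hy.1.trans hyδ, fun a ha => ?_⟩
    obtain ⟨z, hz, haz, hzδ⟩ := h a ha
    exact (hz.2 a haz).trans hzδ

theorem club_inter {C D : Set W1} (hC : IsClubSet C) (hD : IsClubSet D) :
    IsClubSet (C ∩ D) := by
  constructor
  · intro x
    choose f hf1 hf2 using hC.1
    choose g hg1 hg2 using hD.1
    let y : ℕ → W1 := fun n => Nat.rec x (fun _ a => g (f a)) n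
    have hy : ∀ n, y (n + 1) = g (f (y n)) := fun n => rfl
    obtain ⟨b, hb⟩ := bdd y
    let δ := WellFounded.min wellFounded_lt {b | ∀ n, y n < b} ⟨b, hb⟩
    have hδ : ∀ n, y n < δ := WellFounded.min_mem wellFounded_lt {b | ∀ n, y n < b} ⟨b, hb⟩
    have hδ2 : ∀ a < δ, ∃ n, a ≤ y n := by
      intro a ha
      by_contra h
      push Not at h
      exact WellFounded.not_lt_min wellFounded_lt {b | ∀ n, y n < b} h ha
    have hstep : ∀ n, y n < f (y n) ∧ f (y n) < y (n + 1) := fun n =>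
      ⟨hf2 _, by rw [hy]; exact hg2 _⟩
    refine ⟨δ, ⟨hC.2 δ ⟨_, hδ 0⟩ fun a ha => ?_, hD.2 δ ⟨_, hδ 0⟩ fun a ha => ?_⟩, hδ 0⟩
    · obtain ⟨n, hn⟩ := hδ2 a ha
      exact ⟨f (y n), hf1 _, hn.trans_lt (hstep n).1, (hstep n).2.trans (hδ (n + 1))⟩
    · obtain ⟨n, hn⟩ := hδ2 a ha
      refine ⟨y (n + 1), by rw [hy]; exact hg1 _, ?_, hδ (n + 1)⟩
      exact hn.trans_lt ((hstep n).1.trans (hstep n).2)
  · intro δ hne h
    exact ⟨hC.2 δ hne fun x hx => by
        obtain ⟨y, hy, h1, h2⟩ := h x hx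
        exact ⟨y, hy.1, h1, h2⟩,
      hD.2 δ hne fun x hx => by
        obtain ⟨y, hy, h1, h2⟩ := h x hx
        exact ⟨y, hy.2, h1, h2⟩⟩

theorem mk_W1 : #W1 = aleph 1 := by rw [Cardinal.mk_toType, card_ord]

end Q209.Om
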