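import Mathlib

/-!
`F`-separable spaces, spaces of continuous functions with the topology of pointwise convergence,
strong measure zero sets and the cardinals `𝔟` and `𝔭`.
-/

set_option autoImplicit false

namespace Q209.FSep

open Cardinal Set Filter Topology

universe u

/-- The continuous real-valued functions on `X` with the topology of pointwise convergence (the
subspace topology of the product `X → ℝ`). -/
abbrev Cp (X : Type u) [TopologicalSpace X] : Type u := {f : X → ℝ // Continuous f}

/-- The `F`-closure of `A`: the points `y` of the closure of `A` such that whenever `y` is in the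
closure of a subset `A'` of `A`, some sequence of points of `A'` converges to `y`. -/
def FClosure {Y : Type u} [TopologicalSpace Y] (A : Set Y) : Set Y :=
  {y | y ∈ closure A ∧ ∀ A' ⊆ A, y ∈ closure A' →
    ∃ s : ℕ → Y, (∀ n, s n ∈ A') ∧ Tendsto s atTop (𝓝 y)}

/-- `Y` is `F`-separable: some countable set has `F`-closure `Y`. -/
def FSeparable (Y : Type u) [TopologicalSpace Y] : Prop :=
  ∃ A : Set Y, A.Countable ∧ FClosure A = Set.univ

/-- A set of reals has strong measure zero if for every sequence of positive reals `δ n` it is
covered by intervals `(c n - δ n, c n + δ n)`. -/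
def StrongMeasureZero (S : Set ℝ) : Prop :=
  ∀ δ : ℕ → ℝ, (∀ n, 0 < δ n) → ∃ c : ℕ → ℝ, S ⊆ ⋃ n, Ioo (c n - δ n) (c n + δ n)

/-- Borel's conjecture: every strong measure zero set of reals is countable. -/
def BorelConjecture : Prop := ∀ S : Set ℝ, StrongMeasureZero S → S.Countable

/-- The bounding number `𝔟`: the least cardinality of a set of functions from `ℕ` to `ℕ` which is
not bounded with respect to eventual domination. -/
noncomputable def boundingNumber : Cardinal.{0} :=
  sInf {c | ∃ F : Set (ℕ → ℕ), (¬ ∃ g : ℕ → ℕ, ∀ f ∈ F, ∀ᶠ n in atTop, f n ≤ g n) ∧ #F = c}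

/-- The pseudo-intersection number `𝔭`: the least cardinality of a family of subsets of `ℕ` all of
whose finite subfamilies have infinite intersection, and which has no infinite
pseudo-intersection. -/
noncomputable def pseudoNumber : Cardinal.{0} :=
  sInf {c | ∃ F : Set (Set ℕ), (∀ G ⊆ F, G.Finite → (⋂₀ G).Infinite) ∧
    (¬ ∃ P : Set ℕ, P.Infinite ∧ ∀ A ∈ F, (P \ A).Finite) ∧ #F = c}

end Q209.FSep
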