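import Mathlib
import Pool.Agent.Q209.W1
import Pool.Agent.Q209.FSepDefs

/-!
If Borel's conjecture holds and `𝔟 > ω₁`, then every space `X` with `F`-separable `C_p(X)` is
countable.
-/

set_option autoImplicit false

namespace Q209.FSep

open Cardinal Set Filter Topology Q209.Om

universe u

section Cp

variable {X : Type u} [TopologicalSpace X]

theorem mem_closure_Cp {f : Cp X} {B : Set (Cp X)} :
    f ∈ closure B ↔ ∀ (K : Finset X) (η : ℝ), 0 < η → ∃ b ∈ B, ∀ x ∈ K, |b.1 x - f.1 x| < η := by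
  constructor
  · intro h K η hη
    have hopen : IsOpen {b : Cp X | ∀ x ∈ K, |b.1 x - f.1 x| < η} := by
      have : {b : Cp X | ∀ x ∈ K, |b.1 x - f.1 x| < η} =
          ⋂ x ∈ K, {b : Cp X | |b.1 x - f.1 x| < η} := by ext; simp
      rw [this]
      refine isOpen_biInter_finset fun x _ => ?_
      have hc : Continuous fun b : Cp X => b.1 x := (continuous_apply x).comp continuous_subtype_val
      exact isOpen_lt (hc.sub continuous_const).abs continuous_const
    obtain ⟨b, hb, hbB⟩ := mem_closure_iff.1 h _ hopen (by simpa using fun _ _ => hη)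
    exact ⟨b, hbB, hb⟩
  · intro h
    rw [mem_closure_iff]
    intro O hO hfO
    obtain ⟨O', hO', rfl⟩ := isOpen_induced_iff.1 hO
    obtain ⟨I, u, hu, hsub⟩ := isOpen_pi_iff.1 hO' f.1 hfO
    have hball : ∀ x ∈ I, ∃ η > 0, Metric.ball (f.1 x) η ⊆ u x := fun x hx =>
      Metric.isOpen_iff.1 (hu x hx).1 _ (hu x hx).2
    choose! η hη hηu using hball
    obtain ⟨η0, hη0, hle⟩ : ∃ η0 > 0, ∀ x ∈ I, η0 ≤ η x := by
      classical
      rcases I.eq_empty_or_nonempty with rfl | hne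
      · exact ⟨1, one_pos, by simp⟩
      · obtain ⟨x0, hx0, hmin⟩ := I.exists_min_image η hne
        exact ⟨η x0, hη x0 hx0, hmin⟩
    obtain ⟨b, hb, hbK⟩ := h I η0 hη0
    refine ⟨b, hsub fun x hx => hηu x hx ?_, hb⟩
    rw [Metric.mem_ball, Real.dist_eq]
    exact (hbK x hx).trans_le (hle x hx)

theorem tendsto_Cp {s : ℕ → Cp X} {f : Cp X} :
    Tendsto s atTop (𝓝 f) ↔ ∀ x, Tendsto (fun n => (s n).1 x) atTop (𝓝 (f.1 x)) := by
  rw [tendsto_subtype_rng, tendsto_pi_nhds]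

end Cp

/-! ### Boundedness of `ω₁` many functions -/

theorem bounded_nat (hb : aleph 1 < boundingNumber) (f : W1 → ℕ → ℕ) :
    ∃ g : ℕ → ℕ, ∀ w, ∀ᶠ n in atTop, f w n ≤ g n := by
  by_contra hcon
  refine absurd hb (not_lt.2 ?_)
  have h1 : boundingNumber ≤ #(range f) := by
    refine csInf_le' ⟨range f, ?_, rfl⟩
    rintro ⟨g, hg⟩
    exact hcon ⟨g, fun w => hg _ ⟨w, rfl⟩⟩
  refine h1.trans (mk_range_le.trans ?_)
  rw [mk_ord_toType]

theorem bounded (hb : aleph 1 < boundingNumber) {J : Type} [Countable J] (f : W1 → J → ℕ) :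
    ∃ g : J → ℕ, ∀ w, {j | g j < f w j}.Finite := by
  obtain ⟨e, he⟩ := exists_injective_nat J
  obtain ⟨g, hg⟩ := bounded_nat hb fun w => Function.extend e (f w) 0
  refine ⟨fun j => g (e j), fun w => ?_⟩
  have h1 : {n | ¬ Function.extend e (f w) 0 n ≤ g n}.Finite := by
    have := hg w
    rw [← Nat.cofinite_eq_atTop] at this
    exact this
  refine (h1.preimage he.injOn).subset ?_
  intro j hj
  simpa [he.extend_apply] using hj

/-! ### The functions attached to finite unions of intervals -/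

/-- A clamped distance: `0` if `|t - c| ≤ ε / 2` and `1` if `|t - c| ≥ ε`. -/
noncomputable def cl (ε c t : ℝ) : ℝ := min 1 (max 0 (2 / ε * |t - c| - 1))

theorem cl_cont (ε c : ℝ) : Continuous (cl ε c) := by
  unfold cl
  fun_prop

theorem cl_nonneg (ε c t : ℝ) : 0 ≤ cl ε c t := le_min zero_le_one (le_max_left _ _)

theorem cl_zero {ε c t : ℝ} (hε : 0 < ε) (h : |t - c| < ε / 2) : cl ε c t = 0 := by
  have h1 : 2 / ε * |t - c| - 1 ≤ 0 := by
    have : 2 / ε * |t - c| ≤ 2 / ε * (ε / 2) := by gcongr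
    have h2 : 2 / ε * (ε / 2) = 1 := by field_simp
    linarith
  rw [cl, max_eq_left h1, min_eq_right zero_le_one]

theorem cl_one {ε c t : ℝ} (hε : 0 < ε) (h : ε ≤ |t - c|) : cl ε c t = 1 := by
  have h1 : 1 ≤ 2 / ε * |t - c| - 1 := by
    have : 2 / ε * ε ≤ 2 / ε * |t - c| := by gcongr
    have h2 : 2 / ε * ε = 2 := by field_simp
    linarith
  rw [cl, min_eq_left (h1.trans (le_max_right _ _))]

/-- The product of the clamped distances to the first `n` members of `L`, plus `1 / (n + 1)`. -/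
noncomputable def P (ε : ℕ → ℝ) (i : ℕ × List ℚ) (t : ℝ) : ℝ :=
  (∏ k ∈ Finset.range i.1, cl (ε i.1) (i.2.getD k 0 : ℚ) t) + 1 / ((i.1 : ℝ) + 1)

theorem P_cont (ε : ℕ → ℝ) (i : ℕ × List ℚ) : Continuous (P ε i) := by
  unfold P
  exact (continuous_finsetProd _ fun k _ => cl_cont _ _).add continuous_const

theorem P_lower (ε : ℕ → ℝ) (i : ℕ × List ℚ) (t : ℝ) : 1 / ((i.1 : ℝ) + 1) ≤ P ε i t := by
  unfold P
  have : 0 ≤ ∏ k ∈ Finset.range i.1, cl (ε i.1) (i.2.getD k 0 : ℚ) t :=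
    Finset.prod_nonneg fun k _ => cl_nonneg _ _ _
  linarith

theorem P_lt_one {ε : ℕ → ℝ} (hε : ∀ n, 0 < ε n) {i : ℕ × List ℚ} {t : ℝ} (h : P ε i t < 1) :
    ∃ k < i.1, |t - (i.2.getD k 0 : ℚ)| < ε i.1 := by
  by_contra hcon
  push Not at hcon
  have h1 : ∏ k ∈ Finset.range i.1, cl (ε i.1) (i.2.getD k 0 : ℚ) t = 1 :=
    Finset.prod_eq_one fun k hk => cl_one (hε _) (hcon k (Finset.mem_range.1 hk))
  have h2 : 0 < 1 / ((i.1 : ℝ) + 1) := by positivity
  unfold P at h
  rw [h1] at h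
  linarith

theorem P_small {ε : ℕ → ℝ} (hε : ∀ n, 0 < ε n) {X : Type u} (g : X → ℝ) (K : Finset X) {n : ℕ}
    (hn : K.card ≤ n) : ∃ L : List ℚ, ∀ x ∈ K, P ε (n, L) (g x) = 1 / ((n : ℝ) + 1) := by
  have h : ∀ x, ∃ q : ℚ, |g x - q| < ε n / 2 := by
    intro x
    obtain ⟨q, hq1, hq2⟩ := exists_rat_btwn (show g x < g x + ε n / 2 by have := hε n; linarith)
    refine ⟨q, ?_⟩
    rw [abs_lt]
    constructor <;> linarith
  choose q hq using h
  refine ⟨K.toList.map q, fun x hx => ?_⟩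
  have hmem : q x ∈ K.toList.map q := List.mem_map.2 ⟨x, Finset.mem_toList.2 hx, rfl⟩
  obtain ⟨k, hk, hkq⟩ := List.getElem_of_mem hmem
  have hkn : k < n := by
    have : (K.toList.map q).length = K.card := by simp
    omega
  have hz : cl (ε n) (((K.toList.map q).getD k 0 : ℚ) : ℝ) (g x) = 0 := by
    rw [List.getD_eq_getElem _ _ hk, hkq]
    exact cl_zero (hε n) (hq x)
  unfold P
  rw [Finset.prod_eq_zero (Finset.mem_range.2 hkn) hz, zero_add]

/-! ### Images are of strong measure zero -/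

theorem smz_of_FSep (hb : aleph 1 < boundingNumber) {X : Type u} [TopologicalSpace X]
    (hX : FSeparable (Cp X)) (g : X → ℝ) (hg : Continuous g) (x : W1 → X) :
    StrongMeasureZero (range fun w => g (x w)) := by
  obtain ⟨A, -, hF⟩ := hX
  intro δ hδ
  -- the common radius of block `n`
  have hεex : ∀ n : ℕ, ∃ e > 0, ∀ k < n, e ≤ δ (n * n + k) := by
    intro n
    rcases Nat.eq_zero_or_pos n with rfl | hn
    · exact ⟨1, one_pos, by simp⟩
    · obtain ⟨k0, hk0, hmin⟩ := (Finset.range n).exists_min_image (fun k => δ (n * n + k))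
        ⟨0, Finset.mem_range.2 hn⟩
      exact ⟨δ (n * n + k0), hδ _, fun k hk => hmin k (Finset.mem_range.2 hk)⟩
  choose ε hε hεδ using hεex
  let I := ℕ × List ℚ
  let F : I → Cp X := fun i => ⟨fun y => P ε i (g y), (P_cont ε i).comp hg⟩
  -- sequences of `A` converging to the functions `F i`
  have hseq : ∀ i : I, ∃ s : ℕ → Cp X, (∀ n, s n ∈ A) ∧ Tendsto s atTop (𝓝 (F i)) := by
    intro i
    have : F i ∈ FClosure A := by rw [hF]; trivial
    exact this.2 A le_rfl this.1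
  choose a haA ha using hseq
  have ha' : ∀ i y, Tendsto (fun n => (a i n).1 y) atTop (𝓝 (P ε i (g y))) := fun i y =>
    tendsto_Cp.1 (ha i) y
  have hh : ∀ (w : W1) (i : I), ∃ m, ∀ k ≥ m,
      |(a i k).1 (x w) - P ε i (g (x w))| < 1 / (2 * ((i.1 : ℝ) + 1)) := by
    intro w i
    have hpos : 0 < 1 / (2 * ((i.1 : ℝ) + 1)) := by positivity
    exact eventually_atTop.1 ((Metric.tendsto_nhds.1 (ha' i (x w)) _ hpos).mono fun k hk => by
      rwa [Real.dist_eq] at hk)
  choose h hh using hh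
  obtain ⟨g0, hg0⟩ := bounded hb h
  obtain ⟨w0⟩ : Nonempty W1 := by
    rw [← mk_ne_zero_iff, mk_ord_toType]
    exact (aleph_pos 1).ne'
  let B : Set (Cp X) := {b | ∃ i k, max (g0 i) (h w0 i) ≤ k ∧ b = a i k}
  have hBA : B ⊆ A := by
    rintro _ ⟨i, k, _, rfl⟩
    exact haA i k
  let z : Cp X := ⟨fun _ => 0, continuous_const⟩
  have hzB : z ∈ closure B := by
    rw [mem_closure_Cp]
    intro K η hη
    obtain ⟨n, hn⟩ := exists_nat_one_div_lt (show 0 < η / 2 by linarith)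
    obtain ⟨L, hL⟩ := P_small hε g K (le_max_left K.card n)
    let i : I := (max K.card n, L)
    have hev : ∀ y ∈ K, ∀ᶠ k in atTop, |(a i k).1 y - P ε i (g y)| < η / 2 := by
      intro y _
      exact (Metric.tendsto_nhds.1 (ha' i y) _ (half_pos hη)).mono fun k hk => by
        rwa [Real.dist_eq] at hk
    obtain ⟨k, hk1, hk2⟩ := ((Filter.eventually_all_finset K).2 hev |>.and
      (eventually_ge_atTop (max (g0 i) (h w0 i)))).exists
    refine ⟨a i k, ⟨i, k, hk2, rfl⟩, fun y hy => ?_⟩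
    have h1 := hk1 y hy
    rw [hL y hy] at h1
    have h2 : 1 / (((max K.card n : ℕ) : ℝ) + 1) ≤ 1 / ((n : ℝ) + 1) := by
      apply one_div_le_one_div_of_le (by positivity)
      have : (n : ℝ) ≤ ((max K.card n : ℕ) : ℝ) := by exact_mod_cast le_max_right _ _
      linarith
    have h3 : 0 < 1 / (((max K.card n : ℕ) : ℝ) + 1) := by positivity
    change |(a i k).1 y - 0| < η
    rw [sub_zero]
    rw [abs_lt] at h1 ⊢
    constructor <;> linarith [h1.1, h1.2]
  have hzF : z ∈ FClosure A := by rw [hF]; trivial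
  obtain ⟨b, hbB, hb0⟩ := hzF.2 B hBA hzB
  choose i k hik hbe using hbB
  have hb0' : ∀ y, Tendsto (fun n => (b n).1 y) atTop (𝓝 0) := fun y => tendsto_Cp.1 hb0 y
  -- the first components tend to infinity
  have hn : ∀ N : ℕ, ∀ᶠ l in atTop, N < (i l).1 := by
    intro N
    have hpos : 0 < 1 / (2 * ((N : ℝ) + 1)) := by positivity
    filter_upwards [Metric.tendsto_nhds.1 (hb0' (x w0)) _ hpos] with l hl
    rw [Real.dist_eq, sub_zero] at hl
    have h1 := hh w0 (i l) (k l) ((le_max_right _ _).trans (hik l))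
    rw [← hbe l] at h1
    have h2 := P_lower ε (i l) (g (x w0))
    have h3 : 1 / (2 * (((i l).1 : ℝ) + 1)) < 1 / (2 * ((N : ℝ) + 1)) := by
      have h4 : 1 / (2 * (((i l).1 : ℝ) + 1)) = 1 / (((i l).1 : ℝ) + 1) / 2 := by
        field_simp
      rw [abs_lt] at h1 hl
      linarith [h1.1, hl.2]
    have h5 := lt_of_one_div_lt_one_div (by positivity) h3
    have h6 : (N : ℝ) < ((i l).1 : ℝ) := by linarith
    exact_mod_cast h6
  have hev : ∀ w, ∀ᶠ l in atTop, ∃ k' < (i l).1,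
      |g (x w) - ((i l).2.getD k' 0 : ℚ)| < ε (i l).1 := by
    intro w
    obtain ⟨N, hN⟩ : ∃ N : ℕ, ∀ j ∈ {j | g0 j < h w j}, j.1 ≤ N := by
      obtain ⟨N, hN⟩ := ((hg0 w).image Prod.fst).bddAbove
      exact ⟨N, fun j hj => hN ⟨j, hj, rfl⟩⟩
    filter_upwards [hn N, Metric.tendsto_nhds.1 (hb0' (x w)) (1 / 2) (by norm_num)] with l h1 h2
    have h3 : h w (i l) ≤ g0 (i l) := by
      by_contra hcon
      exact absurd (hN (i l) (not_le.1 hcon)) (not_le.2 h1)
    have h4 := hh w (i l) (k l) (h3.trans ((le_max_left _ _).trans (hik l)))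
    rw [← hbe l] at h4
    rw [Real.dist_eq, sub_zero] at h2
    have h5 : 1 / (2 * (((i l).1 : ℝ) + 1)) ≤ 1 / 2 := by
      apply one_div_le_one_div_of_le (by norm_num)
      have : (0 : ℝ) ≤ ((i l).1 : ℝ) := by positivity
      linarith
    apply P_lt_one hε
    rw [abs_lt] at h4 h2
    linarith [h4.1, h2.2]
  -- the centres
  classical
  let l : ℕ → ℕ := fun n => if hx : ∃ l, (i l).1 = n then hx.choose else 0
  have hl : ∀ m, (i (l (i m).1)).1 = (i m).1 := by
    intro m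
    have hx : ∃ l, (i l).1 = (i m).1 := ⟨m, rfl⟩
    simp only [l, dif_pos hx]
    exact hx.choose_spec
  refine ⟨fun j => ((i (l (Nat.sqrt j))).2.getD (j - Nat.sqrt j * Nat.sqrt j) 0 : ℚ), ?_⟩
  rintro _ ⟨w, rfl⟩
  obtain ⟨l0, hl0⟩ := eventually_atTop.1 (hev w)
  obtain ⟨N, hN⟩ : ∃ N, ∀ m < l0, (i m).1 ≤ N := by
    refine ⟨(Finset.range l0).sup fun m => (i m).1, fun m hm => ?_⟩
    exact Finset.le_sup (f := fun m => (i m).1) (Finset.mem_range.2 hm)
  obtain ⟨m, hm⟩ := (hn N).exists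
  set n := (i m).1 with hndef
  have hln : l0 ≤ l n := by
    by_contra hcon
    have h1 := hN (l n) (not_le.1 hcon)
    rw [hl m] at h1
    omega
  obtain ⟨k', hk', hclose⟩ := hl0 (l n) hln
  have hin : (i (l n)).1 = n := hl m
  rw [hin] at hk' hclose
  refine mem_iUnion.2 ⟨n * n + k', ?_⟩
  have hsqrt : Nat.sqrt (n * n + k') = n := Nat.sqrt_add_eq n (by omega)
  simp only [hsqrt, Nat.add_sub_cancel_left]
  have hle := hεδ n k' hk'
  rw [abs_lt] at hclose
  constructor <;> linarith [hclose.1, hclose.2]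

end Q209.FSep
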