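import Mathlib
import Pool.Agent.Q209.FSepPos

/-!
Rothberger: Borel's conjecture implies `𝔟 > ω₁`.
-/

set_option autoImplicit false

namespace Q209.FSep

open Cardinal Set Filter Topology Q209.Om

theorem exists_strictMono_dom {ι : Type} [Countable ι] [Nonempty ι] (f : ι → ℕ → ℕ) :
    ∃ h : ℕ → ℕ, StrictMono h ∧ ∀ i, ∀ᶠ n in atTop, f i n ≤ h n := by
  obtain ⟨φ, hφ⟩ := exists_surjective_nat ι
  refine ⟨fun n => ∑ m ∈ Finset.range (n + 1), (1 + ∑ k ∈ Finset.range (m + 1), f (φ k) m),
    strictMono_nat_of_lt_succ fun n => ?_, fun i => ?_⟩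
  · rw [Finset.sum_range_succ _ (n + 1)]
    omega
  · obtain ⟨k, rfl⟩ := hφ i
    refine eventually_atTop.2 ⟨k, fun n hn => ?_⟩
    have h1 : f (φ k) n ≤ ∑ k ∈ Finset.range (n + 1), f (φ k) n :=
      Finset.single_le_sum (f := fun k => f (φ k) n) (fun _ _ => Nat.zero_le _)
        (Finset.mem_range.2 (Nat.lt_succ_of_le hn))
    have h2 : (1 + ∑ k ∈ Finset.range (n + 1), f (φ k) n) ≤
        ∑ m ∈ Finset.range (n + 1), (1 + ∑ k ∈ Finset.range (m + 1), f (φ k) m) :=
      Finset.single_le_sum (f := fun m => (1 + ∑ k ∈ Finset.range (m + 1), f (φ k) m))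
        (fun _ _ => Nat.zero_le _) (Finset.mem_range.2 (Nat.lt_succ_self n))
    exact h1.trans ((Nat.le_add_left _ _).trans h2)

theorem cantor_cont : Continuous fun b : ℕ → Bool => cantorFunction (1 / 3) b := by
  unfold cantorFunction
  refine continuous_tsum (u := fun n => (1 / 3 : ℝ) ^ n) (fun n => ?_)
    (summable_geometric_of_lt_one (by norm_num) (by norm_num)) fun n x => ?_
  · have : (fun b : ℕ → Bool => cantorFunctionAux (1 / 3) b n) =
        (fun b : Bool => cond b ((1 / 3 : ℝ) ^ n) 0) ∘ fun b => b n := by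
      ext x
      simp [cantorFunctionAux]
    rw [this]
    exact continuous_of_discreteTopology.comp (continuous_apply n)
  · rw [Real.norm_eq_abs]
    cases h : x n
    · rw [cantorFunctionAux_false h, abs_zero]
      positivity
    · rw [cantorFunctionAux_true h, abs_of_nonneg (by positivity)]

/-- The characteristic function of the range of `h`. -/
noncomputable def chi (A : Set ℕ) : ℕ → Bool := by
  classical
  exact fun n => decide (n ∈ A)

theorem chi_true {A : Set ℕ} {n : ℕ} : chi A n = true ↔ n ∈ A := by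
  simp [chi]

theorem chi_inj {A B : Set ℕ} (h : chi A = chi B) : A = B := by
  ext n
  rw [← chi_true, ← chi_true, h]

/-- The number of members of `b` below `m`. -/
def cnt (m : ℕ) (b : ℕ → Bool) : ℕ := ∑ i ∈ Finset.range m, cond (b i) 1 0

theorem cnt_cont (m : ℕ) : Continuous (cnt m) := by
  unfold cnt
  refine continuous_finsetSum _ fun i _ => ?_
  exact (continuous_of_discreteTopology (f := fun b : Bool => cond b 1 0)).comp (continuous_apply i)

theorem cnt_mono (b : ℕ → Bool) {m n : ℕ} (h : m ≤ n) : cnt m b ≤ cnt n b :=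
  Finset.sum_le_sum_of_subset (Finset.range_subset_range.2 h)

theorem cnt_unbounded {b : ℕ → Bool} (hb : {n | b n = true}.Infinite) (n : ℕ) :
    ∃ m, n < cnt m b := by
  by_contra hcon
  push Not at hcon
  obtain ⟨E, hE, hcard⟩ := hb.exists_subset_card_eq (n + 1)
  have h1 := hcon (E.sup id + 1)
  have h2 : E.card ≤ cnt (E.sup id + 1) b := by
    have h3 : ∑ i ∈ E, cond (b i) 1 0 ≤ cnt (E.sup id + 1) b := by
      refine Finset.sum_le_sum_of_subset fun i hi => ?_
      exact Finset.mem_range.2 (Nat.lt_succ_of_le (Finset.le_sup (f := id) hi))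
    refine le_trans ?_ h3
    rw [Finset.card_eq_sum_ones]
    refine Finset.sum_le_sum fun i hi => ?_
    have : b i = true := hE hi
    rw [this]
    exact le_rfl
  omega

theorem cnt_le {h : ℕ → ℕ} (hh : StrictMono h) {n m : ℕ} (hm : m ≤ h n) :
    cnt m (chi (range h)) ≤ n := by
  classical
  have h1 : cnt m (chi (range h)) = ((Finset.range m).filter fun i => i ∈ range h).card := by
    rw [Finset.card_filter]
    refine Finset.sum_congr rfl fun i _ => ?_
    by_cases hi : i ∈ range h
    · rw [chi_true.2 hi, if_pos hi]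
      rfl
    · rw [if_neg hi]
      have : chi (range h) i = false := by
        rw [← Bool.not_eq_true]
        exact fun hc => hi (chi_true.1 hc)
      rw [this]
      rfl
  rw [h1]
  calc ((Finset.range m).filter fun i => i ∈ range h).card ≤ ((Finset.range n).image h).card := by
        refine Finset.card_le_card fun i hi => ?_
        obtain ⟨hi1, j, rfl⟩ := Finset.mem_filter.1 hi
        refine Finset.mem_image.2 ⟨j, Finset.mem_range.2 ?_, rfl⟩
        exact hh.lt_iff_lt.1 ((Finset.mem_range.1 hi1).trans_le hm)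
    _ ≤ n := (Finset.card_image_le).trans (Finset.card_range n).le

/-- Compact sets of infinite sets are bounded. -/
theorem bounded_of_compact {K : Set (ℕ → Bool)} (hK : IsCompact K)
    (hinf : ∀ b ∈ K, {n | b n = true}.Infinite) : ∃ g : ℕ → ℕ, ∀ b ∈ K, ∀ n, n < cnt (g n) b := by
  have h : ∀ n, ∃ m, ∀ b ∈ K, n < cnt m b := by
    intro n
    obtain ⟨m, hm⟩ := hK.elim_directed_cover (fun m => {b | n < cnt m b})
      (fun m => isOpen_lt continuous_const (cnt_cont m))
      (fun b hb => mem_iUnion.2 (cnt_unbounded (hinf b hb) n))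
      (fun m m' => ⟨max m m', fun b hb => lt_of_lt_of_le hb (cnt_mono b (le_max_left _ _)),
        fun b hb => lt_of_lt_of_le hb (cnt_mono b (le_max_right _ _))⟩)
    exact ⟨m, fun b hb => hm hb⟩
  choose g hg using h
  exact ⟨g, fun b hb n => hg n b hb⟩

theorem lt_bounding_of_BC (hBC : BorelConjecture) : aleph 1 < boundingNumber := by
  by_contra hcon
  rw [not_lt] at hcon
  have hne : {c | ∃ F : Set (ℕ → ℕ), (¬ ∃ g : ℕ → ℕ, ∀ f ∈ F, ∀ᶠ n in atTop, f n ≤ g n) ∧
      #F = c}.Nonempty := by
    refine ⟨_, Set.univ, ?_, rfl⟩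
    rintro ⟨g, hg⟩
    obtain ⟨n, hn⟩ := (hg (fun n => g n + 1) trivial).exists
    omega
  obtain ⟨F, hF, hFc⟩ := csInf_mem hne
  have hFc2 : #F ≤ #W1 := by
    rw [hFc, mk_ord_toType]
    exact hcon
  have hFne : Nonempty F := by
    by_contra h
    rw [not_nonempty_iff] at h
    exact hF ⟨0, fun f hf => (h.false ⟨f, hf⟩).elim⟩
  obtain ⟨e⟩ : Nonempty (F ↪ W1) := (le_def _ _).1 hFc2
  let f : W1 → ℕ → ℕ := fun w => (Function.invFun e w).1
  have hf : ∀ φ ∈ F, ∃ w, f w = φ := fun φ hφ =>
    ⟨e ⟨φ, hφ⟩, congrArg Subtype.val (Function.leftInverse_invFun e.injective ⟨φ, hφ⟩)⟩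
  have hh : ∀ w : W1, ∃ h : ℕ → ℕ, StrictMono h ∧ ∀ v ≤ w, ∀ᶠ n in atTop, f v n ≤ h n := by
    intro w
    have := countable_Iic w
    have : Nonempty (Iic w) := ⟨⟨w, mem_Iic.2 le_rfl⟩⟩
    obtain ⟨h, hm, hd⟩ := exists_strictMono_dom fun v : Iic w => f v.1
    exact ⟨h, hm, fun v hv => hd ⟨v, hv⟩⟩
  choose h hmono hdom using hh
  -- the functions below a given function have countably many indices
  have hcount : ∀ g : ℕ → ℕ, {w | ∀ n, h w n ≤ g n}.Countable := by
    intro g
    by_contra hc
    refine hF ⟨g, fun φ hφ => ?_⟩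
    obtain ⟨v, rfl⟩ := hf φ hφ
    obtain ⟨w, hw, hvw⟩ : ∃ w ∈ {w | ∀ n, h w n ≤ g n}, v ≤ w := by
      by_contra hcon2
      push Not at hcon2
      have h1 : (Iio v).Countable := Set.countable_coe_iff.1 (countable_Iio v)
      exact hc (h1.mono fun w hw => hcon2 w hw)
    filter_upwards [hdom w v hvw] with n hn
    exact hn.trans (hw n)
  let c : W1 → ℝ := fun w => cantorFunction (1 / 3) (chi (range (h w)))
  have hsmz : StrongMeasureZero (range c) := by
    intro δ hδ
    -- even intervals: the finite sets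
    let c0 : ℕ → ℝ := fun k => cantorFunction (1 / 3)
      (chi (((Encodable.decode k : Option (Finset ℕ)).getD ∅ : Finset ℕ) : Set ℕ))
    let V : Set (ℕ → Bool) := ⋃ k, {b | cantorFunction (1 / 3) b ∈
      Ioo (c0 k - δ (2 * k)) (c0 k + δ (2 * k))}
    have hV : IsOpen V := isOpen_iUnion fun k => isOpen_Ioo.preimage cantor_cont
    have hinf : ∀ b ∈ Vᶜ, {n | b n = true}.Infinite := by
      intro b hb hfin
      apply hb
      refine mem_iUnion.2 ⟨Encodable.encode hfin.toFinset, ?_⟩
      have h1 : chi ((hfin.toFinset : Finset ℕ) : Set ℕ) = b := by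
        ext n
        rw [Bool.eq_iff_iff, chi_true]
        simp
      have h2 : c0 (Encodable.encode hfin.toFinset) = cantorFunction (1 / 3) b := by
        simp only [c0, Encodable.encodek, Option.getD_some]
        rw [h1]
      have h3 := hδ (2 * Encodable.encode hfin.toFinset)
      constructor <;> linarith
    obtain ⟨g, hg⟩ := bounded_of_compact hV.isClosed_compl.isCompact hinf
    have hR : {w | chi (range (h w)) ∉ V}.Countable := by
      refine (hcount g).mono ?_
      intro w hw n
      by_contra hlt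
      have h1 := hg _ hw n
      have h2 := cnt_le (hmono w) (not_le.1 hlt).le
      omega
    -- odd intervals: the rest
    have hR2 : ∃ r : ℕ → ℝ, ∀ w, chi (range (h w)) ∉ V → ∃ k, r k = c w := by
      rcases {w | chi (range (h w)) ∉ V}.eq_empty_or_nonempty with he | hne
      · exact ⟨0, fun w hw => absurd (show w ∈ {w | chi (range (h w)) ∉ V} from hw)
          (he ▸ notMem_empty w)⟩
      · obtain ⟨ρ, hρ⟩ := hR.exists_eq_range hne
        refine ⟨fun k => c (ρ k), fun w hw => ?_⟩
        obtain ⟨k, hk⟩ := (hρ ▸ hw : w ∈ range ρ)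
        exact ⟨k, by simp only [hk]⟩
    obtain ⟨r, hr⟩ := hR2
    refine ⟨fun n => if n % 2 = 0 then c0 (n / 2) else r (n / 2), ?_⟩
    rintro _ ⟨w, rfl⟩
    by_cases hw : chi (range (h w)) ∈ V
    · obtain ⟨k, hk⟩ := mem_iUnion.1 hw
      refine mem_iUnion.2 ⟨2 * k, ?_⟩
      have h1 : 2 * k % 2 = 0 := by omega
      have h2 : 2 * k / 2 = k := by omega
      simp only [h1, h2, if_true]
      exact hk
    · obtain ⟨k, hk⟩ := hr w hw
      refine mem_iUnion.2 ⟨2 * k + 1, ?_⟩
      have h1 : ¬ (2 * k + 1) % 2 = 0 := by omega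
      have h2 : (2 * k + 1) / 2 = k := by omega
      simp only [h1, h2, if_false]
      rw [hk]
      have h3 := hδ (2 * k + 1)
      constructor <;> linarith
  have hc := hBC _ hsmz
  have hfib : ∀ s : ℝ, {w | c w = s}.Countable := by
    intro s
    rcases {w | c w = s}.eq_empty_or_nonempty with he | ⟨v, hv⟩
    · rw [he]
      exact countable_empty
    · refine (hcount (h v)).mono ?_
      intro w hw n
      have h1 : chi (range (h w)) = chi (range (h v)) :=
        cantorFunction_injective (by norm_num) (by norm_num) (hw.trans hv.symm)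
      rw [(hmono w).range_inj (hmono v) |>.1 (chi_inj h1)]
  have hW : (Set.univ : Set W1).Countable := by
    refine (hc.biUnion fun s _ => hfib s).mono fun w _ => ?_
    exact mem_biUnion (show c w ∈ range c from ⟨w, rfl⟩) rfl
  have h3 : #W1 ≤ ℵ₀ := mk_le_aleph0_iff.2 (countable_univ_iff.1 hW)
  rw [mk_ord_toType] at h3
  exact absurd h3 (not_le.2 aleph0_lt_aleph_one)

end Q209.FSep
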