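import Mathlib
import Pool.Agent.Q209.FSepPos

/-!
If `𝔭 > ω₁`, then `C_p(X)` is `F`-separable and not Fréchet-Urysohn for the discrete space `X` of
cardinality `ω₁`.
-/

set_option autoImplicit false

namespace Q209.FSep

open Cardinal Set Filter Topology Q209.Om

/-- The discrete space of cardinality `ω₁`. -/
def D1 : Type := W1

instance : TopologicalSpace D1 := ⊥

instance : DiscreteTopology D1 := ⟨rfl⟩

theorem pseudo_nat (hp : aleph 1 < pseudoNumber) {F : Set (Set ℕ)} (hF : #F ≤ aleph 1)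
    (hfin : ∀ G ⊆ F, G.Finite → (⋂₀ G).Infinite) :
    ∃ P : Set ℕ, P.Infinite ∧ ∀ A ∈ F, (P \ A).Finite := by
  by_contra hcon
  exact absurd (hp.trans_le (csInf_le' ⟨F, hfin, hcon, rfl⟩)) (not_lt.2 hF)

theorem pseudo (hp : aleph 1 < pseudoNumber) {J ι : Type} [Countable J] [Nonempty ι]
    (hι : #ι ≤ aleph 1) (F : ι → Set J)
    (hfin : ∀ E : Finset ι, (⋂ i ∈ E, F i).Infinite) :
    ∃ s : ℕ → J, ∀ i, ∀ᶠ l in atTop, s l ∈ F i := by
  classical
  obtain ⟨e, he⟩ := exists_injective_nat J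
  obtain ⟨P, hP, hPF⟩ := pseudo_nat hp (F := range fun i => e '' F i) (mk_range_le.trans hι) (by
    intro G hG hGf
    have : ∀ A ∈ G, ∃ i, e '' F i = A := fun A hA => hG hA
    choose! c hc using this
    refine ((hfin (hGf.toFinset.image c)).image he.injOn).mono ?_
    rintro _ ⟨j, hj, rfl⟩ A hA
    rw [← hc A hA]
    refine ⟨j, ?_, rfl⟩
    simp only [mem_iInter] at hj
    exact hj (c A) (Finset.mem_image.2 ⟨A, hGf.mem_toFinset.2 hA, rfl⟩))
  obtain ⟨i0⟩ : Nonempty ι := inferInstance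
  have hP' : {j | e j ∈ P}.Infinite := by
    intro hf
    have h1 : (P ∩ e '' F i0).Infinite := by
      intro hf2
      refine hP ((hf2.union (hPF _ ⟨i0, rfl⟩)).subset ?_)
      intro n hn
      by_cases h : n ∈ e '' F i0
      · exact Or.inl ⟨hn, h⟩
      · exact Or.inr ⟨hn, h⟩
    refine h1 ((hf.image e).subset ?_)
    rintro _ ⟨hn, j, _, rfl⟩
    exact ⟨j, hn, rfl⟩
  refine ⟨fun l => hP'.natEmbedding _ l, fun i => ?_⟩
  rw [← Nat.cofinite_eq_atTop]
  have hf : (P \ e '' F i).Finite := hPF _ ⟨i, rfl⟩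
  have hinj : Function.Injective fun l : ℕ => e (hP'.natEmbedding _ l) := by
    intro l m h
    exact (hP'.natEmbedding _).injective (Subtype.ext (he h))
  refine (hf.preimage hinj.injOn).subset ?_
  intro l hl
  refine ⟨(hP'.natEmbedding _ l).2, ?_⟩
  rintro ⟨j, hj, hjl⟩
  have hjl' : j = (hP'.natEmbedding _ l).1 := he hjl
  apply hl
  change (hP'.natEmbedding _ l).1 ∈ F i
  rw [← hjl']
  exact hj

theorem exists_dense : ∃ A : Set (Cp D1), A.Countable ∧ ∀ f, f ∈ closure A := by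
  classical
  have hcard : #W1 ≤ #(ℕ → Bool) := by
    rw [mk_ord_toType]
    have : #(ℕ → Bool) = 𝔠 := by simp
    rw [this]
    exact aleph_one_le_continuum
  obtain ⟨e⟩ : Nonempty (W1 ↪ (ℕ → Bool)) := (le_def _ _).1 hcard
  let ρ : (n : ℕ) → D1 → (Fin n → Bool) := fun n x i => e x i
  let Φ : ((n : ℕ) × ((Fin n → Bool) → ℚ)) → Cp D1 := fun φ =>
    ⟨fun x => (φ.2 (ρ φ.1 x) : ℚ), continuous_of_discreteTopology⟩
  refine ⟨range Φ, countable_range _, fun f => ?_⟩
  rw [mem_closure_Cp]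
  intro K η hη
  obtain ⟨n, hn⟩ : ∃ n, ∀ x ∈ K, ∀ y ∈ K, ρ n x = ρ n y → x = y := by
    have h : ∀ x y : D1, ∃ m, x ≠ y → e x m ≠ e y m := by
      intro x y
      by_cases hxy : x = y
      · exact ⟨0, fun h => absurd hxy h⟩
      · by_contra hcon
        push Not at hcon
        exact hxy (e.injective (funext fun m => (hcon m).2))
    choose m hm using h
    refine ⟨(K.sup fun x => K.sup fun y => m x y) + 1, fun x hx y hy h => ?_⟩
    by_contra hxy
    have h1 : m x y < (K.sup fun x => K.sup fun y => m x y) + 1 :=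
      Nat.lt_succ_of_le ((Finset.le_sup (f := fun y => m x y) hy).trans
        (Finset.le_sup (f := fun x => K.sup fun y => m x y) hx))
    exact hm x y hxy (congrFun h ⟨m x y, h1⟩)
  have hq : ∀ x, ∃ q : ℚ, |(q : ℝ) - f.1 x| < η := by
    intro x
    obtain ⟨q, hq1, hq2⟩ := exists_rat_btwn (show f.1 x < f.1 x + η by linarith)
    refine ⟨q, ?_⟩
    rw [abs_lt]
    constructor <;> linarith
  choose q hq using hq
  refine ⟨Φ ⟨n, fun s => if h : ∃ x ∈ K, ρ n x = s then q h.choose else 0⟩, ⟨_, rfl⟩,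
    fun x hx => ?_⟩
  have h : ∃ y ∈ K, ρ n y = ρ n x := ⟨x, hx, rfl⟩
  have hy : h.choose = x := hn _ h.choose_spec.1 _ hx h.choose_spec.2
  have : (Φ ⟨n, fun s => if h : ∃ x ∈ K, ρ n x = s then q h.choose else 0⟩).1 x = (q x : ℝ) := by
    simp only [Φ]
    rw [dif_pos h, hy]
  rw [this]
  exact hq x

theorem FSeparable_D1 (hp : aleph 1 < pseudoNumber) : FSeparable (Cp D1) := by
  classical
  obtain ⟨A, hA, hd⟩ := exists_dense
  refine ⟨A, hA, eq_univ_of_forall fun f => ⟨hd f, fun A' hA' hf => ?_⟩⟩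
  by_cases hfA : f ∈ A'
  · exact ⟨fun _ => f, fun _ => hfA, tendsto_const_nhds⟩
  have hcA' : Countable A' := (hA.mono hA').to_subtype
  obtain ⟨w0⟩ : Nonempty W1 := by
    rw [← mk_ne_zero_iff, mk_ord_toType]
    exact (aleph_pos 1).ne'
  have : Nonempty (D1 × ℕ) := ⟨(w0, 0)⟩
  have hι : #(D1 × ℕ) ≤ aleph 1 := by
    have h1 : #D1 = aleph 1 := mk_ord_toType _
    rw [mk_prod, lift_id, lift_id, h1, mk_nat]
    exact (mul_eq_left (aleph0_le_aleph 1) (aleph0_le_aleph 1) aleph0_ne_zero).le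
  obtain ⟨s, hs⟩ := pseudo hp hι
    (fun i : D1 × ℕ => {a : A' | |a.1.1 i.1 - f.1 i.1| < 1 / ((i.2 : ℝ) + 1)}) (by
      intro E hfin
      have hne : ∀ a : A', ∃ w, a.1.1 w ≠ f.1 w := by
        intro a
        by_contra hcon
        push Not at hcon
        have : a.1 = f := Subtype.ext (funext hcon)
        exact hfA (this ▸ a.2)
      choose w hw using hne
      let K : Finset D1 := E.image Prod.fst ∪ hfin.toFinset.image w
      obtain ⟨η, hη, hη1, hη2⟩ : ∃ η > 0, (∀ i ∈ E, η ≤ 1 / ((i.2 : ℝ) + 1)) ∧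
          ∀ a ∈ hfin.toFinset, η ≤ |a.1.1 (w a) - f.1 (w a)| := by
        obtain ⟨η1, h1, h1'⟩ : ∃ η > (0 : ℝ), ∀ i ∈ E, η ≤ 1 / ((i.2 : ℝ) + 1) := by
          rcases E.eq_empty_or_nonempty with rfl | hne
          · exact ⟨1, one_pos, by simp⟩
          · obtain ⟨i0, _, hmin⟩ := E.exists_min_image (fun i => 1 / ((i.2 : ℝ) + 1)) hne
            exact ⟨_, by positivity, hmin⟩
        obtain ⟨η2, h2, h2'⟩ : ∃ η > (0 : ℝ), ∀ a ∈ hfin.toFinset,
            η ≤ |a.1.1 (w a) - f.1 (w a)| := by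
          rcases hfin.toFinset.eq_empty_or_nonempty with he | hne
          · exact ⟨1, one_pos, fun a ha => absurd (he ▸ ha) (Finset.notMem_empty a)⟩
          · obtain ⟨i0, _, hmin⟩ := hfin.toFinset.exists_min_image
              (fun a => |a.1.1 (w a) - f.1 (w a)|) hne
            exact ⟨_, abs_pos.2 (sub_ne_zero.2 (hw i0)), hmin⟩
        exact ⟨min η1 η2, lt_min h1 h2, fun i hi => (min_le_left _ _).trans (h1' i hi),
          fun a ha => (min_le_right _ _).trans (h2' a ha)⟩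
      obtain ⟨b, hb, hbK⟩ := mem_closure_Cp.1 hf K η hη
      have hbS : (⟨b, hb⟩ : A') ∈ hfin.toFinset := by
        rw [hfin.mem_toFinset]
        simp only [mem_iInter]
        intro i hi
        exact (hbK i.1 (Finset.mem_union_left _ (Finset.mem_image.2 ⟨i, hi, rfl⟩))).trans_le
          (hη1 i hi)
      have h1 := hbK (w ⟨b, hb⟩) (Finset.mem_union_right _ (Finset.mem_image.2 ⟨_, hbS, rfl⟩))
      exact absurd h1 (not_lt.2 (hη2 _ hbS)))
  refine ⟨fun l => (s l).1, fun l => (s l).2, ?_⟩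
  rw [tendsto_Cp]
  intro x
  rw [Metric.tendsto_nhds]
  intro η hη
  obtain ⟨n, hn⟩ := exists_nat_one_div_lt hη
  filter_upwards [hs (x, n)] with l hl
  rw [Real.dist_eq]
  exact lt_trans hl hn

theorem not_frechetUrysohn_D1 : ¬ FrechetUrysohnSpace (Cp D1) := by
  classical
  intro hFU
  let χ : Finset D1 → Cp D1 := fun E =>
    ⟨fun x => if x ∈ E then 1 else 0, continuous_of_discreteTopology⟩
  let f : Cp D1 := ⟨fun _ => 1, continuous_const⟩
  have hf : f ∈ closure (range χ) := by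
    rw [mem_closure_Cp]
    intro K η hη
    refine ⟨χ K, ⟨K, rfl⟩, fun x hx => ?_⟩
    simp [χ, f, hx, hη]
  have h2 := hFU.closure_subset_seqClosure _ hf
  obtain ⟨s, hs, hlim⟩ := h2
  choose E hE using hs
  obtain ⟨x, hx⟩ : ∃ x : D1, x ∉ ⋃ n, (E n : Set D1) := by
    by_contra hcon
    push Not at hcon
    have h1 : (Set.univ : Set D1).Countable :=
      (countable_iUnion fun n => (E n).countable_toSet).mono fun x _ => hcon x
    have h3 : #D1 ≤ ℵ₀ := mk_le_aleph0_iff.2 (countable_univ_iff.1 h1)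
    have h4 : #D1 = aleph 1 := mk_ord_toType _
    rw [h4] at h3
    exact absurd h3 (not_le.2 aleph0_lt_aleph_one)
  have h3 := tendsto_Cp.1 hlim x
  have h4 : (fun n => (s n).1 x) = fun _ => (0 : ℝ) := by
    ext n
    rw [← hE n]
    have : x ∉ E n := fun h => hx (mem_iUnion.2 ⟨n, h⟩)
    simp [χ, this]
  rw [h4] at h3
  have := tendsto_nhds_unique h3 tendsto_const_nhds
  norm_num [f] at this

end Q209.FSep
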