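import Mathlib
import Pool.Agent.Q209.FSepPos

/-!
If Borel's conjecture holds and `𝔟 > ω₁`, then every Tychonoff space `X` with `F`-separable
`C_p(X)` is countable.
-/

set_option autoImplicit false

namespace Q209.FSep

open Cardinal Set Filter Topology Q209.Om

universe u

theorem range_countable {X : Type u} [TopologicalSpace X] (hBC : BorelConjecture) (hb : aleph 1 < boundingNumber)
    (hX : FSeparable (Cp X)) (g : X → ℝ) (hg : Continuous g) : (range g).Countable := by
  by_contra hcon
  have h1 : #W1 ≤ #(range g) := by
    rw [mk_ord_toType]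
    rw [← le_aleph0_iff_set_countable, not_le] at hcon
    exact aleph_one_le_iff.2 hcon
  obtain ⟨e⟩ : Nonempty (W1 ↪ range g) := (le_def _ _).1 h1
  have h2 : ∀ w, ∃ x, g x = e w := fun w => (e w).2
  choose x hx using h2
  have hsm := smz_of_FSep hb hX g hg x
  have hc := hBC _ hsm
  have hinj : Function.Injective fun w => g (x w) := by
    intro v w hvw
    apply e.injective
    apply Subtype.ext
    rw [← hx v, ← hx w]
    exact hvw
  have hcW : Countable W1 := by
    have : Countable (range fun w => g (x w)) := hc.to_subtype
    exact (Set.injective_codRestrict (s := range fun w => g (x w))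
      (fun w => ⟨w, rfl⟩) |>.2 hinj).countable
  have h3 : #W1 ≤ ℵ₀ := mk_le_aleph0_iff.2 hcW
  rw [mk_ord_toType] at h3
  exact absurd h3 (not_le.2 aleph0_lt_aleph_one)

theorem exists_cut {X : Type u} {a : X → ℝ} (ha : (range a).Countable) (p q : ℚ) :
    ∃ r : ℝ, r ∉ range a ∧ (p < q → (p : ℝ) < r ∧ r < q) := by
  by_cases hpq : p < q
  · have h : ¬ (Ioo (p : ℝ) q).Countable := by
      rw [← le_aleph0_iff_set_countable, not_le, mk_Ioo_real (by exact_mod_cast hpq)]
      exact aleph0_lt_continuum
    obtain ⟨r, hr, hra⟩ : ∃ r ∈ Ioo (p : ℝ) q, r ∉ range a := by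
      by_contra hcon
      push Not at hcon
      exact h (ha.mono hcon)
    exact ⟨r, hra, fun _ => hr⟩
  · obtain ⟨r, hra⟩ : ∃ r, r ∉ range a := by
      by_contra hcon
      push Not at hcon
      have h : ¬ (Set.univ : Set ℝ).Countable := not_countable_univ
      exact h (ha.mono fun r _ => hcon r)
    exact ⟨r, hra, fun h => absurd h hpq⟩

theorem countable_of_FSep {X : Type u} [TopologicalSpace X] [T35Space X] (hBC : BorelConjecture) (hb : aleph 1 < boundingNumber)
    (hX : FSeparable (Cp X)) : Countable X := by
  classical
  obtain ⟨A, hAc, hF⟩ := id hX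
  have hAr : ∀ a : A, (range a.1.1).Countable := fun a => range_countable hBC hb hX _ a.1.2
  choose r hr hr2 using fun (j : A × ℚ × ℚ) => exists_cut (hAr j.1) j.2.1 j.2.2
  have : Countable A := hAc.to_subtype
  obtain ⟨e, he⟩ := exists_injective_nat (A × ℚ × ℚ)
  let u : (A × ℚ × ℚ) → X → Bool := fun j x => decide (j.1.1.1 x < r j)
  have hu : ∀ j, Continuous (u j) := by
    intro j
    have hcl : IsClopen {x | j.1.1.1 x < r j} := by
      refine ⟨?_, isOpen_lt j.1.1.2 continuous_const⟩
      have : {x | j.1.1.1 x < r j} = {x | r j < j.1.1.1 x}ᶜ := by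
        ext x
        simp only [mem_compl_iff, not_lt, Set.mem_ofPred_eq]
        exact ⟨le_of_lt, fun h => lt_of_le_of_ne h fun h' => hr j ⟨x, h'⟩⟩
      rw [this]
      exact (isOpen_lt continuous_const j.1.1.2).isClosed_compl
    exact continuous_bool_rng true |>.2 (by
      have : u j ⁻¹' {true} = {x | j.1.1.1 x < r j} := by
        ext x; simp [u]
      rw [this]
      exact hcl)
  let U : X → ℕ → Bool := fun x => Function.extend e (fun j => u j x) fun _ => false
  have hU : ∀ n, Continuous fun x => U x n := by
    intro n
    by_cases hn : ∃ j, e j = n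
    · obtain ⟨j, rfl⟩ := hn
      have : (fun x => U x (e j)) = u j := by
        ext x
        simp only [U, he.extend_apply]
      rw [this]
      exact hu j
    · have : (fun x => U x n) = fun _ => false := by
        ext x
        simp only [U]
        rw [Function.extend_apply' _ _ _ hn]
      rw [this]
      exact continuous_const
  have hg : Continuous fun x => cantorFunction (1 / 3) (U x) := by
    unfold cantorFunction
    refine continuous_tsum (u := fun n => (1 / 3 : ℝ) ^ n) (fun n => ?_)
      (summable_geometric_of_lt_one (by norm_num) (by norm_num)) fun n x => ?_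
    · have : (fun x => cantorFunctionAux (1 / 3) (U x) n) =
          (fun b : Bool => cond b ((1 / 3 : ℝ) ^ n) 0) ∘ fun x => U x n := by
        ext x
        simp [cantorFunctionAux]
      rw [this]
      exact continuous_of_discreteTopology.comp (hU n)
    · rw [Real.norm_eq_abs]
      cases h : U x n
      · rw [cantorFunctionAux_false h, abs_zero]
        positivity
      · rw [cantorFunctionAux_true h, abs_of_nonneg (by positivity)]
  have hinj : Function.Injective fun x => cantorFunction (1 / 3) (U x) := by
    intro x y hxy
    have hUxy : U x = U y := cantorFunction_injective (by norm_num) (by norm_num) hxy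
    by_contra hne
    obtain ⟨f, hf, hfx, hfy⟩ := CompletelyRegularSpace.completely_regular x {y}
      (isClosed_singleton) (by simpa using hne)
    let f' : Cp X := ⟨fun z => (f z : ℝ), continuous_subtype_val.comp hf⟩
    have hf' : f' ∈ closure A := by
      have : f' ∈ FClosure A := by rw [hF]; trivial
      exact this.1
    obtain ⟨a, haA, ha⟩ := mem_closure_Cp.1 hf' {x, y} (1 / 2) (by norm_num)
    have h1 : |a.1 x - 0| < 1 / 2 := by
      have := ha x (by simp)
      simpa [f', hfx] using this
    have h2 : |a.1 y - 1| < 1 / 2 := by
      have := ha y (by simp)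
      have hy : f y = 1 := hfy (mem_singleton y)
      simpa [f', hy] using this
    have hlt : a.1 x < a.1 y := by
      rw [abs_lt] at h1 h2
      linarith [h1.2, h2.1]
    obtain ⟨p, hp1, hp2⟩ := exists_rat_btwn hlt
    obtain ⟨q, hq1, hq2⟩ := exists_rat_btwn hp2
    let j : A × ℚ × ℚ := (⟨a, haA⟩, p, q)
    have hpq : p < q := by exact_mod_cast hq1
    have hj := hr2 j hpq
    have hux : u j x = true := by
      simp only [u, decide_eq_true_eq]
      exact hp1.trans hj.1
    have huy : u j y = false := by
      simp only [u, decide_eq_false_iff_not, not_lt]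
      exact (hj.2.trans hq2).le
    have h3 := congrFun hUxy (e j)
    simp only [U, he.extend_apply, hux, huy] at h3
    exact Bool.noConfusion h3
  have hc := range_countable hBC hb hX _ hg
  have : Countable (range fun x => cantorFunction (1 / 3) (U x)) := hc.to_subtype
  exact (Set.injective_codRestrict (s := range fun x => cantorFunction (1 / 3) (U x))
      (fun w => ⟨w, rfl⟩) |>.2 hinj).countable

theorem frechetUrysohn_of_FSep {X : Type u} [TopologicalSpace X] [T35Space X] (hBC : BorelConjecture)
    (hb : aleph 1 < boundingNumber) (hX : FSeparable (Cp X)) : FrechetUrysohnSpace (Cp X) := by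
  have := countable_of_FSep hBC hb hX
  infer_instance

end Q209.FSep
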