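import Mathlib
import Pool.Agent.H348R6.GV2

/-!
Under GCH, `κ^{<κ} = κ` for regular `κ`.
-/

set_option autoImplicit false

namespace Q209

open Cardinal Set Pool.Agent.H348R6.GV

universe u

theorem powerlt_self_of_gch (hGCH : ∀ μ : Cardinal.{u}, ℵ₀ ≤ μ → 2 ^ μ = Order.succ μ)
    {κ : Cardinal.{u}} (hκ : κ.IsRegular) (hω : ℵ₀ < κ) : κ ^< κ = κ := by
  refine le_antisymm ?_ ?_
  · rw [powerlt_le]
    intro μ hμ
    have hμ' : #(μ.out) = μ := mk_out μ
    have hκ' : #(κ.ord.ToType) = κ := by rw [Cardinal.mk_toType, card_ord]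
    have h1 : κ ^ μ = #(μ.out → κ.ord.ToType) := by
      rw [← Cardinal.power_def, hμ', hκ']
    rw [h1]
    have h2 : ∀ b : κ.ord.ToType, #(μ.out → Iic b) ≤ κ := by
      intro b
      rw [← Cardinal.power_def, hμ']
      have hb := mk_Iic_lt hκ b
      set ν := max (max #(Iic b) μ) ℵ₀ with hν
      have h3 : #(Iic b) ≤ ν := (le_max_left _ _).trans (le_max_left _ _)
      have h4 : μ ≤ ν := (le_max_right _ _).trans (le_max_left _ _)
      have h5 : ℵ₀ ≤ ν := le_max_right _ _
      have h6 : ν < κ := max_lt (max_lt hb hμ) hω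
      calc #(Iic b) ^ μ ≤ ν ^ μ := Cardinal.power_le_power_right h3
        _ ≤ ν ^ ν := Cardinal.power_le_power_left (by
            exact (aleph0_pos.trans_le h5).ne') h4
        _ = 2 ^ ν := power_self_eq h5
        _ = Order.succ ν := hGCH ν h5
        _ ≤ κ := Order.succ_le_of_lt h6
    have h7 : #(μ.out → κ.ord.ToType) ≤ #(Σ b : κ.ord.ToType, (μ.out → Iic b)) := by
      have h8 : ∀ f : μ.out → κ.ord.ToType, ∃ b, ∀ i, f i < b := fun f =>
        bdd_of_lt hκ f (by rw [hμ']; exact hμ)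
      choose b hb using h8
      refine ⟨⟨fun f => ⟨b f, fun i => ⟨f i, (hb f i).le⟩⟩, ?_⟩⟩
      intro f g hfg
      have h9 : ∀ i, f i = g i := by
        have key : ∀ (p q : Σ b : κ.ord.ToType, (μ.out → Iic b)), p = q → ∀ i,
            (p.2 i).1 = (q.2 i).1 := by
          rintro p q rfl i
          rfl
        exact fun i => key _ _ hfg i
      exact funext h9
    refine h7.trans ?_
    rw [mk_sigma]
    refine (sum_le_sum _ (fun _ => κ) h2).trans ?_
    rw [sum_const, lift_id, lift_id, Cardinal.mk_toType, card_ord, mul_eq_self hκ.aleph0_le]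
  · calc κ = κ ^ (1 : Cardinal.{u}) := (Cardinal.power_one κ).symm
      _ ≤ κ ^< κ := le_powerlt κ (one_lt_aleph0.trans hω)

end Q209
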