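import Mathlib
import Pool.Agent.Y671.GV.Gen

/-!
Independent families of `2^κ` subsets of a set of size `κ`, for `κ` regular with `κ^{<κ} = κ`, and
`κ`-complete filters with `2^κ` members any `κ` of which have an intersection that is null.
-/

set_option autoImplicit false

namespace Q209.Gal

open Cardinal Set Pool.Agent.H348R6.GV Pool.Agent.Y671.GV

universe u

section
variable {κ : Cardinal.{u}}

/-- The index set: pairs of a point `d` and a family of traces on `Iic d`. -/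
abbrev Idx (κ : Cardinal.{u}) : Type u :=
  Σ d : κ.ord.ToType, (Iic d → Option (Set (Iic d)))

theorem mk_set_Iic (hκ : κ.IsRegular) (hp : κ ^< κ = κ) (d : κ.ord.ToType) :
    #(Set (Iic d)) ≤ κ := by
  rw [mk_set]
  have h2 : (2 : Cardinal.{u}) ^ #(Iic d) ≤ κ ^ #(Iic d) :=
    Cardinal.power_le_power_right ((Cardinal.natCast_lt_aleph0 (n := 2)).le.trans hκ.aleph0_le)
  refine h2.trans ?_
  conv_rhs => rw [← hp]
  exact le_powerlt κ (mk_Iic_lt hκ d)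

theorem mk_idx (hκ : κ.IsRegular) (hp : κ ^< κ = κ) : #(Idx κ) ≤ κ := by
  rw [mk_sigma]
  have h1 : ∀ d : κ.ord.ToType, #(Iic d → Option (Set (Iic d))) ≤ κ := by
    intro d
    rw [← Cardinal.power_def]
    have h3 : #(Option (Set (Iic d))) ≤ κ := by
      rw [mk_option]
      exact add_le_of_le hκ.aleph0_le (mk_set_Iic hκ hp d)
        (one_lt_aleph0.le.trans hκ.aleph0_le)
    refine (Cardinal.power_le_power_right h3).trans ?_
    conv_rhs => rw [← hp]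
    exact le_powerlt κ (mk_Iic_lt hκ d)
  refine (sum_le_sum _ (fun _ => κ) h1).trans ?_
  rw [sum_const, lift_id, lift_id, Cardinal.mk_toType, card_ord, mul_eq_self hκ.aleph0_le]

/-- The members of the independent family. -/
def ind (X : Set κ.ord.ToType) : Set (Idx κ) := {p | ∃ a, p.2 a = some {y | y.1 ∈ X}}

/-- Fewer than `κ` members, and the complements of fewer than `κ` others, have a common point. -/
theorem ind_indep (hκ : κ.IsRegular) (J K : Set (Set κ.ord.ToType)) (hJ : #J < κ) (hK : #K < κ)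
    (hJK : Disjoint J K) : ∃ p : Idx κ, (∀ X ∈ J, p ∈ ind X) ∧ ∀ Z ∈ K, p ∉ ind Z := by
  classical
  -- a bound for the differences
  have hdiff : ∀ q : J × K, ∃ b, ¬ (b ∈ q.1.1 ↔ b ∈ q.2.1) := by
    rintro ⟨⟨X, hX⟩, ⟨Z, hZ⟩⟩
    by_contra hcon
    push Not at hcon
    have : X = Z := Set.ext hcon
    subst this
    exact Set.disjoint_left.1 hJK hX hZ
  choose b hb using hdiff
  obtain ⟨d₀, hd₀⟩ := bdd_of_lt hκ b (by
    simp only [mk_prod, lift_id]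
    exact mul_lt_of_lt hκ.aleph0_le hJ hK)
  -- a point with many predecessors
  obtain ⟨d₁, hd₁⟩ : ∃ d₁ : κ.ord.ToType, #J ≤ #(Iic d₁) := by
    have hemb : #J ≤ #(κ.ord.ToType) := by rw [Cardinal.mk_toType, card_ord]; exact hJ.le
    obtain ⟨e⟩ := hemb
    obtain ⟨d₁, hd₁⟩ := bdd_of_lt hκ (fun j : J => e j) hJ
    exact ⟨d₁, ⟨⟨fun j => ⟨e j, (hd₁ j).le⟩, fun i j hij => e.injective (congrArg Subtype.val hij)⟩⟩⟩
  let d := max d₀ d₁
  have hJd : #J ≤ #(Iic d) := hd₁.trans (mk_le_mk_of_subset (Iic_subset_Iic.2 (le_max_right _ _)))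
  obtain ⟨e⟩ := hJd
  refine ⟨⟨d, fun a => if h : ∃ X : J, e X = a then some {y | y.1 ∈ h.choose.1} else none⟩,
    fun X hX => ?_, fun Z hZ => ?_⟩
  · refine ⟨e ⟨X, hX⟩, ?_⟩
    have hex : ∃ X' : J, e X' = e ⟨X, hX⟩ := ⟨_, rfl⟩
    have h1 : hex.choose = ⟨X, hX⟩ := e.injective hex.choose_spec
    simp only [hex, dite_true]
    rw [h1]
  · rintro ⟨a, ha⟩
    simp only at ha
    split_ifs at ha with hex
    have h1 := Option.some.inj ha
    have h2 := hb (hex.choose, ⟨Z, hZ⟩)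
    have h3 : b (hex.choose, ⟨Z, hZ⟩) ≤ d := (hd₀ _).le.trans (le_max_left _ _)
    apply h2
    have h4 : (⟨b (hex.choose, ⟨Z, hZ⟩), h3⟩ : Iic d) ∈ {y : Iic d | y.1 ∈ hex.choose.1} ↔
        (⟨b (hex.choose, ⟨Z, hZ⟩), h3⟩ : Iic d) ∈ {y : Iic d | y.1 ∈ Z} := by rw [h1]
    exact h4

/-- The filter generated by `G`, the sets `B X` and the complements of the intersections of at
least `κ` of the sets `B X`. -/
def nfil (hκ : κ.IsRegular) (G : Filter κ.ord.ToType)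
    (B : Set κ.ord.ToType → Set κ.ord.ToType) : Filter κ.ord.ToType where
  sets := {Y | ∃ J : Set (Set κ.ord.ToType), #J < κ ∧ ∃ S : Set (Set (Set κ.ord.ToType)), #S < κ ∧
    (∀ I ∈ S, κ ≤ #I) ∧ ∃ g ∈ G, g ∩ (⋂ X ∈ J, B X) ∩ (⋂ I ∈ S, (⋂ X ∈ I, B X)ᶜ) ⊆ Y}
  univ_sets := ⟨∅, by simpa using hκ.pos, ∅, by simpa using hκ.pos, by simp, univ,
    Filter.univ_mem, subset_univ _⟩
  sets_of_superset := by
    rintro X Y ⟨J, hJ, S, hS, hI, g, hg, hX⟩ hXY
    exact ⟨J, hJ, S, hS, hI, g, hg, hX.trans hXY⟩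
  inter_sets := by
    rintro X Y ⟨J, hJ, S, hS, hI, g, hg, hX⟩ ⟨J', hJ', S', hS', hI', g', hg', hY⟩
    refine ⟨J ∪ J', (mk_union_le J J').trans_lt (add_lt_of_lt hκ.aleph0_le hJ hJ'),
      S ∪ S', (mk_union_le S S').trans_lt (add_lt_of_lt hκ.aleph0_le hS hS'), ?_,
      g ∩ g', Filter.inter_mem hg hg', ?_⟩
    · rintro I (h | h)
      · exact hI I h
      · exact hI' I h
    · rintro a ⟨⟨⟨h1, h2⟩, h3⟩, h4⟩
      simp only [mem_iInter, mem_compl_iff] at h3 h4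
      refine ⟨hX ⟨⟨h1, ?_⟩, ?_⟩, hY ⟨⟨h2, ?_⟩, ?_⟩⟩
      · simp only [mem_iInter]
        exact fun X hX => h3 X (Or.inl hX)
      · simp only [mem_iInter, mem_compl_iff]
        exact fun I hI => h4 I (Or.inl hI)
      · simp only [mem_iInter]
        exact fun X hX => h3 X (Or.inr hX)
      · simp only [mem_iInter, mem_compl_iff]
        exact fun I hI => h4 I (Or.inr hI)

theorem mem_nfil (hκ : κ.IsRegular) (G : Filter κ.ord.ToType)
    (B : Set κ.ord.ToType → Set κ.ord.ToType) (Y : Set κ.ord.ToType) :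
    Y ∈ nfil hκ G B ↔ ∃ J : Set (Set κ.ord.ToType), #J < κ ∧
      ∃ S : Set (Set (Set κ.ord.ToType)), #S < κ ∧
      (∀ I ∈ S, κ ≤ #I) ∧ ∃ g ∈ G, g ∩ (⋂ X ∈ J, B X) ∩ (⋂ I ∈ S, (⋂ X ∈ I, B X)ᶜ) ⊆ Y := Iff.rfl

/-- Main construction. -/
theorem nmain (hκ : κ.IsRegular) (hp : κ ^< κ = κ) (G : Filter κ.ord.ToType)
    (hG : ∀ S : Set (Set κ.ord.ToType), #S < κ → (∀ s ∈ S, s ∈ G) → ⋂₀ S ∈ G)
    (P : κ.ord.ToType → Set κ.ord.ToType) (hP : ∀ a, (P a)ᶜ ∉ G)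
    (hPd : ∀ a b, a ≠ b → Disjoint (P a) (P b)) :
    ∃ F : Filter κ.ord.ToType, F ≤ G ∧ F.NeBot ∧
      (∀ S : Set (Set κ.ord.ToType), #S < κ → (∀ s ∈ S, s ∈ F) → ⋂₀ S ∈ F) ∧
      ∃ B : Set κ.ord.ToType → Set κ.ord.ToType, Function.Injective B ∧ (∀ X, B X ∈ F) ∧
        ∀ I : Set (Set κ.ord.ToType), κ ≤ #I → (⋂ X ∈ I, B X)ᶜ ∈ F := by
  classical
  have hidx : #(Idx κ) ≤ #(κ.ord.ToType) := by
    rw [Cardinal.mk_toType, card_ord]; exact mk_idx hκ hp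
  obtain ⟨e⟩ := hidx
  let B : Set κ.ord.ToType → Set κ.ord.ToType := fun X => {a | ∃ p ∈ ind X, a ∈ P (e p)}
  have hB : ∀ (X : Set κ.ord.ToType) (p : Idx κ) (a : κ.ord.ToType), a ∈ P (e p) →
      (a ∈ B X ↔ p ∈ ind X) := by
    intro X p a ha
    constructor
    · rintro ⟨q, hq, haq⟩
      have : q = p := by
        by_contra hqp
        exact Set.disjoint_left.1 (hPd (e q) (e p) (fun h => hqp (e.injective h))) haq ha
      exact this ▸ hq
    · intro hp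
      exact ⟨p, hp, ha⟩
  have h1κ : (1 : Cardinal.{u}) < κ := one_lt_aleph0.trans_le hκ.aleph0_le
  -- common points
  have hcommon : ∀ (J K : Set (Set κ.ord.ToType)), #J < κ → #K < κ → Disjoint J K →
      ∀ g ∈ G, ∃ a ∈ g, (∀ X ∈ J, a ∈ B X) ∧ ∀ Z ∈ K, a ∉ B Z := by
    intro J K hJ hK hJK g hg
    obtain ⟨p, hp1, hp2⟩ := ind_indep hκ J K hJ hK hJK
    obtain ⟨a, hag, haP⟩ : ∃ a ∈ g, a ∈ P (e p) := by
      by_contra hcon
      push Not at hcon
      exact hP (e p) (Filter.mem_of_superset hg hcon)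
    exact ⟨a, hag, fun X hX => (hB X p a haP).2 (hp1 X hX),
      fun Z hZ h => hp2 Z hZ ((hB Z p a haP).1 h)⟩
  refine ⟨nfil hκ G B, ?_, ?_, ?_, B, ?_, ?_, ?_⟩
  · intro C hC
    exact (mem_nfil _ _ _ _).2 ⟨∅, by simpa using hκ.pos, ∅, by simpa using hκ.pos, by simp, C, hC,
      inter_subset_left.trans inter_subset_left⟩
  · rw [Filter.neBot_iff]
    intro hbot
    have h0 : (∅ : Set κ.ord.ToType) ∈ nfil hκ G B := by rw [hbot]; trivial
    obtain ⟨J, hJ, S, hS, hI, g, hg, hsub⟩ := (mem_nfil _ _ _ _).1 h0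
    have hex : ∀ I : S, ∃ X, X ∈ I.1 ∧ X ∉ J := by
      rintro ⟨I, hIS⟩
      by_contra hcon
      push Not at hcon
      exact absurd (((hI I hIS).trans (mk_le_mk_of_subset hcon)).trans_lt hJ) (lt_irrefl _)
    choose x hx1 hx2 using hex
    obtain ⟨a, hag, ha1, ha2⟩ := hcommon J (range x) hJ (mk_range_le.trans_lt hS)
      (Set.disjoint_left.2 (by rintro _ hJx ⟨I, rfl⟩; exact hx2 I hJx)) g hg
    refine (hsub ⟨⟨hag, ?_⟩, ?_⟩ : a ∈ (∅ : Set κ.ord.ToType))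
    · simpa only [mem_iInter] using ha1
    · simp only [mem_iInter, mem_compl_iff]
      intro I hIS hcon
      exact ha2 (x ⟨I, hIS⟩) ⟨⟨I, hIS⟩, rfl⟩ (hcon _ (hx1 ⟨I, hIS⟩))
  · intro W hW hWF
    choose! J hJ S hS hI g hg hsub using fun s (hs : s ∈ W) => (mem_nfil _ _ _ _).1 (hWF s hs)
    refine (mem_nfil _ _ _ _).2 ⟨⋃ s : W, J s.1, ?_, ⋃ s : W, S s.1, ?_, ?_,
      ⋂₀ (range fun s : W => g s.1), ?_, ?_⟩
    · exact (card_iUnion_lt_iff_forall_of_isRegular hκ hW).2 (fun s => hJ s.1 s.2)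
    · exact (card_iUnion_lt_iff_forall_of_isRegular hκ hW).2 (fun s => hS s.1 s.2)
    · intro I hIm
      obtain ⟨s, hs⟩ := mem_iUnion.1 hIm
      exact hI s.1 s.2 I hs
    · refine hG _ (mk_range_le.trans_lt hW) ?_
      rintro _ ⟨s, rfl⟩
      exact hg s.1 s.2
    · rintro a ⟨⟨h1, h2⟩, h3⟩
      intro s hs
      simp only [mem_iInter, mem_compl_iff] at h2 h3
      refine hsub s hs ⟨⟨h1 _ ⟨⟨s, hs⟩, rfl⟩, ?_⟩, ?_⟩
      · simp only [mem_iInter]
        exact fun X hX => h2 X (mem_iUnion.2 ⟨⟨s, hs⟩, hX⟩)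
      · simp only [mem_iInter, mem_compl_iff]
        exact fun I hIS => h3 I (mem_iUnion.2 ⟨⟨s, hs⟩, hIS⟩)
  · intro X Z hXZ
    by_contra hne
    obtain ⟨a, -, ha1, ha2⟩ := hcommon {X} {Z} (by simpa using h1κ) (by simpa using h1κ)
      (by simpa using hne) univ Filter.univ_mem
    exact ha2 Z rfl (hXZ ▸ ha1 X rfl)
  · intro X
    refine (mem_nfil _ _ _ _).2 ⟨{X}, by simpa using h1κ, ∅, by simpa using hκ.pos, by simp, univ,
      Filter.univ_mem, ?_⟩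
    rintro a ⟨⟨-, h2⟩, -⟩
    simpa using h2
  · intro I hI
    refine (mem_nfil _ _ _ _).2 ⟨∅, by simpa using hκ.pos, {I}, by simpa using h1κ, ?_, univ,
      Filter.univ_mem, ?_⟩
    · rintro _ rfl
      exact hI
    · rintro a ⟨-, h2⟩
      simpa using h2

end

end Q209.Gal
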