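import Mathlib

/-!
# HFC spaces are strongly D

The combinatorial core: points `y : Y` with a function `v y : Λ → Bool`, neighbourhoods `U y`
depending on a finite set `S y` of coordinates, and the HFC property.
-/

set_option autoImplicit false

namespace Pool.Agent.Q209.HFCD

open Set

universe u w

section seq

variable {Λ : Type u} {Y : Type w} [DecidableEq Λ]

/-- a sequence with pairwise disjoint finite sets -/
lemma exists_seq (W : ℕ → Set Y) (F : Y → Finset Λ)
    (h : ∀ (i : ℕ) (A : Finset Λ), ∃ x ∈ W i, Disjoint (F x) A) :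
    ∃ y : ℕ → Y, (∀ i, y i ∈ W i) ∧ ∀ i j, i < j → Disjoint (F (y i)) (F (y j)) := by
  choose f hf1 hf2 using h
  let A : ℕ → Finset Λ := fun i => Nat.rec ∅ (fun i B => B ∪ F (f i B)) i
  have hA : ∀ i, A (i + 1) = A i ∪ F (f i (A i)) := fun i => rfl
  have hmono : Monotone A := monotone_nat_of_le_succ fun i => by
    rw [hA]; exact Finset.subset_union_left
  refine ⟨fun i => f i (A i), fun i => hf1 i _, fun i j hij => ?_⟩
  have h1 : F (f i (A i)) ⊆ A (i + 1) := by rw [hA]; exact Finset.subset_union_right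
  have h2 : A (i + 1) ⊆ A j := hmono hij
  exact (Finset.disjoint_of_subset_right (h1.trans h2) (hf2 j (A j))).symm

end seq

section sched

variable {σ : Type w} {T : Type u}

/-- fair scheduling of dynamically created tasks -/
lemma sched (step : σ → T → σ) (new : σ → T → ℕ → T) (s₀ : σ) (t₀ : ℕ → T) :
    ∃ (st : ℕ → σ) (τ : ℕ → T), st 0 = s₀ ∧ (∀ k, st (k + 1) = step (st k) (τ k)) ∧
      (∀ j, ∃ k, τ k = t₀ j) ∧ ∀ k j, ∃ m, τ m = new (st k) (τ k) j := by
  classical
  let tk : ℕ → σ × (ℕ → ℕ → T) → T := fun k g => g.2 k.unpair.1 k.unpair.2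
  let g : ℕ → σ × (ℕ → ℕ → T) := fun k => Nat.rec (s₀, fun _ => t₀)
    (fun k g => (step g.1 (tk k g), Function.update g.2 (k + 1) (new g.1 (tk k g)))) k
  have hg : ∀ k, g (k + 1) = (step (g k).1 (tk k (g k)),
    Function.update (g k).2 (k + 1) (new (g k).1 (tk k (g k)))) := fun k => rfl
  have hstab : ∀ i d, (g (i + d)).2 i = (g i).2 i := by
    intro i d
    induction d with
    | zero => rfl
    | succ d ih =>
      rw [← Nat.add_assoc, hg]
      simp only
      rw [Function.update_of_ne (by omega), ih]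
  have htk : ∀ i j, tk (Nat.pair i j) (g (Nat.pair i j)) = (g i).2 i j := by
    intro i j
    obtain ⟨d, hd⟩ := Nat.exists_eq_add_of_le (Nat.left_le_pair i j)
    simp only [tk, Nat.unpair_pair]
    have := hstab i d
    rw [← hd] at this
    rw [this]
  refine ⟨fun k => (g k).1, fun k => tk k (g k), rfl, fun k => by simp only [hg], fun j => ?_,
    fun k j => ?_⟩
  · exact ⟨Nat.pair 0 j, htk 0 j⟩
  · refine ⟨Nat.pair (k + 1) j, ?_⟩
    show tk (Nat.pair (k + 1) j) (g (Nat.pair (k + 1) j)) = _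
    rw [htk, hg]
    simp only
    rw [Function.update_self]

end sched

section core

variable {Λ : Type u} {Y : Type w} [DecidableEq Λ]
variable (v : Y → Λ → Bool) (U : Y → Set Y) (S : Y → Finset Λ)

/-- the support of a finite function given as a set of pairs -/
def rt (q : Finset (Λ × Bool)) : Finset Λ := q.image Prod.fst

/-- points whose neighbourhood extends `q` by `n` coordinates -/
def E (q : Finset (Λ × Bool)) (n : ℕ) : Set Y :=
  {x | (∀ p ∈ q, p.1 ∈ S x ∧ v x p.1 = p.2) ∧ (S x \ rt q).card = n}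

/-- the union of the neighbourhoods -/
def UU (D : Set Y) : Set Y := {z | ∃ d ∈ D, z ∈ U d}

variable {v U S}

lemma E_insert {q : Finset (Λ × Bool)} {n : ℕ} {x : Y} (hx : x ∈ E v S q (n + 1)) {a : Λ}
    (ha : a ∈ S x \ rt q) : x ∈ E v S (insert (a, v x a) q) n := by
  obtain ⟨h1, h2⟩ := hx
  refine ⟨fun p hp => ?_, ?_⟩
  · rcases Finset.mem_insert.1 hp with rfl | hp
    · exact ⟨(Finset.mem_sdiff.1 ha).1, rfl⟩
    · exact h1 p hp
  · have : S x \ rt (insert (a, v x a) q) = (S x \ rt q).erase a := by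
      ext b
      simp only [rt, Finset.image_insert, Finset.mem_sdiff, Finset.mem_insert, Finset.mem_erase]
      tauto
    rw [this, Finset.card_erase_of_mem ha, h2]
    rfl

lemma mem_U_of (hU : ∀ x z, (∀ a ∈ S x, v z a = v x a) → z ∈ U x) {q : Finset (Λ × Bool)}
    {n m : ℕ} {x y : Y} (hx : x ∈ E v S q n) (hy : y ∈ E v S q m)
    (h : ∀ a ∈ S y \ rt q, v x a = v y a) : x ∈ U y := by
  apply hU
  intro a ha
  by_cases h1 : a ∈ rt q
  · obtain ⟨p, hp, rfl⟩ := Finset.mem_image.1 h1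
    rw [(hx.1 p hp).2, (hy.1 p hp).2]
  · exact h a (Finset.mem_sdiff.2 ⟨ha, h1⟩)

/-- the HFC property in the form used below -/
def Hfc (v : Y → Λ → Bool) : Prop :=
  ∀ (n : ℕ) (y : ℕ → Y) (F : ℕ → Finset Λ), 0 < n → (∀ i, (F i).card = n) →
    (∀ i j, i < j → Disjoint (F i) (F j)) → {x : Y | ∀ i, ∃ a ∈ F i, v x a ≠ v (y i) a}.Countable

/-- each set has a countable subset whose neighbourhoods cover it: one type -/
lemma kernel_aux (hU : ∀ x z, (∀ a ∈ S x, v z a = v x a) → z ∈ U x) (hfc : Hfc v) (n : ℕ) :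
    ∀ (q : Finset (Λ × Bool)) (W : Set Y), W ⊆ E v S q n →
      ∃ C ⊆ W, C.Countable ∧ W ⊆ UU U C := by
  induction n with
  | zero =>
    intro q W hW
    rcases W.eq_empty_or_nonempty with rfl | ⟨y, hy⟩
    · exact ⟨∅, subset_rfl, countable_empty, fun x hx => hx.elim⟩
    · refine ⟨{y}, singleton_subset_iff.2 hy, countable_singleton y, fun x hx => ⟨y, rfl, ?_⟩⟩
      refine mem_U_of hU (hW hx) (hW hy) fun a ha => ?_
      rw [Finset.card_eq_zero.1 (hW hy).2] at ha
      simp at ha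
  | succ n ih =>
    intro q W hW
    by_cases h : ∃ A : Finset Λ, ∀ x ∈ W, ¬ Disjoint (S x \ rt q) A
    · obtain ⟨A, hA⟩ := h
      have h1 : ∀ p : Λ × Bool, ∃ C ⊆ {x ∈ W | p.1 ∈ S x \ rt q ∧ v x p.1 = p.2}, C.Countable ∧
          {x ∈ W | p.1 ∈ S x \ rt q ∧ v x p.1 = p.2} ⊆ UU U C := by
        intro p
        apply ih (insert p q)
        rintro x ⟨hx, hx1, hx2⟩
        have := E_insert (hW hx) hx1
        rwa [hx2] at this
      choose C hC1 hC2 hC3 using h1
      refine ⟨⋃ p ∈ A ×ˢ (Finset.univ : Finset Bool), C p, ?_, ?_, ?_⟩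
      · exact iUnion₂_subset fun p _ => (hC1 p).trans (sep_subset _ _)
      · exact Set.Countable.biUnion (Finset.countable_toSet _) fun p _ => hC2 p
      · intro x hx
        obtain ⟨a, ha1, ha2⟩ := Finset.not_disjoint_iff.1 (hA x hx)
        obtain ⟨d, hd, hxd⟩ := hC3 (a, v x a) ⟨hx, ha1, rfl⟩
        refine ⟨d, mem_iUnion₂.2 ⟨(a, v x a), ?_, hd⟩, hxd⟩
        simp [ha2]
    · push Not at h
      obtain ⟨y, hy1, hy2⟩ := exists_seq (fun _ => W) (fun x => S x \ rt q) (fun _ A => h A)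
      have hc := hfc (n + 1) y (fun i => S (y i) \ rt q) (Nat.succ_pos n)
        (fun i => (hW (hy1 i)).2) hy2
      refine ⟨range y ∪ (W ∩ {x : Y | ∀ i, ∃ a ∈ S (y i) \ rt q, v x a ≠ v (y i) a}), ?_, ?_, ?_⟩
      · rintro x (⟨i, rfl⟩ | hx)
        · exact hy1 i
        · exact hx.1
      · exact (countable_range y).union (hc.mono inter_subset_right)
      · intro x hx
        by_cases h3 : ∀ i, ∃ a ∈ S (y i) \ rt q, v x a ≠ v (y i) a
        · exact ⟨x, Or.inr ⟨hx, h3⟩, hU x x fun _ _ => rfl⟩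
        · push Not at h3
          obtain ⟨i, hi⟩ := h3
          exact ⟨y i, Or.inl ⟨i, rfl⟩, mem_U_of hU (hW hx) (hW (hy1 i)) hi⟩

/-- each set has a countable subset whose neighbourhoods cover it -/
lemma kernel (hU : ∀ x z, (∀ a ∈ S x, v z a = v x a) → z ∈ U x) (hfc : Hfc v) (W : Set Y) :
    ∃ C ⊆ W, C.Countable ∧ W ⊆ UU U C := by
  have h1 : ∀ n : ℕ, ∃ C ⊆ W ∩ E v S ∅ n, C.Countable ∧ W ∩ E v S ∅ n ⊆ UU U C := fun n =>
    kernel_aux hU hfc n ∅ _ inter_subset_right
  choose C hC1 hC2 hC3 using h1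
  refine ⟨⋃ n, C n, iUnion_subset fun n => (hC1 n).trans inter_subset_left,
    countable_iUnion hC2, fun x hx => ?_⟩
  obtain ⟨d, hd, hxd⟩ := hC3 (S x \ rt ∅).card ⟨hx, by simp, rfl⟩
  exact ⟨d, mem_iUnion.2 ⟨_, hd⟩, hxd⟩

/-- local finiteness in the topology generated by the sets `U x` -/
def LF (U : Y → Set Y) (D : Set Y) : Prop :=
  ∀ z : Y, ∃ F : Finset Y, (∀ x ∈ F, z ∈ U x) ∧ {d ∈ D | ∀ x ∈ F, d ∈ U x}.Finite

lemma LF.of_finite {D : Set Y} (h : D.Finite) : LF U D := fun z =>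
  ⟨∅, by simp, h.subset (sep_subset _ _)⟩

/-- the tasks -/
abbrev Task (Λ : Type u) (Y : Type w) : Type (max u w) := (Finset (Λ × Bool) × ℕ) ⊕ Y

/-- the class of points a task is responsible for -/
def cls (v : Y → Λ → Bool) (S : Y → Finset Λ) : Task Λ Y → Set Y
  | Sum.inl p => E v S p.1 p.2
  | Sum.inr y => {y}

/-- the rank of a task -/
def rk : Task Λ Y → ℕ
  | Sum.inl p => p.2 + 1
  | Sum.inr _ => 0

/-- the step -/
lemma step (hU : ∀ x z, (∀ a ∈ S x, v z a = v x a) → z ∈ U x) (hfc : Hfc v) (D : Set Y)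
    (t : Task Λ Y) : ∃ (D' : Set Y) (nt : ℕ → Task Λ Y), D' ⊆ (UU U D)ᶜ ∧ LF U D' ∧
      ∀ x ∈ cls v S t, x ∈ UU U D ∪ UU U D' ∨ ∃ j, x ∈ cls v S (nt j) ∧ rk (nt j) < rk t := by
  classical
  have hself : ∀ x : Y, x ∈ U x := fun x => hU x x fun _ _ => rfl
  rcases t with ⟨q, n⟩ | y
  swap
  · by_cases hy : y ∈ UU U D
    · refine ⟨∅, fun _ => Sum.inr y, empty_subset _, LF.of_finite finite_empty, ?_⟩
      rintro x rfl
      exact Or.inl (Or.inl hy)
    · refine ⟨{y}, fun _ => Sum.inr y, singleton_subset_iff.2 hy,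
        LF.of_finite (finite_singleton y), ?_⟩
      rintro x rfl
      exact Or.inl (Or.inr ⟨x, rfl, hself x⟩)
  rcases n with _ | n
  · by_cases hne : (E v S q 0 \ UU U D).Nonempty
    · obtain ⟨y, hy1, hy2⟩ := hne
      refine ⟨{y}, fun _ => Sum.inr y, singleton_subset_iff.2 hy2,
        LF.of_finite (finite_singleton y), fun x hx => Or.inl (Or.inr ⟨y, rfl, ?_⟩)⟩
      refine mem_U_of hU (hx : x ∈ E v S q 0) hy1 fun a ha => ?_
      rw [Finset.card_eq_zero.1 hy1.2] at ha
      simp at ha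
    · refine ⟨∅, fun _ => Sum.inl (q, 0), empty_subset _, LF.of_finite finite_empty,
        fun x hx => Or.inl (Or.inl ?_)⟩
      by_contra h
      exact hne ⟨x, hx, h⟩
  obtain ⟨C, hC1, hC2, hC3⟩ := kernel hU hfc (UU U D)ᶜ
  rcases C.eq_empty_or_nonempty with rfl | hCne
  · refine ⟨∅, fun _ => Sum.inl (q, 0), empty_subset _, LF.of_finite finite_empty,
      fun x _ => Or.inl (Or.inl ?_)⟩
    by_contra h
    obtain ⟨d, hd, -⟩ := hC3 h
    exact hd
  obtain ⟨c, rfl⟩ := hC2.exists_eq_range hCne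
  by_cases h : ∃ (i : ℕ) (A : Finset Λ), ∀ x ∈ E v S q (n + 1), x ∉ UU U D →
      (∀ j < i, x ∉ U (c j)) → ¬ Disjoint (S x \ rt q) A
  · obtain ⟨i, A, hA⟩ := h
    refine ⟨c '' Iio i, ?_⟩
    have hcov : ∀ x ∈ E v S q (n + 1), x ∉ UU U D ∪ UU U (c '' Iio i) →
        ∃ a ∈ A, a ∈ S x \ rt q := by
      intro x hx hx2
      have := hA x hx (fun h => hx2 (Or.inl h)) (fun j hj h => hx2 (Or.inr ⟨c j, ⟨j, hj, rfl⟩, h⟩))
      obtain ⟨a, h1, h2⟩ := Finset.not_disjoint_iff.1 this
      exact ⟨a, h2, h1⟩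
    have hD' : c '' Iio i ⊆ (UU U D)ᶜ := by
      rintro _ ⟨j, -, rfl⟩
      exact hC1 ⟨j, rfl⟩
    have hfin : (c '' Iio i).Finite := (finite_Iio i).image c
    rcases (A ×ˢ (Finset.univ : Finset Bool)).eq_empty_or_nonempty with hAe | hAne
    · refine ⟨fun _ => Sum.inl (q, 0), hD', LF.of_finite hfin, fun x hx => Or.inl ?_⟩
      by_contra h
      obtain ⟨a, ha, -⟩ := hcov x hx h
      have : (a, true) ∈ A ×ˢ (Finset.univ : Finset Bool) := by simp [ha]
      rw [hAe] at this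
      simp at this
    · obtain ⟨e, he⟩ := (Finset.countable_toSet (A ×ˢ (Finset.univ : Finset Bool))).exists_eq_range
        (by exact_mod_cast hAne)
      refine ⟨fun j => Sum.inl (insert (e j) q, n), hD', LF.of_finite hfin, fun x hx => ?_⟩
      by_cases h : x ∈ UU U D ∪ UU U (c '' Iio i)
      · exact Or.inl h
      · obtain ⟨a, ha, ha2⟩ := hcov x hx h
        have hmem : ((a, v x a) : Λ × Bool) ∈ (↑(A ×ˢ (Finset.univ : Finset Bool)) : Set (Λ × Bool)) := by
          simp [ha]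
        rw [he] at hmem
        obtain ⟨j, hj⟩ := hmem
        refine Or.inr ⟨j, ?_, by simp [rk]⟩
        show x ∈ E v S (insert (e j) q) n
        rw [hj]
        exact E_insert hx ha2
  · push Not at h
    obtain ⟨y, hy1, hy2⟩ := exists_seq
      (fun i => {x | x ∈ E v S q (n + 1) ∧ x ∉ UU U D ∧ ∀ j < i, x ∉ U (c j)})
      (fun x => S x \ rt q) (fun i A => by
        obtain ⟨x, h1, h2, h3, h4⟩ := h i A
        exact ⟨x, ⟨h1, h2, h3⟩, h4⟩)
    have hc := hfc (n + 1) y (fun i => S (y i) \ rt q) (Nat.succ_pos n)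
      (fun i => (hy1 i).1.2) hy2
    have hLF : LF U (range y) := by
      intro z
      by_cases hz : z ∈ UU U D
      · obtain ⟨d, hd, hzd⟩ := hz
        refine ⟨{d}, by simpa using hzd, ?_⟩
        convert finite_empty (α := Y)
        ext x
        simp only [mem_range, Finset.mem_singleton, forall_eq, mem_ofPred_eq,
          mem_empty_iff_false, iff_false, not_and]
        rintro ⟨i, rfl⟩ hx
        exact (hy1 i).2.1 ⟨d, hd, hx⟩
      · obtain ⟨_, ⟨j, rfl⟩, hzj⟩ := hC3 hz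
        refine ⟨{c j}, by simpa using hzj, ((finite_Iic j).image y).subset ?_⟩
        rintro x ⟨⟨i, rfl⟩, hx⟩
        simp only [Finset.mem_singleton, forall_eq] at hx
        refine ⟨i, ?_, rfl⟩
        by_contra hij
        exact (hy1 i).2.2 j (not_le.1 hij) hx
    have hD' : range y ⊆ (UU U D)ᶜ := by
      rintro _ ⟨i, rfl⟩
      exact (hy1 i).2.1
    rcases {x : Y | ∀ i, ∃ a ∈ S (y i) \ rt q, v x a ≠ v (y i) a}.eq_empty_or_nonempty with hP | hP
    · refine ⟨range y, fun _ => Sum.inl (q, 0), hD', hLF, fun x hx => Or.inl (Or.inr ?_)⟩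
      have : x ∉ {x : Y | ∀ i, ∃ a ∈ S (y i) \ rt q, v x a ≠ v (y i) a} := by
        rw [hP]; exact fun h => h
      simp only [mem_ofPred_eq] at this
      push Not at this
      obtain ⟨i, hi⟩ := this
      exact ⟨y i, ⟨i, rfl⟩, mem_U_of hU hx (hy1 i).1 hi⟩
    · obtain ⟨p, hp⟩ := hc.exists_eq_range hP
      refine ⟨range y, fun j => Sum.inr (p j), hD', hLF, fun x hx => ?_⟩
      by_cases h3 : ∀ i, ∃ a ∈ S (y i) \ rt q, v x a ≠ v (y i) a
      · have : x ∈ {x : Y | ∀ i, ∃ a ∈ S (y i) \ rt q, v x a ≠ v (y i) a} := h3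
        rw [hp] at this
        obtain ⟨j, hj⟩ := this
        exact Or.inr ⟨j, hj.symm, by simp [rk]⟩
      · push Not at h3
        obtain ⟨i, hi⟩ := h3
        exact Or.inl (Or.inr ⟨y i, ⟨i, rfl⟩, mem_U_of hU hx (hy1 i).1 hi⟩)

/-- the core -/
theorem core (hU : ∀ x z, (∀ a ∈ S x, v z a = v x a) → z ∈ U x) (hfc : Hfc v) :
    ∃ D : Set Y, (∀ z, ∃ d ∈ D, z ∈ U d) ∧ LF U D := by
  classical
  choose f nt hf1 hf2 hf3 using fun (D : Set Y) (t : Task Λ Y) => step hU hfc D t
  obtain ⟨st, τ, hs0, hs, ht0, htn⟩ := sched (fun D t => D ∪ f D t) nt (∅ : Set Y)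
    (fun n => (Sum.inl (∅, n) : Task Λ Y))
  have hmono : Monotone st := monotone_nat_of_le_succ fun k => by
    rw [hs]; exact subset_union_left
  have hUUmono : ∀ {A B : Set Y}, A ⊆ B → UU U A ⊆ UU U B := fun h x ⟨d, hd, hx⟩ => ⟨d, h hd, hx⟩
  -- every point of a treated class is covered
  have hcov : ∀ (r k : ℕ), rk (τ k) ≤ r → ∀ x ∈ cls v S (τ k), ∃ m, x ∈ UU U (st m) := by
    intro r
    induction r with
    | zero =>
      intro k hk x hx
      rcases hf3 (st k) (τ k) x hx with h | ⟨j, -, hj⟩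
      · refine ⟨k + 1, ?_⟩
        rw [hs]
        rcases h with h | h
        · exact hUUmono subset_union_left h
        · exact hUUmono subset_union_right h
      · omega
    | succ r ih =>
      intro k hk x hx
      rcases hf3 (st k) (τ k) x hx with h | ⟨j, hj1, hj2⟩
      · refine ⟨k + 1, ?_⟩
        rw [hs]
        rcases h with h | h
        · exact hUUmono subset_union_left h
        · exact hUUmono subset_union_right h
      · obtain ⟨m, hm⟩ := htn k j
        apply ih m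
        · rw [hm]; omega
        · rw [hm]; exact hj1
  have hall : ∀ x : Y, ∃ m, x ∈ UU U (st m) := by
    intro x
    obtain ⟨k, hk⟩ := ht0 (S x \ rt ∅).card
    apply hcov _ k le_rfl
    rw [hk]
    exact ⟨by simp, rfl⟩
  have hmem : ∀ d m, d ∈ st m → ∃ i < m, d ∈ f (st i) (τ i) := by
    intro d m
    induction m with
    | zero =>
      intro h
      rw [hs0] at h
      exact h.elim
    | succ m ih =>
      intro h
      rw [hs] at h
      rcases h with h | h
      · obtain ⟨i, hi, h⟩ := ih h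
        exact ⟨i, by omega, h⟩
      · exact ⟨m, by omega, h⟩
  refine ⟨⋃ m, st m, fun z => ?_, fun z => ?_⟩
  · obtain ⟨m, d, hd, hz⟩ := hall z
    exact ⟨d, mem_iUnion.2 ⟨m, hd⟩, hz⟩
  · obtain ⟨m, d, hd, hz⟩ := hall z
    choose F hF1 hF2 using fun i => hf2 (st i) (τ i) z
    refine ⟨insert d ((Finset.range m).biUnion F), ?_, ?_⟩
    · intro x hx
      rcases Finset.mem_insert.1 hx with rfl | hx
      · exact hz
      · obtain ⟨i, -, hi⟩ := Finset.mem_biUnion.1 hx
        exact hF1 i x hi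
    · refine ((Finset.finite_toSet (Finset.range m)).biUnion (t := fun i =>
        {d ∈ f (st i) (τ i) | ∀ x ∈ F i, d ∈ U x}) fun i _ => hF2 i).subset ?_
      rintro x ⟨hx1, hx2⟩
      obtain ⟨l, hl⟩ := mem_iUnion.1 hx1
      obtain ⟨i, -, hi⟩ := hmem x l hl
      have him : i < m := by
        by_contra him
        apply hf1 (st i) (τ i) hi
        exact ⟨d, hmono (not_lt.1 him) hd, hx2 d (Finset.mem_insert_self _ _)⟩
      refine mem_iUnion₂.2 ⟨i, by simpa using him, hi, fun y hy => ?_⟩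
      exact hx2 y (Finset.mem_insert_of_mem (Finset.mem_biUnion.2 ⟨i, by simpa using him, hy⟩))

end core

end Pool.Agent.Q209.HFCD
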