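import Mathlib
import Pool.Agent.Q209.HFCD

/-!
# HFC subspaces of Cantor cubes are strongly D, hence D-spaces
-/

set_option autoImplicit false

namespace Pool.Agent.Q209.HFCDefs

open Set Topology

universe u

/-- the basic clopen set `[F * b]`: the points whose value at the `i`-th element of `F`, in
increasing order, is `b i` -/
def Cyl {L : Type u} [LinearOrder L] (F : Finset L) {n : ℕ} (h : F.card = n) (b : Fin n → Bool) :
    Set (L → Bool) :=
  {x | ∀ i : Fin n, x (F.orderEmbOfFin h i) = b i}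

/-- `X ⊆ 2^L` is HFC: for all `n`, all `b : n → 2` and all infinite families `A` of pairwise
disjoint `n`-element subsets of `L`, only countably many points of `X` lie outside all the sets
`[F * b]`, `F ∈ A`. -/
def HFC {L : Type u} [LinearOrder L] (X : Set (L → Bool)) : Prop :=
  ∀ (n : ℕ) (b : Fin n → Bool) (A : Set (Finset L)) (hn : ∀ F ∈ A, F.card = n),
    A.Infinite → A.PairwiseDisjoint id →
    (X \ ⋃ (F : Finset L) (hF : F ∈ A), Cyl F (hn F hF) b).Countable

/-- neighbourhood assignments: `U x` is an open set containing `x` -/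
def NbhdAssignment {Y : Type u} [TopologicalSpace Y] (U : Y → Set Y) : Prop :=
  ∀ x, IsOpen (U x) ∧ x ∈ U x

/-- D-spaces: each neighbourhood assignment has a closed discrete kernel -/
def DSpace (Y : Type u) [TopologicalSpace Y] : Prop :=
  ∀ U : Y → Set Y, NbhdAssignment U →
    ∃ D : Set Y, IsClosed D ∧ DiscreteTopology D ∧ ⋃ x ∈ D, U x = univ

/-- strongly D spaces: each neighbourhood assignment `U` has a kernel `D` such that each point `z`
lies in the intersection of finitely many sets `U x` which contains only finitely many points of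
`D` -/
def StronglyD (Y : Type u) [TopologicalSpace Y] : Prop :=
  ∀ U : Y → Set Y, NbhdAssignment U →
    ∃ D : Set Y, ⋃ x ∈ D, U x = univ ∧
      ∀ z : Y, ∃ F : Finset Y, z ∈ ⋂ x ∈ F, U x ∧ ((⋂ x ∈ F, U x) ∩ D).Finite

/-- the combinatorial form of HFC -/
lemma hfc_core {L : Type u} [LinearOrder L] {X : Set (L → Bool)} (h : HFC X) :
    HFCD.Hfc (fun x : X => x.1) := by
  classical
  intro n y F hn hF hd
  let b : ℕ → Fin n → Bool := fun i j => (y i).1 ((F i).orderEmbOfFin (hF i) j)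
  obtain ⟨b₀, hb₀⟩ := Finite.exists_infinite_fiber b
  have hI : (b ⁻¹' {b₀}).Infinite := Set.infinite_coe_iff.1 hb₀
  have hne : ∀ i, (F i).Nonempty := fun i => Finset.card_pos.1 (by rw [hF]; exact hn)
  have hd' : ∀ i j, i ≠ j → Disjoint (F i) (F j) := by
    intro i j hij
    rcases lt_or_gt_of_ne hij with h | h
    · exact hd i j h
    · exact (hd j i h).symm
  have hinj : Function.Injective F := by
    intro i j hij
    by_contra hne'
    have := hd' i j hne'
    rw [hij, disjoint_self] at this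
    exact (hne j).ne_empty this
  have hcard : ∀ G ∈ F '' (b ⁻¹' {b₀}), G.card = n := by
    rintro _ ⟨i, -, rfl⟩
    exact hF i
  have hc := h n b₀ (F '' (b ⁻¹' {b₀})) hcard (hI.image hinj.injOn) (by
    rintro _ ⟨i, -, rfl⟩ _ ⟨j, -, rfl⟩ hij
    exact hd' i j fun h => hij (by rw [h]))
  refine (hc.preimage Subtype.val_injective).mono ?_
  intro x hx
  refine ⟨x.2, fun hmem => ?_⟩
  simp only [mem_iUnion] at hmem
  obtain ⟨_, ⟨i, hi, rfl⟩, hx2⟩ := hmem
  obtain ⟨a, ha, hne⟩ := hx i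
  have : a ∈ range ((F i).orderEmbOfFin (hF i)) := by
    rw [Finset.range_orderEmbOfFin]; exact ha
  obtain ⟨j, rfl⟩ := this
  apply hne
  have h1 : x.1 ((F i).orderEmbOfFin (hF i) j) = b₀ j := hx2 j
  have h2 : b i = b₀ := hi
  show x.1 ((F i).orderEmbOfFin (hF i) j) = (y i).1 ((F i).orderEmbOfFin (hF i) j)
  rw [h1, ← h2]

/-- basic neighbourhoods -/
lemma exists_support {L : Type u} {X : Set (L → Bool)} (x : X) {U : Set X} (hU : IsOpen U)
    (hx : x ∈ U) : ∃ S : Finset L, ∀ z : X, (∀ a ∈ S, z.1 a = x.1 a) → z ∈ U := by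
  obtain ⟨V, hV, rfl⟩ := isOpen_induced_iff.1 hU
  obtain ⟨S, u, hu, hsub⟩ := isOpen_pi_iff.1 hV x.1 hx
  refine ⟨S, fun z hz => hsub ?_⟩
  intro a ha
  rw [hz a ha]
  exact (hu a ha).2

theorem stronglyD {L : Type u} [LinearOrder L] {X : Set (L → Bool)} (h : HFC X) :
    StronglyD X := by
  classical
  intro U hU
  choose S hS using fun x : X => exists_support x (hU x).1 (hU x).2
  obtain ⟨D, hD1, hD2⟩ := HFCD.core (v := fun x : X => x.1) (U := U) (S := S) hS (hfc_core h)
  refine ⟨D, eq_univ_of_forall fun z => ?_, fun z => ?_⟩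
  · obtain ⟨d, hd, hz⟩ := hD1 z
    exact mem_iUnion₂.2 ⟨d, hd, hz⟩
  · obtain ⟨F, hF1, hF2⟩ := hD2 z
    refine ⟨F, mem_iInter₂.2 hF1, hF2.subset ?_⟩
    rintro x ⟨hx1, hx2⟩
    exact ⟨hx2, fun y hy => mem_iInter₂.1 hx1 y hy⟩

/-- strongly D implies D for `T₁` spaces -/
theorem StronglyD.dSpace {Y : Type u} [TopologicalSpace Y] [T1Space Y] (h : StronglyD Y) :
    DSpace Y := by
  intro U hU
  obtain ⟨D, hD1, hD2⟩ := h U hU
  -- each point has an open neighbourhood meeting `D` in at most one point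
  have key : ∀ z : Y, ∃ V : Set Y, IsOpen V ∧ z ∈ V ∧ V ∩ D ⊆ {z} := by
    intro z
    obtain ⟨F, hz, hfin⟩ := hD2 z
    refine ⟨(⋂ x ∈ F, U x) ∩ (((⋂ x ∈ F, U x) ∩ D) \ {z})ᶜ, ?_, ⟨hz, fun h => h.2 rfl⟩, ?_⟩
    · exact (isOpen_biInter_finset fun x _ => (hU x).1).inter
        (hfin.subset sdiff_subset).isClosed.isOpen_compl
    · rintro x ⟨⟨h1, h2⟩, h3⟩
      by_contra hne
      exact h2 ⟨⟨h1, h3⟩, hne⟩
  refine ⟨D, ?_, ?_, hD1⟩
  · rw [← isOpen_compl_iff, isOpen_iff_forall_mem_open]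
    intro z hz
    obtain ⟨V, hV, hzV, hVD⟩ := key z
    refine ⟨V, fun x hx hxD => ?_, hV, hzV⟩
    have : x = z := hVD ⟨hx, hxD⟩
    exact hz (this ▸ hxD)
  · rw [← isDiscrete_iff_discreteTopology, isDiscrete_iff_forall_mem_exists_isOpen]
    intro z hz
    obtain ⟨V, hV, hzV, hVD⟩ := key z
    exact ⟨V, hV, subset_antisymm hVD (singleton_subset_iff.2 ⟨hzV, hz⟩)⟩

end Pool.Agent.Q209.HFCDefs
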