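import Mathlib

/-!
Finite colourings of the multiplication table of a group containing all finite powers of the
cyclic group of order three, and the group of homeomorphisms of the unit interval.
-/

set_option autoImplicit false

namespace Q209.HJ

open Combinatorics

/-- The cyclic group of order three. -/
abbrev Q : Type := Multiplicative (ZMod 3)

/-- Finite powers of `Q` embed into the permutations of the integers. -/
theorem exists_emb (ι : Type) [Finite ι] : ∃ Φ : (ι → Q) →* Equiv.Perm ℤ, Function.Injective Φ := by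
  have hc : Nonempty ((Σ _ : ι, Q) ↪ ℤ) := by
    obtain ⟨n, ⟨e⟩⟩ := Finite.exists_equiv_fin (Σ _ : ι, Q)
    exact ⟨⟨fun x => ((e x : ℕ) : ℤ), fun x y h => by
      have h0 : ((e x : ℕ) : ℤ) = ((e y : ℕ) : ℤ) := h
      have h1 : (e x : ℕ) = (e y : ℕ) := by exact_mod_cast h0
      exact e.injective (Fin.ext h1)⟩⟩
  obtain ⟨j⟩ := hc
  classical
  let Φ₁ : (ι → Q) →* (∀ _ : ι, Equiv.Perm Q) :=
    { toFun := fun q i => MulAction.toPermHom Q Q (q i)
      map_one' := by funext i; exact map_one _
      map_mul' := by intro a b; funext i; exact map_mul _ _ _ }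
  have h1 : Function.Injective Φ₁ := by
    intro a b hab
    funext i
    have h2 : MulAction.toPermHom Q Q (a i) = MulAction.toPermHom Q Q (b i) := congrFun hab i
    have h3 := Equiv.congr_fun h2 1
    simpa using h3
  refine ⟨((Equiv.Perm.viaEmbeddingHom j).comp (Equiv.Perm.sigmaCongrRightHom fun _ : ι => Q)).comp
    Φ₁, ?_⟩
  intro a b hab
  apply h1
  apply Equiv.Perm.sigmaCongrRightHom_injective
  apply Equiv.Perm.viaEmbeddingHom_injective j
  exact hab

/-- Combinatorial core: if the multiplication table of a group containing all finite powers of `Q`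
is covered by finitely many pieces, each of which is mapped by three injections into the
multiplication table of a group `K`, then `K` contains a copy of `Q`. -/
theorem exists_hom {G K κ : Type} [Group G] [Group K] [Finite κ]
    (hG : ∀ (ι : Type) [Finite ι], ∃ Φ : (ι → Q) →* G, Function.Injective Φ)
    (A : κ → Set (G × G)) (hA : ∀ x, ∃ i, x ∈ A i)
    (f₀ f₁ f₂ : κ → G → K) (h₀ : ∀ i, Function.Injective (f₀ i))
    (hf : ∀ i, ∀ x ∈ A i, f₀ i x.1 * f₁ i x.2 = f₂ i (x.1 * x.2)) :
    ∃ φ : Q →* K, Function.Injective φ := by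
  classical
  obtain ⟨ι, hι, hline⟩ := Line.exists_mono_in_high_dimension (Q × Q) κ
  obtain ⟨Φ, hΦ⟩ := hG ι
  choose c hc using hA
  let x : (ι → Q × Q) → (ι → Q) := fun w i => (w i).1
  let y : (ι → Q × Q) → (ι → Q) := fun w i => (w i).2
  obtain ⟨l, i, hl⟩ := hline (fun w => c (Φ (x w), Φ (y w)))
  obtain ⟨a, ha⟩ := l.proper
  -- the two coordinates along the line
  let X : Q → (ι → Q) := fun p j => ((l.idxFun j).getD (p, 1)).1
  let Y : Q → (ι → Q) := fun q j => ((l.idxFun j).getD (1, q)).2
  have hX : ∀ p q, x (l (p, q)) = X p := by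
    intro p q
    funext j
    simp only [x, X, Line.coe_apply]
    cases l.idxFun j <;> rfl
  have hY : ∀ p q, y (l (p, q)) = Y q := by
    intro p q
    funext j
    simp only [y, Y, Line.coe_apply]
    cases l.idxFun j <;> rfl
  have hXY : ∀ p q, X p * Y q = X (p * q) * Y 1 := by
    intro p q
    funext j
    simp only [X, Y, Pi.mul_apply]
    cases h : l.idxFun j <;> simp
  have hmem : ∀ p q, (Φ (X p), Φ (Y q)) ∈ A i := by
    intro p q
    have h1 := hl (p, q)
    simp only [hX, hY] at h1
    rw [← h1]
    exact hc _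
  let α : Q → K := fun p => f₀ i (Φ (X p))
  let β : Q → K := fun q => f₁ i (Φ (Y q))
  let γ : Q → K := fun r => f₂ i (Φ (X r * Y 1))
  have hαβ : ∀ p q, α p * β q = γ (p * q) := by
    intro p q
    have h1 := hf i _ (hmem p q)
    simp only at h1
    simp only [α, β, γ]
    rw [h1, ← map_mul, hXY]
  have hαinj : Function.Injective α := by
    intro p q hpq
    have h1 := hΦ (h₀ i hpq)
    have h2 := congrFun h1 a
    simpa [X, ha] using h2
  have e1 : ∀ p, α p * β 1 = γ p := fun p => by simpa using hαβ p 1
  have e2 : ∀ q, β q = (α 1)⁻¹ * γ q := fun q => by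
    have := hαβ 1 q
    rw [one_mul] at this
    rw [← this]
    group
  refine ⟨{ toFun := fun p => α p * (α 1)⁻¹, map_one' := by group, map_mul' := ?_ }, ?_⟩
  · intro p q
    have h1 := hαβ p q
    rw [e2 q, ← e1 q, ← e1 (p * q)] at h1
    have h2 : α p * (α 1)⁻¹ * α q = α (p * q) := by
      have h3 : α p * (α 1)⁻¹ * α q * β 1 = α (p * q) * β 1 := by
        rw [← h1]; group
      exact mul_right_cancel h3
    change α (p * q) * (α 1)⁻¹ = α p * (α 1)⁻¹ * (α q * (α 1)⁻¹)
    rw [← h2]
    group
  · intro p q hpq
    have h1 : α p * (α 1)⁻¹ = α q * (α 1)⁻¹ := hpq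
    exact hαinj (mul_right_cancel h1)

/-- The group of homeomorphisms of the unit interval has no element of order three. -/
theorem no_three (h : unitInterval ≃ₜ unitInterval) (h3 : h * h * h = 1) : h = 1 := by
  have e3 : ∀ x, h (h (h x)) = x := by
    intro x
    have := congrArg (fun g : unitInterval ≃ₜ unitInterval => g x) h3
    exact this
  rcases h.continuous.strictMono_of_inj h.injective with hm | hm
  · ext x
    congr 1
    change h x = x
    rcases lt_trichotomy (h x) x with hx | hx | hx
    · have h1 := hm hx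
      have h2 := hm h1
      rw [e3] at h2
      exact absurd ((h2.trans h1).trans hx) (lt_irrefl _)
    · exact hx
    · have h1 := hm hx
      have h2 := hm h1
      rw [e3] at h2
      exact absurd ((hx.trans h1).trans h2) (lt_irrefl _)
  · exfalso
    have h0 : (0 : unitInterval) < 1 := by
      exact zero_lt_one
    have h1 := hm (hm (hm h0))
    rw [e3, e3] at h1
    exact absurd (h0.trans h1) (lt_irrefl _)

theorem not_hom (φ : Q →* (unitInterval ≃ₜ unitInterval)) : ¬ Function.Injective φ := by
  intro hφ
  have h1 : φ (Multiplicative.ofAdd (1 : ZMod 3)) = 1 := by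
    apply no_three
    rw [← map_mul, ← map_mul]
    have : (Multiplicative.ofAdd (1 : ZMod 3) * Multiplicative.ofAdd (1 : ZMod 3) *
      Multiplicative.ofAdd (1 : ZMod 3) : Q) = 1 := by decide
    rw [this, map_one]
  rw [← map_one φ] at h1
  have h2 := hφ h1
  revert h2
  decide

end Q209.HJ
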