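import Mathlib

/-!
The groups of permutations of the integers and of homeomorphisms of the unit interval have the same
cardinality.
-/

set_option autoImplicit false

namespace Q209.HJ

open Cardinal

theorem den_pos {t : ℝ} (ht : 0 < t) (x : unitInterval) : 0 < (x : ℝ) + t * (1 - x) := by
  have h0 := x.2.1
  have h1 := x.2.2
  rcases h0.eq_or_lt with h | h
  · rw [← h]; simpa using ht
  · have : 0 ≤ t * (1 - (x : ℝ)) := mul_nonneg ht.le (by linarith)
    linarith

/-- A fractional linear map of the unit interval. -/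
noncomputable def mob {t : ℝ} (ht : 0 < t) (x : unitInterval) : unitInterval :=
  ⟨(x : ℝ) / (x + t * (1 - x)), by
    have hd := den_pos ht x
    refine ⟨div_nonneg x.2.1 hd.le, ?_⟩
    rw [div_le_one hd]
    have : 0 ≤ t * (1 - (x : ℝ)) := mul_nonneg ht.le (by linarith [x.2.2])
    linarith⟩

theorem mob_inv {t : ℝ} (ht : 0 < t) (x : unitInterval) :
    mob (inv_pos.2 ht) (mob ht x) = x := by
  have hd := den_pos ht x
  have hd2 := den_pos (inv_pos.2 ht) (mob ht x)
  apply Subtype.ext
  change ((x : ℝ) / (x + t * (1 - x))) / ((x : ℝ) / (x + t * (1 - x)) +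
    t⁻¹ * (1 - (x : ℝ) / (x + t * (1 - x)))) = x
  have h1 : (x : ℝ) / (x + t * (1 - x)) + t⁻¹ * (1 - (x : ℝ) / (x + t * (1 - x))) =
      1 / (x + t * (1 - x)) := by
    field_simp
    ring
  rw [h1]
  field_simp

theorem mob_continuous {t : ℝ} (ht : 0 < t) : Continuous (mob ht) := by
  unfold mob
  refine Continuous.subtype_mk ?_ _
  refine Continuous.div (by fun_prop) (by fun_prop) ?_
  intro x
  exact (den_pos ht x).ne'

/-- The fractional linear map as a homeomorphism. -/
noncomputable def mobH {t : ℝ} (ht : 0 < t) : unitInterval ≃ₜ unitInterval where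
  toFun := mob ht
  invFun := mob (inv_pos.2 ht)
  left_inv := mob_inv ht
  right_inv x := by
    have h := mob_inv (inv_pos.2 ht) x
    have h2 : ∀ (s : ℝ) (hs : 0 < s) (y : unitInterval), s = t → mob hs y = mob ht y := by
      rintro s hs y rfl
      rfl
    rwa [h2 _ _ _ (inv_inv t)] at h
  continuous_toFun := mob_continuous ht
  continuous_invFun := mob_continuous (inv_pos.2 ht)

theorem card_homeo : #(↥unitInterval ≃ₜ ↥unitInterval) = 𝔠 := by
  apply le_antisymm
  · have h1 : #(↥unitInterval ≃ₜ ↥unitInterval) ≤ #(ℕ → unitInterval) := by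
      refine ⟨⟨fun h n => h (TopologicalSpace.denseSeq unitInterval n), ?_⟩⟩
      intro h g hhg
      have h2 : (h : unitInterval → unitInterval) = g := by
        refine Continuous.ext_on (TopologicalSpace.denseRange_denseSeq unitInterval) h.continuous
          g.continuous ?_
        rintro _ ⟨n, rfl⟩
        exact congrFun hhg n
      ext x
      rw [h2]
    refine h1.trans ?_
    rw [← Cardinal.power_def, Cardinal.mk_nat]
    have : #(unitInterval) = 𝔠 := Cardinal.mk_Icc_real (zero_lt_one)
    rw [this, continuum_power_aleph0]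
  · rw [← Cardinal.mk_Ioi_real (0 : ℝ)]
    refine ⟨⟨fun t => mobH t.2, ?_⟩⟩
    intro s t hst
    have h1 : mobH s.2 ⟨1/2, by norm_num, by norm_num⟩ = mobH t.2 ⟨1/2, by norm_num, by norm_num⟩ := by
      simp only at hst
      rw [hst]
    have h2 : ((1/2 : ℝ) / (1/2 + s.1 * (1 - 1/2))) = ((1/2 : ℝ) / (1/2 + t.1 * (1 - 1/2))) :=
      congrArg Subtype.val h1
    have hs := s.2
    have ht := t.2
    simp only [Set.mem_Ioi] at hs ht
    apply Subtype.ext
    have hs' : (1/2 + s.1 * (1 - 1/2) : ℝ) ≠ 0 := by positivity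
    have ht' : (1/2 + t.1 * (1 - 1/2) : ℝ) ≠ 0 := by positivity
    field_simp at h2
    linarith

theorem nonempty_equiv : Nonempty (Equiv.Perm ℤ ≃ (unitInterval ≃ₜ unitInterval)) := by
  rw [← Cardinal.eq, card_homeo, Cardinal.mk_perm_eq_self_power, Cardinal.mk_int,
    aleph0_power_aleph0]

end Q209.HJ
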