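import Mathlib

/-!
Fusion of perfect subsets of the Cantor space.
-/

set_option autoImplicit false

namespace Q209.JF

open Set Filter Topology

/-- The Cantor space. -/
abbrev Y : Type := ℕ → Bool

/-- The basic open sets. -/
def cyl (y : Y) (m : ℕ) : Set Y := {z | ∀ i < m, z i = y i}

theorem mem_cyl_self (y : Y) (m : ℕ) : y ∈ cyl y m := fun _ _ => rfl

theorem cyl_anti {m n : ℕ} (h : m ≤ n) (y : Y) : cyl y n ⊆ cyl y m := fun _ hz i hi =>
  hz i (hi.trans_le h)

theorem cyl_clopen (y : Y) (m : ℕ) : IsClopen (cyl y m) := by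
  have : cyl y m = ⋂ i ∈ Finset.range m, (fun z : Y => z i) ⁻¹' {y i} := by
    ext z
    simp [cyl]
  rw [this]
  exact isClopen_biInter_finset fun i _ => (isClopen_discrete _).preimage (continuous_apply i)

theorem exists_cyl {U : Set Y} (hU : IsOpen U) {y : Y} (hy : y ∈ U) : ∃ m, cyl y m ⊆ U := by
  obtain ⟨I, u, hu, hsub⟩ := isOpen_pi_iff.1 hU y hy
  refine ⟨I.sup id + 1, fun z hz => hsub fun i hi => ?_⟩
  have h1 : i < I.sup id + 1 := Nat.lt_succ_of_le (Finset.le_sup (f := id) hi)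
  rw [hz i h1]
  exact (hu i hi).2

theorem exists_sep {y z : Y} (h : y ≠ z) : ∃ m, Disjoint (cyl y m) (cyl z m) := by
  obtain ⟨i, hi⟩ := Function.ne_iff.1 h
  refine ⟨i + 1, Set.disjoint_left.2 fun w hw hw' => hi ?_⟩
  rw [← hw i (Nat.lt_succ_self i), ← hw' i (Nat.lt_succ_self i)]

/-- Perfect sets. -/
def Perf (P : Set Y) : Prop :=
  IsClosed P ∧ P.Nonempty ∧ ∀ y ∈ P, ∀ m, ∃ y' ∈ P, y' ≠ y ∧ y' ∈ cyl y m

theorem perf_univ : Perf (univ : Set Y) := by
  refine ⟨isClosed_univ, univ_nonempty, fun y _ m => ?_⟩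
  classical
  refine ⟨Function.update y m (!(y m)), mem_univ _, fun h => ?_, fun i hi => ?_⟩
  · have := congrFun h m
    simp at this
  · rw [Function.update_of_ne hi.ne]

theorem Perf.inter {P K : Set Y} (hP : Perf P) (hK : IsClopen K) (hne : (P ∩ K).Nonempty) :
    Perf (P ∩ K) := by
  refine ⟨hP.1.inter hK.1, hne, fun y hy m => ?_⟩
  obtain ⟨m', hm'⟩ := exists_cyl hK.2 hy.2
  obtain ⟨y', hy', hne', hcyl⟩ := hP.2.2 y hy.1 (max m m')
  exact ⟨y', ⟨hy', hm' (cyl_anti (le_max_right _ _) y hcyl)⟩, hne',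
    cyl_anti (le_max_left _ _) y hcyl⟩

theorem Perf.exists_ne {P : Set Y} (hP : Perf P) (y : Y) : ∃ y' ∈ P, y' ≠ y := by
  obtain ⟨z, hz⟩ := hP.2.1
  by_cases h : z = y
  · subst h
    obtain ⟨y', hy', hne, _⟩ := hP.2.2 z hz 0
    exact ⟨y', hy', hne⟩
  · exact ⟨z, hz, h⟩

theorem Perf.infinite {P : Set Y} (hP : Perf P) : P.Infinite := by
  intro hfin
  obtain ⟨y, hy⟩ := hP.2.1
  have hcl : IsClosed (P \ {y}) := (hfin.subset sdiff_subset).isClosed
  obtain ⟨m, hm⟩ := exists_cyl hcl.isOpen_compl (show y ∈ (P \ {y})ᶜ from fun h => h.2 rfl)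
  obtain ⟨y', hy', hne, hcyl⟩ := hP.2.2 y hy m
  exact hm hcyl ⟨hy', hne⟩

/-- Injective choices from infinite sets. -/
theorem exists_inj_choice {ι : Type} (I : Finset ι) (S : ι → Set Y) (hS : ∀ i ∈ I, (S i).Infinite) :
    ∃ y : ι → Y, (∀ i ∈ I, y i ∈ S i) ∧ ∀ i ∈ I, ∀ j ∈ I, y i = y j → i = j := by
  classical
  induction I using Finset.induction_on with
  | empty => exact ⟨fun _ _ => true, by simp, by simp⟩
  | insert a I ha ih =>
    obtain ⟨y, hy, hinj⟩ := ih fun i hi => hS i (Finset.mem_insert_of_mem hi)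
    obtain ⟨z, hz, hz2⟩ := (hS a (Finset.mem_insert_self a I)).exists_notMem_finset (I.image y)
    have hz3 : ∀ i ∈ I, y i ≠ z := fun i hi h => hz2 (h ▸ Finset.mem_image_of_mem y hi)
    have hne : ∀ i ∈ I, i ≠ a := fun i hi h => ha (h ▸ hi)
    refine ⟨Function.update y a z, fun i hi => ?_, fun i hi j hj h => ?_⟩
    · rcases Finset.mem_insert.1 hi with rfl | hi
      · rwa [Function.update_self]
      · rw [Function.update_of_ne (hne i hi)]
        exact hy i hi
    · rcases Finset.mem_insert.1 hi with rfl | hi' <;> rcases Finset.mem_insert.1 hj with rfl | hj'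
      · rfl
      · rw [Function.update_self, Function.update_of_ne (hne j hj')] at h
        exact absurd h.symm (hz3 j hj')
      · rw [Function.update_self, Function.update_of_ne (hne i hi')] at h
        exact absurd h (hz3 i hi')
      · rw [Function.update_of_ne (hne i hi'), Function.update_of_ne (hne j hj')] at h
        exact hinj i hi' j hj' h

theorem exists_sep_finset {ι : Type} (I : Finset ι) (y : ι → Y)
    (hinj : ∀ i ∈ I, ∀ j ∈ I, y i = y j → i = j) (k : ℕ) :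
    ∃ m ≥ k, ∀ i ∈ I, ∀ j ∈ I, i ≠ j → Disjoint (cyl (y i) m) (cyl (y j) m) := by
  classical
  have hex : ∀ q : ι × ι, ∃ m, q.1 ∈ I → q.2 ∈ I → q.1 ≠ q.2 →
      Disjoint (cyl (y q.1) m) (cyl (y q.2) m) := by
    intro q
    by_cases h : q.1 ∈ I ∧ q.2 ∈ I ∧ q.1 ≠ q.2
    · obtain ⟨m, hm⟩ := exists_sep (fun h' => h.2.2 (hinj q.1 h.1 q.2 h.2.1 h'))
      exact ⟨m, fun _ _ _ => hm⟩
    · exact ⟨0, fun h1 h2 h3 => absurd ⟨h1, h2, h3⟩ h⟩
  choose m hm using hex
  refine ⟨max k ((I ×ˢ I).sup m), le_max_left _ _, fun i hi j hj hij => ?_⟩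
  have h1 : m (i, j) ≤ max k ((I ×ˢ I).sup m) :=
    (Finset.le_sup (f := m) (Finset.mem_product.2 ⟨hi, hj⟩)).trans (le_max_right _ _)
  exact (hm (i, j) hi hj hij).mono (cyl_anti h1 _) (cyl_anti h1 _)

/-- Indices of the sets in the fusion. -/
abbrev Ix : Type := ℕ × List Bool

theorem act_finite (k : ℕ) : {i : Ix | i.1 + i.2.length + 1 = k}.Finite := by
  have h1 : {i : Ix | i.1 + i.2.length + 1 = k} ⊆ (Iic k) ×ˢ {l : List Bool | l.length ≤ k} := by
    intro i hi
    have h2 : i.1 + i.2.length + 1 = k := hi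
    constructor
    · change i.1 ≤ k
      omega
    · change i.2.length ≤ k
      omega
  exact ((finite_Iic k).prod (List.finite_length_le Bool k)).subset h1

/-- The indices which are active at stage `k`. -/
noncomputable def act (k : ℕ) : Finset Ix := (act_finite k).toFinset

theorem mem_act {k : ℕ} {i : Ix} : i ∈ act k ↔ i.1 + i.2.length + 1 = k := by
  unfold act
  rw [Set.Finite.mem_toFinset]
  rfl

/-- Fusion. -/
theorem fusion (𝒞 : Set (Set Y)) (hP : ∀ C ∈ 𝒞, Perf C)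
    (hK : ∀ C ∈ 𝒞, ∀ K, IsClopen K → (C ∩ K).Nonempty → C ∩ K ∈ 𝒞)
    (B : ℕ → Set Y) (hB : ∀ j, B j ∈ 𝒞) (R : ℕ → Set (Set Y) → Prop)
    (hR : ∀ k, ∀ (I : Finset Ix) (D : Ix → Set Y), (∀ i ∈ I, D i ∈ 𝒞) →
      ∃ D' : Ix → Set Y, (∀ i ∈ I, D' i ∈ 𝒞 ∧ D' i ⊆ D i) ∧ R k (D' '' I)) :
    ∃ Q : ℕ → Set Y, (∀ n, Perf (Q n)) ∧ (∀ m n, m ≠ n → Disjoint (Q m) (Q n)) ∧
      (∀ n, Q n ⊆ B n) ∧ ∀ k, ∃ S : Set (Set Y), R k S ∧ S.Finite ∧ S ⊆ 𝒞 ∧
        ∀ n ≤ k, Q n ⊆ ⋃₀ S := by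
  classical
  -- the step
  let par : (Ix → Set Y) → Ix → Set Y := fun D i => match i.2 with
    | [] => B i.1
    | _ :: τ => D (i.1, τ)
  have hstep : ∀ (k : ℕ) (D : Ix → Set Y), ∃ D' : Ix → Set Y, (∀ i ∈ act k, D i ∈ 𝒞) →
      (∀ i ∈ act (k + 1), D' i ∈ 𝒞) ∧ (∀ i ∈ act (k + 1), D' i ⊆ par D i) ∧
      (∀ i ∈ act (k + 1), ∀ j ∈ act (k + 1), i ≠ j → Disjoint (D' i) (D' j)) ∧
      (∀ i ∈ act (k + 1), ∀ z ∈ D' i, ∀ w ∈ D' i, w ∈ cyl z k) ∧
      R k (D' '' (act (k + 1))) := by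
    intro k D
    by_cases hD : ∀ i ∈ act k, D i ∈ 𝒞
    · have hpar : ∀ i ∈ act (k + 1), par D i ∈ 𝒞 := by
        rintro ⟨n, τ⟩ hi
        rw [mem_act] at hi
        cases τ with
        | nil => exact hB n
        | cons b τ =>
          apply hD
          rw [mem_act]
          simp only [List.length_cons] at hi ⊢
          omega
      obtain ⟨y, hy, hinj⟩ := exists_inj_choice (act (k + 1)) (par D)
        fun i hi => (hP _ (hpar i hi)).infinite
      obtain ⟨m, hmk, hm⟩ := exists_sep_finset (act (k + 1)) y hinj k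
      obtain ⟨D', hD', hRk⟩ := hR k (act (k + 1)) (fun i => par D i ∩ cyl (y i) m)
        fun i hi => hK _ (hpar i hi) _ (cyl_clopen _ _) ⟨y i, hy i hi, mem_cyl_self _ _⟩
      refine ⟨D', fun _ => ⟨fun i hi => (hD' i hi).1, fun i hi => (hD' i hi).2.trans
        inter_subset_left, fun i hi j hj hij => ?_, fun i hi z hz w hw => ?_, hRk⟩⟩
      · exact (hm i hi j hj hij).mono ((hD' i hi).2.trans inter_subset_right)
          ((hD' j hj).2.trans inter_subset_right)
      · intro l hl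
        rw [((hD' i hi).2 hw).2 l (hl.trans_le hmk), ((hD' i hi).2 hz).2 l (hl.trans_le hmk)]
    · exact ⟨D, fun h => absurd h hD⟩
  choose F hF using hstep
  let G : ℕ → Ix → Set Y := fun k => Nat.rec (fun _ => univ) (fun k D => F k D) k
  have hGs : ∀ k, G (k + 1) = F k (G k) := fun k => rfl
  have hG0 : ∀ k, ∀ i ∈ act k, G k i ∈ 𝒞 := by
    intro k
    induction k with
    | zero =>
      intro i hi
      rw [mem_act] at hi
      omega
    | succ k ih =>
      rw [hGs]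
      exact (hF k (G k) ih).1
  have hG : ∀ k, (∀ i ∈ act (k + 1), G (k + 1) i ⊆ par (G k) i) ∧
      (∀ i ∈ act (k + 1), ∀ j ∈ act (k + 1), i ≠ j → Disjoint (G (k + 1) i) (G (k + 1) j)) ∧
      (∀ i ∈ act (k + 1), ∀ z ∈ G (k + 1) i, ∀ w ∈ G (k + 1) i, w ∈ cyl z k) ∧
      R k (G (k + 1) '' (act (k + 1))) := by
    intro k
    rw [hGs]
    exact (hF k (G k) (hG0 k)).2
  let C : Ix → Set Y := fun i => G (i.1 + i.2.length + 1) i
  have hCG : ∀ k, ∀ i ∈ act k, C i = G k i := by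
    intro k i hi
    rw [mem_act] at hi
    change G (i.1 + i.2.length + 1) i = G k i
    rw [hi]
  have hC : ∀ i, C i ∈ 𝒞 := fun i => hG0 _ i (mem_act.2 rfl)
  have hCpar : ∀ n b τ, C (n, b :: τ) ⊆ C (n, τ) := by
    intro n b τ
    have h1 := (hG (n + τ.length + 1)).1 (n, b :: τ) (mem_act.2 (by
      simp only [List.length_cons]; omega))
    have h2 : C (n, b :: τ) = G (n + τ.length + 1 + 1) (n, b :: τ) :=
      hCG (n + τ.length + 1 + 1) (n, b :: τ) (mem_act.2 (by
        simp only [List.length_cons]; omega))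
    rw [h2]
    exact h1
  have hCB : ∀ n, C (n, []) ⊆ B n := by
    intro n
    have h1 := (hG n).1 (n, []) (mem_act.2 (by simp))
    have h2 : C (n, []) = G (n + 1) (n, []) := hCG (n + 1) (n, []) (mem_act.2 (by simp))
    rw [h2]
    exact h1
  have hCdisj : ∀ k, ∀ i ∈ act (k + 1), ∀ j ∈ act (k + 1), i ≠ j → Disjoint (C i) (C j) := by
    intro k i hi j hj hij
    rw [hCG _ i hi, hCG _ j hj]
    exact (hG k).2.1 i hi j hj hij
  have hCsmall : ∀ i : Ix, ∀ z ∈ C i, ∀ w ∈ C i, w ∈ cyl z (i.1 + i.2.length) := by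
    intro i z hz w hw
    exact (hG (i.1 + i.2.length)).2.2.1 i (mem_act.2 rfl) z hz w hw
  have hCdrop : ∀ (n r : ℕ) (τ : List Bool), C (n, τ) ⊆ C (n, τ.drop r) := by
    intro n r
    induction r with
    | zero => intro τ; simp
    | succ r ih =>
      intro τ
      cases τ with
      | nil => simp
      | cons b τ =>
        rw [List.drop_succ_cons]
        exact (hCpar n b τ).trans (ih τ)
  let Q : ℕ → Set Y := fun n => {y | ∀ j, ∃ τ : List Bool, τ.length = j ∧ y ∈ C (n, τ)}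
  have hQne : ∀ (n : ℕ) (τ : List Bool), (Q n ∩ C (n, τ)).Nonempty := by
    intro n τ
    have hne := IsCompact.nonempty_iInter_of_sequence_nonempty_isCompact_isClosed
      (fun j => C (n, List.replicate j false ++ τ))
      (fun j => by
        rw [List.replicate_succ, List.cons_append]
        exact hCpar n false _)
      (fun j => (hP _ (hC _)).2.1) ((hP _ (hC _)).1.isCompact) (fun j => (hP _ (hC _)).1)
    obtain ⟨y, hy⟩ := hne
    rw [mem_iInter] at hy
    refine ⟨y, fun j => ?_, by simpa using hy 0⟩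
    by_cases hj : τ.length ≤ j
    · exact ⟨List.replicate (j - τ.length) false ++ τ, by simp; omega, hy _⟩
    · refine ⟨τ.drop (τ.length - j), by rw [List.length_drop]; omega, ?_⟩
      exact hCdrop n _ τ (by simpa using hy 0)
  refine ⟨Q, fun n => ⟨?_, ?_, ?_⟩, ?_, ?_, ?_⟩
  · have : Q n = ⋂ j, ⋃ τ ∈ {τ : List Bool | τ.length = j}, C (n, τ) := by
      ext y
      simp [Q]
    rw [this]
    refine isClosed_iInter fun j => ?_
    refine Set.Finite.isClosed_biUnion ?_ fun τ _ => (hP _ (hC _)).1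
    exact (List.finite_length_le Bool j).subset fun l hl => (show l.length = j from hl).le
  · exact (hQne n []).mono inter_subset_left
  · intro y hy m
    obtain ⟨τ, hτ, hyτ⟩ := hy m
    have hb : ∃ b, y ∉ C (n, b :: τ) := by
      by_contra hcon
      push Not at hcon
      have h1 := hCdisj (n + τ.length + 1) (n, true :: τ)
        (mem_act.2 (by simp only [List.length_cons]; omega)) (n, false :: τ)
        (mem_act.2 (by simp only [List.length_cons]; omega)) (by simp)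
      exact Set.disjoint_left.1 h1 (hcon true) (hcon false)
    obtain ⟨b, hb⟩ := hb
    obtain ⟨y', hy'Q, hy'C⟩ := hQne n (b :: τ)
    refine ⟨y', hy'Q, fun h => hb (h ▸ hy'C), ?_⟩
    have h2 := hCsmall (n, τ) y hyτ y' (hCpar n b τ hy'C)
    exact cyl_anti (by change m ≤ n + τ.length; omega) y h2
  · intro m n hmn
    rw [Set.disjoint_left]
    intro y hym hyn
    obtain ⟨τ, hτ, hyτ⟩ := hym (max m n - m)
    obtain ⟨τ', hτ', hyτ'⟩ := hyn (max m n - n)
    have h1 := hCdisj (max m n) (m, τ) (mem_act.2 (by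
        change m + τ.length + 1 = max m n + 1; omega)) (n, τ')
      (mem_act.2 (by change n + τ'.length + 1 = max m n + 1; omega)) (by simp [hmn])
    exact Set.disjoint_left.1 h1 hyτ hyτ'
  · intro n y hy
    obtain ⟨τ, hτ, hyτ⟩ := hy 0
    rw [List.length_eq_zero_iff] at hτ
    subst hτ
    exact hCB n hyτ
  · intro k
    refine ⟨G (k + 1) '' (act (k + 1)), (hG k).2.2.2, (act (k + 1)).finite_toSet.image _, ?_, ?_⟩
    · rintro _ ⟨i, hi, rfl⟩
      exact hG0 _ i hi
    · intro n hn y hy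
      obtain ⟨τ, hτ, hyτ⟩ := hy (k - n)
      have hact : ((n, τ) : Ix) ∈ act (k + 1) := mem_act.2 (by
        change n + τ.length + 1 = k + 1; omega)
      exact ⟨C (n, τ), ⟨(n, τ), hact, (hCG _ _ hact).symm⟩, hyτ⟩

end Q209.JF
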