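import Mathlib
import Pool.Agent.Q209.W1
import Pool.Agent.Q209.JFusion

/-!
The principle `◇` and its form for the sets of certain codes.
-/

set_option autoImplicit false

namespace Q209.JF

open Set Filter Topology Q209.Om
open Cardinal hiding univ

/-- Jensen's principle `◇` (on `ω₁`). -/
def Diamond : Prop := ∃ A : W1 → Set W1, (∀ α, A α ⊆ Iio α) ∧
  ∀ S : Set W1, IsStat {α | S ∩ Iio α = A α}

/-- Positions. -/
abbrev Pos : Type := W1 × ℕ

/-- Codes of conditions. -/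
abbrev Cd : Type := Pos × TopologicalSpace.Clopens Y

instance : Countable (TopologicalSpace.Clopens Y) :=
  TopologicalSpace.Clopens.countable_iff_secondCountable.2 inferInstance

/-- Codes of the guessed objects. -/
abbrev Big : Type := ℕ × Finset Pos × Finset Cd

/-- All coordinates of `b` are in the set `S`. -/
def InS (S : Set W1) (b : Big) : Prop := (∀ p ∈ b.2.1, p.1 ∈ S) ∧ ∀ e ∈ b.2.2, e.1.1 ∈ S

theorem exists_code : ∃ c : Big → W1, Function.Injective c := by
  have hW : #W1 = ℵ₁ := mk_ord_toType _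
  have h0 : ℵ₀ ≤ ℵ₁ := aleph0_le_aleph 1
  have hPos : #Pos = ℵ₁ := by
    simp only [mk_prod, lift_id, mk_nat]
    rw [hW]
    exact mul_aleph0_eq h0
  have hinfPos : Infinite Pos := infinite_iff.2 (by rw [hPos]; exact h0)
  have hCl : #(TopologicalSpace.Clopens Y) ≤ ℵ₀ := mk_le_aleph0
  have hCd : #Cd ≤ ℵ₁ := by
    simp only [mk_prod, lift_id]
    have h1 : #Pos * #(TopologicalSpace.Clopens Y) ≤ ℵ₁ * ℵ₀ := mul_le_mul' hPos.le hCl
    rw [mul_aleph0_eq h0] at h1
    simpa only [mk_prod, lift_id] using h1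
  have hFP : #(Finset Pos) = ℵ₁ := by rw [mk_finset_of_infinite, hPos]
  have hinfCd : Infinite Cd :=
    Infinite.of_injective (fun p : Pos => ((p, ⊤) : Cd)) fun p q h => (Prod.ext_iff.1 h).1
  have hFC : #(Finset Cd) ≤ ℵ₁ := by rw [mk_finset_of_infinite]; exact hCd
  have hBig : #Big ≤ #W1 := by
    rw [hW]
    simp only [mk_prod, lift_id, mk_nat]
    have h1 : ℵ₀ * (#(Finset Pos) * #(Finset Cd)) ≤ ℵ₁ * (ℵ₁ * ℵ₁) :=
      mul_le_mul' h0 (mul_le_mul' hFP.le hFC)
    rw [mul_eq_self h0, mul_eq_self h0] at h1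
    simpa only [mk_prod, lift_id, mk_nat] using h1
  obtain ⟨e⟩ := hBig
  exact ⟨e, e.injective⟩

theorem countable_Big {S : Set W1} (hS : S.Countable) : {b : Big | InS S b}.Countable := by
  have hP : {p : Pos | p.1 ∈ S}.Countable := by
    have : {p : Pos | p.1 ∈ S} ⊆ S ×ˢ (univ : Set ℕ) := fun p hp => ⟨hp, mem_univ _⟩
    exact (hS.prod countable_univ).mono this
  have hC : {e : Cd | e.1.1 ∈ S}.Countable := by
    have : {e : Cd | e.1.1 ∈ S} ⊆ {p : Pos | p.1 ∈ S} ×ˢ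
      (univ : Set (TopologicalSpace.Clopens Y)) := fun e he => ⟨he, mem_univ _⟩
    exact (hP.prod countable_univ).mono this
  have h1 : Countable {p : Pos // p.1 ∈ S} := hP
  have h2 : Countable {e : Cd // e.1.1 ∈ S} := hC
  let f : ℕ × Finset {p : Pos // p.1 ∈ S} × Finset {e : Cd // e.1.1 ∈ S} → Big := fun q =>
    (q.1, q.2.1.map (Function.Embedding.subtype _), q.2.2.map (Function.Embedding.subtype _))
  refine (countable_range f).mono ?_
  rintro ⟨k, F, E⟩ ⟨hF, hE⟩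
  classical
  refine ⟨(k, F.subtype fun p => p.1 ∈ S, E.subtype fun e => e.1.1 ∈ S), ?_⟩
  change (k, (F.subtype fun p => p.1 ∈ S).map (Function.Embedding.subtype _),
    (E.subtype fun e => e.1.1 ∈ S).map (Function.Embedding.subtype _)) = (k, F, E)
  rw [Finset.subtype_map, Finset.subtype_map, Finset.filter_true_of_mem hF,
    Finset.filter_true_of_mem hE]

/-- Finitely many coordinates below `δ` are bounded below `δ`. -/
theorem exists_bound {δ : W1} (h0 : ∃ x, x < δ) (S : Finset W1) (hS : ∀ a ∈ S, a < δ) :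
    ∃ α < δ, ∀ a ∈ S, a ≤ α := by
  classical
  induction S using Finset.induction_on with
  | empty =>
    obtain ⟨x, hx⟩ := h0
    exact ⟨x, hx, by simp⟩
  | insert a S _ ih =>
    obtain ⟨α, hα, hSα⟩ := ih fun b hb => hS b (Finset.mem_insert_of_mem hb)
    refine ⟨max a α, max_lt (hS a (Finset.mem_insert_self a S)) hα, fun b hb => ?_⟩
    rcases Finset.mem_insert.1 hb with rfl | hb
    · exact le_max_left _ _
    · exact (hSα b hb).trans (le_max_right _ _)

theorem exists_bound_Big {δ : W1} (h0 : ∃ x, x < δ) {b : Big} (hb : InS (Iio δ) b) :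
    ∃ α < δ, InS (Iic α) b := by
  classical
  obtain ⟨α, hα, h⟩ := exists_bound h0 (b.2.1.image (fun p => p.1) ∪
    b.2.2.image (fun e => e.1.1)) (by
      intro a ha
      rcases Finset.mem_union.1 ha with h | h
      · obtain ⟨p, hp, rfl⟩ := Finset.mem_image.1 h
        exact hb.1 p hp
      · obtain ⟨e, he, rfl⟩ := Finset.mem_image.1 h
        exact hb.2 e he)
  exact ⟨α, hα, fun p hp => h _ (Finset.mem_union_left _
    (Finset.mem_image_of_mem (fun p : Pos => p.1) hp)), fun e he =>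
    h _ (Finset.mem_union_right _ (Finset.mem_image_of_mem (fun e : Cd => e.1.1) he))⟩

/-- `◇` for sets of codes. -/
theorem diamond_Big (h : Diamond) : ∃ 𝒜 : W1 → Set Big, ∀ 𝒟 : Set Big,
    IsStat {δ | ∀ b, InS (Iio δ) b → (b ∈ 𝒟 ↔ b ∈ 𝒜 δ)} := by
  obtain ⟨A, _, hA⟩ := h
  obtain ⟨c, hc⟩ := exists_code
  refine ⟨fun δ => {b | c b ∈ A δ}, fun 𝒟 D hD => ?_⟩
  have hH : ∀ α : W1, ∃ η, ∀ b, InS (Iic α) b → c b < η := by
    intro α
    have h1 : {b : Big | InS (Iic α) b}.Countable := countable_Big (countable_Iic α)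
    have : Countable {b : Big | InS (Iic α) b} := h1
    obtain ⟨η, hη⟩ := bdd fun b : {b : Big | InS (Iic α) b} => c b.1
    exact ⟨η, fun b hb => hη ⟨b, hb⟩⟩
  choose H hH using hH
  have hne : Nonempty W1 := by
    rw [← mk_ne_zero_iff, mk_ord_toType]
    exact (aleph_pos 1).ne'
  obtain ⟨w0⟩ := hne
  obtain ⟨δ, hδ, hδD, hδw, hδH⟩ := hA (c '' 𝒟) (D ∩ {δ | w0 < δ ∧ ∀ a < δ, H a < δ})
    (club_inter hD (club_closure H w0))
  refine ⟨δ, fun b hb => ?_, hδD⟩
  obtain ⟨α, hα, hbα⟩ := exists_bound_Big ⟨w0, hδw⟩ hb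
  have hcb : c b < δ := (hH α b hbα).trans (hδH α hα)
  have hδ' : c '' 𝒟 ∩ Iio δ = A δ := hδ
  change b ∈ 𝒟 ↔ c b ∈ A δ
  rw [← hδ']
  constructor
  · intro hbD
    exact ⟨⟨b, hbD, rfl⟩, hcb⟩
  · rintro ⟨⟨b', hb', heq⟩, _⟩
    rwa [← hc heq]

end Q209.JF
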