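import Mathlib
import Pool.Agent.Q209.JDiamond

/-!
The recursive construction of the levels.
-/

set_option autoImplicit false

namespace Q209.JF

open Set Filter Topology Q209.Om

/-- A level: a sequence of sets and a sequence of points. -/
abbrev Lev : Type := (ℕ → Set Y) × (ℕ → Y)

/-- The set coded by `e`. -/
def ev (L : W1 → Lev) (e : Cd) : Set Y := (L e.1.1).1 e.1.2 ∩ e.2

/-- The conditions available at level `α`. -/
def Cond (α : W1) (L : W1 → Lev) : Set (Set Y) :=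
  {C | IsClopen C ∧ C.Nonempty} ∪
    {C | ∃ β < α, ∃ j, ∃ K : Set Y, IsClopen K ∧ C = (L β).1 j ∩ K ∧ C.Nonempty}

/-- The guessed family is dense. -/
def Dn (α : W1) (L : W1 → Lev) (A : Set Big) (k : ℕ) (F : Finset Pos) : Prop :=
  ∀ (I : Finset Ix) (D : Ix → Set Y), (∀ i ∈ I, D i ∈ Cond α L) → ∃ E : Finset Cd,
    (k, F, E) ∈ A ∧ (∀ e ∈ E, e.1.1 < α) ∧ ∀ i ∈ I, ∃ e ∈ E, ev L e ∈ Cond α L ∧ ev L e ⊆ D i

/-- The properties of level `α`. -/
structure Step (α : W1) (A : Set Big) (L : W1 → Lev) (N : Lev) : Prop where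
  perf : ∀ n, Perf (N.1 n)
  disj : ∀ m n, m ≠ n → Disjoint (N.1 m) (N.1 n)
  mem : ∀ n, N.2 n ∈ N.1 n
  cover : ∀ β < α, ∀ n, ∃ J : Finset ℕ, N.1 n ⊆ ⋃ j ∈ J, ((L β).1 j \ {(L β).2 j})
  dense : ∀ C ∈ Cond α L, ∃ n, N.1 n ⊆ C
  gen : ∀ (k : ℕ) (F : Finset Pos), (∀ p ∈ F, p.1 < α) → Dn α L A k F → ∀ m, ∃ E : Finset Cd,
    (k, F, E) ∈ A ∧ (∀ e ∈ E, e.1.1 < α) ∧ ∀ n ≤ m, N.1 n ⊆ ⋃ e ∈ E, ev L e

open Classical in
/-- Truncation. -/
noncomputable def tru (α : W1) (L : W1 → Lev) : W1 → Lev := fun β =>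
  if β < α then L β else (fun _ => ∅, fun _ _ => true)

theorem tru_lt {α β : W1} (L : W1 → Lev) (h : β < α) : tru α L β = L β := if_pos h

theorem ev_tru {α : W1} (L : W1 → Lev) {e : Cd} (h : e.1.1 < α) : ev (tru α L) e = ev L e := by
  unfold ev
  rw [tru_lt L h]

theorem cond_tru (α : W1) (L : W1 → Lev) : Cond α (tru α L) = Cond α L := by
  unfold Cond
  congr 1
  ext C
  constructor
  · rintro ⟨β, hβ, j, K, hK, hC, hne⟩
    rw [tru_lt L hβ] at hC
    exact ⟨β, hβ, j, K, hK, hC, hne⟩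
  · rintro ⟨β, hβ, j, K, hK, hC, hne⟩
    refine ⟨β, hβ, j, K, hK, ?_, hne⟩
    rw [tru_lt L hβ]
    exact hC

theorem dn_tru {α : W1} {L : W1 → Lev} {A : Set Big} {k : ℕ} {F : Finset Pos} :
    Dn α (tru α L) A k F ↔ Dn α L A k F := by
  unfold Dn
  rw [cond_tru]
  constructor
  · intro h I D hD
    obtain ⟨E, h1, h2, h3⟩ := h I D hD
    refine ⟨E, h1, h2, fun i hi => ?_⟩
    obtain ⟨e, he, he1, he2⟩ := h3 i hi
    rw [ev_tru L (h2 e he)] at he1 he2
    exact ⟨e, he, he1, he2⟩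
  · intro h I D hD
    obtain ⟨E, h1, h2, h3⟩ := h I D hD
    refine ⟨E, h1, h2, fun i hi => ?_⟩
    obtain ⟨e, he, he1, he2⟩ := h3 i hi
    refine ⟨e, he, ?_, ?_⟩
    · rw [ev_tru L (h2 e he)]; exact he1
    · rw [ev_tru L (h2 e he)]; exact he2

theorem step_of_tru {α : W1} {A : Set Big} {L : W1 → Lev} {N : Lev}
    (h : Step α A (tru α L) N) : Step α A L N := by
  refine ⟨h.perf, h.disj, h.mem, fun β hβ n => ?_, fun C hC => ?_, fun k F hF hD m => ?_⟩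
  · have := h.cover β hβ n
    rwa [tru_lt L hβ] at this
  · exact h.dense C (by rw [cond_tru]; exact hC)
  · obtain ⟨E, h1, h2, h3⟩ := h.gen k F hF (dn_tru.2 hD) m
    refine ⟨E, h1, h2, fun n hn => (h3 n hn).trans ?_⟩
    refine iUnion₂_mono fun e he => ?_
    rw [ev_tru L (h2 e he)]

theorem step_tru {α : W1} {A : Set Big} {L : W1 → Lev} {N : Lev}
    (h : Step α A L N) : Step α A (tru α L) N := by
  refine ⟨h.perf, h.disj, h.mem, fun β hβ n => ?_, fun C hC => ?_, fun k F hF hD m => ?_⟩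
  · rw [tru_lt L hβ]
    exact h.cover β hβ n
  · exact h.dense C (by rw [cond_tru] at hC; exact hC)
  · obtain ⟨E, h1, h2, h3⟩ := h.gen k F hF (dn_tru.1 hD) m
    refine ⟨E, h1, h2, fun n hn => (h3 n hn).trans ?_⟩
    refine iUnion₂_mono fun e he => ?_
    rw [ev_tru L (h2 e he)]

/-! ### Consequences of the properties of the lower levels -/

section lower

variable {L : W1 → Lev} {𝒜 : W1 → Set Big} {α : W1}

theorem local_sub (H : ∀ β < α, Step β (𝒜 β) L (L β)) {β γ : W1} (hβγ : β < γ) (hγ : γ < α)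
    {i j : ℕ} {y : Y} (_hy : y ∈ (L γ).1 i) (hy' : y ∈ (L β).1 j) :
    ∃ K : Set Y, IsClopen K ∧ y ∈ K ∧ (L γ).1 i ∩ K ⊆ (L β).1 j \ {(L β).2 j} := by
  obtain ⟨J, hJ⟩ := (H γ hγ).cover β hβγ i
  have hβ := hβγ.trans hγ
  have hcl : IsClosed (⋃ j' ∈ (J : Set ℕ) \ {j}, (L β).1 j') :=
    (J.finite_toSet.subset sdiff_subset).isClosed_biUnion fun j' _ => ((H β hβ).perf j').1
  have hynot : y ∈ (⋃ j' ∈ (J : Set ℕ) \ {j}, (L β).1 j')ᶜ := by
    intro h
    obtain ⟨j', hj', hyj'⟩ := mem_iUnion₂.1 h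
    exact Set.disjoint_left.1 ((H β hβ).disj j' j hj'.2) hyj' hy'
  obtain ⟨m, hm⟩ := exists_cyl hcl.isOpen_compl hynot
  refine ⟨cyl y m, cyl_clopen y m, mem_cyl_self y m, ?_⟩
  rintro z ⟨hz, hzK⟩
  obtain ⟨j', hj', hzj'⟩ := mem_iUnion₂.1 (hJ hz)
  by_cases h : j' = j
  · rw [← h]; exact hzj'
  · exact absurd (mem_iUnion₂.2 ⟨j', ⟨hj', h⟩, hzj'.1⟩) (hm hzK)

theorem cond_perf (H : ∀ β < α, Step β (𝒜 β) L (L β)) {C : Set Y} (hC : C ∈ Cond α L) :
    Perf C := by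
  rcases hC with ⟨hK, hne⟩ | ⟨β, hβ, j, K, hK, rfl, hne⟩
  · have := perf_univ.inter hK (by rwa [univ_inter])
    rwa [univ_inter] at this
  · exact ((H β hβ).perf j).inter hK hne

theorem cond_inter {C K : Set Y} (hC : C ∈ Cond α L) (hK : IsClopen K) (hne : (C ∩ K).Nonempty) :
    C ∩ K ∈ Cond α L := by
  rcases hC with ⟨hK', _⟩ | ⟨β, hβ, j, K', hK', rfl, _⟩
  · exact Or.inl ⟨hK'.inter hK, hne⟩
  · exact Or.inr ⟨β, hβ, j, K' ∩ K, hK'.inter hK, by rw [inter_assoc], hne⟩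

/-- Every condition can be refined to one inside a set of level `β`. -/
theorem refine_level (H : ∀ β < α, Step β (𝒜 β) L (L β)) {β : W1} (hβ : β < α) {C : Set Y}
    (hC : C ∈ Cond α L) : ∃ C' ∈ Cond α L, C' ⊆ C ∧ ∃ j, C' ⊆ (L β).1 j \ {(L β).2 j} := by
  -- conditions below a set of level `β`
  have h1 : ∀ n, (L β).1 n ⊆ C → ∃ C' ∈ Cond α L, C' ⊆ C ∧ ∃ j, C' ⊆ (L β).1 j \ {(L β).2 j} := by
    intro n hn
    obtain ⟨y, hy, hne⟩ := ((H β hβ).perf n).exists_ne ((L β).2 n)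
    obtain ⟨m, hm⟩ := exists_sep hne
    refine ⟨(L β).1 n ∩ cyl y m, Or.inr ⟨β, hβ, n, _, cyl_clopen y m, rfl, y, hy,
      mem_cyl_self y m⟩, inter_subset_left.trans hn, n, ?_⟩
    rintro z ⟨hz, hzc⟩
    refine ⟨hz, fun h => ?_⟩
    rw [mem_singleton_iff] at h
    subst h
    exact Set.disjoint_left.1 hm hzc (mem_cyl_self _ m)
  rcases id hC with ⟨hK, hne⟩ | ⟨γ, hγ, i, K, hK, hCeq, hne⟩
  · obtain ⟨n, hn⟩ := (H β hβ).dense C (Or.inl ⟨hK, hne⟩)
    exact h1 n hn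
  · rcases lt_trichotomy γ β with h | h | h
    · obtain ⟨n, hn⟩ := (H β hβ).dense C (Or.inr ⟨γ, h, i, K, hK, hCeq, hne⟩)
      exact h1 n hn
    · subst h
      obtain ⟨y, hy, hne'⟩ := (cond_perf H hC).exists_ne ((L γ).2 i)
      obtain ⟨m, hm⟩ := exists_sep hne'
      refine ⟨C ∩ cyl y m, cond_inter hC (cyl_clopen y m) ⟨y, hy, mem_cyl_self y m⟩,
        inter_subset_left, i, ?_⟩
      rintro z ⟨hz, hzc⟩
      rw [hCeq] at hz
      refine ⟨hz.1, fun h => ?_⟩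
      rw [mem_singleton_iff] at h
      subst h
      exact Set.disjoint_left.1 hm hzc (mem_cyl_self _ m)
    · obtain ⟨y, hy⟩ := hne
      have hy2 := hy
      rw [hCeq] at hy2
      obtain ⟨J, hJ⟩ := (H γ hγ).cover β h i
      obtain ⟨j, _, hyj⟩ := mem_iUnion₂.1 (hJ hy2.1)
      obtain ⟨K', hK', hyK', hsub⟩ := local_sub H h hγ hy2.1 hyj.1
      refine ⟨C ∩ K', cond_inter hC hK' ⟨y, hy, hyK'⟩, inter_subset_left, j, ?_⟩
      rintro z ⟨hz, hzK'⟩
      rw [hCeq] at hz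
      exact hsub ⟨hz.1, hzK'⟩

/-- Existence of the next level. -/
theorem exists_step (H : ∀ β < α, Step β (𝒜 β) L (L β)) : ∃ N, Step α (𝒜 α) L N := by
  classical
  have hcIio : Countable {β // β < α} := countable_Iio α
  -- bookkeeping for the density
  have hcond : (Cond α L).Countable := by
    refine ((countable_range (fun K : TopologicalSpace.Clopens Y => (K : Set Y))).union
      (countable_range (fun q : {β // β < α} × ℕ × TopologicalSpace.Clopens Y =>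
        (L q.1).1 q.2.1 ∩ (q.2.2 : Set Y)))).mono ?_
    rintro C (⟨hK, _⟩ | ⟨β, hβ, j, K, hK, rfl, _⟩)
    · exact Or.inl ⟨⟨C, hK⟩, rfl⟩
    · exact Or.inr ⟨(⟨β, hβ⟩, j, ⟨K, hK⟩), rfl⟩
  have hcondne : (Cond α L).Nonempty := ⟨univ, Or.inl ⟨isClopen_univ, univ_nonempty⟩⟩
  obtain ⟨B, hB⟩ := hcond.exists_eq_range hcondne
  have hBmem : ∀ j, B j ∈ Cond α L := fun j => hB ▸ mem_range_self j
  -- bookkeeping for the requirements
  have hcP : Countable {p : Pos // p.1 < α} := by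
    have h1 : {p : Pos | p.1 < α} ⊆ (Iio α) ×ˢ (univ : Set ℕ) := fun p hp => ⟨hp, mem_univ _⟩
    have h2 : (Iio α).Countable := countable_Iio α
    exact (h2.prod countable_univ).mono h1
  let sub : {p : Pos // p.1 < α} ↪ Pos := Function.Embedding.subtype _
  have hne : Nonempty ({β // β < α} ⊕ (ℕ × Finset {p : Pos // p.1 < α})) := ⟨Sum.inr (0, ∅)⟩
  obtain ⟨s, hs⟩ := exists_surjective_nat ({β // β < α} ⊕ (ℕ × Finset {p : Pos // p.1 < α}))
  let π : ℕ → {β // β < α} ⊕ (ℕ × Finset {p : Pos // p.1 < α}) := fun k => s k.unpair.1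
  have hπ : ∀ q m, ∃ k ≥ m, π k = q := by
    intro q m
    obtain ⟨n, hn⟩ := hs q
    refine ⟨Nat.pair n m, Nat.right_le_pair n m, ?_⟩
    change s (Nat.pair n m).unpair.1 = q
    rw [Nat.unpair_pair, hn]
  let Rq : ({β // β < α} ⊕ (ℕ × Finset {p : Pos // p.1 < α})) → Set (Set Y) → Prop := fun q S =>
    match q with
    | Sum.inl β => ∀ C ∈ S, ∃ j, C ⊆ (L β).1 j \ {(L β).2 j}
    | Sum.inr q => Dn α L (𝒜 α) q.1 (q.2.map sub) → ∃ E : Finset Cd,
        (q.1, q.2.map sub, E) ∈ 𝒜 α ∧ (∀ e ∈ E, e.1.1 < α) ∧ ∀ C ∈ S, ∃ e ∈ E, C ⊆ ev L e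
  obtain ⟨Q, hQP, hQd, hQB, hQR⟩ := fusion (Cond α L) (fun C hC => cond_perf H hC)
    (fun C hC K hK hne => cond_inter hC hK hne) B hBmem (fun k S => Rq (π k) S) (by
      intro k I D hD
      cases hπk : π k with
      | inl β =>
        have h1 : ∀ i, ∃ C', i ∈ I → C' ∈ Cond α L ∧ C' ⊆ D i ∧
            ∃ j, C' ⊆ (L β).1 j \ {(L β).2 j} := by
          intro i
          by_cases hi : i ∈ I
          · obtain ⟨C', h1, h2, h3⟩ := refine_level H β.2 (hD i hi)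
            exact ⟨C', fun _ => ⟨h1, h2, h3⟩⟩
          · exact ⟨∅, fun h => absurd h hi⟩
        choose D' hD' using h1
        refine ⟨D', fun i hi => ⟨(hD' i hi).1, (hD' i hi).2.1⟩, ?_⟩
        rintro _ ⟨i, hi, rfl⟩
        exact (hD' i hi).2.2
      | inr q =>
        by_cases hdn : Dn α L (𝒜 α) q.1 (q.2.map sub)
        · obtain ⟨E, hE1, hE2, hE3⟩ := hdn I D hD
          have h1 : ∀ i, ∃ C', i ∈ I → C' ∈ Cond α L ∧ C' ⊆ D i ∧ ∃ e ∈ E, C' ⊆ ev L e := by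
            intro i
            by_cases hi : i ∈ I
            · obtain ⟨e, he, he1, he2⟩ := hE3 i hi
              exact ⟨ev L e, fun _ => ⟨he1, he2, e, he, Subset.rfl⟩⟩
            · exact ⟨∅, fun h => absurd h hi⟩
          choose D' hD' using h1
          refine ⟨D', fun i hi => ⟨(hD' i hi).1, (hD' i hi).2.1⟩, fun _ => ⟨E, hE1, hE2, ?_⟩⟩
          rintro _ ⟨i, hi, rfl⟩
          exact (hD' i hi).2.2
        · exact ⟨D, fun i hi => ⟨hD i hi, Subset.rfl⟩, fun h => absurd h hdn⟩)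
  choose x hx using fun n => (hQP n).2.1
  refine ⟨(Q, x), hQP, hQd, hx, ?_, ?_, ?_⟩
  · intro β hβ n
    obtain ⟨k, hk, hπk⟩ := hπ (Sum.inl ⟨β, hβ⟩) n
    obtain ⟨S, hRS, hSfin, _, hcov⟩ := hQR k
    rw [hπk] at hRS
    have hRS' : ∀ C ∈ S, ∃ j, C ⊆ (L β).1 j \ {(L β).2 j} := hRS
    choose! j hj using hRS'
    refine ⟨hSfin.toFinset.image j, (hcov n hk).trans (sUnion_subset fun C hC => ?_)⟩
    refine (hj C hC).trans ?_
    intro z hz
    exact mem_iUnion₂.2 ⟨j C, Finset.mem_image_of_mem j (hSfin.mem_toFinset.2 hC), hz⟩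
  · intro C hC
    rw [hB] at hC
    obtain ⟨n, rfl⟩ := hC
    exact ⟨n, hQB n⟩
  · intro k F hF hdn m
    have hFm : (F.subtype fun p => p.1 < α).map sub = F := by
      rw [Finset.subtype_map]
      exact Finset.filter_true_of_mem hF
    obtain ⟨k', hk', hπk⟩ := hπ (Sum.inr (k, F.subtype fun p => p.1 < α)) m
    obtain ⟨S, hRS, _, _, hcov⟩ := hQR k'
    rw [hπk] at hRS
    have hRS' : Dn α L (𝒜 α) k ((F.subtype fun p => p.1 < α).map sub) → ∃ E : Finset Cd,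
        (k, (F.subtype fun p => p.1 < α).map sub, E) ∈ 𝒜 α ∧ (∀ e ∈ E, e.1.1 < α) ∧
          ∀ C ∈ S, ∃ e ∈ E, C ⊆ ev L e := hRS
    rw [hFm] at hRS'
    obtain ⟨E, hE1, hE2, hE3⟩ := hRS' hdn
    refine ⟨E, hE1, hE2, fun n hn => (hcov n (hn.trans hk')).trans (sUnion_subset fun C hC => ?_)⟩
    obtain ⟨e, he, hCe⟩ := hE3 C hC
    exact hCe.trans (subset_biUnion_of_mem (u := fun e => ev L e) he)

end lower

/-- The whole construction. -/
theorem exists_levels (𝒜 : W1 → Set Big) : ∃ L : W1 → Lev, ∀ α, Step α (𝒜 α) L (L α) := by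
  classical
  let F : (α : W1) → ((β : W1) → β < α → Lev) → Lev := fun α f =>
    Classical.epsilon (Step α (𝒜 α) (fun β => if h : β < α then f β h
      else (fun _ => ∅, fun _ _ => true)))
  let L : W1 → Lev := WellFounded.fix (wellFounded_lt (α := W1)) F
  have hL : ∀ α, L α = Classical.epsilon (Step α (𝒜 α) (tru α L)) := by
    intro α
    change WellFounded.fix (wellFounded_lt (α := W1)) F α = _
    rw [WellFounded.fix_eq]
    rfl
  refine ⟨L, fun α => ?_⟩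
  induction α using WellFounded.induction (wellFounded_lt (α := W1)) with
  | _ α ih =>
    obtain ⟨N, hN⟩ := exists_step (𝒜 := 𝒜) (L := L) (α := α) ih
    have h1 : Step α (𝒜 α) (tru α L) (L α) := by
      rw [hL α]
      exact Classical.epsilon_spec (p := Step α (𝒜 α) (tru α L)) ⟨N, step_tru hN⟩
    exact step_of_tru h1

end Q209.JF
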