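import Mathlib

/-!
Quasicontinuous functions, minimally bounded sets, open Whyburn spaces and the selection
principle `S_1(Ω^s, Γ^s)`.
-/

set_option autoImplicit false

namespace Q209.QC

open Set Filter Topology

universe u

/-- `f` is quasicontinuous. -/
def Quasicont {X : Type u} [TopologicalSpace X] (f : X → ℝ) : Prop :=
  ∀ x : X, ∀ U : Set X, IsOpen U → x ∈ U → ∀ V : Set ℝ, IsOpen V → f x ∈ V →
    ∃ W : Set X, IsOpen W ∧ W.Nonempty ∧ W ⊆ U ∧ ∀ w ∈ W, f w ∈ V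

/-- The quasicontinuous real-valued functions on `X` with the topology of pointwise convergence
(the subspace topology of the product `X → ℝ`). -/
abbrev Qp (X : Type u) [TopologicalSpace X] : Type u := {f : X → ℝ // Quasicont f}

/-- `Y` is Fréchet-Urysohn at `y`. -/
def FUAt {Y : Type u} [TopologicalSpace Y] (y : Y) : Prop :=
  ∀ A : Set Y, y ∈ closure A → ∃ s : ℕ → Y, (∀ n, s n ∈ A) ∧ Tendsto s atTop (𝓝 y)

/-- `X` is open Whyburn. -/
def OpenWhyburn (X : Type u) [TopologicalSpace X] : Prop :=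
  ∀ A : Set X, IsOpen A → ∀ x ∈ closure A \ A, ∃ B : Set X, IsOpen B ∧ B ⊆ A ∧
    closure B \ A = {x}

/-- `A` is minimally bounded. -/
def MinBdd {X : Type u} [TopologicalSpace X] (A : Set X) : Prop :=
  A ⊆ closure (interior A) ∧ interior (closure A) ⊆ A

/-- `Ω^s`: the `ω`-covers of `X` (covers such that every finite subset of `X` lies in some member)
all of whose members are minimally bounded. -/
def OmegaS (X : Type u) [TopologicalSpace X] : Set (Set (Set X)) :=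
  {𝒰 | ⋃₀ 𝒰 = univ ∧ (∀ F : Set X, F.Finite → ∃ U ∈ 𝒰, F ⊆ U) ∧ ∀ U ∈ 𝒰, MinBdd U}

/-- `Γ^s`: the `γ`-covers of `X` (covers such that every point is missing from only finitely many
members) all of whose members are minimally bounded. -/
def GammaS (X : Type u) [TopologicalSpace X] : Set (Set (Set X)) :=
  {𝒰 | ⋃₀ 𝒰 = univ ∧ (∀ x : X, {U ∈ 𝒰 | x ∉ U}.Finite) ∧ ∀ U ∈ 𝒰, MinBdd U}

/-- `X` has `S_1(Ω^s, Γ^s)`. -/
def S1 (X : Type u) [TopologicalSpace X] : Prop :=
  ∀ 𝒰 : ℕ → Set (Set X), (∀ n, 𝒰 n ∈ OmegaS X) →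
    ∃ U : ℕ → Set X, (∀ n, U n ∈ 𝒰 n) ∧ range U ∈ GammaS X

/-- The same selection principle, where the selected sets are counted with multiplicity: every
point is in `U n` for all but finitely many `n`. -/
def S1seq (X : Type u) [TopologicalSpace X] : Prop :=
  ∀ 𝒰 : ℕ → Set (Set X), (∀ n, 𝒰 n ∈ OmegaS X) →
    ∃ U : ℕ → Set X, (∀ n, U n ∈ 𝒰 n) ∧ ∀ x, ∀ᶠ n in atTop, x ∈ U n

/-! ### Basic facts -/

variable {X : Type u} [TopologicalSpace X]

theorem mem_closure_Qp {f : Qp X} {B : Set (Qp X)} :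
    f ∈ closure B ↔ ∀ (K : Finset X) (η : ℝ), 0 < η → ∃ b ∈ B, ∀ x ∈ K, |b.1 x - f.1 x| < η := by
  constructor
  · intro h K η hη
    have hopen : IsOpen {b : Qp X | ∀ x ∈ K, |b.1 x - f.1 x| < η} := by
      have : {b : Qp X | ∀ x ∈ K, |b.1 x - f.1 x| < η} =
          ⋂ x ∈ K, {b : Qp X | |b.1 x - f.1 x| < η} := by ext; simp
      rw [this]
      refine isOpen_biInter_finset fun x _ => ?_
      have hc : Continuous fun b : Qp X => b.1 x := (continuous_apply x).comp continuous_subtype_val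
      exact isOpen_lt (hc.sub continuous_const).abs continuous_const
    obtain ⟨b, hb, hbB⟩ := mem_closure_iff.1 h _ hopen (by simpa using fun _ _ => hη)
    exact ⟨b, hbB, hb⟩
  · intro h
    rw [mem_closure_iff]
    intro O hO hfO
    obtain ⟨O', hO', rfl⟩ := isOpen_induced_iff.1 hO
    obtain ⟨I, u, hu, hsub⟩ := isOpen_pi_iff.1 hO' f.1 hfO
    have hball : ∀ x ∈ I, ∃ η > 0, Metric.ball (f.1 x) η ⊆ u x := fun x hx =>
      Metric.isOpen_iff.1 (hu x hx).1 _ (hu x hx).2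
    choose! η hη hηu using hball
    obtain ⟨η0, hη0, hle⟩ : ∃ η0 > 0, ∀ x ∈ I, η0 ≤ η x := by
      classical
      rcases I.eq_empty_or_nonempty with rfl | hne
      · exact ⟨1, one_pos, by simp⟩
      · obtain ⟨x0, hx0, hmin⟩ := I.exists_min_image η hne
        exact ⟨η x0, hη x0 hx0, hmin⟩
    obtain ⟨b, hb, hbK⟩ := h I η0 hη0
    refine ⟨b, hsub fun x hx => hηu x hx ?_, hb⟩
    rw [Metric.mem_ball, Real.dist_eq]
    exact (hbK x hx).trans_le (hle x hx)

theorem tendsto_Qp {s : ℕ → Qp X} {f : Qp X} :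
    Tendsto s atTop (𝓝 f) ↔ ∀ x, Tendsto (fun n => (s n).1 x) atTop (𝓝 (f.1 x)) := by
  rw [tendsto_subtype_rng, tendsto_pi_nhds]

theorem S1_of_S1seq (h : S1seq X) : S1 X := by
  intro 𝒰 h𝒰
  obtain ⟨U, hU, hx⟩ := h 𝒰 h𝒰
  refine ⟨U, hU, ?_, ?_, ?_⟩
  · rw [eq_univ_iff_forall]
    intro x
    obtain ⟨n, hn⟩ := (hx x).exists
    exact ⟨U n, mem_range_self n, hn⟩
  · intro x
    obtain ⟨N, hN⟩ := eventually_atTop.1 (hx x)
    refine (Set.Finite.image U (Set.finite_lt_nat N)).subset ?_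
    rintro _ ⟨⟨n, rfl⟩, hn⟩
    refine ⟨n, ?_, rfl⟩
    by_contra hlt
    exact hn (hN n (not_lt.1 hlt))
  · rintro _ ⟨n, rfl⟩
    exact (h𝒰 n).2.2 _ (hU n)

end Q209.QC
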