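import Mathlib

/-!
Submetrizable spaces.
-/

set_option autoImplicit false

namespace Q209.QC

universe u

/-- `X` is submetrizable: some metrizable topology on `X` is coarser than the topology of `X`. -/
def Submetrizable (X : Type u) [τ : TopologicalSpace X] : Prop :=
  ∃ t : TopologicalSpace X, @TopologicalSpace.MetrizableSpace X t ∧ τ ≤ t

end Q209.QC
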