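import Mathlib
import Pool.Agent.Q209.JRec
import Pool.Agent.Q209.QCDefs
import Pool.Agent.Q209.Submet

/-!
The space determined by the levels, and its quasicontinuous functions.
-/

set_option autoImplicit false

namespace Q209.JF

open Set Filter Topology Q209.Om Q209.QC

/-- The points of the space. -/
@[ext] structure Sp (L : W1 → Lev) : Type where
  /-- the position -/
  v : Pos

variable {L : W1 → Lev}

/-- The point of the Cantor space. -/
def ph (p : Sp L) : Y := (L p.v.1).2 p.v.2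

/-- The set attached to the point. -/
def st (p : Sp L) : Set Y := (L p.v.1).1 p.v.2

/-- The basic neighbourhoods. -/
def nb (p : Sp L) (m : ℕ) : Set (Sp L) := {q | ph q ∈ st p ∩ cyl (ph p) m}

theorem nb_anti (p : Sp L) {m n : ℕ} (h : m ≤ n) : nb p n ⊆ nb p m := fun _ hq =>
  ⟨hq.1, cyl_anti h _ hq.2⟩

instance instSp : TopologicalSpace (Sp L) where
  IsOpen U := ∀ p ∈ U, ∃ m, nb p m ⊆ U
  isOpen_univ := fun p _ => ⟨0, subset_univ _⟩
  isOpen_inter := by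
    intro U V hU hV p hp
    obtain ⟨m, hm⟩ := hU p hp.1
    obtain ⟨n, hn⟩ := hV p hp.2
    exact ⟨max m n, subset_inter ((nb_anti p (le_max_left _ _)).trans hm)
      ((nb_anti p (le_max_right _ _)).trans hn)⟩
  isOpen_sUnion := by
    rintro S hS p ⟨U, hU, hp⟩
    obtain ⟨m, hm⟩ := hS U hU p hp
    exact ⟨m, hm.trans (subset_sUnion_of_mem hU)⟩

theorem sp_open_iff {U : Set (Sp L)} : IsOpen U ↔ ∀ p ∈ U, ∃ m, nb p m ⊆ U := Iff.rfl

variable {𝒜 : W1 → Set Big} (H : ∀ α, Step α (𝒜 α) L (L α))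

include H

theorem ph_mem (p : Sp L) : ph p ∈ st p := (H p.v.1).mem p.v.2

theorem mem_nb (p : Sp L) (m : ℕ) : p ∈ nb p m := ⟨ph_mem H p, mem_cyl_self _ _⟩

/-- A point of level `β` is in no set of a higher level. -/
theorem notMem_higher {p : Sp L} {α : W1} (h : p.v.1 < α) (n : ℕ) : ph p ∉ (L α).1 n := by
  intro hp
  obtain ⟨J, hJ⟩ := (H α).cover p.v.1 h n
  obtain ⟨j, _, hj⟩ := mem_iUnion₂.1 (hJ hp)
  by_cases hjp : j = p.v.2
  · subst hjp
    exact hj.2 rfl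
  · exact Set.disjoint_left.1 ((H p.v.1).disj j p.v.2 hjp) hj.1 (ph_mem H p)

/-- If `ph q` is in a set of level `α ≤ lev q`, then it is so with a neighbourhood. -/
theorem nb_sub {q : Sp L} {α : W1} {n : ℕ} (h : ph q ∈ (L α).1 n) {U : Set Y} (hU : IsOpen U)
    (hqU : ph q ∈ U) : ∃ m, nb q m ⊆ {r | ph r ∈ (L α).1 n ∩ U} := by
  obtain ⟨m, hm⟩ := exists_cyl hU hqU
  rcases lt_trichotomy q.v.1 α with h1 | h1 | h1
  · exact absurd h (notMem_higher H h1 n)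
  · subst h1
    have h2 : n = q.v.2 := by
      by_contra hne
      exact Set.disjoint_left.1 ((H q.v.1).disj n q.v.2 hne) h (ph_mem H q)
    subst h2
    exact ⟨m, fun r hr => ⟨hr.1, hm hr.2⟩⟩
  · obtain ⟨α', hα'⟩ := exists_gt q.v.1
    obtain ⟨K, hK, hyK, hsub⟩ := local_sub (𝒜 := 𝒜) (α := α') (fun β _ => H β) h1 hα'
      (ph_mem H q) h
    obtain ⟨m', hm'⟩ := exists_cyl hK.2 hyK
    refine ⟨max m m', fun r hr => ⟨?_, hm (cyl_anti (le_max_left _ _) _ hr.2)⟩⟩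
    exact (hsub ⟨hr.1, hm' (cyl_anti (le_max_right _ _) _ hr.2)⟩).1

theorem nb_open (p : Sp L) (m : ℕ) : IsOpen (nb p m) := by
  rw [sp_open_iff]
  intro q hq
  exact nb_sub H hq.1 (cyl_clopen (ph p) m).2 hq.2

theorem nb_closed (p : Sp L) (m : ℕ) : IsClosed (nb p m) := by
  rw [← isOpen_compl_iff, sp_open_iff]
  intro q hq
  have hcl : IsClosed (st p ∩ cyl (ph p) m) :=
    ((H p.v.1).perf p.v.2).1.inter (cyl_clopen (ph p) m).1
  obtain ⟨m', hm'⟩ := exists_cyl hcl.isOpen_compl (show ph q ∈ (st p ∩ cyl (ph p) m)ᶜ from hq)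
  exact ⟨m', fun r hr => hm' hr.2⟩

theorem ph_inj : Function.Injective (ph : Sp L → Y) := by
  intro p q hpq
  rcases lt_trichotomy p.v.1 q.v.1 with h | h | h
  · exact absurd (hpq ▸ ph_mem H q : ph p ∈ st q) (notMem_higher H h _)
  · by_contra hne
    have h1 : p.v.2 ≠ q.v.2 := fun h2 => hne (Sp.ext (Prod.ext h h2))
    have h2 : ph q ∈ (L q.v.1).1 p.v.2 := by
      rw [← hpq, ← h]
      exact ph_mem H p
    exact Set.disjoint_left.1 ((H q.v.1).disj _ _ h1) h2 (ph_mem H q)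
  · exact absurd (hpq.symm ▸ ph_mem H p : ph q ∈ st p) (notMem_higher H h _)

omit H in
theorem ph_cont : Continuous (ph : Sp L → Y) := by
  refine ⟨fun U hU => ?_⟩
  rw [sp_open_iff]
  intro p hp
  obtain ⟨m, hm⟩ := exists_cyl hU hp
  exact ⟨m, fun q hq => hm hq.2⟩

theorem sp_t2 : T2Space (Sp L) := T2Space.of_injective_continuous (ph_inj H) ph_cont

theorem sp_regular : RegularSpace (Sp L) := by
  refine RegularSpace.of_exists_mem_nhds_isClosed_subset fun x s hs => ?_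
  obtain ⟨U, hUs, hU, hxU⟩ := mem_nhds_iff.1 hs
  obtain ⟨m, hm⟩ := sp_open_iff.1 hU x hxU
  exact ⟨nb x m, (nb_open H x m).mem_nhds (mem_nb H x m), nb_closed H x m, hm.trans hUs⟩

theorem sp_first : FirstCountableTopology (Sp L) := by
  refine ⟨fun x => ?_⟩
  have hb : (𝓝 x).HasBasis (fun _ : ℕ => True) (fun m => nb x m) := by
    refine ⟨fun s => ⟨fun hs => ?_, ?_⟩⟩
    · obtain ⟨U, hUs, hU, hxU⟩ := mem_nhds_iff.1 hs
      obtain ⟨m, hm⟩ := sp_open_iff.1 hU x hxU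
      exact ⟨m, trivial, hm.trans hUs⟩
    · rintro ⟨m, _, hm⟩
      exact mem_of_superset ((nb_open H x m).mem_nhds (mem_nb H x m)) hm
  exact hb.isCountablyGenerated

theorem sp_submetrizable : Submetrizable (Sp L) := by
  refine ⟨TopologicalSpace.induced ph Pi.topologicalSpace, ?_,
    continuous_iff_le_induced.1 ph_cont⟩
  let _ : TopologicalSpace (Sp L) := TopologicalSpace.induced ph Pi.topologicalSpace
  have he : Topology.IsEmbedding (ph : Sp L → Y) := ⟨⟨rfl⟩, ph_inj H⟩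
  exact he.metrizableSpace

omit H in
theorem sp_uncountable : ¬ Countable (Sp L) := by
  intro h
  obtain ⟨b, hb⟩ := bdd fun x : Sp L => x.v.1
  exact lt_irrefl _ (hb ⟨(b, 0)⟩)

/-! ### Conditions -/

/-- The open set of a condition. -/
theorem cond_open (e : Cd) : IsOpen {q : Sp L | ph q ∈ ev L e} := by
  rw [sp_open_iff]
  intro q hq
  exact nb_sub H hq.1 e.2.2.2 hq.2

theorem cond_point (e : Cd) (he : (ev L e).Nonempty) : ∃ q : Sp L, ph q ∈ ev L e := by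
  obtain ⟨α, hα⟩ := exists_gt e.1.1
  obtain ⟨n, hn⟩ := (H α).dense (ev L e) (Or.inr ⟨e.1.1, hα, e.1.2, e.2, e.2.2, rfl, he⟩)
  exact ⟨⟨(α, n)⟩, hn (ph_mem H ⟨(α, n)⟩)⟩

/-- Every nonempty open set contains a condition. -/
theorem exists_cond {U : Set (Sp L)} (hU : IsOpen U) (hne : U.Nonempty) :
    ∃ e : Cd, (ev L e).Nonempty ∧ {q : Sp L | ph q ∈ ev L e} ⊆ U := by
  obtain ⟨p, hp⟩ := hne
  obtain ⟨m, hm⟩ := sp_open_iff.1 hU p hp
  refine ⟨(p.v, ⟨cyl (ph p) m, cyl_clopen _ _⟩), ⟨ph p, ph_mem H p, mem_cyl_self _ _⟩, ?_⟩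
  exact hm

/-- Conditions inside an open subset of a condition. -/
theorem exists_cond_sub {U : Set (Sp L)} (hU : IsOpen U) (hne : U.Nonempty) {e : Cd}
    (hUe : U ⊆ {q : Sp L | ph q ∈ ev L e}) :
    ∃ e' : Cd, (ev L e').Nonempty ∧ ev L e' ⊆ ev L e ∧ {q : Sp L | ph q ∈ ev L e'} ⊆ U := by
  obtain ⟨e1, he1, he1U⟩ := exists_cond H hU hne
  obtain ⟨q, hq⟩ := cond_point H e1 he1
  have hqe : ph q ∈ ev L e := hUe (he1U hq)
  -- a level set above both
  obtain ⟨β, hβ⟩ := bdd fun i : Bool => cond i e.1.1 e1.1.1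
  have hβ1 : e.1.1 < β := hβ true
  have hβ2 : e1.1.1 < β := hβ false
  obtain ⟨n, hn⟩ := (H β).dense (ev L e1) (Or.inr ⟨e1.1.1, hβ2, e1.1.2, e1.2, e1.2.2, rfl, he1⟩)
  -- the point of this level
  have hr : ph (⟨(β, n)⟩ : Sp L) ∈ ev L e := hUe (he1U (hn (ph_mem H ⟨(β, n)⟩)))
  obtain ⟨α', hα'⟩ := exists_gt β
  obtain ⟨K, hK, hyK, hsub⟩ := local_sub (𝒜 := 𝒜) (α := α') (fun β _ => H β) hβ1 hα'
    (ph_mem H (⟨(β, n)⟩ : Sp L)) hr.1
  refine ⟨((β, n), ⟨K ∩ e.2, hK.inter e.2.2⟩), ⟨ph (⟨(β, n)⟩ : Sp L),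
    ph_mem H (⟨(β, n)⟩ : Sp L), hyK, hr.2⟩, ?_, ?_⟩
  · rintro z ⟨hz, hzK, hze⟩
    exact ⟨(hsub ⟨hz, hzK⟩).1, hze⟩
  · intro r hr'
    exact he1U (hn hr'.1)

end Q209.JF
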