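import Mathlib
import Pool.Agent.Q209.JSpace

/-!
The space of the quasicontinuous functions is Fréchet-Urysohn.
-/

set_option autoImplicit false

namespace Q209.JF

open Set Filter Topology Q209.Om Q209.QC

variable {L : W1 → Lev} {𝒜 : W1 → Set Big} (H : ∀ α, Step α (𝒜 α) L (L α))

include H

theorem near_const {f : Sp L → ℝ} (hf : Quasicont f) {ε : ℝ} (hε : 0 < ε) {e : Cd} {q : Sp L}
    (hq : ph q ∈ ev L e) : ∃ e' : Cd, (ev L e').Nonempty ∧ ev L e' ⊆ ev L e ∧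
      ∀ r : Sp L, ph r ∈ ev L e' → |f r - f q| < ε := by
  have hcabs : Continuous fun y : ℝ => |y - f q| := (continuous_id.sub continuous_const).abs
  obtain ⟨W, hW, hne, hWe, hWf⟩ := hf q {q : Sp L | ph q ∈ ev L e} (cond_open H e) hq
    {y | |y - f q| < ε} (isOpen_lt hcabs continuous_const) (by simpa using hε)
  obtain ⟨e', he', he'e, he'W⟩ := exists_cond_sub H hW hne hWe
  exact ⟨e', he', he'e, fun r hr => hWf r (he'W hr)⟩

theorem sp_fu (hA : ∀ 𝒟 : Set Big, IsStat {δ | ∀ b, InS (Iio δ) b → (b ∈ 𝒟 ↔ b ∈ 𝒜 δ)})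
    (f : Qp (Sp L)) : FUAt f := by
  classical
  intro 𝒢 hG
  rw [mem_closure_Qp] at hG
  have hneW : Nonempty W1 := by
    rw [← Cardinal.mk_ne_zero_iff, Cardinal.mk_ord_toType]
    exact (Cardinal.aleph_pos 1).ne'
  obtain ⟨w0⟩ := hneW
  let 𝒟 : Set Big := {b | ∃ g ∈ 𝒢,
    (∀ p ∈ b.2.1, |g.1 (⟨p⟩ : Sp L) - f.1 ⟨p⟩| < 1 / ((b.1 : ℝ) + 1)) ∧
    ∀ e ∈ b.2.2, ∀ q : Sp L, ph q ∈ ev L e → |g.1 q - f.1 q| < 1 / ((b.1 : ℝ) + 1)}
  -- density
  have hdense : ∀ (k : ℕ) (F : Finset Pos) (G : Finset Cd), ∃ E : Finset Cd,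
      (∀ e ∈ G, (ev L e).Nonempty) → (k, F, E) ∈ 𝒟 ∧
        ∀ e ∈ G, ∃ e' ∈ E, (ev L e').Nonempty ∧ ev L e' ⊆ ev L e := by
    intro k F G
    by_cases hGne : ∀ e ∈ G, (ev L e).Nonempty
    · have hpos : 0 < 1 / ((k : ℝ) + 1) / 4 := div_pos Nat.one_div_pos_of_nat (by norm_num)
      have h1 : ∀ e : Cd, ∃ (q0 q1 : Sp L) (e1 : Cd), e ∈ G → ph q1 ∈ ev L e1 ∧
          ev L e1 ⊆ ev L e ∧ ∀ r : Sp L, ph r ∈ ev L e1 → |f.1 r - f.1 q0| <
            1 / ((k : ℝ) + 1) / 4 := by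
        intro e
        by_cases he : e ∈ G
        · obtain ⟨q0, hq0⟩ := cond_point H e (hGne e he)
          obtain ⟨e1, h1, h2, h3⟩ := near_const H f.2 hpos hq0
          obtain ⟨q1, hq1⟩ := cond_point H e1 h1
          exact ⟨q0, q1, e1, fun _ => ⟨hq1, h2, h3⟩⟩
        · exact ⟨⟨(w0, 0)⟩, ⟨(w0, 0)⟩, e, fun h => absurd h he⟩
      choose q0 q1 e1 h1 using h1
      obtain ⟨g, hg, hgf⟩ := hG (F.image (fun p => (⟨p⟩ : Sp L)) ∪ G.image q1) _ hpos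
      have h2 : ∀ e : Cd, ∃ e2 : Cd, e ∈ G → (ev L e2).Nonempty ∧ ev L e2 ⊆ ev L (e1 e) ∧
          ∀ r : Sp L, ph r ∈ ev L e2 → |g.1 r - g.1 (q1 e)| < 1 / ((k : ℝ) + 1) / 4 := by
        intro e
        by_cases he : e ∈ G
        · obtain ⟨e2, h3, h4, h5⟩ := near_const H g.2 hpos (h1 e he).1
          exact ⟨e2, fun _ => ⟨h3, h4, h5⟩⟩
        · exact ⟨e, fun h => absurd h he⟩
      choose e2 h2 using h2
      refine ⟨G.image e2, fun _ => ⟨⟨g, hg, fun p hp => ?_, fun e' he' q hq => ?_⟩,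
        fun e he => ⟨e2 e, Finset.mem_image_of_mem e2 he, (h2 e he).1,
          (h2 e he).2.1.trans (h1 e he).2.1⟩⟩⟩
      · have h3 := hgf ⟨p⟩ (Finset.mem_union_left _
          (Finset.mem_image_of_mem (fun p => (⟨p⟩ : Sp L)) hp))
        have h4 : (0 : ℝ) < 1 / ((k : ℝ) + 1) := Nat.one_div_pos_of_nat
        change |g.1 (⟨p⟩ : Sp L) - f.1 ⟨p⟩| < 1 / ((k : ℝ) + 1)
        linarith
      · obtain ⟨e, he, rfl⟩ := Finset.mem_image.1 he'
        have h3 := (h2 e he).2.2 q hq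
        have h4 := hgf (q1 e) (Finset.mem_union_right _ (Finset.mem_image_of_mem q1 he))
        have h5 := (h1 e he).2.2 (q1 e) (h1 e he).1
        have h6 := (h1 e he).2.2 q ((h2 e he).2.1 hq)
        change |g.1 q - f.1 q| < 1 / ((k : ℝ) + 1)
        rw [abs_lt] at h3 h4 h5 h6 ⊢
        constructor <;> linarith [h3.1, h3.2, h4.1, h4.2, h5.1, h5.2, h6.1, h6.2]
    · exact ⟨∅, fun h => absurd h hGne⟩
  choose Ed hEd using hdense
  -- closing off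
  have hη : ∀ α : W1, ∃ η : W1, ∀ k F G, InS (Iic α) (k, F, G) → ∀ e ∈ Ed k F G, e.1.1 < η := by
    intro α
    have h1 : {b : Big | InS (Iic α) b}.Countable := countable_Big (countable_Iic α)
    have h2 : Countable {b : Big // InS (Iic α) b} := h1
    obtain ⟨η, hη⟩ := bdd fun q : (Σ b : {b : Big // InS (Iic α) b},
      {e // e ∈ Ed b.1.1 b.1.2.1 b.1.2.2}) => q.2.1.1.1
    exact ⟨η, fun k F G hb e he => hη ⟨⟨(k, F, G), hb⟩, ⟨e, he⟩⟩⟩
  choose η hη using hη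
  obtain ⟨δ, hδ, hδ0, hδη⟩ := hA 𝒟 _ (club_closure η w0)
  have hδne : ∃ x, x < δ := ⟨w0, hδ0⟩
  -- the guess is dense
  have hDn : ∀ (k : ℕ) (F : Finset Pos), (∀ p ∈ F, p.1 < δ) → Dn δ L (𝒜 δ) k F := by
    intro k F hF I D hD
    have h1 : ∀ i : Ix, ∃ e : Cd, i ∈ I → e.1.1 < δ ∧ (ev L e).Nonempty ∧ ev L e ⊆ D i := by
      intro i
      by_cases hi : i ∈ I
      · rcases hD i hi with ⟨hK, hne⟩ | ⟨β, hβ, j, K, hK, hDi, hne⟩
        · obtain ⟨n, hn⟩ := (H w0).dense (D i) (Or.inl ⟨hK, hne⟩)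
          obtain ⟨y, hy⟩ := ((H w0).perf n).2.1
          exact ⟨((w0, n), ⊤), fun _ => ⟨hδ0, ⟨y, hy, mem_univ y⟩, fun z hz => hn hz.1⟩⟩
        · refine ⟨((β, j), ⟨K, hK⟩), fun _ => ⟨hβ, ?_, ?_⟩⟩
          · change ((L β).1 j ∩ K).Nonempty
            rw [← hDi]; exact hne
          · change (L β).1 j ∩ K ⊆ D i
            rw [hDi]
      · exact ⟨((w0, 0), ⊤), fun h => absurd h hi⟩
    choose e he using h1
    have hb : InS (Iio δ) (k, F, I.image e) := by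
      refine ⟨hF, fun e' he' => ?_⟩
      obtain ⟨i, hi, rfl⟩ := Finset.mem_image.1 he'
      exact (he i hi).1
    obtain ⟨α, hα, hbα⟩ := exists_bound_Big hδne hb
    have hE : ∀ e' ∈ Ed k F (I.image e), e'.1.1 < δ := fun e' he' =>
      (hη α k F (I.image e) hbα e' he').trans (hδη α hα)
    obtain ⟨h2, h3⟩ := hEd k F (I.image e) (by
      intro e' he'
      obtain ⟨i, hi, rfl⟩ := Finset.mem_image.1 he'
      exact (he i hi).2.1)
    refine ⟨Ed k F (I.image e), (hδ _ ⟨hF, hE⟩).1 h2, hE, fun i hi => ?_⟩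
    obtain ⟨e', he', hne', hsub'⟩ := h3 (e i) (Finset.mem_image_of_mem e hi)
    exact ⟨e', he', Or.inr ⟨e'.1.1, hE e' he', e'.1.2, e'.2, e'.2.2, rfl, hne'⟩,
      hsub'.trans (he i hi).2.2⟩
  -- enumeration of the lower part
  have hlow : {p : Pos | p.1 < δ}.Countable := by
    have h1 : {p : Pos | p.1 < δ} ⊆ (Iio δ) ×ˢ (univ : Set ℕ) := fun p hp => ⟨hp, mem_univ _⟩
    have h2 : (Iio δ).Countable := countable_Iio δ
    exact (h2.prod countable_univ).mono h1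
  obtain ⟨ι, hι⟩ := countable_iff_exists_injOn.1 hlow
  have hFfin : ∀ n, {p ∈ {p : Pos | p.1 < δ} | ι p ≤ n}.Finite := by
    intro n
    refine Set.Finite.of_finite_image (f := ι) ((Set.finite_le_nat n).subset ?_) ?_
    · rintro _ ⟨x, hx, rfl⟩
      exact hx.2
    · exact hι.mono fun x hx => hx.1
  have hsel : ∀ n : ℕ, ∃ E : Finset Cd, (n, (hFfin n).toFinset, E) ∈ 𝒟 ∧
      ∀ m ≤ n, (L δ).1 m ⊆ ⋃ e ∈ E, ev L e := by
    intro n
    have hF : ∀ p ∈ (hFfin n).toFinset, p.1 < δ := fun p hp => ((hFfin n).mem_toFinset.1 hp).1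
    obtain ⟨E, h1, h2, h3⟩ := (H δ).gen n _ hF (hDn n _ hF) n
    exact ⟨E, (hδ _ ⟨hF, h2⟩).2 h1, h3⟩
  choose E hE hEcov using hsel
  choose g hg hgF hgE using hE
  refine ⟨g, hg, ?_⟩
  rw [tendsto_Qp]
  intro x
  have hev : ∀ᶠ n in atTop, |(g n).1 x - f.1 x| < 1 / ((n : ℝ) + 1) := by
    by_cases hx : x.v.1 < δ
    · filter_upwards [eventually_ge_atTop (ι x.v)] with n hn
      exact hgF n x.v ((hFfin n).mem_toFinset.2 ⟨hx, hn⟩)
    · have h1 : ∃ j, ph x ∈ (L δ).1 j := by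
        rcases (not_lt.1 hx).eq_or_lt with h | h
        · exact ⟨x.v.2, by rw [h]; exact ph_mem H x⟩
        · obtain ⟨J, hJ⟩ := (H x.v.1).cover δ h x.v.2
          obtain ⟨j, _, hj⟩ := mem_iUnion₂.1 (hJ (ph_mem H x))
          exact ⟨j, hj.1⟩
      obtain ⟨j, hj⟩ := h1
      filter_upwards [eventually_ge_atTop j] with n hn
      obtain ⟨e, he, hxe⟩ := mem_iUnion₂.1 (hEcov n j hn hj)
      exact hgE n e he x hxe
  rw [Metric.tendsto_atTop]
  intro ε hε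
  obtain ⟨m, hm⟩ := exists_nat_one_div_lt hε
  obtain ⟨n0, hn0⟩ := eventually_atTop.1 hev
  refine ⟨max m n0, fun n hn => ?_⟩
  rw [Real.dist_eq]
  refine (hn0 n ((le_max_right _ _).trans hn)).trans (lt_of_le_of_lt ?_ hm)
  exact one_div_le_one_div_of_le (by positivity)
    (by have : (m : ℝ) ≤ n := by exact_mod_cast (le_max_left _ _).trans hn
        linarith)

end Q209.JF
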