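import Mathlib
import Pool.Agent.Q209.QCDefs
import Pool.Agent.Q209.FSepDefs
import Pool.Agent.Q209.Submet

/-!
Under Borel's conjecture, a regular submetrizable space whose space of quasicontinuous functions is
Fréchet-Urysohn at the zero function is countable.
-/

set_option autoImplicit false

namespace Q209.QC

open Set Filter Topology Q209.FSep

universe u

variable {X : Type u} [TopologicalSpace X]

theorem qc_ite {U : Set X} (hU : MinBdd U) (a : ℝ) [DecidablePred (· ∈ U)] :
    Quasicont (fun x => if x ∈ U then a else 1) := by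
  intro x O hO hx V _ hV
  by_cases h : x ∈ U
  · obtain ⟨y, hyO, hyU⟩ := mem_closure_iff.1 (hU.1 h) O hO hx
    refine ⟨O ∩ interior U, hO.inter isOpen_interior, ⟨y, hyO, hyU⟩, inter_subset_left,
      fun w hw => ?_⟩
    have h1 : w ∈ U := interior_subset hw.2
    simp only [h, h1, if_true] at hV ⊢
    exact hV
  · have h1 : ¬ O ⊆ closure U := fun h2 => h (hU.2 (mem_interior.2 ⟨O, h2, hO, hx⟩))
    obtain ⟨y, hyO, hyU⟩ := not_subset.1 h1
    refine ⟨O \ closure U, hO.sdiff isClosed_closure, ⟨y, hyO, hyU⟩, sdiff_subset,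
      fun w hw => ?_⟩
    have h1 : w ∉ U := fun h2 => hw.2 (subset_closure h2)
    simp only [h, h1, if_false] at hV ⊢
    exact hV

/-- The zero function. -/
def zeroQ (X : Type u) [TopologicalSpace X] : Qp X :=
  ⟨fun _ => 0, fun x O hO hx _ _ hV => ⟨O, hO, ⟨x, hx⟩, Subset.rfl, fun _ _ => hV⟩⟩

/-- Selection from decreasing sequences of covers. -/
theorem select_dec (hFU : FUAt (zeroQ X)) (𝒰 : ℕ → Set (Set X)) (hanti : ∀ n, 𝒰 (n + 1) ⊆ 𝒰 n)
    (hmb : ∀ n, ∀ U ∈ 𝒰 n, MinBdd U) (hF : ∀ n, ∀ F : Set X, F.Finite → ∃ U ∈ 𝒰 n, F ⊆ U) :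
    ∃ U : ℕ → Set X, (∀ n, U n ∈ 𝒰 n) ∧ ∀ x, ∀ᶠ n in atTop, x ∈ U n := by
  classical
  have hanti' : ∀ m n, m ≤ n → 𝒰 n ⊆ 𝒰 m := fun m n hmn =>
    (antitone_nat_of_succ_le hanti) hmn
  rcases isEmpty_or_nonempty X with hemp | ⟨⟨x0⟩⟩
  · choose U hU _ using fun n => hF n ∅ finite_empty
    exact ⟨U, hU, fun x => (hemp.false x).elim⟩
  obtain ⟨s, hs, hlim⟩ := hFU {g | ∃ n, ∃ U ∈ 𝒰 n, g.1 = fun x => if x ∈ U then
      1 / ((n : ℝ) + 1) else 1} (by
    rw [mem_closure_Qp]
    intro K η hη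
    obtain ⟨n, hn⟩ := exists_nat_one_div_lt hη
    obtain ⟨U, hU, hKU⟩ := hF n K K.finite_toSet
    refine ⟨⟨_, qc_ite (hmb n U hU) (1 / ((n : ℝ) + 1))⟩, ⟨n, U, hU, rfl⟩, fun x hx => ?_⟩
    have hxU : x ∈ U := hKU hx
    change |(if x ∈ U then 1 / ((n : ℝ) + 1) else 1) - 0| < η
    rw [if_pos hxU, sub_zero, abs_of_pos Nat.one_div_pos_of_nat]
    exact hn)
  choose n U hU hsU using hs
  rw [tendsto_Qp] at hlim
  have hval : ∀ x k, (s k).1 x = if x ∈ U k then 1 / ((n k : ℝ) + 1) else 1 := fun x k => by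
    rw [hsU k]
  have hlt : ∀ x, ∀ η > 0, ∀ᶠ k in atTop, (s k).1 x < η := by
    intro x η hη
    have h1 : Tendsto (fun k => (s k).1 x) atTop (𝓝 0) := hlim x
    exact h1.eventually_lt_const hη
  have hpos : ∀ x k, 1 / ((n k : ℝ) + 1) ≤ (s k).1 x := by
    intro x k
    rw [hval]
    split_ifs with h
    · exact le_rfl
    · rw [div_le_one (by positivity)]
      have : (0 : ℝ) ≤ n k := Nat.cast_nonneg _
      linarith
  have hn : ∀ N, ∀ᶠ k in atTop, N ≤ n k := by
    intro N
    filter_upwards [hlt x0 (1 / ((N : ℝ) + 1)) Nat.one_div_pos_of_nat] with k hk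
    have h1 := (hpos x0 k).trans_lt hk
    rw [one_div_lt_one_div (by positivity) (by positivity)] at h1
    have h2 : (N : ℝ) < n k := by linarith
    exact_mod_cast h2.le
  have hk : ∀ N, ∃ k ≥ N, N ≤ n k := fun N => by
    obtain ⟨k, hk1, hk2⟩ := ((eventually_ge_atTop N).and (hn N)).exists
    exact ⟨k, hk1, hk2⟩
  choose k hkN hkn using hk
  refine ⟨fun N => U (k N), fun N => hanti' N (n (k N)) (hkn N) (hU (k N)), fun x => ?_⟩
  obtain ⟨K, hK⟩ := eventually_atTop.1 (hlt x 1 one_pos)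
  filter_upwards [eventually_ge_atTop K] with N hN
  have h1 := hK (k N) (hN.trans (hkN N))
  rw [hval] at h1
  by_contra h2
  rw [if_neg h2] at h1
  exact lt_irrefl _ h1

omit [TopologicalSpace X] in
theorem finite_enum (h : X → ℝ) (F : Set X) (hF : F.Finite) :
    ∃ (m : ℕ) (c : ℕ → ℝ), ∀ x ∈ F, ∃ i < m, c i = h x := by
  refine Set.Finite.induction_on F hF ⟨0, fun _ => 0, by simp⟩ ?_
  rintro a s _ _ ⟨m, c, hc⟩
  refine ⟨m + 1, Function.update c m (h a), fun x hx => ?_⟩
  rcases mem_insert_iff.1 hx with rfl | hx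
  · exact ⟨m, Nat.lt_succ_self m, by rw [Function.update_self]⟩
  · obtain ⟨i, hi, hci⟩ := hc x hx
    exact ⟨i, hi.trans (Nat.lt_succ_self m), by rw [Function.update_of_ne hi.ne, hci]⟩

theorem mb_closure_union {F : Set X} (hF : F.Finite) (V : X → Set X) (hV : ∀ x, IsOpen (V x)) :
    MinBdd (⋃ x ∈ F, closure (V x)) := by
  have hcl : IsClosed (⋃ x ∈ F, closure (V x)) := hF.isClosed_biUnion fun _ _ => isClosed_closure
  refine ⟨?_, by rw [hcl.closure_eq]; exact interior_subset⟩
  refine iUnion₂_subset fun x hx => closure_mono (interior_maximal ?_ (hV x))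
  exact subset_closure.trans (subset_biUnion_of_mem (u := fun x => closure (V x)) hx)

theorem exists_V [RegularSpace X] (G : X → Set X) (hG : ∀ x, IsOpen (G x)) (hx : ∀ x, x ∈ G x) :
    ∃ V : X → Set X, (∀ x, IsOpen (V x)) ∧ (∀ x, x ∈ V x) ∧ ∀ x, closure (V x) ⊆ G x := by
  have : ∀ x, ∃ V : Set X, IsOpen V ∧ x ∈ V ∧ closure V ⊆ G x := by
    intro x
    obtain ⟨C, hC, hCcl, hCG⟩ := exists_mem_nhds_isClosed_subset ((hG x).mem_nhds (hx x))
    obtain ⟨V, hVC, hV, hxV⟩ := mem_nhds_iff.1 hC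
    exact ⟨V, hV, hxV, (closure_minimal hVC hCcl).trans hCG⟩
  choose V h1 h2 h3 using this
  exact ⟨V, h1, h2, h3⟩

/-- Continuous images in the line have strong measure zero. -/
theorem smz [RegularSpace X] (hFU : FUAt (zeroQ X)) (h : X → ℝ) (hc : Continuous h) :
    StrongMeasureZero (range h) := by
  intro δ hδ
  have hr : ∀ m : ℕ, ∃ r > 0, ∀ i < 2 * m, r ≤ δ i := by
    intro m
    induction 2 * m with
    | zero => exact ⟨1, one_pos, fun i hi => absurd hi (Nat.not_lt_zero i)⟩
    | succ k ih =>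
      obtain ⟨r, hr, hri⟩ := ih
      refine ⟨min r (δ k), lt_min hr (hδ k), fun i hi => ?_⟩
      rcases (Nat.lt_succ_iff.1 hi).eq_or_lt with rfl | hlt
      · exact min_le_right _ _
      · exact (min_le_left _ _).trans (hri i hlt)
  choose r hr hrδ using hr
  obtain ⟨U, hU, hlim⟩ := select_dec hFU (fun n => {R | MinBdd R ∧ ∃ m ≥ n + 1, ∃ c : ℕ → ℝ,
      ∀ x ∈ R, ∃ i < m, |h x - c i| < r m}) (by
    rintro n R ⟨hR, m, hm, hc⟩
    exact ⟨hR, m, (Nat.le_succ _).trans hm, hc⟩) (fun n U hU => hU.1) (by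
    intro n F hF
    obtain ⟨m, c, hc'⟩ := finite_enum h F hF
    obtain ⟨V, hV, hxV, hVG⟩ := exists_V (fun x => {y | |h y - h x| < r (max m (n + 1))})
      (fun x => isOpen_lt (hc.sub continuous_const).abs continuous_const)
      (fun x => by
        change |h x - h x| < r (max m (n + 1))
        rw [sub_self, abs_zero]
        exact hr _)
    refine ⟨⋃ x ∈ F, closure (V x), ⟨mb_closure_union hF V hV, max m (n + 1), le_max_right _ _,
      c, fun y hy => ?_⟩, fun x hx => mem_iUnion₂.2 ⟨x, hx, subset_closure (hxV x)⟩⟩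
    obtain ⟨x, hx, hyx⟩ := mem_iUnion₂.1 hy
    obtain ⟨i, hi, hci⟩ := hc' x hx
    refine ⟨i, hi.trans_le (le_max_left _ _), ?_⟩
    rw [hci]
    exact hVG x hyx)
  choose _ m hm c hcm using hU
  -- the blocks
  let s : ℕ → ℕ := fun j => Nat.rec 0 (fun _ a => a + m a) j
  have hs : ∀ j, s (j + 1) = s j + m (s j) := fun j => rfl
  have hsmono : StrictMono s := strictMono_nat_of_lt_succ fun j => by
    rw [hs]
    have := hm (s j)
    omega
  have huniq : ∀ j k i l, i < m (s j) → l < m (s k) → s j + i = s k + l → j = k := by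
    intro j k i l hi hl heq
    rcases lt_trichotomy j k with h1 | h1 | h1
    · have h2 : s (j + 1) ≤ s k := hsmono.monotone h1
      rw [hs] at h2
      omega
    · exact h1
    · have h2 : s (k + 1) ≤ s j := hsmono.monotone h1
      rw [hs] at h2
      omega
  have he : ∀ i, ∃ e : ℝ, ∀ j l, l < m (s j) → i = s j + l → e = c (s j) l := by
    intro i
    by_cases hex : ∃ j l, l < m (s j) ∧ i = s j + l
    · obtain ⟨j, l, hl, hi⟩ := hex
      refine ⟨c (s j) l, fun k l' hl' hi' => ?_⟩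
      have hjk : j = k := huniq j k l l' hl hl' (hi.symm.trans hi')
      subst hjk
      have : l = l' := by omega
      rw [this]
    · push Not at hex
      exact ⟨0, fun j l hl hi => absurd hi (hex j l hl)⟩
  choose e he using he
  refine ⟨e, ?_⟩
  rintro _ ⟨x, rfl⟩
  obtain ⟨N, hN⟩ := eventually_atTop.1 (hlim x)
  have hNs : N ≤ s N := hsmono.id_le N
  obtain ⟨i, hi, hxi⟩ := hcm (s N) x (hN (s N) hNs)
  refine mem_iUnion.2 ⟨s N + i, ?_⟩
  have h1 : e (s N + i) = c (s N) i := he _ N i hi rfl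
  have h2 : r (m (s N)) ≤ δ (s N + i) := hrδ _ _ (by
    have := hm (s N)
    omega)
  rw [← h1, abs_lt] at hxi
  constructor <;> linarith [hxi.1, hxi.2]

/-- The main theorem under Borel's conjecture. -/
theorem countable_of_BC (hBC : BorelConjecture) [RegularSpace X]
    (hsub : Submetrizable X) (hFU : FUAt (zeroQ X)) : Countable X := by
  classical
  have hcount : ∀ h : X → ℝ, Continuous h → (range h).Countable := fun h hc =>
    hBC _ (smz hFU h hc)
  -- the distance
  obtain ⟨d, hdc, hd0, hdself, hdtri⟩ : ∃ d : X → X → ℝ, (∀ c, Continuous fun x => d x c) ∧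
      (∀ x y, x ≠ y → 0 < d x y) ∧ (∀ x, d x x = 0) ∧
      ∀ x y c, d x y ≤ d x c + d y c := by
    obtain ⟨t, hmet, hle⟩ := hsub
    let M : MetricSpace X := @TopologicalSpace.metrizableSpaceMetric X t hmet
    refine ⟨fun x y => M.dist x y, fun c => ?_, fun x y hxy => ?_, fun x => ?_, fun x y c => ?_⟩
    · have h1 : @Continuous X ℝ t _ fun x => M.dist x c := by
        have h2 := @Continuous.dist X X M.toPseudoMetricSpace t
          (fun x => x) (fun _ => c) continuous_id continuous_const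
        exact h2
      exact continuous_le_dom hle h1
    · exact dist_pos.2 hxy
    · exact dist_self x
    · exact dist_triangle_right x y c
  -- a countable dense set
  obtain ⟨D, hD, hDd⟩ : ∃ D : Set X, D.Countable ∧ ∀ x, ∀ ε > 0, ∃ c ∈ D, d x c < ε := by
    obtain ⟨U, hU, hlim⟩ := select_dec hFU (fun n => {R | MinBdd R ∧ ∃ F : Set X, F.Finite ∧
        ∀ x ∈ R, ∃ c ∈ F, d x c < 1 / ((n : ℝ) + 1)}) (by
      rintro n R ⟨hR, F, hF, hc⟩
      refine ⟨hR, F, hF, fun x hx => ?_⟩
      obtain ⟨c, hcF, hxc⟩ := hc x hx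
      refine ⟨c, hcF, hxc.trans_le (one_div_le_one_div_of_le (by positivity) ?_)⟩
      push_cast
      linarith) (fun n U hU => hU.1) (by
      intro n F hF
      obtain ⟨V, hV, hxV, hVG⟩ := exists_V (fun x => {y | d y x < 1 / ((n : ℝ) + 1)})
        (fun x => isOpen_lt (hdc x) continuous_const)
        (fun x => by
          change d x x < 1 / ((n : ℝ) + 1)
          rw [hdself]
          exact Nat.one_div_pos_of_nat)
      refine ⟨⋃ x ∈ F, closure (V x), ⟨mb_closure_union hF V hV, F, hF, fun y hy => ?_⟩,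
        fun x hx => mem_iUnion₂.2 ⟨x, hx, subset_closure (hxV x)⟩⟩
      obtain ⟨x, hx, hyx⟩ := mem_iUnion₂.1 hy
      exact ⟨x, hx, hVG x hyx⟩)
    choose _ F hF hFc using hU
    refine ⟨⋃ n, F n, countable_iUnion fun n => (hF n).countable, fun x ε hε => ?_⟩
    obtain ⟨m, hm⟩ := exists_nat_one_div_lt hε
    obtain ⟨N, hN⟩ := eventually_atTop.1 (hlim x)
    obtain ⟨c, hc, hxc⟩ := hFc (max m N) x (hN _ (le_max_right _ _))
    refine ⟨c, mem_iUnion.2 ⟨_, hc⟩, hxc.trans_le ((one_div_le_one_div_of_le (by positivity)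
      ?_).trans hm.le)⟩
    have : (m : ℝ) ≤ (max m N : ℕ) := by exact_mod_cast le_max_left m N
    linarith
  -- the clopen sets
  have hex : ∀ q : D × ℚ × ℚ, ∃ r : ℝ, q.2.1 < q.2.2 → (q.2.1 : ℝ) < r ∧ r < q.2.2 ∧
      r ∉ range fun x => d x q.1 := by
    intro q
    by_cases hq : q.2.1 < q.2.2
    · have hq' : (q.2.1 : ℝ) < q.2.2 := by exact_mod_cast hq
      have hunc : ¬ (Ioo (q.2.1 : ℝ) q.2.2).Countable := by
        rw [← Cardinal.le_aleph0_iff_set_countable, Cardinal.mk_Ioo_real hq', not_le]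
        exact Cardinal.aleph0_lt_continuum
      obtain ⟨r, hr, hr2⟩ : ∃ r ∈ Ioo (q.2.1 : ℝ) q.2.2, r ∉ range fun x => d x q.1 := by
        by_contra hcon
        push Not at hcon
        exact hunc ((hcount _ (hdc q.1)).mono hcon)
      exact ⟨r, fun _ => ⟨hr.1, hr.2, hr2⟩⟩
    · exact ⟨0, fun h => absurd h hq⟩
  choose r hr using hex
  let K : D × ℚ × ℚ → Set X := fun q => {x | q.2.1 < q.2.2 ∧ d x q.1 < r q}
  have hK : ∀ q, IsClopen (K q) := by
    intro q
    by_cases hq : q.2.1 < q.2.2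
    · have h1 : K q = {x | d x q.1 < r q} := by
        ext x; simp [K, hq]
      rw [h1]
      refine ⟨?_, isOpen_lt (hdc _) continuous_const⟩
      have h2 : {x | d x q.1 < r q} = {x | d x q.1 ≤ r q} := by
        ext x
        constructor
        · intro h
          exact le_of_lt (show d x q.1 < r q from h)
        · intro h
          refine lt_of_le_of_ne h fun h3 => (hr q hq).2.2 ⟨x, h3⟩
      rw [h2]
      exact isClosed_le (hdc _) continuous_const
    · have h1 : K q = ∅ := by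
        ext x; simp [K, hq]
      rw [h1]
      exact isClopen_empty
  have hsep : ∀ x y, x ≠ y → ∃ q, x ∈ K q ∧ y ∉ K q := by
    intro x y hxy
    have hpos := hd0 x y hxy
    obtain ⟨c, hc, hxc⟩ := hDd x (d x y / 3) (by linarith)
    have h1 := hdtri x y c
    obtain ⟨p, hp1, hp2⟩ := exists_rat_btwn (show d x y / 3 < d x y / 2 by linarith)
    obtain ⟨p', hp1', hp2'⟩ := exists_rat_btwn (show d x y / 2 < d x y * 2 / 3 by linarith)
    have hpp : p < p' := by exact_mod_cast hp2.trans hp1'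
    obtain ⟨h2, h3, _⟩ := hr (⟨c, hc⟩, p, p') hpp
    refine ⟨(⟨c, hc⟩, p, p'), ⟨hpp, ?_⟩, fun h => ?_⟩
    · change d x c < r (⟨c, hc⟩, p, p')
      have h2' : (p : ℝ) < r (⟨c, hc⟩, p, p') := h2
      linarith
    · have h4 : d y c < r (⟨c, hc⟩, p, p') := h.2
      have h3' : r (⟨c, hc⟩, p, p') < (p' : ℝ) := h3
      linarith
  rcases isEmpty_or_nonempty X with hemp | ⟨⟨x0⟩⟩
  · infer_instance
  have hDc : Countable D := hD
  obtain ⟨c0, hc0, _⟩ := hDd x0 1 one_pos
  have : Nonempty (D × ℚ × ℚ) := ⟨(⟨c0, hc0⟩, 0, 0)⟩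
  obtain ⟨s, hs⟩ := exists_surjective_nat (D × ℚ × ℚ)
  let F : X → ℕ → Bool := fun x n => decide (x ∈ K (s n))
  have hFc : ∀ n, Continuous fun x => F x n := by
    intro n
    rw [continuous_bool_rng true]
    convert hK (s n) using 1
    ext x
    simp [F]
  have hFinj : Function.Injective F := by
    intro x y hxy
    by_contra hne
    obtain ⟨q, hq1, hq2⟩ := hsep x y hne
    obtain ⟨n, rfl⟩ := hs q
    have h1 := congrFun hxy n
    simp only [F, hq1, hq2, decide_true, decide_false] at h1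
    exact absurd h1 (by simp)
  have hcant : Continuous fun x => Cardinal.cantorFunction (1 / 3) (F x) := by
    unfold Cardinal.cantorFunction
    refine continuous_tsum (u := fun n => (1 / 3 : ℝ) ^ n) (fun n => ?_)
      (summable_geometric_of_lt_one (by norm_num) (by norm_num)) (fun n x => ?_)
    · unfold Cardinal.cantorFunctionAux
      exact (continuous_of_discreteTopology (f := fun b : Bool => cond b ((1 / 3 : ℝ) ^ n) 0)).comp
        (hFc n)
    · unfold Cardinal.cantorFunctionAux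
      cases F x n with
      | false => simp only [cond_false, norm_zero]; positivity
      | true => simp only [cond_true, Real.norm_eq_abs]; rw [abs_of_pos (by positivity)]
  have hinj : Function.Injective fun x => Cardinal.cantorFunction (1 / 3) (F x) := fun x y hxy =>
    hFinj (Cardinal.cantorFunction_injective (by norm_num) (by norm_num) hxy)
  have h1 := hcount _ hcant
  rw [← image_univ] at h1
  exact countable_univ_iff.1 (Set.countable_of_injective_of_countable_image hinj.injOn h1)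

end Q209.QC
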