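import Mathlib
import Pool.Agent.Q209.OSForce

/-!
The Ostaszewski square in the language of forcing, and a named square sequence obtained from a
ground model square sequence by moving its points according to coded names.
-/

set_option autoImplicit false
set_option linter.unusedSectionVars false

namespace Q209.OS

open Cardinal Set Order Ordinal Pool.Agent.Helper669.Forcing Pool.Agent.Helper669.K

section defs

variable {P : Type} [Preorder P] {K : Type} [LinearOrder K]

/-- The named subset `c` of `K` is unbounded in `β`. -/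
def FUnbIn (c : K → Set P) (β : K) : Set P :=
  fall fun x : K => fall fun _ : x < β => fex fun w : K =>
    fand (fground (x < w ∧ w < β)) (meets (c w))

/-- The named subset `c` of `K` is a closed unbounded subset of (the predecessors of) `α`. -/
def FClubIn (c : K → Set P) (α : K) : Set P :=
  fand (fall fun w : K => fimp (meets (c w)) (fground (w < α)))
    (fand (FUnbIn c α)
      (fall fun β : K => fall fun _ : β < α ∧ ∃ y, y < β =>
        fimp (FUnbIn c β) (meets (c β))))

/-- The name `e` denotes the increasing enumeration of the named subset `c` of `K`, and the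
enumeration has length `θ`: `e` is a function on `θ`, it is strictly increasing, and its range
is `c`. -/
def FEnum (θ : Ordinal.{0}) (c : K → Set P) (e : Ordinal.{0} → K → Set P) : Set P :=
  fand (fall fun i : Ordinal.{0} => fall fun _ : i < θ => fex fun w : K => meets (e i w))
    (fand (fall fun i : Ordinal.{0} => fall fun j : Ordinal.{0} => fall fun _ : i ≤ j ∧ j < θ =>
        fall fun w : K => fall fun w' : K => fimp (fand (meets (e i w)) (meets (e j w')))
          (fground ((i = j → w = w') ∧ (i < j → w < w'))))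
      (fall fun w : K => fand
        (fimp (meets (c w)) (fex fun i : Ordinal.{0} => fand (fground (i < θ)) (meets (e i w))))
        (fall fun i : Ordinal.{0} => fall fun _ : i < θ => fimp (meets (e i w)) (meets (c w)))))

/-- The named sequence `C` is a `□_lam` sequence: for every limit point `α`, `C α` is a club in `α`
of order type at most `lam`, and if `β` is an accumulation point of `C α` (an element `β` with
`sup (C α ∩ β) = β`), then `C β = C α ∩ β`. -/
def FSquare (lam : Cardinal.{0}) (C : Kp lam → Kp lam → Set P) : Set P :=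
  fall fun α : Kp lam => fall fun _ : IsSuccLimit α =>
    fand (FClubIn (C α) α)
      (fand (fex fun θ : Ordinal.{0} => fand (fground (θ ≤ lam.ord))
          (fex fun e : Ordinal.{0} → Kp lam → Set P => FEnum θ (C α) e))
        (fall fun β : Kp lam => fimp (fand (meets (C α β)) (FUnbIn (C α) β))
          (fall fun w : Kp lam => fand
            (fimp (meets (C β w)) (fand (meets (C α w)) (fground (w < β))))
            (fimp (fand (meets (C α w)) (fground (w < β))) (meets (C β w))))))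

/-- The named sequence `C` has the guessing property of the Ostaszewski square. -/
def FGuessing (lam : Cardinal.{0}) (C : Kp lam → Kp lam → Set P) : Set P :=
  fall fun A : Ordinal.{0} → Kp lam → Set P => fall fun D : Kp lam → Set P =>
    fimp (fand (fall fun i : Ordinal.{0} => fall fun _ : i < lam.ord => FUnb (A i)) (FClub D))
      (fall fun θ : Ordinal.{0} => fall fun _ : θ < lam.ord ∧ IsSuccLimit θ =>
        fex fun α : Kp lam => fex fun e : Ordinal.{0} → Kp lam → Set P =>
          fand (fground (IsSuccLimit α)) (fand (FEnum θ (C α) e)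
            (fall fun i : Ordinal.{0} => fall fun _ : i < θ => fall fun x : Kp lam =>
              fall fun y : Kp lam => fimp (fand (meets (e i x)) (meets (e (i + 1) y)))
                (fand (meets (A i y))
                  (fex fun β : Kp lam => fand (fground (x < β ∧ β < y)) (meets (D β)))))))

/-- The Ostaszewski square `OS_lam` holds in the extension. -/
def FOSq (P : Type) [Preorder P] (lam : Cardinal.{0}) : Set P :=
  fex fun C : Kp lam → Kp lam → Set P => fand (FSquare lam C) (FGuessing lam C)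

theorem down_FUnbIn (c : K → Set P) (β : K) : Down (FUnbIn c β) :=
  down_fall fun _ => down_fall fun _ => down_fex _

theorem down_FEnum (θ : Ordinal.{0}) (c : K → Set P) (e : Ordinal.{0} → K → Set P) :
    Down (FEnum θ c e) :=
  down_fand (down_fall fun _ => down_fall fun _ => down_fex _)
    (down_fand (down_fall fun _ => down_fall fun _ => down_fall fun _ => down_fall fun _ =>
        down_fall fun _ => down_fimp _ _)
      (down_fall fun _ => down_fand (down_fimp _ _)
        (down_fall fun _ => down_fall fun _ => down_fimp _ _)))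

end defs

section move

variable {P : Type} [Preorder P] {K : Type} [LinearOrder K] [WellFoundedLT K]
  (N : K → Ordinal.{0} → K → Set P)

/-- The conditions which decide that `w` is the new version of the element `y` of `c`: the
predecessor of `y` in `c` is `x`, at position `i`, and `w` is the least point between `x` and `y`
that is the value at `i` of the function named by `N y`, or `w` is `y` if there is no such point. -/
def NW (c : Set K) (y w : K) : Set P :=
  {p | ((¬ HasPred c y) ∧ w = y) ∨ ∃ x, IsGreatest (c ∩ Iio y) x ∧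
    ((x < w ∧ w < y ∧ p ∈ meets (N y (pos c x) w) ∧
        ∀ w', x < w' → w' < w → p ∈ fnot (meets (N y (pos c x) w'))) ∨
      (w = y ∧ ∀ w', x < w' → w' < y → p ∈ fnot (meets (N y (pos c x) w'))))}

theorem down_NW (c : Set K) (y w : K) : Down (NW N c y w) := by
  intro p hp q hq
  rcases hp with hp | ⟨x, hx, ⟨h1, h2, h3, h4⟩ | ⟨h1, h2⟩⟩
  · exact Or.inl hp
  · exact Or.inr ⟨x, hx, Or.inl ⟨h1, h2, down_meets _ _ h3 _ hq,
      fun w' h5 h6 => down_fnot _ _ (h4 w' h5 h6) _ hq⟩⟩
  · exact Or.inr ⟨x, hx, Or.inr ⟨h1, fun w' h5 h6 => down_fnot _ _ (h2 w' h5 h6) _ hq⟩⟩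

theorem NW_le {c : Set K} {y w : K} {p : P} (h : p ∈ NW N c y w) : w ≤ y := by
  rcases h with ⟨-, h⟩ | ⟨x, hx, ⟨h1, h2, -⟩ | ⟨h1, -⟩⟩
  · exact h.le
  · exact h2.le
  · exact h1.le

theorem lt_NW {c : Set K} {z y w : K} {p : P} (hz : z ∈ c) (hzy : z < y)
    (h : p ∈ NW N c y w) : z < w := by
  rcases h with ⟨-, h⟩ | ⟨x, hx, ⟨h1, h2, -⟩ | ⟨h1, -⟩⟩
  · rwa [h]
  · exact (hx.2 ⟨hz, hzy⟩).trans_lt h1
  · rwa [h1]

theorem NW_lt {c : Set K} {z y v w : K} {p : P} (hz : z ∈ c) (hzy : z < y)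
    (hv : p ∈ NW N c z v) (hw : p ∈ NW N c y w) : v < w :=
  (NW_le N hv).trans_lt (lt_NW N hz hzy hw)

theorem NW_unique {c : Set K} {y w w' : K} {p : P} (h : p ∈ NW N c y w)
    (h' : p ∈ NW N c y w') : w = w' := by
  have key : ∀ w w' : K, p ∈ NW N c y w → p ∈ NW N c y w' → ¬ w < w' := by
    intro w w' h h' hlt
    rcases h with ⟨h0, h⟩ | ⟨x, hx, ⟨h1, h2, h3, h4⟩ | ⟨h1, h2⟩⟩
    · rw [h] at hlt
      exact absurd hlt (not_lt.2 (NW_le N h'))
    · rcases h' with ⟨h0', h'⟩ | ⟨x', hx', ⟨h1', h2', h3', h4'⟩ | ⟨h1', h2'⟩⟩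
      · exact h0' ⟨x, hx⟩
      · have hxx : x' = x := hx'.unique hx
        subst hxx
        exact h4' w h1 hlt p le_rfl h3
      · have hxx : x' = x := hx'.unique hx
        subst hxx
        exact h2' w h1 h2 p le_rfl h3
    · rw [h1] at hlt
      exact absurd hlt (not_lt.2 (NW_le N h'))
  exact le_antisymm (not_lt.1 (key w' w h' h)) (not_lt.1 (key w w' h h'))

theorem exists_NW (c : Set K) (y : K) (p : P) : ∃ q ≤ p, ∃ w, q ∈ NW N c y w := by
  by_cases hpred : HasPred c y
  · obtain ⟨x, hx⟩ := hpred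
    by_cases hne : {w | x < w ∧ w < y ∧ ∃ r ≤ p, r ∈ meets (N y (pos c x) w)}.Nonempty
    · obtain ⟨w, ⟨h1, h2, r, hr, hrw⟩, hmin⟩ := (wellFounded_lt (α := K)).has_min _ hne
      refine ⟨r, hr, w, Or.inr ⟨x, hx, Or.inl ⟨h1, h2, hrw, fun w' h3 h4 s hs hsw => ?_⟩⟩⟩
      exact hmin w' ⟨h3, h4.trans h2, s, hs.trans hr, hsw⟩ h4
    · refine ⟨p, le_rfl, y, Or.inr ⟨x, hx, Or.inr ⟨rfl, fun w' h3 h4 s hs hsw => ?_⟩⟩⟩
      exact hne ⟨w', h3, h4, s, hs, hsw⟩
  · exact ⟨p, le_rfl, y, Or.inl ⟨hpred, rfl⟩⟩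

theorem NW_congr {c c' : Set K} {y : K} (h : c ∩ Iio y = c' ∩ Iio y) (w : K) :
    NW N c y w = NW N c' y w := by
  have h1 : HasPred c y ↔ HasPred c' y := by unfold HasPred; rw [h]
  have h2 : ∀ x, IsGreatest (c ∩ Iio y) x → pos c x = pos c' x := by
    intro x hx
    apply type_set_congr
    have h3 : ∀ d : Set K, d ∩ Iio x = d ∩ Iio y ∩ Iio x := by
      intro d
      rw [inter_assoc]
      congr 1
      exact (inter_eq_right.2 (Iio_subset_Iio (le_of_lt hx.1.2))).symm
    rw [h3 c, h3 c', h]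
  ext p
  simp only [NW, mem_ofPred_eq]
  rw [h1]
  refine or_congr Iff.rfl (exists_congr fun x => ?_)
  constructor
  · rintro ⟨hx, h4⟩
    rw [h2 x hx] at h4
    rw [h] at hx
    exact ⟨hx, h4⟩
  · rintro ⟨hx, h4⟩
    rw [← h] at hx
    rw [← h2 x hx] at h4
    exact ⟨hx, h4⟩

/-- The new version of the set `c`. -/
def NC (c : Set K) (w : K) : Set P := {p | ∃ y ∈ c, p ∈ NW N c y w}

theorem down_NC (c : Set K) (w : K) : Down (NC N c w) := by
  rintro p ⟨y, hy, h⟩ q hq
  exact ⟨y, hy, down_NW N c y w _ h _ hq⟩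

/-- The enumeration of the new version. -/
def NE (c : Set K) (i : Ordinal.{0}) (w : K) : Set P := {p | ∃ y, Nth c i y ∧ p ∈ NW N c y w}

theorem down_NE (c : Set K) (i : Ordinal.{0}) (w : K) : Down (NE N c i w) := by
  rintro p ⟨y, hy, h⟩ q hq
  exact ⟨y, hy, down_NW N c y w _ h _ hq⟩

theorem enum_NC (c : Set K) (p : P) : p ∈ FEnum (typeLT c) (NC N c) (NE N c) := by
  refine ⟨fun i hi => mem_fex.2 fun q _ => ?_, fun i j hij w w' => mem_fimp.2 fun q _ hq => ?_,
    fun w => ⟨mem_fimp.2 fun q _ hq => ?_, fun i _ => mem_fimp.2 fun q _ hq => ?_⟩⟩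
  · obtain ⟨y, hy, hyi⟩ := exists_pos_eq hi
    obtain ⟨r, hr, w, hw⟩ := exists_NW N c y q
    exact ⟨r, hr, w, meets_of_mem ⟨y, ⟨hy, hyi⟩, hw⟩⟩
  · obtain ⟨r, hr, y, hy, hyw⟩ := exists_of_meets (down_NE N c i w) hq.1
    obtain ⟨s, hs, z, hz, hzw⟩ := exists_of_meets (down_NE N c j w') (down_meets _ _ hq.2 _ hr)
    have hyw' := down_NW N c y w _ hyw _ hs
    have hyi : pos c y = i := hy.2
    have hzj : pos c z = j := hz.2
    refine ⟨s, hs.trans hr, ?_, ?_⟩
    · rintro rfl
      have hyz : y = z := by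
        rcases lt_trichotomy y z with h | h | h
        · exact absurd (pos_lt_pos hy.1 hz.1 h) (by rw [hyi, hzj]; exact lt_irrefl _)
        · exact h
        · exact absurd (pos_lt_pos hz.1 hy.1 h) (by rw [hyi, hzj]; exact lt_irrefl _)
      subst hyz
      exact NW_unique N hyw' hzw
    · intro hlt
      refine NW_lt N hy.1 (lt_of_pos_lt hy.1 hz.1 ?_) hyw' hzw
      rw [hyi, hzj]
      exact hlt
  · obtain ⟨r, hr, y, hy, hyw⟩ := exists_of_meets (down_NC N c w) hq
    refine ⟨r, hr, mem_fex_of_mem (pos c y) (down_fand (down_fground _) (down_meets _))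
      ⟨pos_lt_type hy, meets_of_mem ⟨y, ⟨hy, rfl⟩, hyw⟩⟩⟩
  · obtain ⟨r, hr, y, hy, hyw⟩ := exists_of_meets (down_NE N c i w) hq
    exact ⟨r, hr, meets_of_mem ⟨y, hy.1, hyw⟩⟩

/-- If the new version is unbounded in `β`, so is the old set. -/
theorem unb_of_NC {c : Set K} {β : K} {p : P} (h : p ∈ FUnbIn (NC N c) β) :
    ∀ x < β, ∃ y ∈ c, x < y ∧ y < β := by
  intro x hx
  obtain ⟨q, hq, w, hw1, hw2⟩ := mem_fex.1 (h x hx) p le_rfl
  obtain ⟨r, hr, y, hy, hyw⟩ := exists_of_meets (down_NC N c w) hw2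
  obtain ⟨q', hq', w', hw1', hw2'⟩ := mem_fex.1 (h w hw1.2) r (hr.trans hq)
  obtain ⟨r', hr', y', hy', hyw'⟩ := exists_of_meets (down_NC N c w') hw2'
  have h1 := down_NW N c y w _ hyw _ (hr'.trans hq')
  have hyy : y < y' := by
    by_contra hcon
    rcases (not_lt.1 hcon).eq_or_lt with h | h
    · subst h
      rw [NW_unique N h1 hyw'] at hw1'
      exact lt_irrefl _ hw1'.1
    · exact absurd hw1'.1 (not_lt.2 (NW_lt N hy' h hyw' h1).le)
  exact ⟨y, hy, hw1.1.trans_le (NW_le N h1), (lt_NW N hy hyy hyw').trans hw1'.2⟩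

theorem not_hasPred {c : Set K} {β : K} (h : ∀ x < β, ∃ y ∈ c, x < y ∧ y < β) :
    ¬ HasPred c β := by
  rintro ⟨x, hx⟩
  obtain ⟨y, hy, h1, h2⟩ := h x hx.1.2
  exact absurd h1 (not_lt.2 (hx.2 ⟨hy, h2⟩))

theorem clubIn_NC {c : Set K} {α : K} (hc : IsClubIn c α) (p : P) :
    p ∈ FClubIn (NC N c) α := by
  refine ⟨fun w => mem_fimp.2 fun q _ hq => ?_, fun x hx => mem_fex.2 fun q _ => ?_,
    fun β hβ => mem_fimp.2 fun q _ hq => ?_⟩
  · obtain ⟨r, hr, y, hy, hyw⟩ := exists_of_meets (down_NC N c w) hq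
    exact ⟨r, hr, (NW_le N hyw).trans_lt (hc.subset hy)⟩
  · obtain ⟨y, hy, hxy⟩ := hc.unbounded x hx
    obtain ⟨z, hz, hyz⟩ := hc.unbounded y (hc.subset hy)
    obtain ⟨r, hr, w, hw⟩ := exists_NW N c z q
    exact ⟨r, hr, w, ⟨hxy.trans (lt_NW N hy hyz hw), (NW_le N hw).trans_lt (hc.subset hz)⟩,
      meets_of_mem ⟨z, hz, hw⟩⟩
  · have h1 := unb_of_NC N hq
    have h2 := hc.closed β hβ.1 hβ.2 h1
    exact ⟨q, le_rfl, meets_of_mem ⟨β, h2, Or.inl ⟨not_hasPred h1, rfl⟩⟩⟩

/-- The coherence of the new sequence. -/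
theorem coh_NC {C : K → Set K} {α : K} (hc : IsClubIn (C α) α)
    (hcoh : ∀ β ∈ acc (C α), C β = C α ∩ Iio β) (β : K) (p : P) :
    p ∈ fimp (fand (meets (NC N (C α) β)) (FUnbIn (NC N (C α)) β))
          (fall fun w : K => fand
            (fimp (meets (NC N (C β) w)) (fand (meets (NC N (C α) w)) (fground (w < β))))
            (fimp (fand (meets (NC N (C α) w)) (fground (w < β))) (meets (NC N (C β) w)))) := by
  refine mem_fimp.2 fun q _ hq => ⟨q, le_rfl, ?_⟩
  have h1 := unb_of_NC N hq.2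
  have h0 := not_hasPred h1
  have hβ : β ∈ C α := by
    obtain ⟨r, hr, y, hy, hyw⟩ := exists_of_meets (down_NC N (C α) β) hq.1
    by_cases hne : ∃ z, z < β
    · exact hc.closed β ((NW_le N hyw).trans_lt (hc.subset hy)) hne h1
    · have h2 : ¬ HasPred (C α) y := by
        rintro ⟨x, hx⟩
        exact hne ⟨x, lt_NW N hx.1.1 hx.1.2 hyw⟩
      rcases hyw with ⟨-, h3⟩ | ⟨x, hx, -⟩
      · rwa [h3]
      · exact absurd ⟨x, hx⟩ h2
  have hCβ := hcoh β ⟨hβ, h1⟩
  have hNW : ∀ y < β, ∀ w, NW N (C β) y w = NW N (C α) y w := by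
    intro y hy w
    apply NW_congr
    rw [hCβ, inter_assoc]
    congr 1
    exact inter_eq_right.2 (Iio_subset_Iio hy.le)
  intro w
  refine ⟨mem_fimp.2 fun r _ hr => ?_, mem_fimp.2 fun r _ hr => ?_⟩
  · obtain ⟨s, hs, y, hy, hyw⟩ := exists_of_meets (down_NC N (C β) w) hr
    rw [hCβ] at hy
    rw [hNW y hy.2] at hyw
    exact ⟨s, hs, meets_of_mem ⟨y, hy.1, hyw⟩, (NW_le N hyw).trans_lt hy.2⟩
  · obtain ⟨s, hs, y, hy, hyw⟩ := exists_of_meets (down_NC N (C α) w) hr.1
    have hyβ : y < β := by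
      by_contra hcon
      rcases (not_lt.1 hcon).eq_or_lt with h | h
      · subst h
        have h2 : s ∈ NW N (C α) β β := Or.inl ⟨h0, rfl⟩
        have h3 : w = β := NW_unique N hyw h2
        exact absurd hr.2 (by rw [h3]; exact lt_irrefl _)
      · exact absurd hr.2 (not_lt.2 (le_of_lt (lt_NW N hβ h hyw)))
    refine ⟨s, hs, meets_of_mem ⟨y, ?_, ?_⟩⟩
    · rw [hCβ]
      exact ⟨hy, hyβ⟩
    · rw [hNW y hyβ]
      exact hyw

end move

end Q209.OS
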