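import Mathlib
import Pool.Agent.Q209.OSSmall

/-!
The Ostaszewski square is preserved by small forcing notions with a chain condition.
-/

set_option autoImplicit false
set_option linter.unusedSectionVars false

namespace Q209.OS

open Cardinal Set Order Ordinal Pool.Agent.Helper669.Forcing Pool.Agent.Helper669.K

/-- Every small set is coded cofinally often. -/
theorem exists_codes' {lam : Cardinal.{0}} (hω : ℵ₀ ≤ lam) (h2 : 2 ^ lam = succ lam) {Z : Type}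
    (hZ : #Z ≤ succ lam) :
    ∃ ψ : Kp lam → Set Z, ∀ S : Set Z, #S ≤ lam → ∀ η, ∃ γ, η < γ ∧ ψ γ = S := by
  classical
  have hK : ℵ₀ ≤ #(Kp lam) := by rw [mk_Kp]; exact hω.trans (le_succ lam)
  have hne : Nonempty (Kp lam) := by
    rw [← mk_ne_zero_iff]
    exact (aleph0_pos.trans_le hK).ne'
  have h3 : #{S : Set Z // #S ≤ lam} ≤ #(Kp lam) := by
    refine (mk_bounded_set_le Z lam).trans ?_
    rw [mk_Kp]
    have h4 : max #Z ℵ₀ ≤ succ lam := max_le hZ (hω.trans (le_succ lam))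
    refine (Cardinal.power_le_power_right h4).trans ?_
    rw [← h2, ← Cardinal.power_mul, mul_eq_self hω]
  have e2 : #({S : Set Z // #S ≤ lam} × Kp lam) ≤ #(Kp lam) := by
    simp only [mk_prod, Cardinal.lift_id]
    exact mul_le_of_le hK h3 le_rfl
  obtain ⟨g⟩ := e2
  refine ⟨fun γ => if h : ∃ q, g q = γ then h.choose.1.1 else ∅, ?_⟩
  intro Y hYc η
  obtain ⟨ξ, hξ⟩ : ∃ ξ, η < g (⟨Y, hYc⟩, ξ) := by
    by_contra hcon
    push Not at hcon
    have h1 : #(Kp lam) ≤ #(Iic η) :=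
      ⟨⟨fun ξ => ⟨g (⟨Y, hYc⟩, ξ), hcon ξ⟩, fun ξ ξ' h => by
        have := g.injective (congrArg (fun q : Iic η => q.1) h)
        simpa using this⟩⟩
    rw [mk_Kp] at h1
    exact absurd (h1.trans (mk_Iic_le hω η)) (not_le.2 (lt_succ lam))
  refine ⟨_, hξ, ?_⟩
  have hex : ∃ q, g q = g (⟨Y, hYc⟩, ξ) := ⟨_, rfl⟩
  have h3 := g.injective hex.choose_spec
  simp only [hex, dite_true]
  rw [h3]

/-- A name of small size for an element above `δ` of an unbounded set. -/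
theorem exists_decider {lam : Cardinal.{0}} {P : Type} [Preorder P] (hcc : ChainC lam P)
    {D : Kp lam → Set P} {q : P} (hD : q ∈ FUnb D) (δ : Kp lam) :
    ∃ M : Set (Kp lam × P), #M ≤ lam ∧ (∀ x ∈ M, δ < x.1 ∧ x.2 ∈ meets (D x.1)) ∧
      (∀ x ∈ M, ∀ y ∈ M, (∃ r, r ≤ x.2 ∧ r ≤ y.2) → x = y) ∧
      ∀ r ≤ q, ∃ x ∈ M, ∃ s, s ≤ r ∧ s ≤ x.2 := by
  classical
  let Good : Set (Set (Kp lam × P)) := {M | (∀ x ∈ M, δ < x.1 ∧ x.2 ∈ meets (D x.1)) ∧
      (∀ x ∈ M, ∀ y ∈ M, (∃ r, r ≤ x.2 ∧ r ≤ y.2) → x = y)}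
  obtain ⟨M, hM⟩ : ∃ M, Maximal (· ∈ Good) M := by
    refine zorn_subset Good fun c hc hchain => ⟨⋃₀ c, ⟨?_, ?_⟩, fun s hs => subset_sUnion_of_mem hs⟩
    · rintro x ⟨s, hs, hx⟩
      exact (hc hs).1 x hx
    · rintro x ⟨s, hs, hx⟩ y ⟨t, ht, hy⟩ hr
      rcases hchain.total hs ht with h | h
      · exact (hc ht).2 x (h hx) y hy hr
      · exact (hc hs).2 x hx y (h hy) hr
  refine ⟨M, ?_, hM.prop.1, hM.prop.2, ?_⟩
  · by_contra hcon
    obtain ⟨i, j, hij, r, hri, hrj⟩ := hcc M (fun x => x.1.2) (not_le.1 hcon)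
    exact hij (Subtype.ext (hM.prop.2 i.1 i.2 j.1 j.2 ⟨r, hri, hrj⟩))
  · intro r hr
    obtain ⟨r0, hr0, w, hw⟩ := mem_fex.1 (hD δ) r hr
    by_contra hcon
    push Not at hcon
    have hnew : insert (w, r0) M ∈ Good := by
      refine ⟨?_, ?_⟩
      · rintro x (rfl | hx)
        · exact hw
        · exact hM.prop.1 x hx
      · rintro x (rfl | hx) y (rfl | hy) ⟨s, h1, h2⟩
        · rfl
        · exact absurd h2 (hcon y hy s (h1.trans hr0))
        · exact absurd h1 (hcon x hx s (h2.trans hr0))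
        · exact hM.prop.2 x hx y hy ⟨s, h1, h2⟩
    have hmem : (w, r0) ∈ M := hM.2 hnew (subset_insert _ _) (mem_insert _ _)
    exact hcon _ hmem r0 hr0 le_rfl

/-- The names coded by `ψ`. -/
def dec {lam : Cardinal.{0}} {P : Type} (ψ : Kp lam → Set (lam.ord.ToType × Kp lam × P)) (y : Kp lam)
    (i : Ordinal.{0}) (w : Kp lam) : Set P :=
  {r | ∃ j : lam.ord.ToType, typein (α := lam.ord.ToType) (· < ·) j = i ∧ (j, w, r) ∈ ψ y}

/-- The new sequence has the guessing property. -/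
theorem forced_guessing {lam : Cardinal.{0}} {P : Type} [Preorder P] (hω : ℵ₀ ≤ lam)
    (hcc : ChainC lam P) {ψ : Kp lam → Set (lam.ord.ToType × Kp lam × P)}
    (hψ : ∀ S : Set (lam.ord.ToType × Kp lam × P), #S ≤ lam → ∀ η, ∃ γ, η < γ ∧ ψ γ = S)
    {C : Kp lam → Set (Kp lam)} (hC : Guesses lam C) (p : P) :
    p ∈ FGuessing lam (fun α => NC (dec ψ) (C α)) := by
  classical
  have hreg' := reg_succ hω
  have hω' : ℵ₀ < succ lam := lt_succ_of_le hω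
  have hne : Nonempty (Kp lam) := Pool.Agent.H348R6.GV.nonempty_toType hreg'
  have hno : ∀ a : Kp lam, ∃ b, a < b := fun a => by
    obtain ⟨b, hb⟩ := bdd_of_le hω (fun _ : PUnit => a) (by simpa using one_lt_aleph0.le.trans hω)
    exact ⟨b, hb ⟨⟩⟩
  intro A D
  refine mem_fimp.2 fun q _ hq => ⟨q, le_rfl, fun θ hθ => ?_⟩
  obtain ⟨E, hE, hED⟩ := exists_club hω hcc hq.2
  -- names for elements of the sets `A i`
  have hM : ∀ (δ : Kp lam) (j : lam.ord.ToType), ∃ M : Set (Kp lam × P), #M ≤ lam ∧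
      (∀ x ∈ M, δ < x.1 ∧ x.2 ∈ meets (A (typein (α := lam.ord.ToType) (· < ·) j) x.1)) ∧
      (∀ x ∈ M, ∀ y ∈ M, (∃ r, r ≤ x.2 ∧ r ≤ y.2) → x = y) ∧
      ∀ r ≤ q, ∃ x ∈ M, ∃ s, s ≤ r ∧ s ≤ x.2 := fun δ j =>
    exists_decider hcc (hq.1 _ (typein_lt_self j)) δ
  choose M hM1 hM2 hM3 hM4 using hM
  let S : Kp lam → Set (lam.ord.ToType × Kp lam × P) := fun δ => {z | (z.2.1, z.2.2) ∈ M δ z.1}
  have hS : ∀ δ, #(S δ) ≤ lam := by
    intro δ
    have h1 : #(S δ) ≤ #(Σ j : lam.ord.ToType, M δ j) := by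
      refine ⟨⟨fun z => ⟨z.1.1, ⟨(z.1.2.1, z.1.2.2), z.2⟩⟩, fun z z' h => ?_⟩⟩
      obtain ⟨⟨j, w, r⟩, hz⟩ := z
      obtain ⟨⟨j', w', r'⟩, hz'⟩ := z'
      simp only [Sigma.mk.injEq] at h
      obtain ⟨rfl, h⟩ := h
      have h5 := congrArg Subtype.val (eq_of_heq h)
      simp only [Prod.mk.injEq] at h5
      obtain ⟨rfl, rfl⟩ := h5
      rfl
    refine h1.trans ?_
    rw [mk_sigma]
    refine (sum_le_sum _ (fun _ => lam) (hM1 δ)).trans ?_
    rw [sum_const, Cardinal.lift_id, Cardinal.lift_id, Cardinal.mk_toType, card_ord,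
      mul_eq_self hω]
  have hb : ∀ δ, ∃ b, ∀ z ∈ S δ, z.2.1 < b := by
    intro δ
    obtain ⟨b, hb⟩ := bdd_of_le hω (fun z : S δ => z.1.2.1) (hS δ)
    exact ⟨b, fun z hz => hb ⟨z, hz⟩⟩
  choose b hb using hb
  have hγ : ∀ δ, ∃ γ, δ < γ ∧ b δ < γ ∧ ψ γ = S δ := by
    intro δ
    obtain ⟨γ, h1, h2⟩ := hψ (S δ) (hS δ) (max δ (b δ))
    exact ⟨γ, (le_max_left _ _).trans_lt h1, (le_max_right _ _).trans_lt h1, h2⟩
  choose γ hγ1 hγ2 hγ3 using hγ
  let E' : Set (Kp lam) := E ∩ {a | (∃ b, b < a) ∧ ∀ b < a, γ b < a}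
  have hE' : IsClub E' := hE.inter (by
    rw [Pool.Agent.H348R6.GV.cof_toType_eq hreg']; exact hω'.ne')
    (Pool.Agent.Y671.GV.club_closure (Pool.Agent.H348R6.GV.hc_toType hreg' hω')
      (Pool.Agent.H348R6.GV.hreg_toType hreg') γ)
  have hEunb : ∀ x : Kp lam, ∃ δ ∈ E', x < δ := by
    intro x
    obtain ⟨y, hy⟩ := hno x
    obtain ⟨δ, hδ, hyδ⟩ := hE'.isCofinal y
    exact ⟨δ, hδ, hy.trans_le hyδ⟩
  let B : Set (Kp lam) := {y | ∃ δ ∈ E', δ < y ∧ b δ < y ∧ (∀ d ∈ E', d < y → d ≤ δ) ∧ ψ y = S δ}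
  have hB : ∀ x, ∃ y ∈ B, x < y := by
    intro x
    obtain ⟨δ, hδ, hxδ⟩ := hEunb x
    have hne2 : {d | d ∈ E' ∧ δ < d}.Nonempty := by
      obtain ⟨d, hd, hδd⟩ := hEunb δ
      exact ⟨d, hd, hδd⟩
    obtain ⟨δ', ⟨hδ'1, hδ'2⟩, hmin⟩ := (wellFounded_lt (α := Kp lam)).has_min _ hne2
    have hγδ' : γ δ < δ' := hδ'1.2.2 δ hδ'2
    refine ⟨γ δ, ⟨δ, hδ, hγ1 δ, hγ2 δ, fun d hd hdγ => ?_, hγ3 δ⟩, hxδ.trans (hγ1 δ)⟩
    by_contra hcon
    exact hmin d ⟨hd, not_le.1 hcon⟩ (hdγ.trans hγδ')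
  obtain ⟨α, hα, hαt, hαg⟩ := hC (fun _ => B) (fun _ _ => hB) θ hθ.1 hθ.2 E' hE'
  refine mem_fex.2 fun q' hq' => ⟨q', le_rfl, α, mem_fex_of_mem (NE (dec ψ) (C α)) ?_ ?_⟩
  · exact down_fand (down_fground _) (down_fand (down_FEnum _ _ _) (down_fall fun _ =>
      down_fall fun _ => down_fall fun _ => down_fall fun _ => down_fimp _ _))
  refine ⟨hα, ?_, ?_⟩
  · rw [← hαt]
    exact enum_NC (dec ψ) (C α) q'
  · intro i hi x' y'
    refine mem_fimp.2 fun r hr hxy => ?_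
    obtain ⟨r1, hr1, x, hx, hxw⟩ := exists_of_meets (down_NE (dec ψ) (C α) i x') hxy.1
    obtain ⟨r2, hr2, y, hy, hyw⟩ := exists_of_meets (down_NE (dec ψ) (C α) (i + 1) y')
      (down_meets _ _ hxy.2 _ hr1)
    obtain ⟨⟨δ, hδ, hδy, hbδ, hδmax, hψy⟩, β, hβ, hxβ, hβy⟩ := hαg i hi x y hx hy
    have hxδ : x < δ := hxβ.trans_le (hδmax β hβ hβy)
    have hgr := greatest_of_nth hx hy
    have hposx : pos (C α) x = i := hx.2
    -- the index in `lam`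
    have hilam : i < typeLT lam.ord.ToType := by rw [type_toType]; exact hi.trans hθ.1
    set j : lam.ord.ToType := enum (α := lam.ord.ToType) (· < ·) ⟨i, hilam⟩ with hj
    have hji : typein (α := lam.ord.ToType) (· < ·) j = i := by rw [hj, typein_enum]
    have hr2q : r2 ≤ q := hr2.trans (hr1.trans (hr.trans hq'))
    obtain ⟨z, hz, s, hs1, hs2⟩ := hM4 δ j r2 hr2q
    have hdec : ∀ w t, (w, t) ∈ M δ j → t ∈ dec ψ y i w := by
      intro w t ht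
      refine ⟨j, hji, ?_⟩
      rw [hψy]
      exact ht
    have hdec' : ∀ w t, t ∈ dec ψ y i w → (w, t) ∈ M δ j := by
      rintro w t ⟨j', hj', ht⟩
      have : j' = j := typein_injective (α := lam.ord.ToType) (· < ·) (by rw [hj', hji])
      subst this
      rw [hψy] at ht
      exact ht
    have hsz : s ∈ meets (dec ψ y i z.1) := meets_of_le (hdec _ _ hz) hs2
    have hzδ : δ < z.1 := (hM2 δ j z hz).1
    have hzb : z.1 < b δ := hb δ (j, z.1, z.2) hz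
    -- the new version of `y` is `z.1`
    have huniq : ∀ w, ∀ t ≤ s, t ∈ meets (dec ψ y i w) → w = z.1 := by
      intro w t hts ht
      obtain ⟨t1, ht1, u, hu, htu⟩ := ht t le_rfl
      have h1 := hM3 δ j (w, u) (hdec' _ _ hu) z hz ⟨t1, htu, ht1.trans (hts.trans hs2)⟩
      rw [← h1]
    have hyw' := down_NW (dec ψ) (C α) y y' _ hyw _ hs1
    have hzNW : s ∈ NW (dec ψ) (C α) y z.1 := by
      refine Or.inr ⟨x, hgr, Or.inl ⟨hxδ.trans hzδ, hzb.trans hbδ, ?_, ?_⟩⟩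
      · rw [hposx]
        exact hsz
      · intro w' _ hw' t ht htw
        rw [hposx] at htw
        exact absurd (huniq w' t ht htw) hw'.ne
    have hy'z : y' = z.1 := NW_unique (dec ψ) hyw' hzNW
    refine ⟨s, hs1.trans (hr2.trans hr1), ?_, mem_fex_of_mem δ
      (down_fand (down_fground _) (down_meets _)) ⟨⟨?_, ?_⟩, ?_⟩⟩
    · rw [hy'z]
      have h1 := (hM2 δ j z hz).2
      rw [hji] at h1
      exact down_meets _ _ h1 _ hs2
    · exact (NW_le (dec ψ) hxw).trans_lt hxδ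
    · rw [hy'z]
      exact hzδ
    · exact down_meets _ _ (hED δ hδ.1) _ (hs1.trans hr2q)

end Q209.OS
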