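import Mathlib

set_option autoImplicit false

/-!
# Steinhaus type lemmas on the real line
-/

namespace Q209.PL

open Set MeasureTheory Topology
open scoped Pointwise

/-- Two sets of positive measure are met by a dense set of translations. -/
theorem exists_add_mem {B C D : Set ℝ} (hB : MeasurableSet B) (hC : MeasurableSet C)
    (hB0 : volume B ≠ 0) (hC0 : volume C ≠ 0) (hD : Dense D) :
    ∃ g ∈ D, ∃ b ∈ B, b + g ∈ C := by
  have key : ∃ t : ℝ, volume (B ∩ (fun b => b + t) ⁻¹' C) ≠ 0 := by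
    by_contra hcon
    push Not at hcon
    have hmp := measurePreserving_prod_add_swap (volume : Measure ℝ) (volume : Measure ℝ)
    have h1 : ((volume : Measure ℝ).prod (volume : Measure ℝ))
        ((fun z : ℝ × ℝ => (z.2, z.2 + z.1)) ⁻¹' (B ×ˢ C)) = volume B * volume C := by
      rw [hmp.measure_preimage (hB.prod hC).nullMeasurableSet, Measure.prod_prod]
    have h2 : ((volume : Measure ℝ).prod (volume : Measure ℝ))
        ((fun z : ℝ × ℝ => (z.2, z.2 + z.1)) ⁻¹' (B ×ˢ C)) = 0 := by
      have hm : MeasurableSet ((fun z : ℝ × ℝ => (z.2, z.2 + z.1)) ⁻¹' (B ×ˢ C)) :=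
        (measurable_snd.prodMk (measurable_snd.add measurable_fst)) (hB.prod hC)
      rw [Measure.measure_prod_null hm]
      filter_upwards with t
      have := hcon t
      exact this
    rw [h2] at h1
    exact (mul_ne_zero hB0 hC0) h1.symm
  obtain ⟨t, ht⟩ := key
  set E := B ∩ (fun b => b + t) ⁻¹' C with hE
  have hEm : MeasurableSet E := hB.inter ((measurable_id.add_const t) hC)
  have h0 : E - E ∈ 𝓝 (0 : ℝ) :=
    Measure.sub_mem_nhds_zero_of_addHaar_pos volume E hEm (pos_iff_ne_zero.2 ht)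
  have h1 : ∀ᶠ x in 𝓝 t, x - t ∈ E - E := by
    have : Filter.Tendsto (fun x : ℝ => x - t) (𝓝 t) (𝓝 0) := by
      have h : Continuous (fun x : ℝ => x - t) := continuous_id.sub continuous_const
      have h' := h.tendsto t
      rwa [sub_self] at h'
    exact this.eventually h0
  obtain ⟨U, hU, hUo, htU⟩ := mem_nhds_iff.1 h1
  obtain ⟨g, hgU, hgD⟩ := hD.inter_open_nonempty U hUo ⟨t, htU⟩
  obtain ⟨d1, hd1, d2, hd2, hd⟩ := hU hgU
  refine ⟨g, hgD, d2, hd2.1, ?_⟩
  have h2 : d1 + t ∈ C := hd1.2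
  have h3 : d2 + g = d1 + t := by
    have : d1 - d2 = g - t := hd
    linarith
  rw [h3]
  exact h2

/-- The saturation of a set of positive measure under a countable dense group is conull. -/
theorem null_compl {Q D : Set ℝ} (hQ : MeasurableSet Q) (hQ0 : volume Q ≠ 0) (hD : Dense D)
    (hDc : D.Countable) : volume {x : ℝ | ∀ g ∈ D, x - g ∉ Q} = 0 := by
  by_contra hne
  have hm : MeasurableSet {x : ℝ | ∀ g ∈ D, x - g ∉ Q} := by
    have : {x : ℝ | ∀ g ∈ D, x - g ∉ Q} = ⋂ g ∈ D, (fun x => x - g) ⁻¹' Qᶜ := by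
      ext x
      simp
    rw [this]
    exact MeasurableSet.biInter hDc fun g _ => (measurable_id.sub_const g) hQ.compl
  obtain ⟨g, hg, b, hb, hbg⟩ := exists_add_mem hQ hm hQ0 hne hD
  apply hbg g hg
  simpa using hb

end Q209.PL
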