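import Mathlib

set_option autoImplicit false

/-!
# Plastic spaces and strongly Sierpinski families
-/

namespace Q209.PL

open Set MeasureTheory

/-- A metric space is plastic: every non-expansive bijection onto itself is an isometry. -/
def Plastic (X : Type) [MetricSpace X] : Prop :=
  ∀ f : X → X, Function.Bijective f → (∀ x y, dist (f x) (f y) ≤ dist x y) →
    ∀ x y, dist (f x) (f y) = dist x y

/-- A family of reals such that every Lebesgue null set of a finite power of the line contains only
tuples (with distinct indices) which use one of countably many indices. -/
def StronglySierpinski {ι : Type} (r : ι → ℝ) : Prop :=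
  ∀ (k : ℕ) (N : Set (Fin k → ℝ)), volume N = 0 →
    ∃ A : Set ι, A.Countable ∧
      ∀ e : Fin k → ι, Function.Injective e → (∀ i, e i ∉ A) → (fun i => r (e i)) ∉ N

end Q209.PL
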