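import Pool.Agent.Q209.PLMain

set_option autoImplicit false

/-!
# The group generated by a strongly Sierpinski family is plastic: end of the proof
-/

namespace Q209.PL

open Set MeasureTheory Topology

/-- Closing off under countably many operations with countable values. -/
theorem closing_off {J : Type} (T : (J →₀ ℤ) → (J →₀ ℤ) → Set J)
    (hT : ∀ c d, (T c d).Countable) {B0 : Set J} (hB0 : B0.Countable) :
    ∃ B : Set J, B.Countable ∧ B0 ⊆ B ∧
      ∀ c d : J →₀ ℤ, ↑c.support ⊆ B → ↑d.support ⊆ B → T c d ⊆ B := by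
  let step : Set J → Set J := fun B =>
    B ∪ ⋃ c ∈ {c : J →₀ ℤ | ↑c.support ⊆ B}, ⋃ d ∈ {d : J →₀ ℤ | ↑d.support ⊆ B}, T c d
  let S : ℕ → Set J := fun n => step^[n] B0
  have hS : ∀ n, S (n + 1) = step (S n) := fun n => Function.iterate_succ_apply' step n B0
  have hcount : ∀ n, (S n).Countable := by
    intro n
    induction n with
    | zero => exact hB0
    | succ n ih =>
      rw [hS]
      exact ih.union ((supp_countable ih).biUnion fun c _ =>
        (supp_countable ih).biUnion fun d _ => hT c d)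
  have hmono : Monotone S := monotone_nat_of_le_succ fun n => by
    rw [hS]
    exact subset_union_left
  have hfin : ∀ c : J →₀ ℤ, ↑c.support ⊆ (⋃ n, S n) → ∃ n, ↑c.support ⊆ S n := by
    intro c hc
    have h := (hmono.directed_le).exists_mem_subset_of_finset_subset_biUnion (s := c.support)
    obtain ⟨n, hn⟩ := h hc
    exact ⟨n, hn⟩
  refine ⟨⋃ n, S n, countable_iUnion hcount, subset_iUnion S 0, ?_⟩
  intro c d hc hd
  obtain ⟨n, hn⟩ := hfin c hc
  obtain ⟨n', hn'⟩ := hfin d hd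
  have h1 : ↑c.support ⊆ S (max n n') := hn.trans (hmono (le_max_left _ _))
  have h2 : ↑d.support ⊆ S (max n n') := hn'.trans (hmono (le_max_right _ _))
  refine subset_trans ?_ (subset_iUnion S (max n n' + 1))
  rw [hS]
  intro x hx
  exact Or.inr (mem_biUnion (show c ∈ {c : J →₀ ℤ | ↑c.support ⊆ S (max n n')} from h1)
    (mem_biUnion (show d ∈ {d : J →₀ ℤ | ↑d.support ⊆ S (max n n')} from h2) hx))

section

variable {ι : Type} {r : ι → ℝ}

theorem exists_B (hr : StronglySierpinski r) {F : ℝ → ℝ} (hF : Continuous F)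
    (hFG : ∀ x ∈ GG r, F x ∈ GG r) :
    ∃ B : Set (ι ⊕ Bool), B.Countable ∧ (∀ b, Sum.inr b ∈ B) ∧
      ∀ a, Sum.inl a ∉ B → ∀ g0 ∈ GA r B, ∃ n : ℤ, ∃ g ∈ GA r B, F (r a + g0) = n * r a + g := by
  classical
  have hN : ∀ (k : ℕ) (n : ℤ) (m : Fin (k + 1) → ℤ) (c d : ι ⊕ Bool →₀ ℤ), ∃ A : Set ι,
      A.Countable ∧ (m 0 ≠ 0 → ∀ e : Fin (k + 2) → ι, Function.Injective e → (∀ i, e i ∉ A) →
        F (r (e 0) + phi r d) ≠ phi r c + n * r (e 0) + ∑ j, (m j : ℝ) * r (e j.succ)) := by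
    intro k n m c d
    by_cases hm : m 0 = 0
    · exact ⟨∅, countable_empty, fun h => absurd hm h⟩
    · obtain ⟨A, hA, hA'⟩ := hr (k + 2) _ (null_graph k hF (phi r d) (phi r c) n m hm)
      exact ⟨A, hA, fun _ e he heA h => hA' e he heA h⟩
  choose A hA hA' using hN
  obtain ⟨B, hB, hB0, hBT⟩ := closing_off
    (fun c d => ⋃ k, ⋃ n, ⋃ m, Sum.inl '' A k n m c d)
    (fun c d => countable_iUnion fun k => countable_iUnion fun n => countable_iUnion fun m =>
      (hA k n m c d).image _) (countable_range (Sum.inr : Bool → ι ⊕ Bool))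
  have hinr : ∀ b, Sum.inr b ∈ B := fun b => hB0 ⟨b, rfl⟩
  refine ⟨B, hB, hinr, ?_⟩
  rintro a ha _ ⟨d, hd, rfl⟩
  obtain ⟨D, hD⟩ := hFG (r a + phi r d) ((GG r).add_mem (r_mem_GG r a) ⟨d, rfl⟩)
  set c := D.filter (· ∈ B) with hc
  set E := (D.filter (· ∉ B)).erase (Sum.inl a) with hE
  have hsum : D = c + (Finsupp.single (Sum.inl a) (D (Sum.inl a)) + E) := by
    have h1 : Finsupp.single (Sum.inl a) (D (Sum.inl a)) + E = D.filter (· ∉ B) := by
      rw [hE]
      have := Finsupp.single_add_erase (Sum.inl a) (D.filter (· ∉ B))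
      rwa [Finsupp.filter_apply_pos (· ∉ B) D ha] at this
    rw [h1, hc]
    exact (Finsupp.filter_add_filter_not D _).symm
  have hcB : ↑c.support ⊆ B := by
    intro j hj
    rw [hc, Finset.mem_coe, Finsupp.support_filter, Finset.mem_filter] at hj
    exact hj.2
  have hphi : F (r a + phi r d) = phi r c + (D (Sum.inl a)) * r a + phi r E := by
    rw [← hD]
    conv_lhs => rw [hsum]
    rw [map_add, map_add, phi_single]
    simp only [gen]
    ring
  have hEB : ∀ j ∈ E.support, j ∉ B ∧ j ≠ Sum.inl a := by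
    intro j hj
    rw [hE, Finsupp.support_erase, Finset.mem_erase, Finsupp.support_filter,
      Finset.mem_filter] at hj
    exact ⟨hj.2.2, hj.1⟩
  refine ⟨D (Sum.inl a), phi r c, ⟨c, hcB, rfl⟩, ?_⟩
  rcases Nat.eq_zero_or_pos E.support.card with h0 | hpos
  · rw [hphi]
    have : E = 0 := by
      rw [← Finsupp.support_eq_empty]
      exact Finset.card_eq_zero.1 h0
    rw [this, map_zero]
    ring
  · exfalso
    obtain ⟨k, hk⟩ : ∃ k, E.support.card = k + 1 := ⟨E.support.card - 1, by omega⟩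
    let e0 : Fin (k + 1) ≃ E.support := (Fintype.equivFinOfCardEq (by simp [hk])).symm
    have hex : ∀ j : Fin (k + 1), ∃ b : ι, Sum.inl b = (e0 j : ι ⊕ Bool) := by
      intro j
      rcases hj : (e0 j : ι ⊕ Bool) with b | b
      · exact ⟨b, rfl⟩
      · exact absurd (hinr b) (hj ▸ (hEB _ (e0 j).2).1)
    choose e' he' using hex
    have hinj' : Function.Injective e' := by
      intro i j hij
      apply e0.injective
      apply Subtype.ext
      rw [← he' i, ← he' j, hij]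
    let e : Fin (k + 2) → ι := Fin.cons a e'
    have hinj : Function.Injective e := by
      rw [Fin.cons_injective_iff]
      refine ⟨?_, hinj'⟩
      rintro ⟨j, hj⟩
      exact (hEB _ (e0 j).2).2 (by rw [← he' j, hj])
    have hsumE : phi r E = ∑ j, (E (e0 j) : ℝ) * r (e' j) := by
      have h1 : phi r E = ∑ x ∈ E.support, (E x : ℝ) * gen r x := by
        simp [phi, Finsupp.linearCombination_apply, Finsupp.sum]
      rw [h1, ← Finset.sum_coe_sort, ← Equiv.sum_comp e0]
      refine Finset.sum_congr rfl fun j _ => ?_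
      rw [← he' j]
      rfl
    refine hA' k (D (Sum.inl a)) (fun j => E (e0 j)) c d ?_ e hinj ?_ ?_
    · exact Finsupp.mem_support_iff.1 (e0 0).2
    · have hTB := hBT c d hcB hd
      intro i hi
      have hiB : Sum.inl (e i) ∈ B := by
        apply hTB
        simp only [mem_iUnion]
        exact ⟨k, D (Sum.inl a), _, e i, hi, rfl⟩
      refine Fin.cases (motive := fun i => Sum.inl (e i) ∈ B → False) ?_ ?_ i hiB
      · exact ha
      · intro j hj
        have : Sum.inl (e j.succ) = (e0 j : ι ⊕ Bool) := he' j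
        rw [this] at hj
        exact (hEB _ (e0 j).2).1 hj
    · have h2 : ∀ j : Fin (k + 1), e j.succ = e' j := fun j => rfl
      simp_rw [h2]
      rw [← hsumE]
      exact hphi

theorem meets (hr : StronglySierpinski r) (hι : Uncountable ι) {B : Set (ι ⊕ Bool)}
    (hB : B.Countable) (hinr : ∀ b, Sum.inr b ∈ B) {Q : Set ℝ} (hQ : MeasurableSet Q)
    (hQ0 : volume Q ≠ 0) : ∃ a, Sum.inl a ∉ B ∧ ∃ g ∈ GA r B, r a - g ∈ Q := by
  have h0 := null_compl hQ hQ0 (GA_dense r hinr) (GA_countable r hB)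
  set N := {x : ℝ | ∀ g ∈ GA r B, x - g ∉ Q} with hN
  have h1 : volume ((fun v : Fin 1 → ℝ => v 0) ⁻¹' N) = 0 := by
    have hmp := volume_preserving_funUnique (Fin 1) ℝ
    exact hmp.quasiMeasurePreserving.preimage_null h0
  obtain ⟨A, hA, hA'⟩ := hr 1 _ h1
  have hcount : (A ∪ Sum.inl ⁻¹' B).Countable :=
    hA.union (hB.preimage Sum.inl_injective)
  obtain ⟨a, ha⟩ : ∃ a, a ∉ A ∪ Sum.inl ⁻¹' B := by
    by_contra hcon
    push Not at hcon
    exact not_countable (α := ι) (Set.countable_univ_iff.1 (hcount.mono fun x _ => hcon x))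
  have h2 := hA' (fun _ => a) (fun i j _ => Subsingleton.elim i j) (fun _ h => ha (Or.inl h))
  have h3 : r a ∉ N := h2
  rw [hN, Set.mem_ofPred_eq] at h3
  push Not at h3
  exact ⟨a, fun h => ha (Or.inr h), h3⟩

theorem main (hr : StronglySierpinski r) (hι : Uncountable ι) {F : ℝ → ℝ}
    (hF : ∀ x y, |F x - F y| ≤ |x - y|) (hFG : ∀ x ∈ GG r, F x ∈ GG r)
    (hinj : ∀ x ∈ GG r, ∀ y ∈ GG r, F x = F y → x = y) (x y : ℝ) : |F x - F y| = |x - y| := by
  have hcont : Continuous F := by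
    have hL : LipschitzWith 1 F := LipschitzWith.of_dist_le_mul fun x y => by
      simpa [Real.dist_eq] using hF x y
    exact hL.continuous
  obtain ⟨B, hB, hinr, hBF⟩ := exists_B hr hcont hFG
  have hGAsub : ∀ (g g' : ℝ) (n : ℤ), g ∈ GA r B → g' ∈ GA r B → g - n * g' ∈ GA r B := by
    rintro _ _ n ⟨c, hc, rfl⟩ ⟨c', hc', rfl⟩
    refine ⟨c - n • c', ?_, by rw [map_sub, map_zsmul]; simp⟩
    intro j hj
    by_contra hjB
    have h1 : c j = 0 := by
      by_contra h
      exact hjB (hc (Finsupp.mem_support_iff.2 h))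
    have h2 : c' j = 0 := by
      by_contra h
      exact hjB (hc' (Finsupp.mem_support_iff.2 h))
    have h3 := Finsupp.mem_support_iff.1 hj
    simp [h1, h2] at h3
  -- the pieces
  let P : ℤ × ℝ → Set ℝ := fun p => {x | F x = p.1 * x + p.2}
  have hPm : ∀ p, MeasurableSet (P p) := fun p =>
    (isClosed_eq hcont ((continuous_const.mul continuous_id).add continuous_const)).measurableSet
  let I : Set (ℤ × ℝ) := {p | p.2 ∈ GA r B ∧ volume (P p) ≠ 0}
  let I' : Set (ℤ × ℝ) := {p | p.2 ∈ GA r B}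
  have hI'c : I'.Countable := by
    have : I' = (univ : Set ℤ) ×ˢ GA r B := by
      ext p
      simp [I']
    rw [this]
    exact (Set.countable_univ).prod (GA_countable r hB)
  have hIc : I.Countable := hI'c.mono fun p hp => hp.1
  -- a point of the group in a set of positive measure
  have hpt : ∀ Q : Set ℝ, MeasurableSet Q → volume Q ≠ 0 → ∃ x ∈ Q, x ∈ GG r ∧
      ∃ p ∈ I', x ∈ P p := by
    intro Q hQ hQ0
    obtain ⟨a, ha, g, hg, hag⟩ := meets hr hι hB hinr hQ hQ0
    refine ⟨r a - g, hag, (GG r).sub_mem (r_mem_GG r a) (GA_sub_GG r B hg), ?_⟩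
    have hg' : -g ∈ GA r B := by
      have h := hGAsub (0 : ℝ) g 1 ⟨0, by simp, map_zero _⟩ hg
      simpa using h
    obtain ⟨n, g1, hg1, h1⟩ := hBF a ha (-g) hg'
    refine ⟨(n, g1 - n * (-g)), hGAsub _ _ _ hg1 hg', ?_⟩
    change F (r a - g) = n * (r a - g) + (g1 - n * (-g))
    rw [sub_eq_add_neg, h1]
    ring
  have htwo : ∀ Q : Set ℝ, MeasurableSet Q → volume Q ≠ 0 → ∃ x ∈ Q, ∃ y ∈ Q,
      x ∈ GG r ∧ y ∈ GG r ∧ x ≠ y := by
    intro Q hQ hQ0
    obtain ⟨x, hx, hxG, -⟩ := hpt Q hQ hQ0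
    have h1 : volume (Q \ {x}) ≠ 0 := by
      rw [measure_sdiff_null (by simp)]
      exact hQ0
    obtain ⟨y, hy, hyG, -⟩ := hpt (Q \ {x}) (hQ.diff (measurableSet_singleton x)) h1
    exact ⟨x, hx, y, hy.1, hxG, hyG, fun h => hy.2 h.symm⟩
  have hcov : volume (⋃ i : I, P i)ᶜ = 0 := by
    have h1 : volume (⋃ p ∈ I', P p)ᶜ = 0 := by
      by_contra hne
      obtain ⟨x, hx, -, p, hp, hxp⟩ := hpt _
        (MeasurableSet.biUnion hI'c fun p _ => hPm p).compl hne
      exact hx (mem_biUnion hp hxp)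
    have h2 : volume (⋃ p ∈ I' \ I, P p) = 0 := by
      rw [measure_biUnion_null_iff (hI'c.mono sdiff_subset)]
      intro p hp
      by_contra hne
      exact hp.2 ⟨hp.1, hne⟩
    refine measure_mono_null ?_ (measure_union_null h1 h2)
    intro x hx
    by_cases hx' : x ∈ ⋃ p ∈ I', P p
    · right
      obtain ⟨p, hp, hxp⟩ := mem_iUnion₂.1 hx'
      refine mem_biUnion ⟨hp, fun hpI => hx (mem_iUnion.2 ⟨⟨p, hpI⟩, hxp⟩)⟩ hxp
    · exact Or.inl hx'
  have hsgn : ∀ p ∈ I, (p.1 : ℝ) = 1 ∨ (p.1 : ℝ) = -1 := by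
    intro p hp
    obtain ⟨u, hu, v, hv, huG, hvG, huv⟩ := htwo (P p) (hPm p) hp.2
    have hu' : F u = p.1 * u + p.2 := hu
    have hv' : F v = p.1 * v + p.2 := hv
    have h1 : F u - F v = p.1 * (u - v) := by
      rw [hu', hv']
      ring
    have h2 := hF u v
    rw [h1, abs_mul] at h2
    have h3 : 0 < |u - v| := abs_pos.2 (sub_ne_zero.2 huv)
    have h4 : |(p.1 : ℝ)| ≤ 1 := by
      by_contra h
      push Not at h
      nlinarith
    have h5 : p.1 ≠ 0 := by
      intro h0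
      rw [h0, Int.cast_zero, zero_mul] at h1
      exact huv (hinj u huG v hvG (by linarith))
    have h6 : |p.1| ≤ 1 := by exact_mod_cast h4
    rcases abs_le.1 h6 with ⟨h7, h8⟩
    have h9 : p.1 = 1 ∨ p.1 = -1 := by omega
    rcases h9 with h | h
    · left
      rw [h]
      simp
    · right
      rw [h]
      simp
  have hcountI : Countable I := hIc.to_subtype
  have hkey : ∀ p ∈ I, ∀ q ∈ I, ∀ x ∈ GG r, x ∈ P p → F x ∈ F '' P q →
      (p.1 : ℝ) * x + p.2 = q.1 * x + q.2 := by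
    intro p hp q hq x hxG hxp hxq
    obtain ⟨y, hy, hyx⟩ := hxq
    have h1 : F x = p.1 * x + p.2 := hxp
    have h2 : F y = q.1 * y + q.2 := hy
    have h3 : (q.1 : ℝ) * q.1 = 1 := by
      rcases hsgn q hq with h | h <;> rw [h] <;> norm_num
    have h4 : y = ((q.1 * p.1 : ℤ) : ℝ) * x + q.1 * (p.2 - q.2) := by
      have h5 : (q.1 : ℝ) * y + q.2 = p.1 * x + p.2 := by rw [← h1, ← h2, hyx]
      have h6 : (q.1 : ℝ) * (q.1 * y) = q.1 * (p.1 * x + p.2 - q.2) := by
        congr 1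
        linarith
      rw [← mul_assoc, h3, one_mul] at h6
      rw [h6]
      push_cast
      ring
    have hyG : y ∈ GG r := by
      rw [h4]
      refine (GG r).add_mem ?_ ?_
      · have := (GG r).zsmul_mem hxG (q.1 * p.1)
        rwa [zsmul_eq_mul] at this
      · have := (GG r).zsmul_mem
          ((GG r).sub_mem (GA_sub_GG r B hp.1) (GA_sub_GG r B hq.1)) q.1
        rwa [zsmul_eq_mul] at this
    have h7 : y = x := hinj y hyG x hxG hyx
    rw [← h1, ← hyx, h2, h7]
  refine isometry_of_pieces (I := I) F hF (fun i => P i) (fun i => hPm i)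
    (fun i => ⟨(i : ℤ × ℝ).1, (i : ℤ × ℝ).2, hsgn i i.2, fun x hx => hx⟩) hcov ?_ x y
  intro i j hij
  by_contra hne
  have hmj : MeasurableSet (F '' P j) := by
    have h1 : F '' P j = (fun x => ((j : ℤ × ℝ).1 : ℝ) * x + (j : ℤ × ℝ).2) '' P j :=
      image_congr fun x hx => hx
    rw [h1]
    exact (volume_image_affine (hsgn j j.2) (hPm j)).1
  have hQm : MeasurableSet (P i ∩ F ⁻¹' (F '' P j)) := (hPm i).inter (hcont.measurable hmj)
  have hQ0 : volume (P i ∩ F ⁻¹' (F '' P j)) ≠ 0 := by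
    intro h0
    apply hne
    change volume (F '' P i ∩ F '' P j) = 0
    rw [← image_inter_preimage]
    have h1 : F '' (P i ∩ F ⁻¹' (F '' P j)) =
        (fun x => ((i : ℤ × ℝ).1 : ℝ) * x + (i : ℤ × ℝ).2) '' (P i ∩ F ⁻¹' (F '' P j)) :=
      image_congr fun x hx => hx.1
    rw [h1, (volume_image_affine (hsgn i i.2) hQm).2]
    exact h0
  obtain ⟨u, hu, v, hv, huG, hvG, huv⟩ := htwo _ hQm hQ0
  have h1 := hkey i i.2 j j.2 u huG hu.1 hu.2
  have h2 := hkey i i.2 j j.2 v hvG hv.1 hv.2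
  have h3 : (((i : ℤ × ℝ).1 : ℝ) - (j : ℤ × ℝ).1) * (u - v) = 0 := by linarith
  have h4 : (((i : ℤ × ℝ).1 : ℝ) - (j : ℤ × ℝ).1) = 0 := by
    rcases mul_eq_zero.1 h3 with h | h
    · exact h
    · exact absurd (sub_eq_zero.1 h) huv
  have h5 : ((i : ℤ × ℝ).1 : ℝ) = (j : ℤ × ℝ).1 := by linarith
  apply hij
  apply Subtype.ext
  refine Prod.ext (by exact_mod_cast h5) ?_
  rw [h5] at h1
  linarith

end

end Q209.PL
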