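import Mathlib

set_option autoImplicit false

/-!
# A non-expansive map of the line which is piecewise an isometry with a.e. disjoint images
-/

namespace Q209.PL

open Set MeasureTheory Topology

/-- The image of a measurable set under `x ↦ s * x + g` with `s = 1` or `s = -1`. -/
theorem volume_image_affine {s g : ℝ} (hs : s = 1 ∨ s = -1) {S : Set ℝ} (hS : MeasurableSet S) :
    MeasurableSet ((fun x => s * x + g) '' S) ∧ volume ((fun x => s * x + g) '' S) = volume S := by
  rcases hs with rfl | rfl
  · have h : (fun x : ℝ => 1 * x + g) '' S = (fun x => x + -g) ⁻¹' S := by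
      ext y
      simp only [mem_image, mem_preimage]
      constructor
      · rintro ⟨x, hx, rfl⟩
        simpa using hx
      · intro hy
        exact ⟨y + -g, hy, by ring⟩
    rw [h]
    exact ⟨(measurable_id.add_const (-g)) hS,
      (measurePreserving_add_right volume (-g)).measure_preimage hS.nullMeasurableSet⟩
  · have h : (fun x : ℝ => -1 * x + g) '' S = (fun x => g - x) ⁻¹' S := by
      ext y
      simp only [mem_image, mem_preimage]
      constructor
      · rintro ⟨x, hx, rfl⟩
        have : g - (-1 * x + g) = x := by ring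
        rw [this]
        exact hx
      · intro hy
        exact ⟨g - y, hy, by ring⟩
    rw [h]
    exact ⟨(measurable_id.const_sub g) hS,
      (Measure.measurePreserving_sub_left volume g).measure_preimage hS.nullMeasurableSet⟩

theorem isometry_of_pieces {I : Type} [Countable I] (F : ℝ → ℝ)
    (hF : ∀ x y, |F x - F y| ≤ |x - y|) (P : I → Set ℝ) (hP : ∀ i, MeasurableSet (P i))
    (haff : ∀ i, ∃ s g : ℝ, (s = 1 ∨ s = -1) ∧ ∀ x ∈ P i, F x = s * x + g)
    (hcov : volume (⋃ i, P i)ᶜ = 0)
    (hdisj : ∀ i j, i ≠ j → volume (F '' P i ∩ F '' P j) = 0) (x y : ℝ) :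
    |F x - F y| = |x - y| := by
  have main : ∀ a b : ℝ, a < b → |F b - F a| = b - a := by
    intro a b hab
    choose s g hs hsg using haff
    have himg : ∀ i, F '' (P i ∩ Icc a b) = (fun x => s i * x + g i) '' (P i ∩ Icc a b) := by
      intro i
      exact image_congr fun x hx => hsg i x hx.1
    have hmeas : ∀ i, MeasurableSet (F '' (P i ∩ Icc a b)) := by
      intro i
      rw [himg]
      exact (volume_image_affine (hs i) ((hP i).inter measurableSet_Icc)).1
    have hvol : ∀ i, volume (F '' (P i ∩ Icc a b)) = volume (P i ∩ Icc a b) := by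
      intro i
      rw [himg]
      exact (volume_image_affine (hs i) ((hP i).inter measurableSet_Icc)).2
    have h1 : volume (⋃ i, F '' (P i ∩ Icc a b)) = ∑' i, volume (F '' (P i ∩ Icc a b)) := by
      apply measure_iUnion₀
      · intro i j hij
        exact measure_mono_null (inter_subset_inter (image_mono inter_subset_left)
          (image_mono inter_subset_left)) (hdisj i j hij)
      · exact fun i => (hmeas i).nullMeasurableSet
    have h2 : ENNReal.ofReal (b - a) ≤ volume (⋃ i, F '' (P i ∩ Icc a b)) := by
      rw [h1]
      simp_rw [hvol]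
      refine le_trans ?_ (measure_iUnion_le _)
      have h3 : volume (Icc a b) ≤ volume (⋃ i, P i ∩ Icc a b) + volume (⋃ i, P i)ᶜ := by
        refine (measure_mono ?_).trans (measure_union_le _ _)
        intro z hz
        by_cases hzP : z ∈ ⋃ i, P i
        · obtain ⟨i, hi⟩ := mem_iUnion.1 hzP
          exact Or.inl (mem_iUnion.2 ⟨i, hi, hz⟩)
        · exact Or.inr hzP
      rw [hcov, add_zero, Real.volume_Icc] at h3
      exact h3
    have hcont : Continuous F := by
      have hL : LipschitzWith 1 F := LipschitzWith.of_dist_le_mul fun x y => by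
        simpa [Real.dist_eq] using hF x y
      exact hL.continuous
    obtain ⟨u, hu, humin⟩ := isCompact_Icc.exists_isMinOn (nonempty_Icc.2 hab.le)
      hcont.continuousOn (f := F)
    obtain ⟨v, hv, hvmax⟩ := isCompact_Icc.exists_isMaxOn (nonempty_Icc.2 hab.le)
      hcont.continuousOn (f := F)
    have h4 : (⋃ i, F '' (P i ∩ Icc a b)) ⊆ Icc (F u) (F v) := by
      intro z hz
      obtain ⟨i, hi⟩ := mem_iUnion.1 hz
      obtain ⟨w, hw, rfl⟩ := hi
      exact ⟨humin hw.2, hvmax hw.2⟩
    have h5 : b - a ≤ F v - F u := by
      have h6 := h2.trans (measure_mono h4)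
      rw [Real.volume_Icc] at h6
      exact (ENNReal.ofReal_le_ofReal_iff (sub_nonneg.2 (humin hv))).1 h6
    have h7 : F v - F u ≤ |v - u| := (le_abs_self _).trans (hF v u)
    rcases le_total u v with huv | huv
    · rw [abs_of_nonneg (sub_nonneg.2 huv)] at h7
      have hu' : u = a := le_antisymm (by linarith [hv.2]) hu.1
      have hv' : v = b := le_antisymm hv.2 (by linarith [hu.1])
      subst hu' hv'
      rw [abs_of_nonneg (by linarith)]
      linarith
    · rw [abs_of_nonpos (sub_nonpos.2 huv)] at h7
      have hu' : v = a := le_antisymm (by linarith [hu.2]) hv.1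
      have hv' : u = b := le_antisymm hu.2 (by linarith [hv.1])
      subst hu' hv'
      rw [abs_sub_comm, abs_of_nonneg (by linarith)]
      linarith
  rcases lt_trichotomy x y with h | h | h
  · rw [abs_sub_comm, main x y h, abs_sub_comm, abs_of_pos (sub_pos.2 h)]
  · rw [h]
    simp
  · rw [main y x h, abs_of_pos (sub_pos.2 h)]

end Q209.PL
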