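import Pool.Agent.Q209.PLDefs
import Pool.Agent.Q209.PLBasic
import Pool.Agent.Q209.PLGeom

set_option autoImplicit false

/-!
# The group generated by a strongly Sierpinski family is plastic
-/

namespace Q209.PL

open Set MeasureTheory Topology
open scoped Pointwise

theorem null_graph (k : ℕ) {F : ℝ → ℝ} (hF : Continuous F) (g0 g : ℝ) (n : ℤ)
    (m : Fin (k + 1) → ℤ) (hm : m 0 ≠ 0) :
    volume {v : Fin (k + 2) → ℝ | F (v 0 + g0) = g + n * v 0 + ∑ j, (m j : ℝ) * v j.succ} = 0 := by
  set N := {v : Fin (k + 2) → ℝ | F (v 0 + g0) = g + n * v 0 + ∑ j, (m j : ℝ) * v j.succ} with hN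
  by_contra hne
  have hclosed : IsClosed N := by
    apply isClosed_eq
    · exact hF.comp ((continuous_apply 0).add continuous_const)
    · exact (continuous_const.add (continuous_const.mul (continuous_apply 0))).add
        (continuous_finsetSum _ fun j _ => continuous_const.mul (continuous_apply _))
  have h0 : N - N ∈ 𝓝 (0 : Fin (k + 2) → ℝ) :=
    Measure.sub_mem_nhds_zero_of_addHaar_pos volume N hclosed.measurableSet
      (pos_iff_ne_zero.2 hne)
  have hcont : Continuous fun t : ℝ => (Pi.single (1 : Fin (k + 2)) t : Fin (k + 2) → ℝ) :=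
    continuous_pi fun i => by
      by_cases hi : i = 1
      · subst hi
        simp only [Pi.single_eq_same]
        exact continuous_id
      · simp only [Pi.single_eq_of_ne hi]
        exact continuous_const
  have h1 : ∀ᶠ t in 𝓝 (0 : ℝ), (Pi.single (1 : Fin (k + 2)) t : Fin (k + 2) → ℝ) ∈ N - N := by
    have := hcont.tendsto 0
    rw [Pi.single_zero] at this
    exact this.eventually h0
  have h2 : ∀ᶠ t in 𝓝[≠] (0 : ℝ),
      (Pi.single (1 : Fin (k + 2)) t : Fin (k + 2) → ℝ) ∈ N - N := nhdsWithin_le_nhds h1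
  obtain ⟨t, ht, ht0⟩ := (h2.and self_mem_nhdsWithin).exists
  obtain ⟨v, hv, w, hw, hvw⟩ := ht
  have hdiff : ∀ i, v i = w i + (Pi.single (1 : Fin (k + 2)) t : Fin (k + 2) → ℝ) i := by
    intro i
    have := congrFun hvw i
    simp only [Pi.sub_apply] at this
    linarith
  have hv0 : v 0 = w 0 := by
    rw [hdiff 0, Pi.single_eq_of_ne (by exact Fin.zero_ne_one)]
    simp
  have hv1 : v 1 = w 1 + t := by
    rw [hdiff 1, Pi.single_eq_same]
  have hvs : ∀ j : Fin k, v j.succ.succ = w j.succ.succ := by
    intro j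
    rw [hdiff, Pi.single_eq_of_ne]
    · simp
    · intro h
      have h2 : (j.succ.succ : Fin (k + 2)) = Fin.succ 0 := h
      exact Fin.succ_ne_zero j (Fin.succ_injective _ h2)
  have e1 : F (v 0 + g0) = g + n * v 0 + ∑ j, (m j : ℝ) * v j.succ := hv
  have e2 : F (w 0 + g0) = g + n * w 0 + ∑ j, (m j : ℝ) * w j.succ := hw
  rw [hv0, e2, Fin.sum_univ_succ, Fin.sum_univ_succ] at e1
  simp_rw [hvs] at e1
  have h3 : (Fin.succ 0 : Fin (k + 2)) = 1 := rfl
  rw [h3, hv1] at e1
  have h4 : (m 0 : ℝ) * t = 0 := by linarith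
  rcases mul_eq_zero.1 h4 with h | h
  · exact hm (by exact_mod_cast h)
  · exact ht0 h

section group

variable {ι : Type} (r : ι → ℝ)

/-- The family together with `1` and `√2`. -/
noncomputable def gen : ι ⊕ Bool → ℝ
  | Sum.inl a => r a
  | Sum.inr true => 1
  | Sum.inr false => √2

/-- The generated element with coefficients `c`. -/
noncomputable def phi : (ι ⊕ Bool →₀ ℤ) →+ ℝ :=
  (Finsupp.linearCombination ℤ (gen r)).toAddMonoidHom

theorem phi_single (j : ι ⊕ Bool) (n : ℤ) : phi r (Finsupp.single j n) = n * gen r j := by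
  simp [phi, Finsupp.linearCombination_single]

/-- The group generated by the family, `1` and `√2`. -/
noncomputable def GG : AddSubgroup ℝ := (phi r).range

/-- The elements with coefficients supported on `B`. -/
def GA (B : Set (ι ⊕ Bool)) : Set ℝ := phi r '' {c | ↑c.support ⊆ B}

theorem GA_sub_GG (B : Set (ι ⊕ Bool)) {g : ℝ} (hg : g ∈ GA r B) : g ∈ GG r := by
  obtain ⟨c, -, rfl⟩ := hg
  exact ⟨c, rfl⟩

theorem r_mem_GG (a : ι) : r a ∈ GG r := by
  refine ⟨Finsupp.single (Sum.inl a) 1, ?_⟩
  rw [phi_single]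
  simp [gen]

theorem supp_countable {J : Type} {B : Set J} (hB : B.Countable) :
    {c : J →₀ ℤ | ↑c.support ⊆ B}.Countable := by
  classical
  have : Countable B := hB.to_subtype
  have h : {c : J →₀ ℤ | ↑c.support ⊆ B} ⊆
      range (fun d : B →₀ ℤ => Finsupp.embDomain (Function.Embedding.subtype (· ∈ B)) d) := by
    intro c hc
    refine ⟨c.subtypeDomain (· ∈ B), ?_⟩
    ext j
    by_cases hj : j ∈ B
    · have : Finsupp.embDomain (Function.Embedding.subtype (· ∈ B))
          (c.subtypeDomain (· ∈ B)) ((Function.Embedding.subtype (· ∈ B)) ⟨j, hj⟩) = c j := by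
        rw [Finsupp.embDomain_apply_self]
        rfl
      exact this
    · have h1 : c j = 0 := by
        by_contra hne
        exact hj (hc (Finsupp.mem_support_iff.2 hne))
      rw [h1]
      apply Finsupp.embDomain_of_notMem_range
      rintro ⟨x, hx⟩
      exact hj (hx ▸ x.2)
  exact (countable_range _).mono h

theorem GA_countable {B : Set (ι ⊕ Bool)} (hB : B.Countable) : (GA r B).Countable :=
  (supp_countable hB).image _

theorem GA_dense {B : Set (ι ⊕ Bool)} (hB : ∀ b, Sum.inr b ∈ B) : Dense (GA r B) := by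
  classical
  have h : (AddSubgroup.closure {√2, 1} : Set ℝ) ⊆ GA r B := by
    intro x hx
    rw [SetLike.mem_coe, AddSubgroup.mem_closure_pair] at hx
    obtain ⟨p, q, rfl⟩ := hx
    refine ⟨Finsupp.single (Sum.inr false) p + Finsupp.single (Sum.inr true) q, ?_, ?_⟩
    · intro j hj
      have hj' := Finsupp.support_add hj
      rcases Finset.mem_union.1 hj' with h | h
      · have := Finsupp.support_single_subset h
        rw [Finset.mem_singleton] at this
        rw [this]
        exact hB _
      · have := Finsupp.support_single_subset h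
        rw [Finset.mem_singleton] at this
        rw [this]
        exact hB _
    · rw [map_add, phi_single, phi_single]
      simp [gen]
  refine (dense_addSubgroupClosure_pair_iff.2 ?_).mono h
  rw [div_one]
  exact irrational_sqrt_two

end group

end Q209.PL
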