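import Mathlib
import Pool.Agent.Q209.W1

/-!
There are an ultrafilter `u` on a countable set and an uncountable set `N` of ultrafilters such
that every member of `u` is a member of all but countably many elements of `N`.
-/

set_option autoImplicit false

namespace Q209.QC

open Set Filter Topology Q209.Om
open Cardinal hiding univ

/-- A countable set. -/
abbrev C : Type := ℕ × Finset (Finset ℕ)

theorem exists_inj : ∃ I : W1 → Set ℕ, Function.Injective I := by
  have h : #W1 ≤ #(Set ℕ) := by
    rw [mk_ord_toType, mk_set, mk_nat, two_power_aleph0]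
    exact aleph_one_le_continuum
  obtain ⟨e⟩ := h
  exact ⟨e, e.injective⟩

open Classical in
/-- A countable dense set of points of `2^{ω₁}`. -/
noncomputable def dd (I : W1 → Set ℕ) (c : C) (β : W1) : Bool :=
  decide ((Finset.range c.1).filter (· ∈ I β) ∈ c.2)

theorem dd_spec {I : W1 → Set ℕ} (hI : Function.Injective I) (σ : Finset W1) (z : W1 → Bool) :
    ∃ c : C, ∀ β ∈ σ, dd I c β = z β := by
  classical
  have hex : ∀ q : W1 × W1, ∃ n : ℕ, q.1 ≠ q.2 → ¬ (n ∈ I q.1 ↔ n ∈ I q.2) := by
    intro q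
    by_cases hq : q.1 = q.2
    · exact ⟨0, fun h => absurd hq h⟩
    · have : I q.1 ≠ I q.2 := fun h => hq (hI h)
      by_contra hcon
      push Not at hcon
      exact this (Set.ext fun n => (hcon n).2)
  choose m hm using hex
  let k := ((σ ×ˢ σ).sup m) + 1
  let S : Finset (Finset ℕ) := (σ.filter fun β => z β = true).image
    fun β => (Finset.range k).filter (· ∈ I β)
  refine ⟨(k, S), fun β hβ => ?_⟩
  have key : ∀ γ ∈ σ, (Finset.range k).filter (· ∈ I γ) = (Finset.range k).filter (· ∈ I β) →
      γ = β := by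
    intro γ hγ hEq
    by_contra hne
    have h1 := hm (γ, β) hne
    have h2 : m (γ, β) < k := Nat.lt_succ_of_le (Finset.le_sup (f := m)
      (Finset.mem_product.2 ⟨hγ, hβ⟩))
    apply h1
    have h3 := Finset.ext_iff.1 hEq (m (γ, β))
    simpa [Finset.mem_filter, h2] using h3
  unfold dd
  by_cases hz : z β = true
  · rw [hz, decide_eq_true_iff]
    exact Finset.mem_image.2 ⟨β, Finset.mem_filter.2 ⟨hβ, hz⟩, rfl⟩
  · have hz' : z β = false := by simpa using hz
    rw [hz', decide_eq_false_iff_not]
    intro hmem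
    obtain ⟨γ, hγ, hEq⟩ := Finset.mem_image.1 hmem
    obtain ⟨hγσ, hγz⟩ := Finset.mem_filter.1 hγ
    have := key γ hγσ hEq
    subst this
    exact hz hγz

open Classical in
/-- The natural map from the ultrafilters to `2^{ω₁}`. -/
noncomputable def Phi (I : W1 → Set ℕ) (p : Ultrafilter C) (β : W1) : Bool :=
  decide ({c | dd I c β = true} ∈ p)

theorem Phi_true {I : W1 → Set ℕ} {p : Ultrafilter C} {β : W1} :
    Phi I p β = true ↔ {c | dd I c β = true} ∈ p := by
  classical
  unfold Phi; exact decide_eq_true_iff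

theorem Phi_cont (I : W1 → Set ℕ) : Continuous (Phi I) := by
  refine continuous_pi fun β => ?_
  have h1 : IsClopen {p : Ultrafilter C | {c | dd I c β = true} ∈ p} :=
    ⟨ultrafilter_isClosed_basic _, ultrafilter_isOpen_basic _⟩
  rw [continuous_bool_rng true]
  convert h1 using 1
  ext p
  simp [Phi_true]

theorem cyl_of_isOpen {O : Set (W1 → Bool)} (hO : IsOpen O) {z : W1 → Bool} (hz : z ∈ O) :
    ∃ σ : Finset W1, ∀ z', (∀ β ∈ σ, z' β = z β) → z' ∈ O := by
  obtain ⟨σ, u, hu, hsub⟩ := isOpen_pi_iff.1 hO z hz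
  refine ⟨σ, fun z' hz' => hsub fun β hβ => ?_⟩
  rw [hz' β hβ]
  exact (hu β hβ).2

theorem Phi_surj {I : W1 → Set ℕ} (hI : Function.Injective I) : Function.Surjective (Phi I) := by
  rw [← range_eq_univ]
  have hcl : IsClosed (range (Phi I)) := (isCompact_range (Phi_cont I)).isClosed
  rw [← hcl.closure_eq, ← dense_iff_closure_eq, dense_iff_inter_open]
  rintro O hO ⟨z, hz⟩
  obtain ⟨σ, hσ⟩ := cyl_of_isOpen hO hz
  obtain ⟨c, hc⟩ := dd_spec hI σ z
  refine ⟨Phi I (pure c), hσ _ fun β hβ => ?_, mem_range_self _⟩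
  rw [← hc β hβ]
  by_cases h : dd I c β = true
  · rw [h, Phi_true]; exact h
  · have h' : ¬ Phi I (pure c) β = true := by
      rw [Phi_true]; exact h
    simp only [Bool.not_eq_true] at h h'
    rw [h, h']

open Classical in
/-- Change the coordinate `β`. -/
noncomputable def flip (β : W1) (z : W1 → Bool) : W1 → Bool := fun γ => if γ = β then !(z γ) else z γ

theorem flip_flip (β : W1) (z : W1 → Bool) : flip β (flip β z) = z := by
  funext γ
  unfold flip
  by_cases h : γ = β <;> simp [h]

theorem flip_cont (β : W1) : Continuous (flip β) := by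
  refine continuous_pi fun γ => ?_
  unfold flip
  by_cases h : γ = β
  · simp only [h, if_true]
    exact (continuous_of_discreteTopology (f := Bool.not)).comp (continuous_apply β)
  · simp only [h, if_false]
    exact continuous_apply γ

theorem flip_self (β : W1) (z : W1 → Bool) : flip β z β = !(z β) := by simp [flip]

theorem flip_ne {β γ : W1} (h : γ ≠ β) (z : W1 → Bool) : flip β z γ = z γ := by simp [flip, h]

/-- The set of the coordinates on which the open set `V` depends. -/
def Bad (V : Set (W1 → Bool)) : Set W1 := {β | ¬ ∀ z ∈ V, flip β z ∈ closure V}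

theorem Bad_countable {I : W1 → Set ℕ} (hI : Function.Injective I) {V : Set (W1 → Bool)}
    (hV : IsOpen V) : (Bad V).Countable := by
  classical
  have h1 : ∀ β : W1, ∃ (v : W1 → Bool) (σ : Finset W1), β ∈ Bad V → (∀ z, (∀ γ ∈ σ, z γ = v γ) →
      z ∈ V) ∧ (∀ z, (∀ γ ∈ σ, z γ = flip β v γ) → z ∉ V) := by
    intro β
    by_cases hβ : β ∈ Bad V
    · obtain ⟨v, hv⟩ := not_forall.1 hβ
      obtain ⟨hvV, hv2⟩ := Classical.not_imp.1 hv
      obtain ⟨σ, hσ⟩ := cyl_of_isOpen hV hvV
      obtain ⟨τ, hτ⟩ := cyl_of_isOpen isClosed_closure.isOpen_compl hv2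
      refine ⟨v, σ ∪ τ, fun _ => ⟨fun z hz => hσ z fun γ hγ => hz γ (Finset.mem_union_left _ hγ),
        fun z hz hzV => hτ z (fun γ hγ => hz γ (Finset.mem_union_right _ hγ))
          (subset_closure hzV)⟩⟩
    · exact ⟨fun _ => true, ∅, fun h => absurd h hβ⟩
  choose v σ hvσ using h1
  choose c hc using fun β => dd_spec hI (σ β) (v β)
  by_contra hcount
  have h2 : ∃ k : C, ¬ {β ∈ Bad V | c β = k}.Countable := by
    by_contra hno
    push Not at hno
    apply hcount
    refine (countable_iUnion hno).mono fun β hβ => ?_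
    exact mem_iUnion.2 ⟨c β, hβ, rfl⟩
  obtain ⟨k, hk⟩ := h2
  have hne : {β ∈ Bad V | c β = k}.Nonempty := by
    by_contra h
    rw [not_nonempty_iff_eq_empty] at h
    exact hk (h ▸ countable_empty)
  obtain ⟨γ, hγ, hγk⟩ := hne
  have hne2 : ∃ β ∈ {β ∈ Bad V | c β = k}, β ∉ σ γ := by
    by_contra h
    push Not at h
    exact hk ((σ γ).countable_toSet.mono h)
  obtain ⟨β, ⟨hβ, hβk⟩, hβσ⟩ := hne2
  have h3 : flip β (dd I k) ∉ V := by
    apply (hvσ β hβ).2
    intro δ hδ
    have := hc β δ hδ
    rw [hβk] at this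
    simp only [flip, this]
  apply h3
  apply (hvσ γ hγ).1
  intro δ hδ
  have := hc γ δ hδ
  rw [hγk] at this
  have hne : δ ≠ β := fun h => hβσ (by rw [← h]; exact hδ)
  rw [flip_ne hne, this]

/-- The main lemma on ultrafilters. -/
theorem exists_ultra : ∃ (u : Ultrafilter C) (N : Set (Ultrafilter C)), ¬ N.Countable ∧ u ∉ N ∧
    (∀ p ∈ N, ∀ c : C, {c} ∉ p) ∧ (∀ c : C, {c} ∉ u) ∧
    ∀ b ∈ u, {p ∈ N | b ∉ p}.Countable := by
  classical
  obtain ⟨I, hI⟩ := exists_inj
  obtain ⟨E, hEc, hE, hEmin⟩ := exists_compact_surjective_zorn_subset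
    (Phi_cont I) (Phi_surj hI)
  have hEcomp : IsCompact E := isCompact_iff_compactSpace.2 hEc
  have hEcl : IsClosed E := hEcomp.isClosed
  have hirr : ∀ K : Set (Ultrafilter C), IsClosed K → K ⊆ E → Phi I '' K = univ → K = E := by
    intro K hK hKE him
    by_contra hne
    refine hEmin (Subtype.val ⁻¹' K) ?_ (hK.preimage continuous_subtype_val) ?_
    · intro h
      apply hne
      apply Subset.antisymm hKE
      intro p hp
      have : (⟨p, hp⟩ : E) ∈ (Subtype.val ⁻¹' K : Set E) := h ▸ mem_univ _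
      exact this
    · rw [eq_univ_iff_forall]
      intro z
      obtain ⟨p, hp, rfl⟩ : z ∈ Phi I '' K := him ▸ mem_univ z
      exact ⟨⟨p, hKE hp⟩, hp, rfl⟩
  have hlift : ∀ z, ∃ p ∈ E, Phi I p = z := fun z => by
    have : z ∈ Phi I '' E := hE ▸ mem_univ z
    exact this
  let V : Set C → Set (W1 → Bool) := fun b => {z | ∀ p ∈ E, Phi I p = z → b ∈ p}
  have hVopen : ∀ b, IsOpen (V b) := by
    intro b
    have : V b = (Phi I '' (E ∩ {p | bᶜ ∈ p}))ᶜ := by
      ext z
      simp only [V, mem_ofPred_eq, mem_compl_iff, mem_image, mem_inter_iff, not_exists, not_and,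
        Ultrafilter.compl_mem_iff_notMem]
      constructor
      · rintro h p ⟨hp, hb⟩ hz
        exact hb (h p hp hz)
      · intro h p hp hz
        by_contra hb
        exact h p ⟨hp, hb⟩ hz
    rw [this, isOpen_compl_iff]
    exact ((hEcl.inter (ultrafilter_isClosed_basic _)).isCompact.image (Phi_cont I)).isClosed
  have hVne : ∀ b, ∀ p ∈ E, b ∈ p → (V b).Nonempty := by
    intro b p hp hb
    by_contra hemp
    rw [not_nonempty_iff_eq_empty] at hemp
    have hK : E ∩ {p | bᶜ ∈ p} = E := by
      refine hirr _ (hEcl.inter (ultrafilter_isClosed_basic _)) inter_subset_left ?_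
      rw [eq_univ_iff_forall]
      intro z
      have hz : z ∉ V b := by rw [hemp]; exact notMem_empty z
      simp only [V, mem_ofPred_eq, not_forall] at hz
      obtain ⟨q, hq, hqz, hqb⟩ := hz
      exact ⟨q, ⟨hq, Ultrafilter.compl_mem_iff_notMem.2 hqb⟩, hqz⟩
    have : p ∈ E ∩ {p | bᶜ ∈ p} := hK.symm ▸ hp
    exact Ultrafilter.compl_mem_iff_notMem.1 this.2 hb
  have hVmono : ∀ b b' : Set C, b ⊆ b' → V b ⊆ V b' := fun b b' h z hz p hp hpz =>
    mem_of_superset (hz p hp hpz) h
  obtain ⟨u, huE, hu⟩ := hlift fun _ => true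
  -- the ultrafilters `p β`
  have hpex : ∀ β : W1, ∃ p ∈ E, Phi I p β = false ∧ ∀ b ∈ u, β ∉ Bad (V b) → b ∈ p := by
    intro β
    have hcoord : IsClosed {p : Ultrafilter C | Phi I p β = false} :=
      isClosed_eq ((continuous_apply β).comp (Phi_cont I)) continuous_const
    have hdense : ∀ s : Finset (Set C), ∀ O : Set (W1 → Bool), IsOpen O → O.Nonempty →
        (∀ b ∈ s, O ⊆ closure (V b)) → (O ∩ ⋂ b ∈ s, V b).Nonempty := by
      intro s
      induction s using Finset.induction_on with
      | empty => intro O _ hne _; simpa using hne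
      | insert a s ha ih =>
        intro O hO hne hsub
        obtain ⟨z, hz⟩ := hne
        have h1 : (O ∩ V a).Nonempty :=
          mem_closure_iff.1 (hsub a (Finset.mem_insert_self a s) hz) O hO hz
        obtain ⟨w, hw, hw2⟩ := ih (O ∩ V a) (hO.inter (hVopen a)) h1 fun b hb =>
          inter_subset_left.trans (hsub b (Finset.mem_insert_of_mem hb))
        refine ⟨w, hw.1, ?_⟩
        rw [Finset.set_biInter_insert]
        exact ⟨hw.2, hw2⟩
    have hfip : ∀ s : Finset {b : Set C // b ∈ u ∧ β ∉ Bad (V b)},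
        ((E ∩ {p | Phi I p β = false}) ∩ ⋂ b ∈ s, {p : Ultrafilter C | b.1 ∈ p}).Nonempty := by
      intro s
      let s' : Finset (Set C) := s.image Subtype.val
      have hs' : ∀ b ∈ s', b ∈ u ∧ β ∉ Bad (V b) := by
        intro b hb
        obtain ⟨b', _, rfl⟩ := Finset.mem_image.1 hb
        exact b'.2
      have hmem : (⋂ b ∈ s', b) ∈ u := (Filter.biInter_finset_mem s').2 fun b hb => (hs' b hb).1
      obtain ⟨z, hz⟩ := hVne _ u huE hmem
      have hsubV : ∀ b ∈ s', V (⋂ b ∈ s', b) ⊆ V b := fun b hb =>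
        hVmono _ _ (biInter_subset_of_mem hb)
      have hgoal : ∃ w, w β = false ∧ ∀ b ∈ s', w ∈ V b := by
        by_cases hzβ : z β = false
        · exact ⟨z, hzβ, fun b hb => hsubV b hb hz⟩
        · let O : Set (W1 → Bool) := flip β ⁻¹' (V (⋂ b ∈ s', b)) ∩ {w | w β = false}
          have hO : IsOpen O := by
            refine ((hVopen _).preimage (flip_cont β)).inter ?_
            have : IsClopen {w : W1 → Bool | w β = false} := by
              have h2 : {w : W1 → Bool | w β = false} = (fun w : W1 → Bool => w β) ⁻¹' {false} :=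
                rfl
              rw [h2]
              exact (isClopen_discrete _).preimage (continuous_apply β)
            exact this.2
          have hOne : O.Nonempty := by
            refine ⟨flip β z, ?_, ?_⟩
            · change flip β (flip β z) ∈ V (⋂ b ∈ s', b)
              rw [flip_flip]; exact hz
            · change flip β z β = false
              rw [flip_self]
              simpa using hzβ
          have hOsub : ∀ b ∈ s', O ⊆ closure (V b) := by
            intro b hb w hw
            have h1 : flip β w ∈ V b := hsubV b hb hw.1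
            have h2 : β ∉ Bad (V b) := (hs' b hb).2
            have h3 : ∀ z ∈ V b, flip β z ∈ closure (V b) := not_not.1 h2
            have h4 := h3 _ h1
            rwa [flip_flip] at h4
          obtain ⟨w, hw, hw2⟩ := hdense s' O hO hOne hOsub
          exact ⟨w, hw.2, fun b hb => mem_iInter₂.1 hw2 b hb⟩
      obtain ⟨w, hwβ, hw⟩ := hgoal
      obtain ⟨p, hp, hpw⟩ := hlift w
      refine ⟨p, ⟨hp, ?_⟩, ?_⟩
      · change Phi I p β = false
        rw [hpw, hwβ]
      · simp only [mem_iInter]
        intro b hb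
        exact hw b.1 (Finset.mem_image_of_mem _ hb) p hp hpw
    obtain ⟨p, hp, hp2⟩ := (hEcomp.inter_right hcoord).inter_iInter_nonempty
      (fun b : {b : Set C // b ∈ u ∧ β ∉ Bad (V b)} => {p : Ultrafilter C | b.1 ∈ p})
      (fun b => ultrafilter_isClosed_basic _) hfip
    refine ⟨p, hp.1, hp.2, fun b hb hβ => ?_⟩
    exact mem_iInter.1 hp2 ⟨b, hb, hβ⟩
  choose p hpE hpβ hpb using hpex
  have hbad : ∀ b, (Bad (V b)).Countable := fun b => Bad_countable hI (hVopen b)
  -- the ultrafilters `p β` form an uncountable set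
  have hrange : ¬ (range p).Countable := by
    intro hc
    have hunc : ¬ (univ : Set W1).Countable := by
      intro h
      have h1 : Countable W1 := countable_univ_iff.1 h
      have h2 := mk_le_aleph0_iff.2 h1
      rw [mk_ord_toType] at h2
      exact absurd h2 (not_le.2 aleph0_lt_aleph_one)
    apply hunc
    have hcov : (univ : Set W1) ⊆ ⋃ q ∈ range p, {β | p β = q} := fun β _ =>
      mem_iUnion₂.2 ⟨p β, mem_range_self β, rfl⟩
    refine (Countable.biUnion hc fun q hq => ?_).mono hcov
    obtain ⟨β, rfl⟩ := hq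
    have hI1 : {c | dd I c β = true} ∈ u := by
      rw [← Phi_true, hu]
    have hI2 : {c | dd I c β = true} ∉ p β := by
      intro h
      rw [← Phi_true, hpβ β] at h
      exact absurd h (by simp)
    refine (hbad {c | dd I c β = true}).mono fun γ hγ => ?_
    by_contra hγ2
    have h3 := hpb γ _ hI1 hγ2
    rw [mem_ofPred_eq] at hγ
    rw [hγ] at h3
    exact hI2 h3
  have hsmall : ∀ b ∈ u, {q ∈ range p | b ∉ q}.Countable := by
    intro b hb
    refine ((hbad b).image p).mono ?_
    rintro _ ⟨⟨β, rfl⟩, hβ⟩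
    refine ⟨β, ?_, rfl⟩
    by_contra hβ2
    exact hβ (hpb β b hb hβ2)
  have hprin : ∀ (c : C) (q : Ultrafilter C), {c} ∈ q → q = pure c := by
    intro c q h
    exact Ultrafilter.eq_pure_of_finite_mem (finite_singleton c) h |>.elim
      fun x hx => by rw [hx.2, mem_singleton_iff.1 hx.1]
  refine ⟨u, {q ∈ range p | ∀ c : C, {c} ∉ q}, ?_, ?_, fun q hq => hq.2, ?_, ?_⟩
  · intro hc
    apply hrange
    refine (hc.union (countable_range (pure : C → Ultrafilter C))).mono fun q hq => ?_
    by_cases h : ∀ c : C, {c} ∉ q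
    · exact Or.inl ⟨hq, h⟩
    · push Not at h
      obtain ⟨c, hc⟩ := h
      exact Or.inr ⟨c, (hprin c q hc).symm⟩
  · rintro ⟨⟨β, hβ⟩, _⟩
    have h1 := hpβ β
    rw [hβ, hu] at h1
    exact absurd h1 (by simp)
  · intro c hc
    apply hrange
    refine ((hsmall _ hc).union (countable_singleton (pure c : Ultrafilter C))).mono ?_
    intro q hq
    by_cases h : {c} ∈ q
    · exact Or.inr (hprin c q h)
    · left
      exact ⟨hq, h⟩
  · intro b hb
    refine (hsmall b hb).mono ?_
    intro q hq
    exact ⟨hq.1.1, hq.2⟩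

end Q209.QC
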