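import Mathlib
import Pool.Agent.Q209.QCDefs
import Pool.Agent.Q209.QCUltra

/-!
A Hausdorff space with `S_1(Ω^s, Γ^s)` whose space of quasicontinuous functions is not
Fréchet-Urysohn at some point.
-/

set_option autoImplicit false

namespace Q209.QC

open Set Filter Topology

universe u

/-- Selection from `ω`-covers by co-countable sets. -/
theorem select {X : Type u} (𝒰 : ℕ → Set (Set X))
    (h : ∀ n, ∀ F : Set X, F.Finite → ∃ U ∈ 𝒰 n, F ⊆ U ∧ Uᶜ.Countable) :
    ∃ U : ℕ → Set X, (∀ n, U n ∈ 𝒰 n) ∧ ∀ x, ∀ᶠ n in atTop, x ∈ U n := by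
  classical
  choose! U hU hFU hUc using h
  let M : ℕ → Set X := fun k => Nat.rec ∅ (fun _ S => S ∪ ⋃ n : ℕ, ⋃ F ∈ {F : Set X | F.Finite ∧
    F ⊆ S}, (U n F)ᶜ) k
  have hM0 : M 0 = ∅ := rfl
  have hMs : ∀ k, M (k + 1) = M k ∪ ⋃ n : ℕ, ⋃ F ∈ {F : Set X | F.Finite ∧ F ⊆ M k}, (U n F)ᶜ :=
    fun k => rfl
  have hMc : ∀ k, (M k).Countable := by
    intro k
    induction k with
    | zero => rw [hM0]; exact countable_empty
    | succ k ih =>
      rw [hMs]
      refine ih.union (countable_iUnion fun n => ?_)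
      exact (countable_ofPred_finite_subset ih).biUnion fun F hF => hUc n F hF.1
  have hMmono : Monotone M := monotone_nat_of_le_succ fun k => by
    rw [hMs]; exact subset_union_left
  have hMU : (⋃ k, M k).Countable := countable_iUnion hMc
  obtain ⟨ι, hι⟩ := countable_iff_exists_injOn.1 hMU
  let F : ℕ → Set X := fun n => {x ∈ ⋃ k, M k | ι x ≤ n}
  have hF : ∀ n, (F n).Finite := by
    intro n
    refine Set.Finite.of_finite_image (f := ι) ((Set.finite_le_nat n).subset ?_) ?_
    · rintro _ ⟨x, hx, rfl⟩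
      exact hx.2
    · exact hι.mono fun x hx => hx.1
  have hsub : ∀ S : Set X, S.Finite → S ⊆ ⋃ k, M k → ∃ k, S ⊆ M k := by
    intro S hS
    refine Set.Finite.induction_on S hS (fun _ => ⟨0, empty_subset _⟩) ?_
    intro a s _ _ ih has
    obtain ⟨k, hk⟩ := ih ((subset_insert a s).trans has)
    obtain ⟨l, hl⟩ := mem_iUnion.1 (has (mem_insert a s))
    exact ⟨max k l, insert_subset (hMmono (le_max_right k l) hl)
      (hk.trans (hMmono (le_max_left k l)))⟩
  refine ⟨fun n => U n (F n), fun n => hU n _ (hF n), fun x => ?_⟩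
  by_cases hx : x ∈ ⋃ k, M k
  · filter_upwards [eventually_ge_atTop (ι x)] with n hn
    exact hFU n _ (hF n) ⟨hx, hn⟩
  · refine Eventually.of_forall fun n => ?_
    by_contra hxn
    apply hx
    obtain ⟨k, hk⟩ := hsub (F n) (hF n) fun y hy => hy.1
    refine mem_iUnion.2 ⟨k + 1, ?_⟩
    rw [hMs]
    right
    exact mem_iUnion.2 ⟨n, mem_iUnion₂.2 ⟨F n, ⟨hF n, hk⟩, hxn⟩⟩

/-- The points of the space: two copies of the countable set `C`, two points `u i`, and the
elements of `N`. -/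
inductive Pt (u0 : Ultrafilter C) (N : Set (Ultrafilter C)) : Type
  | d (c : C) (i : Bool)
  | u (i : Bool)
  | p (q : N)

variable {u0 : Ultrafilter C} {N : Set (Ultrafilter C)}

/-- The trace of `U` on the `i`-th copy of `C`. -/
def tr (U : Set (Pt u0 N)) (i : Bool) : Set C := {c | Pt.d c i ∈ U}

instance : TopologicalSpace (Pt u0 N) where
  IsOpen U := (∀ i, Pt.u i ∈ U → tr U i ∈ u0) ∧ ∀ q : N, Pt.p q ∈ U → ∀ i, tr U i ∈ q.1
  isOpen_univ := ⟨fun i _ => mem_of_superset univ_mem fun c _ => mem_univ _,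
    fun q _ i => mem_of_superset univ_mem fun c _ => mem_univ _⟩
  isOpen_inter := by
    rintro U V ⟨hU1, hU2⟩ ⟨hV1, hV2⟩
    exact ⟨fun i hi => inter_mem (hU1 i hi.1) (hV1 i hi.2),
      fun q hq i => inter_mem (hU2 q hq.1 i) (hV2 q hq.2 i)⟩
  isOpen_sUnion := by
    intro S hS
    constructor
    · rintro i ⟨U, hU, hi⟩
      exact mem_of_superset ((hS U hU).1 i hi) fun c hc => ⟨U, hU, hc⟩
    · rintro q ⟨U, hU, hq⟩ i
      exact mem_of_superset ((hS U hU).2 q hq i) fun c hc => ⟨U, hU, hc⟩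

theorem open_iff {U : Set (Pt u0 N)} : IsOpen U ↔
    (∀ i, Pt.u i ∈ U → tr U i ∈ u0) ∧ ∀ q : N, Pt.p q ∈ U → ∀ i, tr U i ∈ q.1 := Iff.rfl

theorem open_d (c : C) (i : Bool) : IsOpen ({Pt.d c i} : Set (Pt u0 N)) := by
  rw [open_iff]
  constructor
  · intro j hj
    exact absurd hj (by simp)
  · intro q hq
    exact absurd hq (by simp)

/-- The natural map to the space of ultrafilters. -/
def pr : Pt u0 N → Ultrafilter C
  | Pt.d c _ => pure c
  | Pt.u _ => u0
  | Pt.p q => q.1

theorem pr_cont : Continuous (pr : Pt u0 N → Ultrafilter C) := by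
  rw [ultrafilterBasis_is_basis.continuous_iff]
  rintro _ ⟨s, rfl⟩
  rw [open_iff]
  constructor
  · intro i hi
    exact mem_of_superset (show s ∈ u0 from hi) fun c hc => hc
  · intro q hq i
    exact mem_of_superset (show s ∈ q.1 from hq) fun c hc => hc

theorem t2 (hu : u0 ∉ N) (hN : ∀ p ∈ N, ∀ c : C, {c} ∉ p) (hu0 : ∀ c : C, {c} ∉ u0) :
    T2Space (Pt u0 N) := by
  have h1 : ∀ c : C, (pure c : Ultrafilter C) ≠ u0 := by
    intro c h
    apply hu0 c
    rw [← h]
    exact mem_singleton c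
  have h2 : ∀ (c : C) (q : N), (pure c : Ultrafilter C) ≠ q.1 := by
    intro c q h
    apply hN q.1 q.2 c
    rw [← h]
    exact mem_singleton c
  have h3 : ∀ q : N, q.1 ≠ u0 := fun q h => hu (h ▸ q.2)
  have hpd : ∀ c c' : C, (pure c : Ultrafilter C) = pure c' → c = c' := by
    intro c c' h
    have : ({c} : Set C) ∈ (pure c' : Ultrafilter C) := by rw [← h]; exact mem_singleton c
    exact (mem_singleton_iff.1 this).symm
  have hui : ∀ i : Bool, IsOpen ({x | x = Pt.u i ∨ ∃ c, x = Pt.d c i} : Set (Pt u0 N)) := by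
    intro i
    rw [open_iff]
    constructor
    · intro j hj
      have hji : j = i := by
        rcases hj with hj | ⟨c, hc⟩
        · exact Pt.u.inj hj
        · exact absurd hc (by simp)
      subst hji
      exact mem_of_superset univ_mem fun c _ => Or.inr ⟨c, rfl⟩
    · intro q hq
      rcases hq with hq | ⟨c, hc⟩
      · exact absurd hq (by simp)
      · exact absurd hc (by simp)
  refine ⟨fun x y hxy => ?_⟩
  by_cases hpr : pr x = pr y
  · cases x with
    | d c i =>
      cases y with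
      | d c' i' =>
        refine ⟨{Pt.d c i}, {Pt.d c' i'}, open_d c i, open_d c' i', rfl, rfl, ?_⟩
        rw [disjoint_singleton]
        exact hxy
      | u i' => exact absurd hpr (h1 c)
      | p q => exact absurd hpr (h2 c q)
    | u i =>
      cases y with
      | d c' i' => exact absurd hpr.symm (h1 c')
      | u i' =>
        refine ⟨_, _, hui i, hui i', Or.inl rfl, Or.inl rfl, ?_⟩
        rw [Set.disjoint_left]
        have hne : i ≠ i' := fun h => hxy (h ▸ rfl)
        rintro z (rfl | ⟨c, rfl⟩) (hz | ⟨c', hz⟩)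
        · exact hne (Pt.u.inj hz)
        · exact absurd hz (by simp)
        · exact absurd hz (by simp)
        · exact hne (Pt.d.inj hz).2
      | p q => exact absurd hpr.symm (h3 q)
    | p q =>
      cases y with
      | d c' i' => exact absurd hpr.symm (h2 c' q)
      | u i' => exact absurd hpr (h3 q)
      | p q' => exact absurd (congrArg Pt.p (Subtype.ext hpr)) hxy
  · obtain ⟨U, V, hU, hV, hx, hy, hd⟩ := t2_separation hpr
    exact ⟨pr ⁻¹' U, pr ⁻¹' V, hU.preimage pr_cont, hV.preimage pr_cont, hx, hy,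
      hd.preimage _⟩

theorem tr_mem_of_minBdd {U : Set (Pt u0 N)} (hU : MinBdd U) {i : Bool} (hi : Pt.u i ∈ U) :
    tr U i ∈ u0 := by
  by_contra hcon
  have hc : (tr U i)ᶜ ∈ u0 := Ultrafilter.compl_mem_iff_notMem.2 hcon
  have hO : IsOpen ({x | x = Pt.u i ∨ ∃ c ∈ (tr U i)ᶜ, x = Pt.d c i} : Set (Pt u0 N)) := by
    rw [open_iff]
    constructor
    · intro j hj
      have hji : j = i := by
        rcases hj with hj | ⟨c, _, hc⟩
        · exact Pt.u.inj hj
        · exact absurd hc (by simp)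
      subst hji
      exact mem_of_superset hc fun c hc => Or.inr ⟨c, hc, rfl⟩
    · intro q hq
      rcases hq with hq | ⟨c, _, hc⟩
      · exact absurd hq (by simp)
      · exact absurd hc (by simp)
  obtain ⟨z, hz, hzU⟩ := mem_closure_iff.1 (hU.1 hi) _ hO (Or.inl rfl)
  rcases hz with rfl | ⟨c, hcU, rfl⟩
  · have h1 : tr (interior U) i ∈ u0 := (open_iff.1 isOpen_interior).1 i hzU
    exact hcon (mem_of_superset h1 fun c hc =>
      (interior_subset (s := U) hc : (Pt.d c i : Pt u0 N) ∈ U))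
  · exact hcU (interior_subset (s := U) hzU : (Pt.d c i : Pt u0 N) ∈ U)

theorem p_mem_of_minBdd {U : Set (Pt u0 N)} (hU : MinBdd U) {q : N} (hq : ∀ i, tr U i ∈ q.1) :
    Pt.p q ∈ U := by
  apply hU.2
  have hO : IsOpen ({x | x = Pt.p q ∨ ∃ c i, Pt.d c i ∈ U ∧ x = Pt.d c i} : Set (Pt u0 N)) := by
    rw [open_iff]
    constructor
    · intro j hj
      rcases hj with hj | ⟨c, i, _, hc⟩
      · exact absurd hj (by simp)
      · exact absurd hc (by simp)
    · intro q' hq' i
      rcases hq' with hq' | ⟨c, i, _, hc⟩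
      · rw [Pt.p.inj hq']
        exact mem_of_superset (hq i) fun c hc => Or.inr ⟨c, i, hc, rfl⟩
      · exact absurd hc (by simp)
  refine mem_interior.2 ⟨_, ?_, hO, Or.inl rfl⟩
  rintro x (rfl | ⟨c, i, hc, rfl⟩)
  · rw [mem_closure_iff]
    intro V hV hqV
    have h1 : tr V true ∈ q.1 := (open_iff.1 hV).2 q hqV true
    obtain ⟨c, hc1, hc2⟩ := q.1.nonempty_of_mem (inter_mem h1 (hq true))
    exact ⟨Pt.d c true, hc1, hc2⟩
  · exact subset_closure hc

theorem s1seq (hN : ∀ b ∈ u0, {p ∈ N | b ∉ p}.Countable) : S1seq (Pt u0 N) := by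
  intro 𝒰 h𝒰
  apply select
  intro n F hF
  obtain ⟨U, hU, hFU⟩ := (h𝒰 n).2.1 (F ∪ {Pt.u true, Pt.u false}) (hF.union (toFinite _))
  have hmb := (h𝒰 n).2.2 U hU
  refine ⟨U, hU, subset_union_left.trans hFU, ?_⟩
  have hui : ∀ i, Pt.u i ∈ U := by
    intro i
    apply hFU
    right
    cases i <;> simp
  have htr : ∀ i, tr U i ∈ u0 := fun i => tr_mem_of_minBdd hmb (hui i)
  have hcount : ∀ i, {q : N | tr U i ∉ q.1}.Countable := by
    intro i
    have := (hN _ (htr i)).preimage (Subtype.val_injective (p := (· ∈ N)))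
    refine this.mono ?_
    intro q hq
    exact ⟨q.2, hq⟩
  have hcov : Uᶜ ⊆ range (fun q : C × Bool => (Pt.d q.1 q.2 : Pt u0 N)) ∪
      ⋃ i, Pt.p '' {q : N | tr U i ∉ q.1} := by
    intro x hx
    cases x with
    | d c i => exact Or.inl ⟨(c, i), rfl⟩
    | u i => exact absurd (hui i) hx
    | p q =>
      right
      by_contra hcon
      apply hx
      apply p_mem_of_minBdd hmb
      intro i
      by_contra hi
      exact hcon (mem_iUnion.2 ⟨i, q, hi, rfl⟩)
  exact ((countable_range _).union (countable_iUnion fun i => (hcount i).image _)).mono hcov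

open Classical in
/-- The function on the space determined by a subset of `N`. -/
noncomputable def hf (S : Set N) : Pt u0 N → ℝ
  | Pt.d _ i => if i = true then 1 else 0
  | Pt.u i => if i = true then 1 else 0
  | Pt.p q => if q ∈ S then 1 else 0

theorem hf_qc (S : Set N) : Quasicont (hf S : Pt u0 N → ℝ) := by
  classical
  intro x U hU hx V _ hV
  cases x with
  | d c i => exact ⟨{Pt.d c i}, open_d c i, ⟨_, rfl⟩, singleton_subset_iff.2 hx, by
      rintro _ rfl; exact hV⟩
  | u i =>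
    obtain ⟨c, hc⟩ := u0.nonempty_of_mem ((open_iff.1 hU).1 i hx)
    exact ⟨{Pt.d c i}, open_d c i, ⟨_, rfl⟩, singleton_subset_iff.2 hc, by
      rintro _ rfl; exact hV⟩
  | p q =>
    obtain ⟨c, hc⟩ := q.1.nonempty_of_mem ((open_iff.1 hU).2 q hx (decide (q ∈ S)))
    refine ⟨{Pt.d c (decide (q ∈ S))}, open_d c _, ⟨_, rfl⟩, singleton_subset_iff.2 hc, ?_⟩
    rintro _ rfl
    convert hV using 1
    simp [hf]

/-- The counterexample. -/
theorem main_neg : ∃ (X : Type) (_ : TopologicalSpace X), T2Space X ∧ S1seq X ∧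
    ∃ f : Qp X, ¬ FUAt f := by
  classical
  obtain ⟨u0, N, hN, hu, hNp, hu0, hb⟩ := exists_ultra
  refine ⟨Pt u0 N, inferInstance, t2 hu hNp hu0, s1seq hb, ⟨hf univ, hf_qc univ⟩, ?_⟩
  intro hFU
  obtain ⟨s, hs, hlim⟩ := hFU {g | ∃ S : Set N, S.Finite ∧ g.1 = hf S} (by
    rw [mem_closure_Qp]
    intro K η hη
    have hfin : {q : N | Pt.p q ∈ K}.Finite :=
      K.finite_toSet.preimage fun a _ b _ h => Pt.p.inj h
    refine ⟨⟨hf {q : N | Pt.p q ∈ K}, hf_qc _⟩, ⟨_, hfin, rfl⟩, fun x hx => ?_⟩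
    have : hf {q : N | Pt.p q ∈ K} x = (hf univ : Pt u0 N → ℝ) x := by
      cases x with
      | d c i => rfl
      | u i => rfl
      | p q =>
        simp only [hf, mem_univ, if_true]
        rw [if_pos]
        exact hx
    change |hf {q : N | Pt.p q ∈ K} x - hf univ x| < η
    rw [this, sub_self, abs_zero]
    exact hη)
  choose S hS hsS using hs
  rw [tendsto_Qp] at hlim
  apply hN
  have hcov : N ⊆ ⋃ n, Subtype.val '' (S n) := by
    intro q hq
    have h1 := hlim (Pt.p ⟨q, hq⟩)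
    have h2 : ∀ᶠ n in atTop, |(s n).1 (Pt.p ⟨q, hq⟩) -
        (hf univ : Pt u0 N → ℝ) (Pt.p ⟨q, hq⟩)| < 1 := by
      have := Metric.tendsto_atTop.1 h1 1 one_pos
      obtain ⟨n0, hn0⟩ := this
      filter_upwards [eventually_ge_atTop n0] with n hn
      have := hn0 n hn
      rwa [Real.dist_eq] at this
    obtain ⟨n, hn⟩ := h2.exists
    rw [hsS n] at hn
    refine mem_iUnion.2 ⟨n, ⟨q, hq⟩, ?_, rfl⟩
    by_contra hcon
    simp [hf, hcon] at hn
  exact (countable_iUnion fun n => ((hS n).countable.image _)).mono hcov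

end Q209.QC
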