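import Mathlib
import Pool.Agent.Q209.QCDefs

/-!
For open Whyburn Hausdorff spaces, `S_1(Ω^s, Γ^s)` implies that the space of quasicontinuous
functions is Fréchet-Urysohn.
-/

set_option autoImplicit false

namespace Q209.QC

open Set Filter Topology

universe u

variable {X : Type u} [TopologicalSpace X]

/-! ### Regular closed sets -/

/-- Regular closed sets. -/
def RC (R : Set X) : Prop := closure (interior R) = R

theorem RC.closed {R : Set X} (h : RC R) : IsClosed R := h ▸ isClosed_closure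

theorem RC.minBdd {R : Set X} (h : RC R) : MinBdd R :=
  ⟨h.ge, by rw [h.closed.closure_eq]; exact interior_subset⟩

theorem rc_closure {B : Set X} (hB : IsOpen B) : RC (closure B) := by
  refine Subset.antisymm ?_ ?_
  · exact closure_minimal interior_subset isClosed_closure
  · exact closure_mono (interior_maximal subset_closure hB)

theorem RC.union {R S : Set X} (hR : RC R) (hS : RC S) : RC (R ∪ S) := by
  refine Subset.antisymm (closure_minimal interior_subset (hR.closed.union hS.closed)) ?_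
  rintro x (hx | hx)
  · rw [← hR] at hx
    exact closure_mono (interior_mono subset_union_left) hx
  · rw [← hS] at hx
    exact closure_mono (interior_mono subset_union_right) hx

theorem rc_empty : RC (∅ : Set X) := by simp [RC]

theorem rc_biUnion {F : Set X} (hF : F.Finite) (R : X → Set X) (hR : ∀ x ∈ F, RC (R x)) :
    RC (⋃ x ∈ F, R x) := by
  refine Subset.antisymm (closure_minimal interior_subset
    (hF.isClosed_biUnion fun x hx => (hR x hx).closed)) ?_
  intro y hy
  obtain ⟨x, hx, hyx⟩ := mem_iUnion₂.1 hy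
  rw [← hR x hx] at hyx
  exact closure_mono (interior_mono (subset_biUnion_of_mem (u := R) hx)) hyx

/-- Thin regular closed sets. -/
theorem thin [T2Space X] (hW : OpenWhyburn X) {G : Set X} (hG : IsOpen G) {x : X}
    (hx : x ∈ closure G) : ∃ R, RC R ∧ x ∈ R ∧ R ⊆ G ∪ {x} := by
  by_cases hxG : x ∈ G
  · by_cases hiso : IsOpen {x}
    · refine ⟨{x}, ?_, rfl, subset_union_right⟩
      have := rc_closure hiso
      rwa [closure_singleton] at this
    · have hA : IsOpen (G \ {x}) := hG.sdiff isClosed_singleton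
      have hxA : x ∈ closure (G \ {x}) := by
        rw [mem_closure_iff]
        intro O hO hxO
        by_contra hcon
        rw [not_nonempty_iff_eq_empty] at hcon
        apply hiso
        have : ({x} : Set X) = O ∩ G := by
          refine Subset.antisymm (singleton_subset_iff.2 ⟨hxO, hxG⟩) ?_
          rintro y ⟨hyO, hyG⟩
          by_contra hne
          have : y ∈ O ∩ (G \ {x}) := ⟨hyO, hyG, hne⟩
          rw [hcon] at this
          exact this
        rw [this]
        exact hO.inter hG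
      obtain ⟨B, hB, hBA, hcl⟩ := hW _ hA x ⟨hxA, fun h => h.2 rfl⟩
      have hxB : x ∈ closure B \ (G \ {x}) := hcl.symm ▸ mem_singleton x
      refine ⟨closure B, rc_closure hB, hxB.1, fun y hy => ?_⟩
      by_cases hyA : y ∈ G \ {x}
      · exact Or.inl hyA.1
      · have : y ∈ closure B \ (G \ {x}) := ⟨hy, hyA⟩
        rw [hcl] at this
        exact Or.inr this
  · obtain ⟨B, hB, hBA, hcl⟩ := hW _ hG x ⟨hx, hxG⟩
    have hxB : x ∈ closure B \ G := hcl.symm ▸ mem_singleton x
    refine ⟨closure B, rc_closure hB, hxB.1, fun y hy => ?_⟩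
    by_cases hyA : y ∈ G
    · exact Or.inl hyA
    · have : y ∈ closure B \ G := ⟨hy, hyA⟩
      rw [hcl] at this
      exact Or.inr this

/-! ### The selection principle -/

/-- The two forms of the selection principle agree for Hausdorff spaces. -/
theorem S1seq_of_S1 [T2Space X] (h : S1 X) : S1seq X := by
  intro 𝒰 h𝒰
  rcases finite_or_infinite X with hfin | hinf
  · have h1 : ∀ n, ∃ U ∈ 𝒰 n, univ ⊆ U := fun n => (h𝒰 n).2.1 univ (toFinite _)
    choose U hU hU2 using h1
    exact ⟨U, hU, fun x => Eventually.of_forall fun n => hU2 n (mem_univ x)⟩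
  · let e : ℕ → X := Infinite.natEmbedding X
    have he : Function.Injective e := (Infinite.natEmbedding X).injective
    let 𝒱 : ℕ → Set (Set X) := fun n => {V | (∃ U ∈ 𝒰 n, V ⊆ U) ∧ MinBdd V ∧
      (∀ i ≤ n, e i ∈ V) ∧ ∃ k > n, e k ∉ V}
    have hω : ∀ n, ∀ F : Set X, F.Finite → ∃ V ∈ 𝒱 n, F ⊆ V := by
      intro n F hF
      have hF' : (F ∪ e '' {i | i ≤ n}).Finite := hF.union ((Set.finite_le_nat n).image e)
      have hkex : ∃ k > n, e k ∉ F ∪ e '' {i | i ≤ n} := by
        by_contra hcon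
        push Not at hcon
        have h1 : (Ioi n).Infinite := Ioi_infinite n
        apply h1
        refine (hF'.preimage he.injOn).subset ?_
        intro k hk
        exact hcon k hk
      obtain ⟨k, hk, hkF⟩ := hkex
      obtain ⟨O, O', hO, hO', hkO, hFO', hdisj⟩ := SeparatedNhds.of_isCompact_isCompact
        (isCompact_singleton (x := e k)) hF'.isCompact (disjoint_singleton_left.2 hkF)
      obtain ⟨U, hU, hFU⟩ := (h𝒰 n).2.1 _ hF'
      have hUmb := (h𝒰 n).2.2 U hU
      have hclO : Disjoint (closure O) O' := hdisj.closure_left hO'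
      refine ⟨U \ closure O, ⟨⟨U, hU, sdiff_subset⟩, ⟨?_, ?_⟩, ?_, k, hk, ?_⟩, ?_⟩
      · rintro x ⟨hxU, hxO⟩
        rw [mem_closure_iff]
        intro N hN hxN
        obtain ⟨y, ⟨hyN, hyO⟩, hyU⟩ := mem_closure_iff.1 (hUmb.1 hxU) (N \ closure O)
          (hN.sdiff isClosed_closure) ⟨hxN, hxO⟩
        refine ⟨y, hyN, ?_⟩
        rw [mem_interior]
        exact ⟨interior U \ closure O, sdiff_subset_sdiff_left interior_subset,
          isOpen_interior.sdiff isClosed_closure, hyU, hyO⟩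
      · intro y hy
        refine ⟨hUmb.2 (interior_mono (closure_mono sdiff_subset) hy), fun hyO => ?_⟩
        obtain ⟨z, hz1, hz2⟩ := mem_closure_iff.1 hyO _ isOpen_interior hy
        obtain ⟨w, hw1, hw2⟩ := mem_closure_iff.1 (interior_subset hz1) O hO hz2
        exact hw2.2 (subset_closure hw1)
      · intro i hi
        have h1 : e i ∈ F ∪ e '' {i | i ≤ n} := Or.inr ⟨i, hi, rfl⟩
        exact ⟨hFU h1, fun h2 => Set.disjoint_left.1 hclO h2 (hFO' h1)⟩
      · intro h1
        exact h1.2 (subset_closure (hkO rfl))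
      · intro x hx
        have h1 : x ∈ F ∪ e '' {i | i ≤ n} := Or.inl hx
        exact ⟨hFU h1, fun h2 => Set.disjoint_left.1 hclO h2 (hFO' h1)⟩
    obtain ⟨V, hV, hVγ⟩ := h 𝒱 fun n => ⟨by
      rw [eq_univ_iff_forall]
      intro x
      obtain ⟨V, hV, hxV⟩ := hω n {x} (finite_singleton x)
      exact ⟨V, hV, hxV rfl⟩, hω n, fun V hV => hV.2.1⟩
    have hVU : ∀ n, ∃ U ∈ 𝒰 n, V n ⊆ U := fun n => (hV n).1
    choose U hU hVU using hVU
    refine ⟨U, hU, fun x => ?_⟩
    have hfin : {n | x ∉ V n}.Finite := by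
      have h1 : {n | x ∉ V n} ⊆ V ⁻¹' {W ∈ range V | x ∉ W} := fun n hn => ⟨mem_range_self n, hn⟩
      refine (Set.Finite.preimage' (hVγ.2.1 x) ?_).subset h1
      rintro _ ⟨⟨m, rfl⟩, _⟩
      obtain ⟨k, hk, hkV⟩ := (hV m).2.2.2
      refine (Set.finite_lt_nat k).subset ?_
      intro n hn
      by_contra hnk
      have h2 : e k ∈ V n := (hV n).2.2.1 k (not_lt.1 hnk)
      have h3 : V n = V m := hn
      rw [h3] at h2
      exact hkV h2
    have h2 : ∀ᶠ n in cofinite, n ∉ {n | x ∉ V n} := hfin.compl_mem_cofinite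
    rw [Nat.cofinite_eq_atTop] at h2
    filter_upwards [h2] with n hn
    exact hVU n (not_not.1 hn)

theorem useS {hS : S1seq X} (𝒰 : ℕ → Set (Set X)) (hrc : ∀ n, ∀ U ∈ 𝒰 n, RC U)
    (hF : ∀ n, ∀ F : Set X, F.Finite → ∃ U ∈ 𝒰 n, F ⊆ U) :
    ∃ U : ℕ → Set X, (∀ n, U n ∈ 𝒰 n) ∧ ∀ x, ∀ᶠ n in atTop, x ∈ U n := by
  refine hS 𝒰 fun n => ⟨?_, hF n, fun U hU => (hrc n U hU).minBdd⟩
  rw [eq_univ_iff_forall]
  intro x
  obtain ⟨V, hV, hxV⟩ := hF n {x} (finite_singleton x)
  exact ⟨V, hV, hxV rfl⟩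

/-! ### Nowhere dense sets are countable -/

/-- Nowhere dense sets. -/
def NWD (N : Set X) : Prop := ∀ G : Set X, IsOpen G → G ⊆ closure N → G = ∅

variable [T2Space X] (hW : OpenWhyburn X) (hS : S1seq X)

include hW hS

theorem nwd_countable {N : Set X} (hN : NWD N) : N.Countable := by
  have hR : ∀ x : X, ∃ R, RC R ∧ x ∈ R ∧ R ∩ closure N ⊆ {x} := by
    intro x
    by_cases hiso : IsOpen {x}
    · refine ⟨{x}, ?_, rfl, inter_subset_left⟩
      have := rc_closure hiso
      rwa [closure_singleton] at this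
    · have hd : x ∈ closure ((closure N)ᶜ \ {x}) := by
        rw [mem_closure_iff]
        intro O hO hxO
        by_contra hcon
        rw [not_nonempty_iff_eq_empty] at hcon
        have h1 : O \ {x} ⊆ closure N := by
          rintro y ⟨hyO, hyx⟩
          by_contra hy
          have : y ∈ O ∩ ((closure N)ᶜ \ {x}) := ⟨hyO, hy, hyx⟩
          rw [hcon] at this
          exact this
        have h2 := hN _ (hO.sdiff isClosed_singleton) h1
        apply hiso
        have : ({x} : Set X) = O := by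
          refine Subset.antisymm (singleton_subset_iff.2 hxO) fun y hy => ?_
          by_contra hne
          have : y ∈ O \ {x} := ⟨hy, hne⟩
          rw [h2] at this
          exact this
        rw [this]
        exact hO
      obtain ⟨R, hR, hxR, hsub⟩ := thin hW (isClosed_closure.isOpen_compl.sdiff
        isClosed_singleton) hd
      refine ⟨R, hR, hxR, ?_⟩
      rintro y ⟨hyR, hyN⟩
      rcases hsub hyR with hy | hy
      · exact absurd hyN hy.1
      · exact hy
  choose R hRrc hxR hRN using hR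
  obtain ⟨U, hU, hlim⟩ := useS (hS := hS) (fun _ => {R | RC R ∧ (R ∩ closure N).Finite})
    (fun n U hU => hU.1) (fun n F hF => ⟨⋃ x ∈ F, R x, ⟨rc_biUnion hF R fun x _ => hRrc x, by
      refine hF.subset ?_
      rintro y ⟨hy, hyN⟩
      obtain ⟨x, hx, hyx⟩ := mem_iUnion₂.1 hy
      have := hRN x ⟨hyx, hyN⟩
      rw [mem_singleton_iff] at this
      rwa [this]⟩, fun x hx => mem_iUnion₂.2 ⟨x, hx, hxR x⟩⟩)
  have hcov : N ⊆ ⋃ n, (U n ∩ closure N) := by
    intro x hx
    obtain ⟨n, hn⟩ := (hlim x).exists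
    exact mem_iUnion.2 ⟨n, hn, subset_closure hx⟩
  exact (countable_iUnion fun n => (hU n).2.countable).mono hcov

theorem bdry_countable {B : Set X} (hB : IsOpen B) : (closure B \ B).Countable := by
  apply nwd_countable hW hS
  intro G hG hsub
  have hcl : IsClosed (closure B \ B) := isClosed_closure.sdiff hB
  rw [hcl.closure_eq] at hsub
  by_contra hne
  obtain ⟨x, hx⟩ := nonempty_iff_ne_empty.2 hne
  obtain ⟨y, hy, hyB⟩ := mem_closure_iff.1 (hsub hx).1 G hG hx
  exact (hsub hy).2 hyB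

theorem closed_bdry_countable {C : Set X} (hC : IsClosed C) : (C \ interior C).Countable := by
  apply nwd_countable hW hS
  intro G hG hsub
  have hcl : IsClosed (C \ interior C) := hC.sdiff isOpen_interior
  rw [hcl.closure_eq] at hsub
  by_contra hne
  obtain ⟨x, hx⟩ := nonempty_iff_ne_empty.2 hne
  have : G ⊆ interior C := interior_maximal (hsub.trans sdiff_subset) hG
  exact (hsub hx).2 (this hx)

/-! ### Isolated points -/

theorem iso_countable : {x : X | IsOpen {x}}.Countable := by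
  by_contra hcount
  let I : Set X := {x : X | IsOpen {x}}
  have hIinf : Infinite I := by
    rw [infinite_coe_iff]
    exact fun h => hcount h.countable
  have hIunc : ¬ Countable I := fun h => hcount (countable_coe_iff.1 h)
  have hsub : ∀ S ⊆ I, IsOpen S := by
    intro S hS'
    rw [← biUnion_of_singleton S]
    exact isOpen_biUnion fun x hx => hS' hx
  obtain ⟨e⟩ : Nonempty (I × I ≃ I) := by
    rw [← Cardinal.eq]
    simp only [Cardinal.mk_prod, Cardinal.lift_id]
    exact Cardinal.mul_eq_self (Cardinal.aleph0_le_mk I)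
  let J : I → Set X := fun ξ => range fun η : I => (e (ξ, η)).1
  have hJI : ∀ ξ, J ξ ⊆ I := by
    rintro ξ _ ⟨η, rfl⟩
    exact (e (ξ, η)).2
  have hJdisj : ∀ ξ ζ x, x ∈ J ξ → x ∈ J ζ → ξ = ζ := by
    rintro ξ ζ x ⟨η, rfl⟩ ⟨η', h⟩
    have := e.injective (Subtype.ext h)
    exact (Prod.ext_iff.1 this).1.symm
  have hJunc : ∀ ξ, ¬ (J ξ).Countable := by
    intro ξ hc
    apply hIunc
    have h1 : Countable (J ξ) := hc
    have hinj : Function.Injective fun η : I => (⟨(e (ξ, η)).1, η, rfl⟩ : J ξ) := by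
      intro η η' h
      have h3 : (e (ξ, η)).1 = (e (ξ, η')).1 := Subtype.mk_eq_mk.1 h
      have h2 := e.injective (Subtype.ext h3)
      exact (Prod.ext_iff.1 h2).2
    exact hinj.countable
  have hisocl : ∀ (S : Set X) (y : X), y ∈ closure S → IsOpen {y} → y ∈ S := by
    intro S y hy hyo
    obtain ⟨z, hz, hzS⟩ := mem_closure_iff.1 hy _ hyo rfl
    rw [mem_singleton_iff] at hz
    rwa [← hz]
  have hgood : ∃ ξ, ∀ x ∈ closure (J ξ) \ J ξ, x ∈ closure ((closure (J ξ))ᶜ) := by
    by_contra hcon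
    push Not at hcon
    choose x hx hx2 using hcon
    have hinj : Function.Injective x := by
      intro ξ ζ hξζ
      have h1 : x ζ ∈ interior (closure (J ξ)) := by
        rw [← hξζ]
        have := hx2 ξ
        rwa [closure_compl, mem_compl_iff, not_not] at this
      obtain ⟨y, hy, hyJ⟩ := mem_closure_iff.1 (hx ζ).1 _ isOpen_interior h1
      exact hJdisj ξ ζ y (hisocl _ y (interior_subset hy) (hJI ζ hyJ)) hyJ
    have hmem : ∀ ξ, x ξ ∈ closure I \ I := fun ξ =>
      ⟨closure_mono (hJI ξ) (hx ξ).1, fun h => (hx ξ).2 (hisocl _ _ (hx ξ).1 h)⟩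
    have hc : (closure I \ I).Countable := bdry_countable hW hS (hsub I Subset.rfl)
    apply hIunc
    have h1 : Countable (closure I \ I : Set X) := hc
    have hinj2 : Function.Injective fun ξ : I => (⟨x ξ, hmem ξ⟩ : (closure I \ I : Set X)) := by
      intro ξ ζ h
      exact hinj (Subtype.ext_iff.1 h)
    exact hinj2.countable
  obtain ⟨ξ, hξ⟩ := hgood
  have hrcJ : ∀ F : Set X, RC (J ξ \ F)ᶜ := by
    intro F
    have hopen : IsOpen (J ξ \ F) := hsub _ (sdiff_subset.trans (hJI ξ))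
    refine Subset.antisymm (closure_minimal interior_subset hopen.isClosed_compl) ?_
    intro x hx
    by_cases hxJ : x ∈ J ξ
    · apply subset_closure
      rw [mem_interior]
      exact ⟨{x}, singleton_subset_iff.2 hx, hJI ξ hxJ, rfl⟩
    · by_cases hxc : x ∈ closure (J ξ)
      · refine closure_mono ?_ (hξ x ⟨hxc, hxJ⟩)
        refine interior_maximal ?_ isClosed_closure.isOpen_compl
        exact compl_subset_compl.2 (sdiff_subset.trans subset_closure)
      · apply subset_closure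
        rw [mem_interior]
        exact ⟨(closure (J ξ))ᶜ, compl_subset_compl.2 (sdiff_subset.trans subset_closure),
          isClosed_closure.isOpen_compl, hxc⟩
  obtain ⟨U, hU, hlim⟩ := useS (hS := hS)
    (fun _ => {U | RC U ∧ ∃ F : Set X, F.Finite ∧ U = (J ξ \ F)ᶜ})
    (fun n U hU => hU.1) (fun n F hF => ⟨(J ξ \ F)ᶜ, ⟨hrcJ F, F, hF, rfl⟩, fun x hx h => h.2 hx⟩)
  choose F hF hUF using fun n => (hU n).2
  apply hJunc ξ
  refine (countable_iUnion fun n => (hF n).countable).mono fun x hx => ?_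
  obtain ⟨n, hn⟩ := (hlim x).exists
  rw [hUF n] at hn
  refine mem_iUnion.2 ⟨n, ?_⟩
  by_contra hxF
  exact hn ⟨hx, hxF⟩

/-! ### The countable chain condition -/

theorem ccc {𝒟 : Set (Set X)} (hop : ∀ O ∈ 𝒟, IsOpen O) (hne : ∀ O ∈ 𝒟, O.Nonempty)
    (hdisj : ∀ O ∈ 𝒟, ∀ O' ∈ 𝒟, (O ∩ O').Nonempty → O = O') : 𝒟.Countable := by
  rcases isEmpty_or_nonempty X with hemp | hnonemp
  · have h0 : 𝒟 = ∅ := by
      rw [eq_empty_iff_forall_notMem]
      intro O hO
      obtain ⟨x, _⟩ := hne O hO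
      exact hemp.false x
    rw [h0]
    exact countable_empty
  choose! x hx using hne
  have hinj : InjOn x 𝒟 := by
    intro O hO O' hO' h
    exact hdisj O hO O' hO' ⟨x O, hx O hO, h ▸ hx O' hO'⟩
  -- a choice of points which are not isolated, when possible
  have h1 : ∀ O ∈ 𝒟, ∃ y ∈ O, (∃ z ∈ O, IsOpen {z}) ∨ ¬ IsOpen {y} := by
    intro O hO
    refine ⟨x O, hx O hO, ?_⟩
    by_cases h : IsOpen {x O}
    · exact Or.inl ⟨x O, hx O hO, h⟩
    · exact Or.inr h
  have h𝒟1 : {O ∈ 𝒟 | ∃ z ∈ O, IsOpen {z}}.Countable := by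
    have h2 : ∀ O ∈ {O ∈ 𝒟 | ∃ z ∈ O, IsOpen {z}}, ∃ z ∈ O, IsOpen {z} := fun O hO => hO.2
    choose! z hz hzo using h2
    refine MapsTo.countable_of_injOn (f := z) (t := {x : X | IsOpen {x}}) (fun O hO => hzo O hO)
      ?_ (iso_countable hW hS)
    intro O hO O' hO' h
    exact hdisj O hO.1 O' hO'.1 ⟨z O, hz O hO, h ▸ hz O' hO'⟩
  have h𝒟2 : {O ∈ 𝒟 | ¬ ∃ z ∈ O, IsOpen {z}}.Countable := by
    refine MapsTo.countable_of_injOn (f := x)
      (t := x '' {O ∈ 𝒟 | ¬ ∃ z ∈ O, IsOpen {z}}) (mapsTo_image _ _)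
      (hinj.mono fun O hO => hO.1) ?_
    apply nwd_countable hW hS
    intro G hG hsub
    by_contra hne
    obtain ⟨y, hy⟩ := nonempty_iff_ne_empty.2 hne
    obtain ⟨_, hz, O, hO, rfl⟩ := mem_closure_iff.1 (hsub hy) G hG hy
    apply hO.2
    refine ⟨x O, hx O hO.1, ?_⟩
    have : ({x O} : Set X) = G ∩ O := by
      refine Subset.antisymm (singleton_subset_iff.2 ⟨hz, hx O hO.1⟩) ?_
      rintro w ⟨hwG, hwO⟩
      by_contra hwne
      obtain ⟨_, ⟨hv1, hv2⟩, O', hO', rfl⟩ := mem_closure_iff.1 (hsub hwG) (O \ {x O})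
        ((hop O hO.1).sdiff isClosed_singleton) ⟨hwO, hwne⟩
      have := hdisj O hO.1 O' hO'.1 ⟨x O', hv1, hx O' hO'.1⟩
      subst this
      exact hv2 rfl
    rw [this]
    exact hG.inter (hop O hO.1)
  refine (h𝒟1.union h𝒟2).mono fun O hO => ?_
  by_cases h : ∃ z ∈ O, IsOpen {z}
  · exact Or.inl ⟨hO, h⟩
  · exact Or.inr ⟨hO, h⟩

/-- A countable family of open neighbourhoods of `d` whose closures have countable intersection. -/
theorem exists_nhds (d : X) : ∃ P : ℕ → Set X, (∀ n, IsOpen (P n)) ∧ (∀ n, d ∈ P n) ∧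
    (⋂ n, closure (P n)).Countable := by
  let 𝒯 : Set (Set X) := {D | IsOpen D ∧ D.Nonempty ∧ ∃ O, IsOpen O ∧ d ∈ O ∧
    Disjoint D (closure O)}
  obtain ⟨𝒟, h𝒟⟩ := zorn_subset {𝒟 : Set (Set X) | 𝒟 ⊆ 𝒯 ∧ ∀ O ∈ 𝒟, ∀ O' ∈ 𝒟,
      (O ∩ O').Nonempty → O = O'} (by
    intro c hc hchain
    refine ⟨⋃₀ c, ⟨sUnion_subset fun s hs => (hc hs).1, ?_⟩, fun s hs => subset_sUnion_of_mem hs⟩
    rintro O ⟨s, hs, hO⟩ O' ⟨s', hs', hO'⟩ hne
    rcases hchain.total hs hs' with h | h
    · exact (hc hs').2 O (h hO) O' hO' hne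
    · exact (hc hs).2 O hO O' (h hO') hne)
  have hcount : 𝒟.Countable := ccc hW hS (fun O hO => (h𝒟.prop.1 hO).1)
    (fun O hO => (h𝒟.prop.1 hO).2.1) h𝒟.prop.2
  have hO : ∀ D ∈ 𝒟, ∃ O, IsOpen O ∧ d ∈ O ∧ Disjoint D (closure O) := fun D hD =>
    (h𝒟.prop.1 hD).2.2
  choose! O hOo hdO hdisj using hO
  obtain ⟨s, hs⟩ : ∃ s : ℕ → Set X, 𝒟 ⊆ range s := by
    rcases 𝒟.eq_empty_or_nonempty with h | h
    · exact ⟨fun _ => ∅, h ▸ empty_subset _⟩
    · obtain ⟨s, hs⟩ := hcount.exists_eq_range h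
      exact ⟨s, hs.le⟩
  classical
  refine ⟨fun n => if s n ∈ 𝒟 then O (s n) else univ, fun n => ?_, fun n => ?_, ?_⟩
  · change IsOpen (if s n ∈ 𝒟 then O (s n) else univ)
    split_ifs with h
    · exact hOo _ h
    · exact isOpen_univ
  · change d ∈ (if s n ∈ 𝒟 then O (s n) else univ)
    split_ifs with h
    · exact hdO _ h
    · exact mem_univ _
  · have h1 : ((⋂ n, closure (if s n ∈ 𝒟 then O (s n) else univ)) \ {d}).Countable := by
      apply nwd_countable hW hS
      intro G hG hsub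
      by_contra hne
      have hGd : (G \ {d}).Nonempty := by
        by_contra hcon
        rw [not_nonempty_iff_eq_empty, sdiff_eq_empty] at hcon
        obtain ⟨y, hy⟩ := nonempty_iff_ne_empty.2 hne
        have hyd : y = d := hcon hy
        subst hyd
        obtain ⟨z, hz, hz2⟩ := mem_closure_iff.1 (hsub hy) G hG hy
        exact hz2.2 (hcon hz)
      obtain ⟨y, hyG, hyd⟩ := hGd
      obtain ⟨A, B, hA, hB, hyA, hdB, hAB⟩ := t2_separation hyd
      have hD : (G ∩ A) ∈ 𝒯 := ⟨hG.inter hA, ⟨y, hyG, hyA⟩, B, hB, hdB,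
        ((hAB.closure_right hA).mono_left inter_subset_right)⟩
      -- `G ∩ A` meets some member of the maximal family
      have hmeet : ∃ D ∈ 𝒟, ((G ∩ A) ∩ D).Nonempty := by
        by_contra hcon
        push Not at hcon
        have hins : insert (G ∩ A) 𝒟 ⊆ 𝒟 := by
          refine h𝒟.le_of_ge ⟨?_, ?_⟩ (subset_insert _ _)
          · exact insert_subset hD h𝒟.prop.1
          · rintro E (rfl | hE) E' (rfl | hE') hne'
            · rfl
            · exact absurd (hcon E' hE') (nonempty_iff_ne_empty.1 hne')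
            · exact absurd (hcon E hE) (nonempty_iff_ne_empty.1 (inter_comm _ _ ▸ hne'))
            · exact h𝒟.prop.2 E hE E' hE' hne'
        have := hcon _ (hins (mem_insert _ _))
        rw [inter_self] at this
        have hne3 : (G ∩ A).Nonempty := ⟨y, hyG, hyA⟩
        exact hne3.ne_empty this
      obtain ⟨D, hD', z, hzGA, hzD⟩ := hmeet
      have hDo : IsOpen D := (h𝒟.prop.1 hD').1
      obtain ⟨w, ⟨hwG, hwD⟩, hw⟩ := mem_closure_iff.1 (hsub hzGA.1) (G ∩ D) (hG.inter hDo)
        ⟨hzGA.1, hzD⟩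
      obtain ⟨n, rfl⟩ := hs hD'
      have hw1 := mem_iInter.1 hw.1 n
      rw [if_pos hD'] at hw1
      exact Set.disjoint_left.1 (hdisj _ hD') hwD hw1
    refine (h1.union (countable_singleton d)).mono ?_
    intro y hy
    by_cases hyd : y = d
    · right
      exact hyd
    · left
      exact ⟨hy, hyd⟩

end Q209.QC
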