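import Mathlib
import Pool.Agent.Q209.QCPos

/-!
For open Whyburn Hausdorff spaces, `S_1(Ω^s, Γ^s)` implies that the space of quasicontinuous
functions is Fréchet-Urysohn: the main argument.
-/

set_option autoImplicit false

namespace Q209.QC

open Set Filter Topology

universe u

variable {X : Type u} [TopologicalSpace X]

/-- The points which are in the closures of two disjoint open sets. -/
def NED (d : X) : Prop :=
  ∃ U V : Set X, IsOpen U ∧ IsOpen V ∧ Disjoint U V ∧ d ∈ closure U ∧ d ∈ closure V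

theorem ned_of_discont {f : X → ℝ} (hf : Quasicont f) {d : X} (hd : ¬ ContinuousAt f d) :
    NED d := by
  have h1 : ∃ ε > 0, ∀ O : Set X, IsOpen O → d ∈ O → ∃ y ∈ O, ε ≤ |f y - f d| := by
    by_contra hcon
    push Not at hcon
    apply hd
    rw [ContinuousAt, Metric.tendsto_nhds]
    intro ε hε
    obtain ⟨O, hO, hdO, h⟩ := hcon ε hε
    filter_upwards [hO.mem_nhds hdO] with y hy
    rw [Real.dist_eq]
    exact h y hy
  obtain ⟨ε, hε, h1⟩ := h1
  have hcabs : Continuous fun t : ℝ => |t - f d| := (continuous_id.sub continuous_const).abs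
  refine ⟨interior {x | |f x - f d| < ε / 2}, interior {x | ε / 2 < |f x - f d|},
    isOpen_interior, isOpen_interior, ?_, ?_, ?_⟩
  · rw [Set.disjoint_left]
    intro x hx hx'
    have h2 : x ∈ {x | |f x - f d| < ε / 2} := interior_subset hx
    have h3 : x ∈ {x | ε / 2 < |f x - f d|} := interior_subset hx'
    exact lt_asymm (a := |f x - f d|) h2 h3
  · rw [mem_closure_iff]
    intro O hO hdO
    obtain ⟨W, hW, ⟨w, hw⟩, hWO, hWf⟩ := hf d O hO hdO {t | |t - f d| < ε / 2}
      (isOpen_lt hcabs continuous_const) (by simpa using half_pos hε)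
    exact ⟨w, hWO hw, mem_interior.2 ⟨W, fun x hx => hWf x hx, hW, hw⟩⟩
  · rw [mem_closure_iff]
    intro O hO hdO
    obtain ⟨y, hyO, hy⟩ := h1 O hO hdO
    obtain ⟨W, hW, ⟨w, hw⟩, hWO, hWf⟩ := hf y O hO hyO {t | ε / 2 < |t - f d|}
      (isOpen_lt continuous_const hcabs) (lt_of_lt_of_le (half_lt_self hε) hy)
    exact ⟨w, hWO hw, mem_interior.2 ⟨W, fun x hx => hWf x hx, hW, hw⟩⟩

omit [TopologicalSpace X] in
/-- Finite initial parts of a countable set. -/
theorem fin_init {E : Set X} {ι : X → ℕ} (hι : InjOn ι E) (n : ℕ) :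
    {e ∈ E | ι e ≤ n}.Finite := by
  refine Set.Finite.of_finite_image (f := ι) ((Set.finite_le_nat n).subset ?_) ?_
  · rintro _ ⟨x, hx, rfl⟩
    exact hx.2
  · exact hι.mono fun x hx => hx.1

variable [T2Space X] (hW : OpenWhyburn X) (hS : S1seq X)

include hW hS

theorem discont_countable {f : X → ℝ} (hf : Quasicont f) :
    {x | ¬ ContinuousAt f x}.Countable := by
  let O : ℕ → Set X := fun n => ⋃₀ {V | IsOpen V ∧ ∀ y ∈ V, ∀ z ∈ V, |f y - f z| < 1 / ((n : ℝ) + 1)}
  have hO : ∀ n, IsOpen (O n) := fun n => isOpen_sUnion fun V hV => hV.1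
  have hnw : ∀ n, ((O n)ᶜ).Countable := by
    intro n
    apply nwd_countable hW hS
    intro G hG hsub
    rw [(hO n).isClosed_compl.closure_eq] at hsub
    by_contra hne
    obtain ⟨x, hx⟩ := nonempty_iff_ne_empty.2 hne
    have hpos : 0 < 1 / ((n : ℝ) + 1) := Nat.one_div_pos_of_nat
    have hcabs : Continuous fun t : ℝ => |t - f x| := (continuous_id.sub continuous_const).abs
    obtain ⟨W, hW', ⟨w, hw⟩, hWG, hWf⟩ := hf x G hG hx {t | |t - f x| < 1 / ((n : ℝ) + 1) / 2}
      (isOpen_lt hcabs continuous_const) (by simpa using half_pos hpos)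
    apply hsub (hWG hw)
    refine ⟨W, ⟨hW', fun y hy z hz => ?_⟩, hw⟩
    have h1 := hWf y hy
    have h2 := hWf z hz
    have h3 : f y - f z = (f y - f x) - (f z - f x) := by ring
    rw [h3]
    calc |(f y - f x) - (f z - f x)| ≤ |f y - f x| + |f z - f x| := abs_sub _ _
      _ < 1 / ((n : ℝ) + 1) / 2 + 1 / ((n : ℝ) + 1) / 2 := add_lt_add h1 h2
      _ = 1 / ((n : ℝ) + 1) := add_halves _
  refine (countable_iUnion hnw).mono fun x hx => ?_
  by_contra hcon
  apply hx
  rw [ContinuousAt, Metric.tendsto_nhds]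
  intro ε hε
  obtain ⟨n, hn⟩ := exists_nat_one_div_lt hε
  have hxn : x ∈ O n := by
    by_contra hxn
    exact hcon (mem_iUnion.2 ⟨n, hxn⟩)
  obtain ⟨V, ⟨hV, hVf⟩, hxV⟩ := hxn
  filter_upwards [hV.mem_nhds hxV] with y hy
  rw [Real.dist_eq]
  exact (hVf y hy x hxV).trans hn

/-- An open set in which a countable set of non-ED points is dense is countable. -/
theorem lemmaL {D W : Set X} (hD : D.Countable) (hned : ∀ d ∈ D, NED d) (hWo : IsOpen W)
    (hWD : W ⊆ closure D) : W.Countable := by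
  obtain ⟨ι, hι⟩ := countable_iff_exists_injOn.1 hD
  have hR : ∀ (n : ℕ) (x : X), ∃ R, RC R ∧ x ∈ R ∧ (∀ d ∈ D, ι d ≤ n → d ∈ R → d = x) ∧
      (x ∈ D → x ∉ interior R) := by
    intro n x
    have hfin := fin_init hι n
    by_cases hxD : x ∈ D
    · obtain ⟨U, V, hU, hV, hdisj, hxU, hxV⟩ := hned x hxD
      have hG : IsOpen (U \ ({e ∈ D | ι e ≤ n} \ {x})) :=
        hU.sdiff (hfin.subset sdiff_subset).isClosed
      have hxG : x ∈ closure (U \ ({e ∈ D | ι e ≤ n} \ {x})) := by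
        rw [mem_closure_iff]
        intro O hO hxO
        obtain ⟨y, hyO, hyU⟩ := mem_closure_iff.1 hxU (O \ ({e ∈ D | ι e ≤ n} \ {x}))
          (hO.sdiff (hfin.subset sdiff_subset).isClosed) ⟨hxO, fun h => h.2 rfl⟩
        exact ⟨y, hyO.1, hyU, hyO.2⟩
      obtain ⟨R, hR, hxR, hsub⟩ := thin hW hG hxG
      refine ⟨R, hR, hxR, fun d hd hdn hdR => ?_, fun _ hxi => ?_⟩
      · rcases hsub hdR with h | h
        · by_contra hne
          exact h.2 ⟨⟨hd, hdn⟩, hne⟩
        · exact h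
      · obtain ⟨y, hyR, hyV⟩ := mem_closure_iff.1 hxV _ isOpen_interior hxi
        rcases hsub (interior_subset hyR) with h | h
        · exact Set.disjoint_left.1 hdisj h.1 hyV
        · rw [mem_singleton_iff] at h
          subst h
          obtain ⟨z, hz, hzU⟩ := mem_closure_iff.1 hxU V hV hyV
          exact Set.disjoint_left.1 hdisj hzU hz
    · have hG : IsOpen ({e ∈ D | ι e ≤ n}ᶜ) := hfin.isClosed.isOpen_compl
      have hxG : x ∈ ({e ∈ D | ι e ≤ n}ᶜ : Set X) := fun h => hxD h.1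
      obtain ⟨R, hR, hxR, hsub⟩ := thin hW hG (subset_closure hxG)
      refine ⟨R, hR, hxR, fun d hd hdn hdR => ?_, fun h => absurd h hxD⟩
      rcases hsub hdR with h | h
      · exact absurd ⟨hd, hdn⟩ h
      · exact h
  choose R hRrc hxR hRd hRi using hR
  obtain ⟨U, hU, hlim⟩ := useS (hS := hS)
    (fun n => {R | RC R ∧ ∀ d ∈ D, ι d ≤ n → d ∉ interior R}) (fun n U hU => hU.1)
    (fun n F hF => ⟨⋃ x ∈ F, R n x, ⟨rc_biUnion hF (R n) fun x _ => hRrc n x, by
      intro d hd hdn hdi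
      have hdF : d ∈ F := by
        obtain ⟨x, hx, hdx⟩ := mem_iUnion₂.1 (interior_subset hdi)
        rw [hRd n x d hd hdn hdx]
        exact hx
      apply hRi n d hd
      rw [mem_interior]
      refine ⟨interior (⋃ x ∈ F, R n x) \ ⋃ x ∈ F \ {d}, R n x, ?_,
        isOpen_interior.sdiff ((hF.subset sdiff_subset).isClosed_biUnion
          fun x _ => (hRrc n x).closed), hdi, ?_⟩
      · rintro y ⟨hy, hy2⟩
        obtain ⟨x, hx, hyx⟩ := mem_iUnion₂.1 (interior_subset hy)
        by_cases hxd : x = d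
        · rw [← hxd]; exact hyx
        · exact absurd (mem_iUnion₂.2 ⟨x, ⟨hx, hxd⟩, hyx⟩) hy2
      · intro h
        obtain ⟨x, hx, hdx⟩ := mem_iUnion₂.1 h
        exact hx.2 (hRd n x d hd hdn hdx).symm⟩, fun x hx => mem_iUnion₂.2 ⟨x, hx, hxR n x⟩⟩)
  have hZcl : ∀ k, IsClosed (⋂ n ≥ k, U n) := fun k =>
    isClosed_biInter fun n _ => (hU n).1.closed
  have hZ : ∀ k, ((⋂ n ≥ k, U n) ∩ W).Countable := by
    intro k
    apply nwd_countable hW hS
    intro G hG hsub
    by_contra hne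
    obtain ⟨x, hx⟩ := nonempty_iff_ne_empty.2 hne
    have hsubZ : G ⊆ ⋂ n ≥ k, U n :=
      hsub.trans (closure_minimal inter_subset_left (hZcl k))
    obtain ⟨y, hyG, hy⟩ := mem_closure_iff.1 (hsub hx) G hG hx
    obtain ⟨d, ⟨hdG, _⟩, hdD⟩ := mem_closure_iff.1 (hWD hy.2) (G ∩ W) (hG.inter hWo) ⟨hyG, hy.2⟩
    have h1 := (hU (max k (ι d))).2 d hdD (le_max_right _ _)
    apply h1
    rw [mem_interior]
    exact ⟨G, fun z hz => mem_iInter₂.1 (hsubZ hz) _ (le_max_left _ _), hG, hdG⟩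
  refine (countable_iUnion hZ).mono fun x hx => ?_
  obtain ⟨k, hk⟩ := eventually_atTop.1 (hlim x)
  exact mem_iUnion.2 ⟨k, mem_iInter₂.2 fun n hn => hk n hn, hx⟩

/-- The small sets around the points of a countable closed set. -/
theorem exists_K {C : Set X} (hC : C.Countable) (hCcl : IsClosed C) :
    ∃ (K : X → ℕ → Set X) (E : Set X), E.Countable ∧ C ⊆ E ∧
      (∀ d ∈ C, ∀ n, RC (K d n) ∧ d ∈ K d n) ∧
      ∀ x ∉ E, ∀ᶠ n in atTop, ∀ d ∈ C, x ∉ K d n := by
  classical
  obtain ⟨ι, hι⟩ := countable_iff_exists_injOn.1 hC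
  -- the sets `B d`
  have hB : ∀ d : X, ∃ B : Set X, d ∈ C \ interior C → IsOpen B ∧ B ⊆ Cᶜ ∧ closure B \ Cᶜ = {d} := by
    intro d
    by_cases hd : d ∈ C \ interior C
    · obtain ⟨B, hB⟩ := hW Cᶜ hCcl.isOpen_compl d ⟨by rw [closure_compl]; exact hd.2,
        fun h => h hd.1⟩
      exact ⟨B, fun _ => hB⟩
    · exact ⟨∅, fun h => absurd h hd⟩
  choose B hB using hB
  have hBcl : ∀ d ∈ C \ interior C, ∀ e ∈ C, e ∈ closure (B d) → e = d := by
    intro d hd e he heB
    have : e ∈ closure (B d) \ Cᶜ := ⟨heB, fun h => h he⟩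
    rw [(hB d hd).2.2] at this
    exact this
  have hdB : ∀ d ∈ C \ interior C, d ∈ closure (B d) := by
    intro d hd
    have : d ∈ closure (B d) \ Cᶜ := by rw [(hB d hd).2.2]; exact rfl
    exact this.1
  -- the disjoint sets `B' d`
  let T : X → Set X := fun d => {j ∈ C \ interior C | ι j < ι d}
  have hT : ∀ d, (T d).Finite := fun d =>
    (fin_init hι (ι d)).subset fun j hj => ⟨hj.1.1, hj.2.le⟩
  let B' : X → Set X := fun d => B d \ ⋃ j ∈ T d, closure (B j)
  have hTcl : ∀ d, IsClosed (⋃ j ∈ T d, closure (B j)) := fun d =>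
    (hT d).isClosed_biUnion fun j _ => isClosed_closure
  have hB'o : ∀ d ∈ C \ interior C, IsOpen (B' d) := fun d hd => (hB d hd).1.sdiff (hTcl d)
  have hdB' : ∀ d ∈ C \ interior C, d ∈ closure (B' d) := by
    intro d hd
    rw [mem_closure_iff]
    intro O hO hdO
    obtain ⟨y, hy, hyB⟩ := mem_closure_iff.1 (hdB d hd) (O \ ⋃ j ∈ T d, closure (B j))
      (hO.sdiff (hTcl d)) ⟨hdO, fun h => by
        obtain ⟨j, hj, hdj⟩ := mem_iUnion₂.1 h
        have := hBcl j hj.1 d hd.1 hdj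
        rw [this] at hj
        exact lt_irrefl _ hj.2⟩
    exact ⟨y, hy.1, hyB, hy.2⟩
  have hB'disj : ∀ d ∈ C \ interior C, ∀ e ∈ C \ interior C, ∀ x, x ∈ B' d → x ∈ B' e → d = e := by
    intro d hd e he x hxd hxe
    by_contra hne
    rcases lt_trichotomy (ι d) (ι e) with h | h | h
    · exact hxe.2 (mem_iUnion₂.2 ⟨d, ⟨hd, h⟩, subset_closure hxd.1⟩)
    · exact hne (hι hd.1 he.1 h)
    · exact hxd.2 (mem_iUnion₂.2 ⟨e, ⟨he, h⟩, subset_closure hxe.1⟩)
  -- neighbourhoods
  choose P hPo hdP hPc using exists_nhds hW hS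
  let Q : X → ℕ → Set X := fun d n => ⋂ i ∈ Finset.range (n + 1), P d i
  have hQo : ∀ d n, IsOpen (Q d n) := fun d n => isOpen_biInter_finset fun i _ => hPo d i
  have hdQ : ∀ d n, d ∈ Q d n := fun d n => mem_iInter₂.2 fun i _ => hdP d i
  have hQP : ∀ d n i, i ≤ n → Q d n ⊆ P d i := fun d n i hi =>
    biInter_subset_of_mem (Finset.mem_range.2 (Nat.lt_succ_of_le hi))
  -- the sets inside the interior
  have hRex : ∀ d : X, ∃ R : Set X, d ∈ interior C → RC R ∧ d ∈ R ∧ R ⊆ C := by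
    intro d
    by_cases hd : d ∈ interior C
    · obtain ⟨R, hR, hdR, hsub⟩ := thin hW isOpen_interior (subset_closure hd)
      refine ⟨R, fun _ => ⟨hR, hdR, fun x hx => ?_⟩⟩
      rcases hsub hx with h | h
      · exact interior_subset h
      · rw [mem_singleton_iff] at h
        rw [h]
        exact interior_subset hd
    · exact ⟨∅, fun h => absurd h hd⟩
  choose R hR using hRex
  let E : Set X := C ∪ (⋃ d ∈ C \ interior C, (closure (B' d) \ B' d)) ∪
    ⋃ d ∈ C \ interior C, ⋂ n, closure (P d n)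
  refine ⟨fun d n => if d ∈ interior C then R d else closure (B' d ∩ Q d n), E, ?_, ?_, ?_, ?_⟩
  · have hC1 : (C \ interior C).Countable := hC.mono sdiff_subset
    refine (hC.union ?_).union ?_
    · exact hC1.biUnion fun d hd => bdry_countable hW hS (hB'o d hd)
    · exact hC1.biUnion fun d hd => hPc d
  · exact subset_union_left.trans subset_union_left
  · intro d hd n
    by_cases hdi : d ∈ interior C
    · simp only [hdi, if_true]
      exact ⟨(hR d hdi).1, (hR d hdi).2.1⟩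
    · simp only [hdi, if_false]
      refine ⟨rc_closure ((hB'o d ⟨hd, hdi⟩).inter (hQo d n)), ?_⟩
      rw [mem_closure_iff]
      intro O hO hdO
      obtain ⟨y, hy, hyB⟩ := mem_closure_iff.1 (hdB' d ⟨hd, hdi⟩) (O ∩ Q d n)
        (hO.inter (hQo d n)) ⟨hdO, hdQ d n⟩
      exact ⟨y, hy.1, hyB, hy.2⟩
  · intro x hx
    have hxC : x ∉ C := fun h => hx (Or.inl (Or.inl h))
    have hxB : ∀ d ∈ C \ interior C, x ∈ closure (B' d) → x ∈ B' d := by
      intro d hd h
      by_contra hcon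
      exact hx (Or.inl (Or.inr (mem_iUnion₂.2 ⟨d, hd, h, hcon⟩)))
    have hxR : ∀ d ∈ interior C, x ∉ R d := fun d hd h => hxC ((hR d hd).2.2 h)
    by_cases hex : ∃ d ∈ C \ interior C, x ∈ B' d
    · obtain ⟨d0, hd0, hxd0⟩ := hex
      have hn : ∃ m, x ∉ closure (P d0 m) := by
        by_contra hcon
        push Not at hcon
        exact hx (Or.inr (mem_iUnion₂.2 ⟨d0, hd0, mem_iInter.2 hcon⟩))
      obtain ⟨m, hm⟩ := hn
      filter_upwards [eventually_ge_atTop m] with n hmn d hd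
      by_cases hdi : d ∈ interior C
      · simp only [hdi, if_true]
        exact hxR d hdi
      · simp only [hdi, if_false]
        intro hcl
        have h1 : x ∈ B' d := hxB d ⟨hd, hdi⟩ (closure_mono inter_subset_left hcl)
        have h2 := hB'disj d ⟨hd, hdi⟩ d0 hd0 x h1 hxd0
        rw [h2] at hcl
        exact hm (closure_mono (inter_subset_right.trans (hQP d0 n m hmn)) hcl)
    · push Not at hex
      refine Eventually.of_forall fun n d hd => ?_
      by_cases hdi : d ∈ interior C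
      · simp only [hdi, if_true]
        exact hxR d hdi
      · simp only [hdi, if_false]
        intro hcl
        exact hex d ⟨hd, hdi⟩ (hxB d ⟨hd, hdi⟩ (closure_mono inter_subset_left hcl))

/-- The main theorem. -/
theorem main_pos_seq (f : Qp X) : FUAt f := by
  intro 𝒜 hA
  rw [mem_closure_Qp] at hA
  -- the set of the points of discontinuity
  let D : Set X := {x | ¬ ContinuousAt f.1 x}
  have hD : D.Countable := discont_countable hW hS f.2
  have hned : ∀ d ∈ D, NED d := fun d hd => ned_of_discont f.2 hd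
  let C : Set X := closure D
  have hC : C.Countable := by
    have h1 : (interior C).Countable :=
      lemmaL hW hS hD hned isOpen_interior interior_subset
    have h2 : (C \ interior C).Countable := closed_bdry_countable hW hS isClosed_closure
    refine (h1.union h2).mono fun x hx => ?_
    by_cases h : x ∈ interior C
    · exact Or.inl h
    · exact Or.inr ⟨hx, h⟩
  obtain ⟨K, E, hE, hCE, hK, hKE⟩ := exists_K hW hS hC isClosed_closure
  obtain ⟨ι, hι⟩ := countable_iff_exists_injOn.1 hE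
  obtain ⟨U, hU, hlim⟩ := useS (hS := hS)
    (fun n => {U | ∃ R : Set X, ∃ F : Set X, F.Finite ∧ F ⊆ C ∧ RC R ∧ U = R ∪ ⋃ d ∈ F, K d n ∧
      ∃ g ∈ 𝒜, (∀ x ∈ R, |g.1 x - f.1 x| < 1 / ((n : ℝ) + 1)) ∧
        ∀ e ∈ E, ι e ≤ n → |g.1 e - f.1 e| < 1 / ((n : ℝ) + 1)}) (by
    rintro n _ ⟨R, F, hF, hFC, hR, rfl, _⟩
    exact hR.union (rc_biUnion hF (fun d => K d n) fun d hd => (hK d (hFC hd) n).1)) (by
    intro n F hF
    have hpos : 0 < 1 / ((n : ℝ) + 1) := Nat.one_div_pos_of_nat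
    have hfin := fin_init hι n
    obtain ⟨g, hg, hgf⟩ := hA (hF.union hfin).toFinset _ hpos
    have hgf' : ∀ x, x ∈ F ∨ x ∈ {e ∈ E | ι e ≤ n} → |g.1 x - f.1 x| < 1 / ((n : ℝ) + 1) := by
      intro x hx
      exact hgf x ((hF.union hfin).mem_toFinset.2 hx)
    let G : Set X := {x | |g.1 x - f.1 x| < 1 / ((n : ℝ) + 1)}
    have hRex : ∀ x : X, ∃ R : Set X, x ∈ F \ C → RC R ∧ x ∈ R ∧ R ⊆ G := by
      intro x
      by_cases hx : x ∈ F \ C
      · have hcont : ContinuousAt f.1 x := by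
          by_contra hcon
          exact hx.2 (subset_closure hcon)
        have hxG : x ∈ G := hgf' x (Or.inl hx.1)
        have hxcl : x ∈ closure (interior G) := by
          rw [mem_closure_iff]
          intro O hO hxO
          -- the room
          obtain ⟨δ, hδ, hδ2⟩ : ∃ δ > 0, |g.1 x - f.1 x| + 2 * δ ≤ 1 / ((n : ℝ) + 1) := by
            refine ⟨(1 / ((n : ℝ) + 1) - |g.1 x - f.1 x|) / 2, by
              have : |g.1 x - f.1 x| < 1 / ((n : ℝ) + 1) := hxG
              linarith, by linarith⟩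
          have hcabs : Continuous fun t : ℝ => |t - g.1 x| :=
            (continuous_id.sub continuous_const).abs
          have h1 : ∀ᶠ y in 𝓝 x, |f.1 y - f.1 x| < δ := by
            have := Metric.tendsto_nhds.1 hcont δ hδ
            simpa [Real.dist_eq] using this
          obtain ⟨O', hO'f, hO', hxO'⟩ := mem_nhds_iff.1 h1
          obtain ⟨W, hWo, ⟨w, hw⟩, hWO, hWg⟩ := g.2 x (O ∩ O') (hO.inter hO') ⟨hxO, hxO'⟩
            {t | |t - g.1 x| < δ} (isOpen_lt hcabs continuous_const) (by simpa using hδ)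
          refine ⟨w, (hWO hw).1, mem_interior.2 ⟨W, fun y hy => ?_, hWo, hw⟩⟩
          change |g.1 y - f.1 y| < 1 / ((n : ℝ) + 1)
          have h2 : |g.1 y - g.1 x| < δ := hWg y hy
          have h3 : |f.1 y - f.1 x| < δ := hO'f (hWO hy).2
          have h4 : g.1 y - f.1 y = (g.1 y - g.1 x) + (g.1 x - f.1 x) - (f.1 y - f.1 x) := by ring
          rw [h4]
          calc |(g.1 y - g.1 x) + (g.1 x - f.1 x) - (f.1 y - f.1 x)|
              ≤ |(g.1 y - g.1 x) + (g.1 x - f.1 x)| + |f.1 y - f.1 x| := abs_sub _ _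
            _ ≤ (|g.1 y - g.1 x| + |g.1 x - f.1 x|) + |f.1 y - f.1 x| := by
                have := abs_add_le (g.1 y - g.1 x) (g.1 x - f.1 x)
                linarith
            _ < 1 / ((n : ℝ) + 1) := by linarith
        obtain ⟨R, hR, hxR, hsub⟩ := thin hW isOpen_interior hxcl
        refine ⟨R, fun _ => ⟨hR, hxR, fun y hy => ?_⟩⟩
        rcases hsub hy with h | h
        · exact interior_subset h
        · rw [mem_singleton_iff] at h
          rw [h]
          exact hxG
      · exact ⟨∅, fun h => absurd h hx⟩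
    choose R hR using hRex
    refine ⟨(⋃ x ∈ F \ C, R x) ∪ ⋃ d ∈ F ∩ C, K d n, ⟨⋃ x ∈ F \ C, R x, F ∩ C,
      hF.subset inter_subset_left, inter_subset_right,
      rc_biUnion (hF.subset sdiff_subset) R fun x hx => (hR x hx).1, rfl, g, hg, ?_, ?_⟩, ?_⟩
    · intro x hx
      obtain ⟨y, hy, hxy⟩ := mem_iUnion₂.1 hx
      exact (hR y hy).2.2 hxy
    · intro e he hen
      exact hgf' e (Or.inr ⟨he, hen⟩)
    · intro x hx
      by_cases hxC : x ∈ C
      · exact Or.inr (mem_iUnion₂.2 ⟨x, ⟨hx, hxC⟩, (hK x hxC n).2⟩)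
      · exact Or.inl (mem_iUnion₂.2 ⟨x, ⟨hx, hxC⟩, (hR x ⟨hx, hxC⟩).2.1⟩))
  choose R F hFf hFC hRrc hUeq g hg hgR hgE using hU
  refine ⟨g, hg, ?_⟩
  rw [tendsto_Qp]
  intro x
  have hev : ∀ᶠ n in atTop, |(g n).1 x - f.1 x| < 1 / ((n : ℝ) + 1) := by
    by_cases hx : x ∈ E
    · filter_upwards [eventually_ge_atTop (ι x)] with n hn
      exact hgE n x hx hn
    · filter_upwards [hlim x, hKE x hx] with n hn hn2
      rw [hUeq n] at hn
      rcases hn with h | h
      · exact hgR n x h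
      · obtain ⟨d, hd, hxd⟩ := mem_iUnion₂.1 h
        exact absurd hxd (hn2 d (hFC n hd))
  rw [Metric.tendsto_atTop]
  intro ε hε
  obtain ⟨m, hm⟩ := exists_nat_one_div_lt hε
  obtain ⟨n0, hn0⟩ := eventually_atTop.1 hev
  refine ⟨max m n0, fun n hn => ?_⟩
  rw [Real.dist_eq]
  refine (hn0 n ((le_max_right _ _).trans hn)).trans (lt_of_le_of_lt ?_ hm)
  exact one_div_le_one_div_of_le (by positivity)
    (by have : (m : ℝ) ≤ n := by exact_mod_cast (le_max_left _ _).trans hn
        linarith)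

end Q209.QC
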