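import Mathlib
import Pool.Agent.Q209.W1
import Pool.Agent.Q209.QCDefs

/-!
Free Suslin trees and a topology on their nodes.
-/

set_option autoImplicit false

namespace Q209.QC

open Set Filter Topology Q209.Om

/-- `T` with the height function `lev` is a normal free Suslin tree. -/
structure IsFreeSuslin (T : Type) [PartialOrder T] (lev : T → W1) : Prop where
  /-- `T` is nonempty -/
  nonempty : Nonempty T
  /-- the height function is strictly increasing -/
  lt_lev : ∀ s t : T, s < t → lev s < lev t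
  /-- a node has predecessors at all smaller heights -/
  down : ∀ t : T, ∀ β < lev t, ∃ s < t, lev s = β
  /-- the predecessors of a node form a chain -/
  linear : ∀ t s s' : T, s ≤ t → s' ≤ t → s ≤ s' ∨ s' ≤ s
  /-- the levels are countable -/
  countable_level : ∀ α, {t | lev t = α}.Countable
  /-- every node has extensions at all larger levels below `ω₁` -/
  normal : ∀ (t : T) (α : W1), lev t ≤ α → ∃ s, t ≤ s ∧ lev s = α
  /-- every node has infinitely many immediate successors -/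
  branching : ∀ t : T, {c | t ⋖ c}.Infinite
  /-- a node without immediate predecessor is determined by its predecessors -/
  limit : ∀ s t : T, (∀ r, ¬ r ⋖ s) → (∀ r, r < s ↔ r < t) → s = t
  /-- for distinct nodes `t 0, …, t (n - 1)` of the same level, the product tree of the cones above
  them has no uncountable antichain -/
  free : ∀ (n : ℕ) (t : Fin n → T), Function.Injective t → (∀ i j, lev (t i) = lev (t j)) →
    ∀ A : Set (Fin n → T), (∀ s ∈ A, t ≤ s ∧ ∀ i j, lev (s i) = lev (s j)) →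
      (∀ s ∈ A, ∀ s' ∈ A, s ≠ s' → ¬ s ≤ s') → A.Countable

/-- The nodes of a tree, with the topology in which a set is open if with every node `t` it
contains the cones above all but finitely many immediate successors of `t`. -/
@[ext] structure Nd (T : Type) : Type where
  /-- the node -/
  v : T

section space

variable {T : Type} [PartialOrder T]

/-- The cone above a node. -/
def cone (t : T) : Set (Nd T) := {x | t ≤ x.v}

theorem cone_mono {s t : T} (h : s ≤ t) : cone t ⊆ cone s := fun _ hx => h.trans hx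

instance : TopologicalSpace (Nd T) where
  IsOpen U := ∀ x ∈ U, {c | x.v ⋖ c ∧ ¬ cone c ⊆ U}.Finite
  isOpen_univ := fun x _ => by simp
  isOpen_inter := by
    intro U V hU hV x hx
    refine ((hU x hx.1).union (hV x hx.2)).subset ?_
    rintro c ⟨hc, hnot⟩
    by_cases h : cone c ⊆ U
    · exact Or.inr ⟨hc, fun h' => hnot (subset_inter h h')⟩
    · exact Or.inl ⟨hc, h⟩
  isOpen_sUnion := by
    rintro S hS x ⟨U, hU, hx⟩
    refine (hS U hU x hx).subset ?_
    rintro c ⟨hc, hnot⟩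
    exact ⟨hc, fun h => hnot (h.trans (subset_sUnion_of_mem hU))⟩

theorem nd_open_iff {U : Set (Nd T)} :
    IsOpen U ↔ ∀ x ∈ U, {c | x.v ⋖ c ∧ ¬ cone c ⊆ U}.Finite := Iff.rfl

theorem cone_open (t : T) : IsOpen (cone t) := by
  rw [nd_open_iff]
  intro x hx
  convert finite_empty
  rw [eq_empty_iff_forall_notMem]
  rintro c ⟨hc, hnot⟩
  exact hnot (cone_mono (le_trans hx hc.le))

variable {lev : T → W1} (hT : IsFreeSuslin T lev)

include hT

theorem child_below {x y : T} (h : x < y) : ∃ c, x ⋖ c ∧ c ≤ y := by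
  obtain ⟨c, hc, hmin⟩ := WellFounded.has_min (InvImage.wf lev (wellFounded_lt (α := W1)))
    {s | x < s ∧ s ≤ y} ⟨y, h, le_rfl⟩
  refine ⟨c, ⟨hc.1, fun r hr hrc => ?_⟩, hc.2⟩
  exact hmin r ⟨hr, hrc.le.trans hc.2⟩ (hT.lt_lev _ _ hrc)

theorem comp_of_inter {s t : T} (h : (cone s ∩ cone t).Nonempty) : s ≤ t ∨ t ≤ s := by
  obtain ⟨x, hx, hx'⟩ := h
  exact hT.linear x.v s t hx hx'

theorem cone_closed (t : T) : IsClosed (cone t) := by
  rw [← isOpen_compl_iff, nd_open_iff]
  intro x hx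
  have hsub : {c | x.v ⋖ c ∧ ¬ cone c ⊆ (cone t)ᶜ} ⊆ {c | x.v ⋖ c ∧ c ≤ t} := by
    rintro c ⟨hc, hnot⟩
    refine ⟨hc, ?_⟩
    have hne : (cone c ∩ cone t).Nonempty := by
      rw [not_subset] at hnot
      obtain ⟨y, hy, hy'⟩ := hnot
      exact ⟨y, hy, not_not.1 hy'⟩
    rcases comp_of_inter hT hne with h | h
    · exact h
    · rcases hT.linear c x.v t hc.le h with h1 | h1
      · rcases h1.eq_or_lt with h2 | h2
        · exact absurd (show t ≤ x.v from h2.ge) hx
        · rcases h.eq_or_lt with h3 | h3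
          · exact h3.ge
          · exact absurd h3 (hc.2 h2)
      · exact absurd h1 hx
  refine Set.Finite.subset ?_ hsub
  apply Set.Subsingleton.finite
  rintro c ⟨hc, hct⟩ c' ⟨hc', hct'⟩
  rcases hT.linear t c c' hct hct' with h | h
  · rcases h.eq_or_lt with h1 | h1
    · exact h1
    · exact absurd h1 (hc'.2 hc.1)
  · rcases h.eq_or_lt with h1 | h1
    · exact h1.symm
    · exact absurd h1 (hc.2 hc'.1)

/-- Distinct immediate successors have disjoint cones. -/
theorem child_disj {x c c' : T} (hc : x ⋖ c) (hc' : x ⋖ c') (h : (cone c ∩ cone c').Nonempty) :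
    c = c' := by
  rcases comp_of_inter hT h with h | h
  · rcases h.eq_or_lt with h1 | h1
    · exact h1
    · exact absurd h1 (hc'.2 hc.1)
  · rcases h.eq_or_lt with h1 | h1
    · exact h1.symm
    · exact absurd h1 (hc.2 hc'.1)

theorem exists_cone {U : Set (Nd T)} (hU : IsOpen U) {x : Nd T} (hx : x ∈ U) :
    ∃ c, x.v ⋖ c ∧ cone c ⊆ U := by
  by_contra hcon
  push Not at hcon
  apply hT.branching x.v
  refine (nd_open_iff.1 hU x hx).subset ?_
  intro c hc
  exact ⟨hc, hcon c hc⟩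

theorem nd_t2 : T2Space (Nd T) := by
  have key : ∀ x y : Nd T, x ≠ y → ∃ U : Set (Nd T), IsClopen U ∧
      ((x ∈ U ∧ y ∉ U) ∨ (y ∈ U ∧ x ∉ U)) := by
    intro x y hxy
    by_cases h : x.v ≤ y.v
    · have hlt : x.v < y.v := lt_of_le_of_ne h fun h' => hxy (Nd.ext h')
      refine ⟨cone y.v, ⟨cone_closed hT _, cone_open _⟩, Or.inr ⟨le_refl y.v, ?_⟩⟩
      exact fun h' => absurd (lt_of_lt_of_le hlt h') (lt_irrefl _)
    · exact ⟨cone x.v, ⟨cone_closed hT _, cone_open _⟩, Or.inl ⟨le_refl x.v, h⟩⟩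
  refine ⟨fun x y hxy => ?_⟩
  obtain ⟨U, hU, h | h⟩ := key x y hxy
  · exact ⟨U, Uᶜ, hU.2, hU.1.isOpen_compl, h.1, h.2, disjoint_compl_right⟩
  · exact ⟨Uᶜ, U, hU.1.isOpen_compl, hU.2, h.2, h.1, disjoint_compl_left⟩

/-- Every open set is a neighbourhood of its points containing a clopen neighbourhood. -/
theorem exists_clopen {U : Set (Nd T)} (hU : IsOpen U) {x : Nd T} (hx : x ∈ U) :
    ∃ V : Set (Nd T), IsClopen V ∧ x ∈ V ∧ V ⊆ U := by
  have hfin := nd_open_iff.1 hU x hx
  refine ⟨cone x.v \ ⋃ c ∈ {c | x.v ⋖ c ∧ ¬ cone c ⊆ U}, cone c, ?_, ?_, ?_⟩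
  · refine IsClopen.diff ⟨cone_closed hT _, cone_open _⟩ ?_
    exact ⟨hfin.isClosed_biUnion fun c _ => cone_closed hT c, isOpen_biUnion fun c _ => cone_open c⟩
  · refine ⟨le_refl x.v, fun h => ?_⟩
    obtain ⟨c, hc, hxc⟩ := mem_iUnion₂.1 h
    exact absurd (lt_of_lt_of_le hc.1.1 hxc) (lt_irrefl _)
  · rintro y ⟨hy, hy2⟩
    rcases (show x.v ≤ y.v from hy).eq_or_lt with h | h
    · have : x = y := Nd.ext h
      rw [← this]; exact hx
    · obtain ⟨c, hc, hcy⟩ := child_below hT h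
      by_cases hcU : cone c ⊆ U
      · exact hcU hcy
      · exact absurd (mem_iUnion₂.2 ⟨c, ⟨hc, hcU⟩, hcy⟩) hy2

theorem nd_whyburn : OpenWhyburn (Nd T) := by
  intro A hA x hx
  have hinf : {c | x.v ⋖ c ∧ (cone c ∩ A).Nonempty}.Infinite := by
    intro hfin
    have hN : IsOpen (cone x.v \ ⋃ c ∈ {c | x.v ⋖ c ∧ (cone c ∩ A).Nonempty}, cone c) :=
      (cone_open _).sdiff (hfin.isClosed_biUnion fun c _ => cone_closed hT c)
    obtain ⟨y, hy, hyA⟩ := mem_closure_iff.1 hx.1 _ hN ⟨le_refl x.v, fun h => by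
      obtain ⟨c, hc, hxc⟩ := mem_iUnion₂.1 h
      exact absurd (lt_of_lt_of_le hc.1.1 hxc) (lt_irrefl _)⟩
    rcases (show x.v ≤ y.v from hy.1).eq_or_lt with h | h
    · have : x = y := Nd.ext h
      rw [← this] at hyA
      exact hx.2 hyA
    · obtain ⟨c, hc, hcy⟩ := child_below hT h
      exact hy.2 (mem_iUnion₂.2 ⟨c, ⟨hc, y, hcy, hyA⟩, hcy⟩)
  let S : Set T := {c | x.v ⋖ c ∧ (cone c ∩ A).Nonempty}
  have hd : ∀ c ∈ S, ∃ d, c ≤ d ∧ cone d ⊆ A := by
    rintro c ⟨_, y, hyc, hyA⟩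
    obtain ⟨d, hd, hdA⟩ := exists_cone hT hA hyA
    exact ⟨d, le_trans hyc hd.le, hdA⟩
  choose! d hcd hdA using hd
  refine ⟨⋃ c ∈ S, cone (d c), isOpen_biUnion fun c _ => cone_open _,
    iUnion₂_subset hdA, ?_⟩
  refine Subset.antisymm ?_ ?_
  · rintro y ⟨hycl, hyA⟩
    by_contra hne
    have hne' : y ≠ x := hne
    have hnotB : y ∉ ⋃ c ∈ S, cone (d c) := fun h => hyA (iUnion₂_subset hdA h)
    by_cases hxy : x.v ≤ y.v
    · have hlt : x.v < y.v := lt_of_le_of_ne hxy fun h => hne' (Nd.ext h.symm)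
      obtain ⟨c, hc, hcy⟩ := child_below hT hlt
      by_cases hcS : c ∈ S
      · -- the neighbourhood `cone c \ cone (d c)`
        obtain ⟨z, hz, hzB⟩ := mem_closure_iff.1 hycl (cone c \ cone (d c))
          ((cone_open c).sdiff (cone_closed hT _)) ⟨hcy, fun h => hnotB (mem_iUnion₂.2 ⟨c, hcS, h⟩)⟩
        obtain ⟨c', hc', hzc'⟩ := mem_iUnion₂.1 hzB
        have : c = c' := child_disj hT hc hc'.1 ⟨z, hz.1, cone_mono (hcd c' hc') hzc'⟩
        subst this
        exact hz.2 hzc'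
      · obtain ⟨z, hz, hzB⟩ := mem_closure_iff.1 hycl (cone c) (cone_open c) hcy
        obtain ⟨c', hc', hzc'⟩ := mem_iUnion₂.1 hzB
        have : c = c' := child_disj hT hc hc'.1 ⟨z, hz, cone_mono (hcd c' hc') hzc'⟩
        subst this
        exact hcS hc'
    · obtain ⟨z, hz, hzB⟩ := mem_closure_iff.1 hycl (cone x.v)ᶜ
        (cone_closed hT _).isOpen_compl hxy
      obtain ⟨c', hc', hzc'⟩ := mem_iUnion₂.1 hzB
      exact hz (le_trans hc'.1.le (le_trans (hcd c' hc') hzc'))
  · rintro y hy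
    rw [mem_singleton_iff] at hy
    subst hy
    refine ⟨?_, hx.2⟩
    rw [mem_closure_iff]
    intro O hO hyO
    have hfin := nd_open_iff.1 hO y hyO
    obtain ⟨c, hcS, hcO⟩ := (hinf.sdiff hfin).nonempty
    have hcO' : cone c ⊆ O := by
      by_contra h
      exact hcO ⟨hcS.1, h⟩
    exact ⟨⟨d c⟩, hcO' (hcd c hcS), mem_iUnion₂.2 ⟨c, hcS, le_refl (d c)⟩⟩

end space

end Q209.QC
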