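import Mathlib
import Pool.Agent.Q209.QCTree

/-!
The space of the nodes of a free Suslin tree has a Fréchet-Urysohn space of quasicontinuous
functions.
-/

set_option autoImplicit false

namespace Q209.QC

open Set Filter Topology Q209.Om

variable {T : Type} [PartialOrder T] {lev : T → W1} (hT : IsFreeSuslin T lev)

include hT

theorem lev_mono {s t : T} (h : s ≤ t) : lev s ≤ lev t := by
  rcases h.eq_or_lt with h | h
  · rw [h]
  · exact (hT.lt_lev _ _ h).le

theorem eq_of_lev {s t : T} (h : s ≤ t) (hl : lev s = lev t) : s = t := by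
  rcases h.eq_or_lt with h1 | h1
  · exact h1
  · exact absurd (hT.lt_lev _ _ h1) (by rw [hl]; exact lt_irrefl _)

theorem le_of_lev {s s' t : T} (h : s ≤ t) (h' : s' ≤ t) (hl : lev s ≤ lev s') : s ≤ s' := by
  rcases hT.linear t s s' h h' with h1 | h1
  · exact h1
  · rcases h1.eq_or_lt with h2 | h2
    · exact h2.ge
    · exact absurd (hT.lt_lev _ _ h2) (not_lt.2 hl)

/-- The restriction of `t` to level `α`. -/
theorem exists_res : ∃ ρ : W1 → T → T, ∀ t α, α ≤ lev t → ρ α t ≤ t ∧ lev (ρ α t) = α := by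
  have : ∀ (α : W1) (t : T), ∃ s, α ≤ lev t → s ≤ t ∧ lev s = α := by
    intro α t
    by_cases h : α ≤ lev t
    · rcases h.eq_or_lt with h1 | h1
      · exact ⟨t, fun _ => ⟨le_rfl, h1.symm⟩⟩
      · obtain ⟨s, hs, hs2⟩ := hT.down t α h1
        exact ⟨s, fun _ => ⟨hs.le, hs2⟩⟩
    · exact ⟨t, fun h' => absurd h' h⟩
  choose ρ hρ using this
  exact ⟨ρ, fun t α => hρ α t⟩

/-- A dense open subset of a product tree contains all tuples of large level. -/
theorem level_of_dense {n : ℕ} (t : Fin n → T) (htinj : Function.Injective t)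
    (htlev : ∀ i j, lev (t i) = lev (t j)) (D : Set (Fin n → T))
    (hup : ∀ s ∈ D, ∀ s', s ≤ s' → s' ∈ D)
    (hdense : ∀ s, t ≤ s → (∀ i j, lev (s i) = lev (s j)) → ∃ d ∈ D, s ≤ d ∧
      ∀ i j, lev (d i) = lev (d j)) :
    ∃ β, ∀ s, t ≤ s → (∀ i j, lev (s i) = lev (s j)) → (∀ i, β ≤ lev (s i)) → s ∈ D := by
  let 𝒜 : Set (Set (Fin n → T)) := {A | (∀ s ∈ A, s ∈ D ∧ t ≤ s ∧ ∀ i j, lev (s i) = lev (s j)) ∧
    ∀ s ∈ A, ∀ s' ∈ A, s ≠ s' → ¬ s ≤ s'}
  obtain ⟨A, hA⟩ := zorn_subset 𝒜 (by
    intro c hc hchain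
    refine ⟨⋃₀ c, ⟨?_, ?_⟩, fun s hs => subset_sUnion_of_mem hs⟩
    · rintro s ⟨B, hB, hs⟩
      exact (hc hB).1 s hs
    · rintro s ⟨B, hB, hs⟩ s' ⟨B', hB', hs'⟩ hne
      rcases hchain.total hB hB' with h | h
      · exact (hc hB').2 s (h hs) s' hs' hne
      · exact (hc hB).2 s hs s' (h hs') hne)
  have hcount : A.Countable := hT.free n t htinj htlev A (fun s hs => (hA.prop.1 s hs).2)
    hA.prop.2
  have : Countable A := hcount
  obtain ⟨β, hβ⟩ := bdd fun q : A × Fin n => lev (q.1.1 q.2)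
  refine ⟨β, fun s hts hslev hsβ => ?_⟩
  obtain ⟨d, hdD, hsd, hdlev⟩ := hdense s hts hslev
  have hcomp : ∃ a ∈ A, a ≤ d ∨ d ≤ a := by
    by_contra hcon
    push Not at hcon
    have hins : insert d A ⊆ A := by
      refine hA.le_of_ge ⟨?_, ?_⟩ (subset_insert _ _)
      · rintro a (rfl | ha)
        · exact ⟨hdD, hts.trans hsd, hdlev⟩
        · exact hA.prop.1 a ha
      · rintro a (rfl | ha) a' (rfl | ha') hne
        · exact absurd rfl hne
        · exact (hcon a' ha').2
        · exact (hcon a ha).1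
        · exact hA.prop.2 a ha a' ha' hne
    exact (hcon d (hins (mem_insert _ _))).1 le_rfl
  obtain ⟨a, ha, had⟩ := hcomp
  have halev : ∀ i, lev (a i) ≤ lev (s i) := fun i => (hβ (⟨a, ha⟩, i)).le.trans (hsβ i)
  have had' : a ≤ d := by
    rcases had with h | h
    · exact h
    · intro i
      have h1 : lev (d i) ≤ lev (a i) := lev_mono hT (h i)
      have h2 : lev (s i) ≤ lev (d i) := lev_mono hT (hsd i)
      have h3 : lev (d i) = lev (a i) := le_antisymm h1 ((halev i).trans h2)
      exact (eq_of_lev hT (h i) h3).ge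
  have has : a ≤ s := fun i => le_of_lev hT (had' i) (hsd i) (halev i)
  exact hup a (hA.prop.1 a ha).1 s has

/-- Cones on which a quasicontinuous function is nearly constant. -/
theorem near_const {f : Nd T → ℝ} (hf : Quasicont f) {ε : ℝ} (hε : 0 < ε) (t : T) :
    ∃ r, t ≤ r ∧ ∀ x ∈ cone r, |f x - f ⟨t⟩| < ε := by
  have hcabs : Continuous fun y : ℝ => |y - f ⟨t⟩| := (continuous_id.sub continuous_const).abs
  obtain ⟨W, hW, ⟨w, hw⟩, hWt, hWf⟩ := hf ⟨t⟩ (cone t) (cone_open t) (le_refl t)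
    {y | |y - f ⟨t⟩| < ε} (isOpen_lt hcabs continuous_const) (by simpa using hε)
  obtain ⟨c, hc, hcW⟩ := exists_cone hT hW hw
  exact ⟨c, le_trans (hWt hw) hc.le, fun x hx => hWf x (hcW hx)⟩

theorem nd_fu (f : Qp (Nd T)) : FUAt f := by
  intro 𝒜 hA
  rw [mem_closure_Qp] at hA
  obtain ⟨ρ, hρ⟩ := exists_res hT
  -- good tuples
  let good : ℕ → Finset (Nd T) → Set (Nd T) → Prop := fun n F S =>
    ∃ g ∈ 𝒜, ∀ x, x ∈ F ∨ x ∈ S → |g.1 x - f.1 x| < 1 / ((n : ℝ) + 1)
  have hdense : ∀ (n k : ℕ) (F : Finset (Nd T)) (s : Fin k → T), ∃ d : Fin k → T, s ≤ d ∧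
      (∀ i j, lev (d i) = lev (d j)) ∧ good n F (⋃ i, cone (d i)) := by
    intro n k F s
    have hpos : 0 < 1 / ((n : ℝ) + 1) / 4 := div_pos Nat.one_div_pos_of_nat (by norm_num)
    choose r hr hrf using fun i => near_const hT f.2 hpos (s i)
    classical
    obtain ⟨g, hg, hgf⟩ := hA (F ∪ Finset.univ.image fun i => (⟨r i⟩ : Nd T)) _ hpos
    choose q hq hqg using fun i => near_const hT g.2 hpos (r i)
    obtain ⟨β, hβ⟩ := bdd fun i => lev (q i)
    choose d hd hdlev using fun i => hT.normal (q i) β (hβ i).le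
    refine ⟨d, fun i => (hr i).trans ((hq i).trans (hd i)), fun i j => by rw [hdlev, hdlev],
      g, hg, ?_⟩
    rintro x (hx | hx)
    · have h1 := hgf x (Finset.mem_union_left _ hx)
      have h2 : (0 : ℝ) < 1 / ((n : ℝ) + 1) := Nat.one_div_pos_of_nat
      linarith
    · obtain ⟨i, hi⟩ := mem_iUnion.1 hx
      have h1 : |g.1 x - g.1 ⟨r i⟩| < 1 / ((n : ℝ) + 1) / 4 := hqg i x (cone_mono (hd i) hi)
      have h2 : |g.1 ⟨r i⟩ - f.1 ⟨r i⟩| < 1 / ((n : ℝ) + 1) / 4 := hgf _
        (Finset.mem_union_right _ (Finset.mem_image_of_mem _ (Finset.mem_univ i)))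
      have h3 : |f.1 ⟨r i⟩ - f.1 ⟨s i⟩| < 1 / ((n : ℝ) + 1) / 4 := hrf i ⟨r i⟩ (le_refl (r i))
      have h4 : |f.1 x - f.1 ⟨s i⟩| < 1 / ((n : ℝ) + 1) / 4 :=
        hrf i x (cone_mono ((hq i).trans (hd i)) hi)
      rw [abs_lt] at h1 h2 h3 h4 ⊢
      constructor <;> linarith [h1.1, h1.2, h2.1, h2.2, h3.1, h3.2, h4.1, h4.2]
  -- the bound
  have hbound : ∀ (n k : ℕ) (F : Finset (Nd T)) (t : Fin k → T), ∃ β : W1,
      Function.Injective t → (∀ i j, lev (t i) = lev (t j)) →
      ∀ s, t ≤ s → (∀ i j, lev (s i) = lev (s j)) → (∀ i, β ≤ lev (s i)) →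
        good n F (⋃ i, cone (s i)) := by
    intro n k F t
    by_cases ht : Function.Injective t ∧ ∀ i j, lev (t i) = lev (t j)
    · obtain ⟨β, hβ⟩ := level_of_dense hT t ht.1 ht.2 {s | good n F (⋃ i, cone (s i))} (by
        rintro s ⟨g, hg, hgs⟩ s' hss'
        refine ⟨g, hg, fun x hx => hgs x ?_⟩
        rcases hx with hx | hx
        · exact Or.inl hx
        · obtain ⟨i, hi⟩ := mem_iUnion.1 hx
          exact Or.inr (mem_iUnion.2 ⟨i, cone_mono (hss' i) hi⟩)) (by
        intro s _ _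
        obtain ⟨d, hd, hdlev, hgood⟩ := hdense n k F s
        exact ⟨d, hgood, hd, hdlev⟩)
      exact ⟨β, fun _ _ => hβ⟩
    · obtain ⟨t0⟩ := hT.nonempty
      exact ⟨lev t0, fun h1 h2 => absurd ⟨h1, h2⟩ ht⟩
  choose β hβ using hbound
  -- closing off
  have hcle : ∀ α : W1, {t : T | lev t ≤ α}.Countable := by
    intro α
    have h1 : {t : T | lev t ≤ α} ⊆ ⋃ γ ∈ Iic α, {t | lev t = γ} := fun t ht =>
      mem_iUnion₂.2 ⟨lev t, ht, rfl⟩
    have h2 : (Iic α).Countable := countable_Iic α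
    exact (h2.biUnion fun γ _ => hT.countable_level γ).mono h1
  have hcle' : ∀ α : W1, Countable {x : Nd T | lev x.v ≤ α} := by
    intro α
    have : Countable {t : T | lev t ≤ α} := hcle α
    refine Function.Injective.countable
      (f := fun x : {x : Nd T | lev x.v ≤ α} => (⟨x.1.v, x.2⟩ : {t : T | lev t ≤ α})) ?_
    intro x y h
    apply Subtype.ext
    apply Nd.ext
    exact Subtype.mk_eq_mk.1 h
  have hH : ∀ α : W1, ∃ η : W1, α < η ∧ ∀ (n k : ℕ) (F : Finset (Nd T)) (t : Fin k → T),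
      (∀ x ∈ F, lev x.v ≤ α) → (∀ i, lev (t i) ≤ α) → β n k F t < η := by
    intro α
    have h1 : Countable {t : T // lev t ≤ α} := hcle α
    have h2 : Countable {x : Nd T // lev x.v ≤ α} := hcle' α
    obtain ⟨η, hη⟩ := bdd (ι := Option (Σ q : ℕ × ℕ, Finset {x : Nd T // lev x.v ≤ α} ×
      (Fin q.2 → {t : T // lev t ≤ α}))) (fun o => match o with
        | none => α
        | some q => β q.1.1 q.1.2 (q.2.1.map (Function.Embedding.subtype _))
            (fun i => (q.2.2 i).1))
    refine ⟨η, hη none, fun n k F t hF ht => ?_⟩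
    classical
    have h3 := hη (some ⟨(n, k), F.subtype (fun x : Nd T => lev x.v ≤ α), fun i => ⟨t i, ht i⟩⟩)
    have h4 : (F.subtype (fun x : Nd T => lev x.v ≤ α)).map (Function.Embedding.subtype _) = F := by
      rw [Finset.subtype_map]
      exact Finset.filter_true_of_mem hF
    simp only [] at h3
    erw [h4] at h3
    exact h3
  choose H hHα hHβ using hH
  obtain ⟨t0⟩ := hT.nonempty
  obtain ⟨δ, ⟨hδ0, hδH⟩, _⟩ := (club_closure H (lev t0)).1 (lev t0)
  -- the level `δ`
  have hlevδ : {t : T | lev t = δ}.Infinite := by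
    intro hfin
    have hext : ∀ c : T, ∃ s, t0 ⋖ c → c ≤ s ∧ lev s = δ := by
      intro c
      by_cases hc : t0 ⋖ c
      · have hlc : lev c ≤ δ := by
          by_contra hcon
          have h1 : H (lev t0) < δ := hδH _ hδ0
          have h2 : H (lev t0) < lev c := h1.trans (not_le.1 hcon)
          obtain ⟨s, hs, hsl⟩ := hT.down c _ h2
          have h3 : t0 < s := by
            refine lt_of_le_of_ne (le_of_lev hT hc.le hs.le (by rw [hsl]; exact (hHα _).le)) ?_
            intro h
            rw [← h] at hsl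
            exact absurd (hHα (lev t0)) (by rw [← hsl]; exact lt_irrefl _)
          exact hc.2 h3 hs
        obtain ⟨s, hs, hsl⟩ := hT.normal c δ hlc
        exact ⟨s, fun _ => ⟨hs, hsl⟩⟩
      · exact ⟨c, fun h => absurd h hc⟩
    choose e he using hext
    have hinj : InjOn e {c | t0 ⋖ c} := by
      intro c hc c' hc' h
      apply child_disj hT hc hc'
      refine ⟨⟨e c⟩, (he c hc).1, ?_⟩
      change c' ≤ e c
      rw [h]
      exact (he c' hc').1
    exact (hT.branching t0) (Set.Finite.of_finite_image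
      (hfin.subset (by rintro _ ⟨c, hc, rfl⟩; exact (he c hc).2)) hinj)
  obtain ⟨b, hbinj, hbrange⟩ : ∃ b : ℕ → T, Function.Injective b ∧ range b = {t : T | lev t = δ} := by
    have h1 : Countable {t : T | lev t = δ} := hT.countable_level δ
    have h2 : Infinite {t : T | lev t = δ} := hlevδ.to_subtype
    obtain ⟨e⟩ := nonempty_equiv_of_countable (α := ℕ) (β := {t : T | lev t = δ})
    refine ⟨fun n => (e n).1, fun m n h => e.injective (Subtype.ext h), ?_⟩
    ext t
    constructor
    · rintro ⟨n, rfl⟩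
      exact (e n).2
    · intro ht
      exact ⟨e.symm ⟨t, ht⟩, by simp⟩
  have hblev : ∀ n, lev (b n) = δ := fun n => by
    have : b n ∈ {t : T | lev t = δ} := hbrange ▸ mem_range_self n
    exact this
  -- distinct nodes of level `δ` differ below
  have hdiff : ∀ i j, ∃ γ < δ, i ≠ j → ∀ α, γ ≤ α → α < δ → ρ α (b i) ≠ ρ α (b j) := by
    intro i j
    by_cases hij : i = j
    · exact ⟨lev t0, hδ0, fun h => absurd hij h⟩
    · have hne : b i ≠ b j := fun h => hij (hbinj h)
      have hnocov : ∀ r, ¬ r ⋖ b i := by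
        intro r hr
        have h1 : lev r < δ := by rw [← hblev i]; exact hT.lt_lev _ _ hr.1
        have h2 : H (lev r) < δ := hδH _ h1
        obtain ⟨s, hs, hsl⟩ := hT.down (b i) (H (lev r)) (by rw [hblev]; exact h2)
        have h3 : r < s := by
          refine lt_of_le_of_ne (le_of_lev hT hr.le hs.le (by rw [hsl]; exact (hHα _).le)) ?_
          intro h
          rw [← h] at hsl
          exact absurd (hHα (lev r)) (by rw [← hsl]; exact lt_irrefl _)
        exact hr.2 h3 hs
      have hex : ∃ r, ¬ (r < b i ↔ r < b j) := by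
        by_contra hcon
        push Not at hcon
        exact hne (hT.limit _ _ hnocov hcon)
      obtain ⟨r, hr⟩ := hex
      have hrδ : lev r < δ := by
        by_cases h : r < b i
        · rw [← hblev i]; exact hT.lt_lev _ _ h
        · have h' : r < b j := by
            by_contra h'
            exact hr ⟨fun h1 => absurd h1 h, fun h1 => absurd h1 h'⟩
          rw [← hblev j]; exact hT.lt_lev _ _ h'
      refine ⟨lev r, hrδ, fun _ α hα hαδ heq => hr ?_⟩
      have hi := hρ (b i) α (by rw [hblev]; exact hαδ.le)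
      have hj := hρ (b j) α (by rw [hblev]; exact hαδ.le)
      constructor
      · intro h
        have h1 : r ≤ ρ α (b i) := le_of_lev hT h.le hi.1 (by rw [hi.2]; exact hα)
        rw [heq] at h1
        refine lt_of_le_of_ne (h1.trans hj.1) ?_
        rintro rfl
        exact absurd hrδ (by rw [hblev]; exact lt_irrefl _)
      · intro h
        have h1 : r ≤ ρ α (b j) := le_of_lev hT h.le hj.1 (by rw [hj.2]; exact hα)
        rw [← heq] at h1
        refine lt_of_le_of_ne (h1.trans hi.1) ?_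
        rintro rfl
        exact absurd hrδ (by rw [hblev]; exact lt_irrefl _)
  choose γ hγδ hγ using hdiff
  -- an enumeration of the lower part
  have hlow : {x : Nd T | lev x.v < δ}.Countable := by
    have : Countable {x : Nd T | lev x.v ≤ δ} := hcle' δ
    exact (Set.countable_coe_iff.1 this).mono fun x hx => (show lev x.v < δ from hx).le
  obtain ⟨ι, hι⟩ := countable_iff_exists_injOn.1 hlow
  have hFfin : ∀ n, {x ∈ {x : Nd T | lev x.v < δ} | ι x ≤ n}.Finite := by
    intro n
    refine Set.Finite.of_finite_image (f := ι) ((Set.finite_le_nat n).subset ?_) ?_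
    · rintro _ ⟨x, hx, rfl⟩
      exact hx.2
    · exact hι.mono fun x hx => hx.1
  have hmaxlt : ∀ (S : Finset W1), (∀ a ∈ S, a < δ) → ∃ α < δ, ∀ a ∈ S, a ≤ α := by
    intro S
    classical
    induction S using Finset.induction_on with
    | empty => exact fun _ => ⟨lev t0, hδ0, by simp⟩
    | insert a S _ ih =>
      intro hS
      obtain ⟨α, hα, hSα⟩ := ih fun b hb => hS b (Finset.mem_insert_of_mem hb)
      refine ⟨max a α, max_lt (hS a (Finset.mem_insert_self a S)) hα, fun b hb => ?_⟩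
      rcases Finset.mem_insert.1 hb with rfl | hb
      · exact le_max_left _ _
      · exact (hSα b hb).trans (le_max_right _ _)
  -- the selection
  have hsel : ∀ n : ℕ, good n (hFfin n).toFinset (⋃ i : Fin (n + 1), cone (b i)) := by
    intro n
    classical
    obtain ⟨α, hαδ, hα⟩ := hmaxlt (((hFfin n).toFinset.image fun x => lev x.v) ∪
      (Finset.univ.image fun q : Fin (n + 1) × Fin (n + 1) => γ q.1 q.2)) (by
        intro a ha
        rcases Finset.mem_union.1 ha with h | h
        · obtain ⟨x, hx, rfl⟩ := Finset.mem_image.1 h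
          exact ((hFfin n).mem_toFinset.1 hx).1
        · obtain ⟨q, _, rfl⟩ := Finset.mem_image.1 h
          exact hγδ _ _)
    have hbρ : ∀ i, ρ α (b i) ≤ b i ∧ lev (ρ α (b i)) = α := fun i =>
      hρ (b i) α (by rw [hblev]; exact hαδ.le)
    let t : Fin (n + 1) → T := fun i => ρ α (b i)
    have htinj : Function.Injective t := by
      intro i j h
      by_contra hne
      have hne' : (i : ℕ) ≠ j := fun h' => hne (Fin.ext h')
      refine hγ i j hne' α (hα _ ?_) hαδ h
      exact Finset.mem_union_right _ (Finset.mem_image_of_mem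
        (fun q : Fin (n + 1) × Fin (n + 1) => γ q.1 q.2) (Finset.mem_univ (i, j)))
    have htlev : ∀ i, lev (t i) = α := fun i => (hbρ i).2
    have hFlev : ∀ x ∈ (hFfin n).toFinset, lev x.v ≤ α := fun x hx =>
      hα _ (Finset.mem_union_left _ (Finset.mem_image_of_mem _ hx))
    have hβδ : β n (n + 1) (hFfin n).toFinset t < δ :=
      (hHβ α n (n + 1) _ t hFlev fun i => (htlev i).le).trans (hδH α hαδ)
    exact hβ n (n + 1) (hFfin n).toFinset t htinj (fun i j => by rw [htlev, htlev])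
      (fun i => b i) (fun i => (hbρ i).1) (fun i j => by rw [hblev, hblev])
      (fun i => by rw [hblev]; exact hβδ.le)
  choose g hg hgf using hsel
  refine ⟨g, hg, ?_⟩
  rw [tendsto_Qp]
  intro x
  have hev : ∀ᶠ n in atTop, |(g n).1 x - f.1 x| < 1 / ((n : ℝ) + 1) := by
    by_cases hx : lev x.v < δ
    · filter_upwards [eventually_ge_atTop (ι x)] with n hn
      exact hgf n x (Or.inl ((hFfin n).mem_toFinset.2 ⟨hx, hn⟩))
    · have h1 := hρ x.v δ (not_lt.1 hx)
      have h2 : ρ δ x.v ∈ range b := by rw [hbrange]; exact h1.2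
      obtain ⟨m, hm⟩ := h2
      filter_upwards [eventually_ge_atTop m] with n hn
      refine hgf n x (Or.inr (mem_iUnion.2 ⟨⟨m, Nat.lt_succ_of_le hn⟩, ?_⟩))
      change b m ≤ x.v
      rw [hm]
      exact h1.1
  rw [Metric.tendsto_atTop]
  intro ε hε
  obtain ⟨m, hm⟩ := exists_nat_one_div_lt hε
  obtain ⟨n0, hn0⟩ := eventually_atTop.1 hev
  refine ⟨max m n0, fun n hn => ?_⟩
  rw [Real.dist_eq]
  refine (hn0 n ((le_max_right _ _).trans hn)).trans (lt_of_le_of_lt ?_ hm)
  exact one_div_le_one_div_of_le (by positivity)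
    (by have : (m : ℝ) ≤ n := by exact_mod_cast (le_max_left _ _).trans hn
        linarith)

theorem nd_uncountable : ¬ Countable (Nd T) := by
  intro h
  obtain ⟨t0⟩ := hT.nonempty
  obtain ⟨β, hβ⟩ := bdd fun x : Nd T => lev x.v
  obtain ⟨s, hs, hsl⟩ := hT.normal t0 β (hβ ⟨t0⟩).le
  have := hβ ⟨s⟩
  rw [hsl] at this
  exact lt_irrefl _ this

end Q209.QC
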