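import Mathlib
import Pool.Agent.Helper669.Forcing

/-!
Random forcing: the positive sets of the product measure on `2^(L × ω)`, ordered by inclusion
modulo null sets.
-/

set_option autoImplicit false

namespace Q209.Rnd

open MeasureTheory ProbabilityTheory Set
open Pool.Agent.Helper669.Forcing

/-- The fair coin. -/
noncomputable def coin : Measure Bool :=
  (2⁻¹ : ENNReal) • Measure.dirac false + (2⁻¹ : ENNReal) • Measure.dirac true

instance : IsProbabilityMeasure coin := ⟨by
  simp only [coin, Measure.add_apply, Measure.smul_apply, measure_univ, smul_eq_mul, mul_one]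
  exact ENNReal.inv_two_add_inv_two⟩

theorem coin_singleton (b : Bool) : coin {b} = 2⁻¹ := by
  cases b <;> simp [coin]

/-- The product measure on `2^(L × ω)`. -/
noncomputable def mu (L : Type) : Measure (L × ℕ → Bool) := Measure.infinitePi fun _ => coin

instance (L : Type) : IsProbabilityMeasure (mu L) := by unfold mu; infer_instance

/-- A condition: a measurable set of positive measure. -/
structure RandomCond (L : Type) where
  s : Set (L × ℕ → Bool)
  meas : MeasurableSet s
  pos : mu L s ≠ 0

/-- `p` is stronger than `q` iff `p` is a subset of `q` modulo a null set. -/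
instance (L : Type) : Preorder (RandomCond L) where
  le p q := mu L (p.s \ q.s) = 0
  le_refl p := by simp
  le_trans p q r h1 h2 := by
    refine measure_mono_null ?_ (measure_union_null h1 h2)
    intro x hx
    by_cases hq : x ∈ q.s
    · exact Or.inr ⟨hq, hx.2⟩
    · exact Or.inl ⟨hx.1, hq⟩

theorem le_def {L : Type} {p q : RandomCond L} : p ≤ q ↔ mu L (p.s \ q.s) = 0 := Iff.rfl

section ccc

variable {L : Type}

/-- The countable chain condition. -/
theorem ccc {ι : Type} (f : ι → RandomCond L) (h : ∀ i j, i ≠ j → ¬ ∃ r, r ≤ f i ∧ r ≤ f j) :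
    Countable ι := by
  have h1 : Set.Countable {i : ι | 0 < mu L (f i).s} := by
    refine Measure.countable_meas_pos_of_disjoint_iUnion₀
      (fun i => (f i).meas.nullMeasurableSet) ?_
    intro i j hij
    by_contra hcon
    refine h i j hij ⟨⟨(f i).s ∩ (f j).s, (f i).meas.inter (f j).meas, hcon⟩, ?_, ?_⟩
    · rw [le_def, sdiff_eq_empty.2 inter_subset_left, measure_empty]
    · rw [le_def, sdiff_eq_empty.2 inter_subset_right, measure_empty]
  have h2 : {i : ι | 0 < mu L (f i).s} = Set.univ := by
    ext i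
    exact ⟨fun _ => trivial, fun _ => pos_iff_ne_zero.2 (f i).pos⟩
  rw [h2] at h1
  exact countable_univ_iff.1 h1

/-- A downward closed family of conditions has a measurable supremum. -/
theorem exists_sup (D : Set (RandomCond L)) (hD : ∀ p ∈ D, ∀ q ≤ p, q ∈ D) :
    ∃ b : Set (L × ℕ → Bool), MeasurableSet b ∧ (∀ r ∈ D, mu L (r.s \ b) = 0) ∧
      ∀ t, MeasurableSet t → mu L (t ∩ b) ≠ 0 → ∃ r ∈ D, r.s ⊆ t ∩ b := by
  classical
  by_cases hne : D = ∅
  · refine ⟨∅, MeasurableSet.empty, by simp [hne], fun t _ h => ?_⟩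
    simp at h
  obtain ⟨d0, hd0⟩ := nonempty_iff_ne_empty.2 hne
  let S : Set ENNReal := {m | ∃ f : ℕ → RandomCond L, (∀ n, f n ∈ D) ∧ m = mu L (⋃ n, (f n).s)}
  have hS : S.Nonempty := ⟨_, fun _ => d0, fun _ => hd0, rfl⟩
  obtain ⟨u, -, hu, hu2⟩ := exists_seq_tendsto_sSup hS (OrderTop.bddAbove S)
  choose f hf hf2 using hu2
  let g : ℕ → RandomCond L := fun n => f n.unpair.1 n.unpair.2
  have hg : ∀ n, g n ∈ D := fun n => hf _ _
  have hgu : (⋃ n, (g n).s) = ⋃ n, ⋃ m, (f n m).s := by
    ext x
    simp only [mem_iUnion]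
    constructor
    · rintro ⟨n, hn⟩
      exact ⟨_, _, hn⟩
    · rintro ⟨n, m, h⟩
      exact ⟨Nat.pair n m, by simpa [g] using h⟩
  have hmb : MeasurableSet (⋃ n, (g n).s) := MeasurableSet.iUnion fun n => (g n).meas
  have hsup : mu L (⋃ n, (g n).s) = sSup S := by
    refine le_antisymm (le_sSup ⟨g, hg, rfl⟩) (le_of_tendsto' hu fun n => ?_)
    rw [hf2 n, hgu]
    exact measure_mono (subset_iUnion (fun n => ⋃ m, (f n m).s) n)
  refine ⟨⋃ n, (g n).s, hmb, fun r hr => ?_, fun t ht hpos => ?_⟩
  · by_contra hcon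
    let g' : ℕ → RandomCond L := fun n => if n = 0 then r else g (n - 1)
    have hg' : ∀ n, g' n ∈ D := by
      intro n
      by_cases hn : n = 0
      · simpa [g', hn] using hr
      · simpa [g', hn] using hg _
    have h1 : r.s ∪ (⋃ n, (g n).s) ⊆ ⋃ n, (g' n).s := by
      rintro x (hx | hx)
      · exact mem_iUnion.2 ⟨0, by simpa [g'] using hx⟩
      · obtain ⟨n, hn⟩ := mem_iUnion.1 hx
        exact mem_iUnion.2 ⟨n + 1, by simpa [g'] using hn⟩
    have h2 : mu L (⋃ n, (g' n).s) ≤ sSup S := le_sSup ⟨g', hg', rfl⟩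
    have h3 : mu L ((r.s \ ⋃ n, (g n).s) ∪ ⋃ n, (g n).s) = mu L (r.s \ ⋃ n, (g n).s) +
        mu L (⋃ n, (g n).s) := measure_union disjoint_sdiff_left hmb
    rw [sdiff_union_self] at h3
    have h4 := (measure_mono h1).trans h2
    rw [h3, ← hsup] at h4
    have h5 : mu L (⋃ n, (g n).s) < mu L (r.s \ ⋃ n, (g n).s) + mu L (⋃ n, (g n).s) := by
      rw [add_comm]
      exact ENNReal.lt_add_right (measure_ne_top _ _) hcon
    exact absurd h4 (not_le.2 h5)
  · have h1 : ∃ n, mu L (t ∩ (g n).s) ≠ 0 := by
      by_contra hcon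
      push Not at hcon
      apply hpos
      rw [inter_iUnion]
      exact measure_iUnion_null hcon
    obtain ⟨n, hn⟩ := h1
    refine ⟨⟨t ∩ (g n).s, ht.inter (g n).meas, hn⟩, hD _ (hg n) _ ?_, ?_⟩
    · rw [le_def, sdiff_eq_empty.2 inter_subset_right, measure_empty]
    · exact inter_subset_inter_right _ (subset_iUnion (fun n => (g n).s) n)

end ccc

section coords

variable {L : Type}

/-- The σ-algebra generated by a set of coordinates. -/
@[instance_reducible] def sig (I : Set (L × ℕ)) : MeasurableSpace (L × ℕ → Bool) :=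
  ⨆ i ∈ I, MeasurableSpace.comap (fun x : L × ℕ → Bool => x i) inferInstance

theorem sig_mono {I J : Set (L × ℕ)} (h : I ⊆ J) : sig I ≤ sig J :=
  biSup_mono h

theorem sig_le (I : Set (L × ℕ)) : sig I ≤ MeasurableSpace.pi :=
  iSup₂_le fun i _ => (measurable_pi_apply i).comap_le

/-- A measurable set only depends on countably many coordinates. -/
theorem exists_support {s : Set (L × ℕ → Bool)} (hs : MeasurableSet s) :
    ∃ C : Set (L × ℕ), C.Countable ∧ MeasurableSet[sig C] s := by
  have h : MeasurableSpace.GenerateMeasurable {s : Set (L × ℕ → Bool) | ∃ i : L × ℕ,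
      MeasurableSet[MeasurableSpace.comap (fun x : L × ℕ → Bool => x i) inferInstance] s} s :=
    MeasurableSpace.measurableSet_iSup.1 hs
  clear hs
  induction h with
  | basic u hu =>
    obtain ⟨i, hi⟩ := hu
    refine ⟨{i}, countable_singleton i, ?_⟩
    have : MeasurableSpace.comap (fun x : L × ℕ → Bool => x i) inferInstance ≤ sig {i} :=
      le_biSup (fun i => MeasurableSpace.comap (fun x : L × ℕ → Bool => x i) inferInstance)
        (mem_singleton i)
    exact this _ hi
  | empty => exact ⟨∅, countable_empty, @MeasurableSet.empty _ (sig ∅)⟩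
  | compl t _ ih =>
    obtain ⟨C, hC, h⟩ := ih
    exact ⟨C, hC, @MeasurableSet.compl _ _ (sig C) h⟩
  | iUnion f _ ih =>
    choose C hC h using ih
    refine ⟨⋃ n, C n, countable_iUnion hC, ?_⟩
    exact @MeasurableSet.iUnion _ _ (sig (⋃ n, C n)) _ _ fun n =>
      sig_mono (subset_iUnion C n) _ (h n)

theorem indep {I J : Set (L × ℕ)} (h : Disjoint I J) : Indep (sig I) (sig J) (mu L) := by
  have h1 : iIndepFun (fun (i : L × ℕ) (x : L × ℕ → Bool) => x i) (mu L) :=
    iIndepFun_infinitePi (X := fun _ b => b) (fun _ => measurable_id)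
  exact indep_iSup_of_disjoint (fun i => (measurable_pi_apply i).comap_le) h1 h

/-- The set of the points with value `i` at all coordinates in a finite set. -/
theorem measure_const (a : L) (F : Finset ℕ) (i : Bool) :
    mu L {x | ∀ n ∈ F, x (a, n) = i} = 2⁻¹ ^ F.card := by
  classical
  have h1 := Measure.infinitePi_pi (μ := fun _ : L × ℕ => coin)
    (s := F.map ⟨fun n => (a, n), fun n m h => (Prod.mk.inj h).2⟩) (t := fun _ => {i})
    (fun _ _ => measurableSet_singleton i)
  have h2 : (Set.pi ((F.map ⟨fun n => (a, n), fun n m h => (Prod.mk.inj h).2⟩ : Finset (L × ℕ)) :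
      Set (L × ℕ)) fun _ => ({i} : Set Bool)) = {x | ∀ n ∈ F, x (a, n) = i} := by
    ext x
    simp only [Set.mem_pi, Finset.mem_coe, Finset.mem_map, forall_exists_index, and_imp,
      forall_apply_eq_imp_iff₂, mem_singleton_iff, mem_ofPred_eq]
    rfl
  rw [h2] at h1
  rw [mu, h1]
  simp [coin_singleton]

/-- Given events `b n` which do not depend on the coordinates `(a, m)`, almost surely the values
`x (a, n)` for the `n` with `x ∈ b n` are not all equal to `i` if there are infinitely many. -/
theorem null_const (a : L) (i : Bool) {b : ℕ → Set (L × ℕ → Bool)}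
    (hb : ∀ n, MeasurableSet[sig {j | j.1 ≠ a}] (b n)) :
    mu L {x | (∀ m, ∃ n ≥ m, x ∈ b n) ∧ ∀ n, x ∈ b n → x (a, n) = i} = 0 := by
  classical
  have hb' : ∀ n, MeasurableSet (b n) := fun n => sig_le _ _ (hb n)
  let cnt : ℕ → (L × ℕ → Bool) → Finset ℕ := fun M x => (Finset.range M).filter fun n => x ∈ b n
  let E : ℕ → Finset ℕ → Set (L × ℕ → Bool) := fun M F => {x | cnt M x = F}
  have hE : ∀ M F, MeasurableSet[sig {j | j.1 ≠ a}] (E M F) := by
    intro M F
    by_cases hF : F ⊆ Finset.range M
    · have : E M F = ⋂ n ∈ Finset.range M, if n ∈ F then b n else (b n)ᶜ := by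
        ext x
        simp only [E, cnt, mem_ofPred_eq, mem_iInter]
        constructor
        · rintro rfl n hn
          by_cases hx : x ∈ b n
          · have h1 : n ∈ (Finset.range M).filter fun n => x ∈ b n :=
              Finset.mem_filter.2 ⟨hn, hx⟩
            rw [if_pos h1]
            exact hx
          · have h1 : n ∉ (Finset.range M).filter fun n => x ∈ b n :=
              fun h => hx (Finset.mem_filter.1 h).2
            rw [if_neg h1]
            exact hx
        · intro h
          ext n
          constructor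
          · intro hn
            obtain ⟨hn1, hn2⟩ := Finset.mem_filter.1 hn
            by_contra hcon
            have := h n hn1
            rw [if_neg hcon] at this
            exact this hn2
          · intro hn
            have := h n (hF hn)
            rw [if_pos hn] at this
            exact Finset.mem_filter.2 ⟨hF hn, this⟩
      rw [this]
      refine Finset.measurableSet_biInter (m := sig {j | j.1 ≠ a}) _ fun n _ => ?_
      split_ifs
      · exact hb n
      · exact @MeasurableSet.compl _ _ (sig {j | j.1 ≠ a}) (hb n)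
    · have : E M F = ∅ := by
        ext x
        simp only [E, cnt, mem_ofPred_eq, mem_empty_iff_false, iff_false]
        rintro rfl
        exact hF (Finset.filter_subset _ _)
      rw [this]
      exact @MeasurableSet.empty _ (sig {j | j.1 ≠ a})
  have hG : ∀ F : Finset ℕ, MeasurableSet[sig {j | j.1 = a}] {x | ∀ n ∈ F, x (a, n) = i} := by
    intro F
    have : {x : L × ℕ → Bool | ∀ n ∈ F, x (a, n) = i} =
        ⋂ n ∈ F, (fun x : L × ℕ → Bool => x (a, n)) ⁻¹' {i} := by
      ext x
      simp
    rw [this]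
    refine Finset.measurableSet_biInter (m := sig {j | j.1 = a}) _ fun n _ => ?_
    have h1 : MeasurableSpace.comap (fun x : L × ℕ → Bool => x (a, n)) inferInstance ≤
        sig {j : L × ℕ | j.1 = a} :=
      le_biSup (fun i => MeasurableSpace.comap (fun x : L × ℕ → Bool => x i) inferInstance)
        (show (a, n) ∈ {j : L × ℕ | j.1 = a} from rfl)
    exact h1 _ ⟨{i}, measurableSet_singleton i, rfl⟩
  have hind : Indep (sig {j : L × ℕ | j.1 ≠ a}) (sig {j : L × ℕ | j.1 = a}) (mu L) := by
    apply indep
    rw [Set.disjoint_left]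
    intro j h1 h2
    exact h1 h2
  let N : ℕ → ℕ → Set (L × ℕ → Bool) := fun k M =>
    {x | k ≤ (cnt M x).card ∧ ∀ n, x ∈ b n → x (a, n) = i}
  have hN : ∀ k M, mu L (N k M) ≤ 2⁻¹ ^ k := by
    intro k M
    have h1 : N k M ⊆ ⋃ F ∈ (Finset.range M).powerset.filter fun F => k ≤ F.card,
        E M F ∩ {x | ∀ n ∈ F, x (a, n) = i} := by
      intro x hx
      simp only [mem_iUnion]
      refine ⟨cnt M x, Finset.mem_filter.2 ⟨Finset.mem_powerset.2 (Finset.filter_subset _ _),
        hx.1⟩, rfl, fun n hn => hx.2 n (Finset.mem_filter.1 hn).2⟩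
    calc mu L (N k M) ≤ ∑ F ∈ (Finset.range M).powerset.filter fun F => k ≤ F.card,
          mu L (E M F ∩ {x | ∀ n ∈ F, x (a, n) = i}) :=
        (measure_mono h1).trans (measure_biUnion_finset_le _ _)
      _ ≤ ∑ F ∈ (Finset.range M).powerset.filter fun F => k ≤ F.card,
          mu L (E M F) * 2⁻¹ ^ k := by
        refine Finset.sum_le_sum fun F hF => ?_
        rw [(Indep_iff _ _ _).1 hind _ _ (hE M F) (hG F), measure_const]
        exact mul_le_mul_right (pow_le_pow_right_of_le_one'
          (ENNReal.inv_le_one.2 one_le_two) (Finset.mem_filter.1 hF).2) _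
      _ = (∑ F ∈ (Finset.range M).powerset.filter fun F => k ≤ F.card, mu L (E M F)) *
          2⁻¹ ^ k := by rw [Finset.sum_mul]
      _ ≤ 1 * 2⁻¹ ^ k := by
        gcongr
        rw [← measure_biUnion_finset]
        · exact prob_le_one
        · intro F _ G _ hFG
          rw [Function.onFun, Set.disjoint_left]
          intro x hx hx'
          exact hFG (hx.symm.trans hx')
        · intro F _
          exact sig_le _ _ (hE M F)
      _ = 2⁻¹ ^ k := one_mul _
  have hsub : ∀ k, {x | (∀ m, ∃ n ≥ m, x ∈ b n) ∧ ∀ n, x ∈ b n → x (a, n) = i} ⊆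
      ⋃ M, N k M := by
    intro k x hx
    have hinf : {n | x ∈ b n}.Infinite := by
      rw [Set.infinite_iff_exists_gt]
      intro m
      obtain ⟨n, hn, h⟩ := hx.1 (m + 1)
      exact ⟨n, h, by omega⟩
    obtain ⟨F, hF, hFk⟩ := hinf.exists_subset_card_eq k
    refine mem_iUnion.2 ⟨F.sup id + 1, ?_, hx.2⟩
    rw [← hFk]
    apply Finset.card_le_card
    intro n hn
    refine Finset.mem_filter.2 ⟨Finset.mem_range.2 ?_, hF hn⟩
    exact Nat.lt_succ_of_le (Finset.le_sup (f := id) hn)
  have hmono : ∀ k, Monotone (N k) := by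
    intro k M M' hM x hx
    refine ⟨hx.1.trans (Finset.card_le_card ?_), hx.2⟩
    exact Finset.filter_subset_filter _ (Finset.range_mono hM)
  have hle : ∀ k : ℕ, mu L {x | (∀ m, ∃ n ≥ m, x ∈ b n) ∧ ∀ n, x ∈ b n → x (a, n) = i} ≤
      2⁻¹ ^ k := by
    intro k
    refine (measure_mono (hsub k)).trans ?_
    rw [(hmono k).measure_iUnion]
    exact iSup_le (hN k)
  by_contra hcon
  have h1 : Filter.Tendsto (fun k : ℕ => (2⁻¹ : ENNReal) ^ k) Filter.atTop (nhds 0) :=
    ENNReal.tendsto_pow_atTop_nhds_zero_of_lt_one (ENNReal.inv_lt_one.2 ENNReal.one_lt_two)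
  exact hcon (le_antisymm (ge_of_tendsto' h1 hle) zero_le)

end coords

end Q209.Rnd
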