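import Mathlib

/-!
Strict quasi-Lindelöf spaces and the piecewise weak Lindelöf degree for closed sets.
-/

set_option autoImplicit false

namespace Q209.SQL

open Cardinal Set

universe u

/-- `X` is strict quasi-Lindelöf: for every closed set `F` and all families `W 0, W 1, …` of open
sets whose union covers `F` there are countable subfamilies `V n` of `W n` such that `F` is covered
by the closures of the sets `⋃₀ V n`. -/
def StrictQuasiLindelof (X : Type u) [TopologicalSpace X] : Prop :=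
  ∀ F : Set X, IsClosed F → ∀ W : ℕ → Set (Set X), (∀ n, ∀ U ∈ W n, IsOpen U) →
    (F ⊆ ⋃₀ ⋃ n, W n) →
    ∃ V : ℕ → Set (Set X), (∀ n, V n ⊆ W n ∧ (V n).Countable) ∧ F ⊆ ⋃ n, closure (⋃₀ V n)

/-- The property defining `pwL_c(X) ≤ κ`: for every closed set `F` and every indexed family `W i`
of families of open sets whose union covers `F` there are subfamilies `V i` of `W i` of
cardinality at most `κ` such that `F` is covered by the closures of the sets `⋃₀ V i`. -/
def PWLc (X : Type u) [TopologicalSpace X] (κ : Cardinal.{u}) : Prop :=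
  ∀ F : Set X, IsClosed F → ∀ (I : Type u) (W : I → Set (Set X)), (∀ i, ∀ U ∈ W i, IsOpen U) →
    (F ⊆ ⋃₀ ⋃ i, W i) →
    ∃ V : I → Set (Set X), (∀ i, V i ⊆ W i ∧ #(V i) ≤ κ) ∧ F ⊆ ⋃ i, closure (⋃₀ V i)

/-- The piecewise weak Lindelöf degree for closed sets `pwL_c(X)`. -/
noncomputable def pwLc (X : Type u) [TopologicalSpace X] : Cardinal.{u} :=
  sInf {κ | PWLc X κ}

theorem pwLc_nonempty (X : Type u) [TopologicalSpace X] : {κ | PWLc X κ}.Nonempty := by
  refine ⟨#(Set X), ?_⟩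
  intro F _ I W _ hF
  refine ⟨W, fun i => ⟨le_rfl, mk_set_le _⟩, ?_⟩
  intro x hx
  obtain ⟨U, hU, hxU⟩ := hF hx
  obtain ⟨i, hi⟩ := mem_iUnion.1 hU
  exact mem_iUnion.2 ⟨i, subset_closure ⟨U, hi, hxU⟩⟩

theorem PWLc.mono {X : Type u} [TopologicalSpace X] {κ μ : Cardinal.{u}} (h : κ ≤ μ)
    (hκ : PWLc X κ) : PWLc X μ := by
  intro F hF I W hW hc
  obtain ⟨V, hV, hV2⟩ := hκ F hF I W hW hc
  exact ⟨V, fun i => ⟨(hV i).1, (hV i).2.trans h⟩, hV2⟩

theorem lt_pwLc_iff {X : Type u} [TopologicalSpace X] {κ : Cardinal.{u}} :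
    κ < pwLc X ↔ ¬ PWLc X κ := by
  constructor
  · intro h hκ
    exact absurd h (not_lt.2 (csInf_le' hκ))
  · intro h
    by_contra hlt
    exact h (PWLc.mono (not_lt.1 hlt) (csInf_mem (pwLc_nonempty X)))

end Q209.SQL
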