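import Mathlib
import Pool.Agent.Q209.W1
import Pool.Agent.Q209.SQLDefs

/-!
A strict quasi-Lindelöf space with uncountable piecewise weak Lindelöf degree for closed sets.
-/

set_option autoImplicit false

namespace Q209.SQL

open Cardinal Set Q209.Om

/-- The countable set of the second coordinates of the isolated points. -/
abbrev N : Type := ℕ × Finset ℕ

theorem exists_traces : ∃ T : W1 → Set N,
    (∀ (E : Finset W1) (j : W1), j ∉ E → ∃ k ∈ T j, ∀ e ∈ E, k ∉ T e) ∧ ∀ k, ∃ i, k ∈ T i := by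
  have hcard : #W1 ≤ #(ℕ → Bool) := by
    rw [mk_ord_toType]
    have : #(ℕ → Bool) = 𝔠 := by simp
    rw [this]
    exact aleph_one_le_continuum
  obtain ⟨x⟩ : Nonempty (W1 ↪ (ℕ → Bool)) := le_def _ _ |>.1 hcard
  let r : (ℕ → Bool) → ℕ → N := fun y n => (n, (Finset.range n).filter fun m => y m = true)
  have hr : ∀ y z n m, r y n = r z m → n = m ∧ ∀ l < n, y l = z l := by
    intro y z n m h
    have h1 : n = m := congrArg Prod.fst h
    subst h1
    refine ⟨rfl, fun l hl => ?_⟩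
    have h2 : ((Finset.range n).filter fun m => y m = true) =
      (Finset.range n).filter fun m => z m = true := congrArg Prod.snd h
    have h3 := Finset.ext_iff.1 h2 l
    simp only [Finset.mem_filter, Finset.mem_range, hl, true_and] at h3
    cases hy : y l <;> cases hz : z l <;> simp_all
  let T0 : W1 → Set N := fun i => range (r (x i))
  let K : Set N := (⋃ i, T0 i)ᶜ
  refine ⟨fun i => T0 i ∪ K, ?_, ?_⟩
  · intro E j hj
    have hne : ∀ e ∈ E, ∃ n, x e n ≠ x j n := by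
      intro e he
      by_contra h
      push Not at h
      exact hj (x.injective (funext h) ▸ he)
    choose! n hn using hne
    let m := E.sup n + 1
    refine ⟨r (x j) m, Or.inl ⟨m, rfl⟩, fun e he => ?_⟩
    rintro (⟨l, hl⟩ | hK)
    · obtain ⟨h1, h2⟩ := hr _ _ _ _ hl
      exact hn e he (h2 (n e) (by rw [h1]; exact Nat.lt_succ_of_le (Finset.le_sup he)))
    · exact hK (mem_iUnion.2 ⟨j, m, rfl⟩)
  · intro k
    obtain ⟨i0⟩ : Nonempty W1 := by
      rw [← mk_ne_zero_iff, mk_ord_toType]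
      exact (aleph_pos 1).ne'
    by_cases h : k ∈ ⋃ i, T0 i
    · obtain ⟨i, hi⟩ := mem_iUnion.1 h
      exact ⟨i, Or.inl hi⟩
    · exact ⟨i0, Or.inr h⟩

/-- The traces. -/
noncomputable def T : W1 → Set N := exists_traces.choose

theorem T_spec (E : Finset W1) (j : W1) (hj : j ∉ E) : ∃ k ∈ T j, ∀ e ∈ E, k ∉ T e :=
  exists_traces.choose_spec.1 E j hj

theorem T_cov (k : N) : ∃ i, k ∈ T i := exists_traces.choose_spec.2 k

/-- The non-isolated points: the points `z d` and the points `y x i` of type `i`. -/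
inductive S : Type
  | z (d : W1) : S
  | y (x i : W1) : S

/-- The space: the points of `S` and the isolated points `(s, k)`. -/
inductive X : Type
  | pt (s : S) : X
  | iso (s : S) (k : N) : X

open S X

/-- The open sets. -/
def IsOp (U : Set X) : Prop :=
  (∀ s : S, pt s ∈ U → ∃ E : Finset W1, ∀ k, iso s k ∉ U →
    ∃ e ∈ E, k ∈ T e) ∧
  ∀ x i : W1, pt (y x i) ∈ U →
    {h : W1 | h < x ∧ pt (y h i) ∉ U}.Finite ∧
    {d : W1 | i < d ∧ d < x ∧ pt (z d) ∉ U}.Finite ∧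
    {s : S | ∃ k ∈ T i, iso s k ∉ U}.Countable

instance : TopologicalSpace X where
  IsOpen := IsOp
  isOpen_univ := by
    refine ⟨fun s _ => ⟨∅, fun k hk => absurd (mem_univ _) hk⟩, fun x i _ => ⟨?_, ?_, ?_⟩⟩
    · exact finite_empty.subset fun h hh => hh.2 (mem_univ _)
    · exact finite_empty.subset fun h hh => hh.2.2 (mem_univ _)
    · exact countable_empty.mono fun s ⟨k, _, hk⟩ => hk (mem_univ _)
  isOpen_inter := by
    intro U V hU hV
    refine ⟨fun s hs => ?_, fun x i hx => ?_⟩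
    · obtain ⟨E, hE⟩ := hU.1 s hs.1
      obtain ⟨E', hE'⟩ := hV.1 s hs.2
      classical
      refine ⟨E ∪ E', fun k hk => ?_⟩
      by_cases h : iso s k ∈ U
      · obtain ⟨e, he, hke⟩ := hE' k fun h' => hk ⟨h, h'⟩
        exact ⟨e, Finset.mem_union_right _ he, hke⟩
      · obtain ⟨e, he, hke⟩ := hE k h
        exact ⟨e, Finset.mem_union_left _ he, hke⟩
    · obtain ⟨h1, h2, h3⟩ := hU.2 x i hx.1
      obtain ⟨h1', h2', h3'⟩ := hV.2 x i hx.2
      refine ⟨(h1.union h1').subset ?_, (h2.union h2').subset ?_, (h3.union h3').mono ?_⟩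
      · rintro h ⟨hh, hn⟩
        by_cases hc : pt (y h i) ∈ U
        · exact Or.inr ⟨hh, fun h' => hn ⟨hc, h'⟩⟩
        · exact Or.inl ⟨hh, hc⟩
      · rintro d ⟨hd, hd2, hn⟩
        by_cases hc : pt (z d) ∈ U
        · exact Or.inr ⟨hd, hd2, fun h' => hn ⟨hc, h'⟩⟩
        · exact Or.inl ⟨hd, hd2, hc⟩
      · rintro s ⟨k, hk, hn⟩
        by_cases hc : iso s k ∈ U
        · exact Or.inr ⟨k, hk, fun h' => hn ⟨hc, h'⟩⟩
        · exact Or.inl ⟨k, hk, hc⟩
  isOpen_sUnion := by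
    intro 𝒰 h
    refine ⟨?_, ?_⟩
    · rintro s ⟨U, hU, hs⟩
      obtain ⟨E, hE⟩ := (h U hU).1 s hs
      exact ⟨E, fun k hk => hE k fun h' => hk ⟨U, hU, h'⟩⟩
    · rintro x i ⟨U, hU, hx⟩
      obtain ⟨h1, h2, h3⟩ := (h U hU).2 x i hx
      refine ⟨h1.subset ?_, h2.subset ?_, h3.mono ?_⟩
      · rintro a ⟨ha, hn⟩
        exact ⟨ha, fun h' => hn ⟨U, hU, h'⟩⟩
      · rintro d ⟨hd, hd2, hn⟩
        exact ⟨hd, hd2, fun h' => hn ⟨U, hU, h'⟩⟩
      · rintro s ⟨k, hk, hn⟩
        exact ⟨k, hk, fun h' => hn ⟨U, hU, h'⟩⟩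

theorem isOpen_iff {U : Set X} : IsOpen U ↔ IsOp U := Iff.rfl

theorem eq_of_notMem {p q : X} (h : p ∉ ({q} : Set X)ᶜ) : p = q := not_not.1 h

instance : T1Space X := by
  refine ⟨fun p => ?_⟩
  rw [← isOpen_compl_iff, isOpen_iff]
  rcases p with s0 | ⟨s0, k0⟩
  · refine ⟨fun s _ => ⟨∅, fun k hk => ?_⟩, fun x i _ => ⟨?_, ?_, ?_⟩⟩
    · have := eq_of_notMem hk
      simp at this
    · rcases s0 with d0 | ⟨x0, i0⟩
      · refine finite_empty.subset ?_
        rintro h ⟨_, hn⟩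
        have := eq_of_notMem hn
        simp at this
      · refine (finite_singleton x0).subset ?_
        rintro h ⟨_, hn⟩
        have := eq_of_notMem hn
        simp only [X.pt.injEq, S.y.injEq] at this
        exact this.1
    · rcases s0 with d0 | ⟨x0, i0⟩
      · refine (finite_singleton d0).subset ?_
        rintro h ⟨_, _, hn⟩
        have := eq_of_notMem hn
        simp only [X.pt.injEq, S.z.injEq] at this
        exact this
      · refine finite_empty.subset ?_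
        rintro h ⟨_, _, hn⟩
        have := eq_of_notMem hn
        simp at this
    · refine countable_empty.mono ?_
      rintro s ⟨k, _, hn⟩
      have := eq_of_notMem hn
      simp at this
  · refine ⟨fun s _ => ?_, fun x i _ => ⟨?_, ?_, ?_⟩⟩
    · obtain ⟨i, hi⟩ := T_cov k0
      refine ⟨{i}, fun k hk => ⟨i, Finset.mem_singleton_self i, ?_⟩⟩
      have := eq_of_notMem hk
      simp only [X.iso.injEq] at this
      rw [this.2]
      exact hi
    · refine finite_empty.subset ?_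
      rintro h ⟨_, hn⟩
      have := eq_of_notMem hn
      simp at this
    · refine finite_empty.subset ?_
      rintro h ⟨_, _, hn⟩
      have := eq_of_notMem hn
      simp at this
    · refine (countable_singleton s0).mono ?_
      rintro s ⟨k, _, hn⟩
      have := eq_of_notMem hn
      simp only [X.iso.injEq] at this
      exact this.1

/-! ### Two facts on `ω₁` -/

theorem bdd_countable {C : Set W1} (hC : C.Countable) : ∃ b, ∀ a ∈ C, a < b := by
  have := hC.to_subtype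
  obtain ⟨b, hb⟩ := bdd fun c : C => c.1
  exact ⟨b, fun a ha => hb ⟨a, ha⟩⟩

theorem countable_of_bdd {C : Set W1} {b : W1} (h : ∀ a ∈ C, a < b) : C.Countable :=
  (Set.countable_coe_iff.1 (countable_Iio b)).mono h

theorem exists_infinite_below {H : Set W1} (hH : H.Infinite) : ∃ b, (H ∩ Iio b).Infinite := by
  let f := hH.natEmbedding
  obtain ⟨b, hb⟩ := bdd fun n : ℕ => (f n : W1)
  refine ⟨b, (infinite_range_of_injective (f := fun n : ℕ => (f n : W1)) ?_).mono ?_⟩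
  · intro m n h
    exact f.injective (Subtype.ext h)
  · rintro _ ⟨n, rfl⟩
    exact ⟨(f n).2, hb n⟩

/-! ### The space is strict quasi-Lindelöf -/

section cover

variable {F : Set X} {W : ℕ → Set (Set X)}

/-- `A` can be covered by closures of countable subfamilies. -/
def Cov (W : ℕ → Set (Set X)) (A : Set X) : Prop :=
  ∃ V : ℕ → Set (Set X), (∀ n, V n ⊆ W n ∧ (V n).Countable) ∧ A ⊆ ⋃ n, closure (⋃₀ V n)

theorem Cov.mono {A B : Set X} (h : A ⊆ B) (hB : Cov W B) : Cov W A := by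
  obtain ⟨V, hV, hV2⟩ := hB
  exact ⟨V, hV, h.trans hV2⟩

theorem Cov.iUnion {ι : Type} [Countable ι] {A : ι → Set X} (h : ∀ i, Cov W (A i)) :
    Cov W (⋃ i, A i) := by
  choose V hV hV2 using h
  refine ⟨fun n => ⋃ i, V i n, fun n => ⟨iUnion_subset fun i => (hV i n).1,
    countable_iUnion fun i => (hV i n).2⟩, ?_⟩
  refine iUnion_subset fun i x hx => ?_
  obtain ⟨n, hn⟩ := mem_iUnion.1 (hV2 i hx)
  exact mem_iUnion.2 ⟨n, closure_mono (sUnion_subset_sUnion (subset_iUnion (fun i => V i n) i)) hn⟩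

theorem Cov.union {A B : Set X} (hA : Cov W A) (hB : Cov W B) : Cov W (A ∪ B) := by
  rw [union_eq_iUnion]
  exact Cov.iUnion fun b => by cases b <;> assumption

/-- Sets contained in the closure of the union of a countable subfamily of one family. -/
theorem Cov.of_one {A : Set X} {n : ℕ} {V : Set (Set X)} (hV : V ⊆ W n) (hc : V.Countable)
    (hA : A ⊆ closure (⋃₀ V)) : Cov W A := by
  classical
  refine ⟨fun m => if m = n then V else ∅, fun m => ?_, fun x hx => ?_⟩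
  · by_cases h : m = n
    · subst h; simp [hV, hc]
    · simp [h]
  · exact mem_iUnion.2 ⟨n, by simpa using hA hx⟩

theorem Cov.singleton (hF : F ⊆ ⋃₀ ⋃ n, W n) {x : X} (hx : x ∈ F) : Cov W {x} := by
  obtain ⟨U, hU, hxU⟩ := hF hx
  obtain ⟨n, hn⟩ := mem_iUnion.1 hU
  refine Cov.of_one (n := n) (V := {U}) (by simpa using hn) (countable_singleton U) ?_
  rw [singleton_subset_iff, sUnion_singleton]
  exact subset_closure hxU

theorem Cov.countable (hF : F ⊆ ⋃₀ ⋃ n, W n) {A : Set X} (hA : A.Countable) (hAF : A ⊆ F) :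
    Cov W A := by
  have := hA.to_subtype
  have h : A = ⋃ a : A, {a.1} := by simp
  rw [h]
  exact Cov.iUnion fun a => Cov.singleton hF (hAF a.2)

/-- The points of `F` of type `i`. -/
def Y (F : Set X) (i : W1) : Set W1 := {x | pt (y x i) ∈ F}

theorem covY (hF : F ⊆ ⋃₀ ⋃ n, W n) (i : W1) :
    Cov W ((fun x => pt (y x i)) '' Y F i) := by
  have h : ∀ x ∈ Y F i, ∃ n, ∃ U ∈ W n, pt (y x i) ∈ U := by
    intro x hx
    obtain ⟨U, hU, hxU⟩ := hF hx
    obtain ⟨n, hn⟩ := mem_iUnion.1 hU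
    exact ⟨n, U, hn, hxU⟩
  choose! n U hU hxU using h
  have key : ∀ m, Cov W ((fun x => pt (y x i)) '' {x ∈ Y F i | n x = m}) := by
    intro m
    by_cases hc : {x ∈ Y F i | n x = m}.Countable
    · refine Cov.countable hF (hc.image _) ?_
      rintro _ ⟨x, hx, rfl⟩
      exact hx.1
    · have hinf : {x ∈ Y F i | n x = m}.Infinite := fun hf => hc hf.countable
      obtain ⟨b, hb⟩ := exists_infinite_below hinf
      refine Cov.of_one (n := m) (V := U '' ({x ∈ Y F i | n x = m} ∩ Iio b)) ?_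
        ((countable_of_bdd fun a ha => ha.2).image _) ?_
      · rintro _ ⟨x, hx, rfl⟩
        have := hU x hx.1.1
        rwa [hx.1.2] at this
      · rintro _ ⟨x, hx, rfl⟩
        rw [mem_closure_iff]
        intro O hO hxO
        by_cases hxb : x < b
        · exact ⟨_, hxO, U x, ⟨x, ⟨hx, hxb⟩, rfl⟩, hxU x hx.1⟩
        · obtain ⟨h1, _, _⟩ := (isOpen_iff.1 hO).2 x i hxO
          obtain ⟨a, ha, ha2⟩ : ∃ a ∈ {x ∈ Y F i | n x = m} ∩ Iio b,
              a ∉ {h : W1 | h < x ∧ pt (y h i) ∉ O} := by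
            by_contra hcon
            push Not at hcon
            exact hb (h1.subset hcon)
          have hax : a < x := lt_of_lt_of_le ha.2 (not_lt.1 hxb)
          have haO : pt (y a i) ∈ O := by
            by_contra hcon
            exact ha2 ⟨hax, hcon⟩
          exact ⟨_, haO, U a, ⟨a, ha, rfl⟩, hxU a ha.1.1⟩
  refine Cov.mono ?_ (Cov.iUnion key)
  rintro _ ⟨x, hx, rfl⟩
  exact mem_iUnion.2 ⟨n x, x, ⟨hx, rfl⟩, rfl⟩

theorem mem_of_uncountable_column (hF : IsClosed F) {k : N} {i : W1} (hk : k ∈ T i)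
    (h : ¬ {s : S | iso s k ∈ F}.Countable) (x : W1) :
    pt (y x i) ∈ F := by
  by_contra hx
  obtain ⟨_, _, h3⟩ := (isOpen_iff.1 hF.isOpen_compl).2 x i hx
  refine h (h3.mono ?_)
  intro s hs
  exact ⟨k, hk, fun h' => h' hs⟩

theorem covN (hW : ∀ n, ∀ U ∈ W n, IsOpen U) (hFc : IsClosed F) (hF : F ⊆ ⋃₀ ⋃ n, W n) (k : N) :
    Cov W ((fun s : S => iso s k) '' {s : S | iso s k ∈ F}) := by
  by_cases hc : {s : S | iso s k ∈ F}.Countable
  · refine Cov.countable hF (hc.image _) ?_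
    rintro _ ⟨s, hs, rfl⟩
    exact hs
  · obtain ⟨i, hi⟩ := T_cov k
    have hy := mem_of_uncountable_column hFc hi hc i
    obtain ⟨U, hU, hyU⟩ := hF hy
    obtain ⟨n, hn⟩ := mem_iUnion.1 hU
    obtain ⟨_, _, h3⟩ := (isOpen_iff.1 (hW n U hn)).2 i i hyU
    have h1 : Cov W U := Cov.of_one (n := n) (V := {U}) (by simpa using hn) (countable_singleton U)
      (by rw [sUnion_singleton]; exact subset_closure)
    have h2 : Cov W ((fun s : S => iso s k) '' ({s : S | iso s k ∈ F} ∩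
        {s : S | ∃ k ∈ T i, iso s k ∉ U})) := by
      refine Cov.countable hF ((h3.mono inter_subset_right).image _) ?_
      rintro _ ⟨s, hs, rfl⟩
      exact hs.1
    refine Cov.mono ?_ (h1.union h2)
    rintro _ ⟨s, hs, rfl⟩
    by_cases hsU : iso s k ∈ U
    · exact Or.inl hsU
    · exact Or.inr ⟨s, ⟨hs, k, hi, hsU⟩, rfl⟩

theorem mem_of_infinite_z (hF : IsClosed F)
    (h : ¬ {d : W1 | pt (z d) ∈ F}.Countable) (i : W1) :
    (Y F i).Nonempty := by
  have hinf : {d : W1 | pt (z d) ∈ F ∧ i < d}.Infinite := by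
    intro hf
    refine h ((hf.countable.union (Set.countable_coe_iff.1 (countable_Iic i))).mono ?_)
    intro d hd
    by_cases hid : i < d
    · exact Or.inl ⟨hd, hid⟩
    · exact Or.inr (not_lt.1 hid)
  obtain ⟨b, hb⟩ := exists_infinite_below hinf
  refine ⟨b, ?_⟩
  by_contra hx
  obtain ⟨_, h2, _⟩ := (isOpen_iff.1 hF.isOpen_compl).2 b i hx
  refine hb (h2.subset ?_)
  rintro d ⟨⟨hd, hid⟩, hdb⟩
  exact ⟨hid, hdb, fun h' => h' hd⟩

theorem cov_big (hW : ∀ n, ∀ U ∈ W n, IsOpen U) (hF : F ⊆ ⋃₀ ⋃ n, W n)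
    (hJ : ¬ {i | (Y F i).Nonempty}.Countable) :
    ∃ C : Set S, C.Countable ∧ Cov W ((fun s : S => pt s) '' Cᶜ) := by
  have : Nonempty W1 := by
    rw [← mk_ne_zero_iff, mk_ord_toType]
    exact (aleph_pos 1).ne'
  have h : ∀ i ∈ {i | (Y F i).Nonempty}, ∃ x : W1, ∃ n, ∃ U ∈ W n,
      pt (y x i) ∈ U := by
    rintro i ⟨x, hx⟩
    obtain ⟨U, hU, hxU⟩ := hF hx
    obtain ⟨n, hn⟩ := mem_iUnion.1 hU
    exact ⟨x, n, U, hn, hxU⟩
  choose! x n U hU hxU using h
  obtain ⟨m, hm⟩ : ∃ m, {i ∈ {i | (Y F i).Nonempty} | n i = m}.Infinite := by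
    by_contra hcon
    push Not at hcon
    refine hJ ((countable_iUnion fun m => (hcon m).countable).mono ?_)
    intro i hi
    exact mem_iUnion.2 ⟨n i, hi, rfl⟩
  obtain ⟨b, hb⟩ := exists_infinite_below hm
  have hcount : ({i ∈ {i | (Y F i).Nonempty} | n i = m} ∩ Iio b).Countable :=
    countable_of_bdd fun a ha => ha.2
  refine ⟨⋃ i ∈ {i ∈ {i | (Y F i).Nonempty} | n i = m} ∩ Iio b,
    {s : S | ∃ k ∈ T i, iso s k ∉ U i}, hcount.biUnion fun i hi => ?_, ?_⟩
  · exact ((isOpen_iff.1 (hW _ _ (hU i hi.1.1))).2 (x i) i (hxU i hi.1.1)).2.2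
  · refine Cov.of_one (n := m) (V := U '' ({i ∈ {i | (Y F i).Nonempty} | n i = m} ∩ Iio b)) ?_
      (hcount.image _) ?_
    · rintro _ ⟨i, hi, rfl⟩
      have := hU i hi.1.1
      rwa [hi.1.2] at this
    · rintro _ ⟨s, hs, rfl⟩
      rw [mem_closure_iff]
      intro O hO hsO
      obtain ⟨E, hE⟩ := (isOpen_iff.1 hO).1 s hsO
      obtain ⟨j, hj, hjE⟩ := hb.exists_notMem_finset E
      obtain ⟨k, hk, hkE⟩ := T_spec E j hjE
      refine ⟨iso s k, ?_, U j, ⟨j, hj, rfl⟩, ?_⟩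
      · by_contra hcon
        obtain ⟨e, he, hke⟩ := hE k hcon
        exact hkE e he hke
      · by_contra hcon
        exact hs (mem_biUnion hj ⟨k, hk, hcon⟩)

end cover

theorem strictQuasiLindelof : StrictQuasiLindelof X := by
  intro F hFc W hW hF
  change Cov W F
  have hN : Cov W (⋃ k : N, (fun s : S => iso s k) ''
      {s : S | iso s k ∈ F}) := Cov.iUnion fun k => covN hW hFc hF k
  have hS : Cov W (F ∩ range X.pt) := by
    by_cases hJ : {i | (Y F i).Nonempty}.Countable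
    · have hY : Cov W (⋃ i : {i | (Y F i).Nonempty},
          (fun x => pt (y x i.1)) '' Y F i.1) := by
        have := hJ.to_subtype
        exact Cov.iUnion fun i => covY hF i.1
      have hZ : {d : W1 | pt (z d) ∈ F}.Countable := by
        by_contra hcon
        have huniv : {i | (Y F i).Nonempty} = Set.univ :=
          eq_univ_of_forall fun i => mem_of_infinite_z hFc hcon i
        rw [huniv] at hJ
        exact hcon (hJ.mono (subset_univ _))
      have hZ2 : Cov W ((fun d : W1 => pt (z d)) ''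
          {d : W1 | pt (z d) ∈ F}) := by
        refine Cov.countable hF (hZ.image _) ?_
        rintro _ ⟨d, hd, rfl⟩
        exact hd
      refine Cov.mono ?_ (hY.union hZ2)
      rintro _ ⟨hp, (d | ⟨x, i⟩), rfl⟩
      · exact Or.inr ⟨d, hp, rfl⟩
      · exact Or.inl (mem_iUnion.2 ⟨⟨i, x, hp⟩, x, hp, rfl⟩)
    · obtain ⟨C, hC, hcov⟩ := cov_big hW hF hJ
      have h2 : Cov W ((fun s : S => pt s) '' {s ∈ C | pt s ∈ F}) := by
        refine Cov.countable hF ((hC.mono (sep_subset _ _)).image _) ?_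
        rintro _ ⟨s, hs, rfl⟩
        exact hs.2
      refine Cov.mono ?_ (hcov.union h2)
      rintro _ ⟨hp, s, rfl⟩
      by_cases hs : s ∈ C
      · exact Or.inr ⟨s, ⟨hs, hp⟩, rfl⟩
      · exact Or.inl ⟨s, hs, rfl⟩
  refine Cov.mono ?_ (hS.union hN)
  rintro (s | ⟨s, k⟩) hp
  · exact Or.inl ⟨hp, s, rfl⟩
  · exact Or.inr (mem_iUnion.2 ⟨k, s, hp, rfl⟩)

/-! ### The piecewise weak Lindelöf degree is uncountable -/

/-- The basic set of `y_(x,i)`. -/
def B (x i : W1) : Set X :=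
  {p | match p with
    | pt (z d) => i < d ∧ d < x
    | pt (y h j) => h ≤ x ∧ j = i
    | iso (z d) k => (i < d ∧ d < x) ∨ k ∈ T i
    | iso (y h j) k => (h ≤ x ∧ j = i) ∨ k ∈ T i}

theorem isOpen_B (x i : W1) : IsOpen (B x i) := by
  rw [isOpen_iff]
  refine ⟨?_, ?_⟩
  · rintro (d | ⟨h, j⟩) hs
    · exact ⟨∅, fun k hk => absurd (show iso (z d) k ∈ B x i from Or.inl hs) hk⟩
    · exact ⟨∅, fun k hk =>
        absurd (show iso (y h j) k ∈ B x i from Or.inl hs) hk⟩
  · rintro y j ⟨hy, rfl⟩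
    refine ⟨finite_empty.subset ?_, finite_empty.subset ?_, countable_empty.mono ?_⟩
    · rintro h ⟨hh, hn⟩
      exact hn ⟨hh.le.trans hy, rfl⟩
    · rintro d ⟨hd, hd2, hn⟩
      exact hn ⟨hd, hd2.trans_le hy⟩
    · rintro (d | ⟨h, l⟩) ⟨k, hk, hn⟩
      · exact hn (Or.inr hk)
      · exact hn (Or.inr hk)

/-- A small neighbourhood of `z_d`. -/
def O (d i : W1) : Set X := {p | p = pt (z d) ∨ ∃ k, k ∉ T i ∧ p = iso (z d) k}

theorem isOpen_O (d i : W1) : IsOpen (O d i) := by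
  rw [isOpen_iff]
  refine ⟨fun s hs => ?_, fun x j hx => ?_⟩
  · rcases hs with hs | ⟨k, _, hs⟩
    · refine ⟨{i}, fun k hk => ⟨i, Finset.mem_singleton_self i, ?_⟩⟩
      by_contra hcon
      rw [X.pt.injEq] at hs
      exact hk (Or.inr ⟨k, hcon, by rw [hs]⟩)
    · simp at hs
  · rcases hx with hx | ⟨k, _, hx⟩
    · simp at hx
    · simp at hx

theorem not_PWLc : ¬ PWLc X ℵ₀ := by
  intro hP
  obtain ⟨i0⟩ : Nonempty W1 := by
    rw [← mk_ne_zero_iff, mk_ord_toType]
    exact (aleph_pos 1).ne'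
  let F : Set X := {p | (∃ x i, p = pt (y x i)) ∨ ∃ i d, i < d ∧ p = pt (z d)}
  have hclosed : IsClosed F := by
    rw [← isOpen_compl_iff, isOpen_iff]
    refine ⟨fun s _ => ⟨∅, fun k hk => ?_⟩, fun x i hs => absurd (Or.inl ⟨x, i, rfl⟩) hs⟩
    rcases not_not.1 hk with ⟨x, i, h⟩ | ⟨i, d, _, h⟩
    · simp at h
    · simp at h
  obtain ⟨V, hV, hcov⟩ := hP F hclosed W1 (fun i => range fun x => B x i)
    (by rintro i _ ⟨x, rfl⟩; exact isOpen_B x i) (by
      rintro _ (⟨x, i, rfl⟩ | ⟨i, d, hid, rfl⟩)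
      · exact ⟨B x i, mem_iUnion.2 ⟨i, x, rfl⟩, ⟨le_rfl, rfl⟩⟩
      · obtain ⟨x, hx⟩ := exists_gt d
        exact ⟨B x i, mem_iUnion.2 ⟨i, x, rfl⟩, ⟨hid, hx⟩⟩)
  have hm : ∀ i, ∃ b, ∀ U ∈ V i, ∃ x < b, U = B x i := by
    intro i
    have hc : Countable (V i) := mk_le_aleph0_iff.1 (hV i).2
    have h2 : ∀ U : V i, ∃ x, B x i = U.1 := fun U => (hV i).1 U.2
    choose g hg using h2
    obtain ⟨b, hb⟩ := bdd g
    exact ⟨b, fun U hU => ⟨g ⟨U, hU⟩, hb _, (hg ⟨U, hU⟩).symm⟩⟩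
  choose m hm using hm
  obtain ⟨δ, hδ, -⟩ := (club_closure m i0).1 i0
  obtain ⟨i, hi⟩ := mem_iUnion.1 (hcov (Or.inr ⟨i0, δ, hδ.1, rfl⟩ : pt (z δ) ∈ F))
  rw [mem_closure_iff] at hi
  obtain ⟨p, hp, U, hU, hpU⟩ := hi (O δ i) (isOpen_O δ i) (Or.inl rfl)
  obtain ⟨x, hx, rfl⟩ := hm i U hU
  have key : ¬ (i < δ ∧ δ < x) := fun h => absurd (h.2.trans hx) (not_lt.2 (hδ.2 i h.1).le)
  rcases hp with rfl | ⟨k, hk, rfl⟩
  · exact key hpU
  · rcases hpU with h | h
    · exact key h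
    · exact hk h

theorem aleph0_lt_pwLc : ℵ₀ < pwLc X := lt_pwLc_iff.2 not_PWLc

end Q209.SQL
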