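import Mathlib
import Pool.Agent.H348R6.GV2

/-!
`κ`-complete algebras of subsets of `κ` of size `κ`, for `κ` inaccessible.
-/

set_option autoImplicit false

namespace Q209.Ulam

open Cardinal Set Order Pool.Agent.H348R6.GV

universe u

/-- A `κ`-complete subalgebra of the power set of `κ`: a family of subsets of `κ` closed under
complements and under unions of fewer than `κ` members. -/
structure IsAlgebra (κ : Cardinal.{u}) (A : Set (Set κ.ord.ToType)) : Prop where
  compl_mem : ∀ a ∈ A, aᶜ ∈ A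
  sUnion_mem : ∀ S : Set (Set κ.ord.ToType), S ⊆ A → #S < κ → ⋃₀ S ∈ A

/-- `U` is a uniform `κ`-complete ultrafilter on the algebra `A`. -/
structure IsUltra (κ : Cardinal.{u}) (A U : Set (Set κ.ord.ToType)) : Prop where
  subset : U ⊆ A
  upward : ∀ a ∈ U, ∀ b ∈ A, a ⊆ b → b ∈ U
  mem_iff : ∀ a ∈ A, (a ∈ U ↔ aᶜ ∉ U)
  complete : ∀ S : Set (Set κ.ord.ToType), S ⊆ U → S.Nonempty → #S < κ → ⋂₀ S ∈ U
  uniform : ∀ a ∈ U, #a = κ

section
variable {κ : Cardinal.{u}}

theorem mk_pt (κ : Cardinal.{u}) : #(κ.ord.ToType) = κ := by rw [Cardinal.mk_toType, card_ord]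

/-- The point of `κ` corresponding to a smaller cardinal. -/
theorem exists_pt {μ : Cardinal.{u}} (hμ : μ < κ) : ∃ b : κ.ord.ToType, #(Iio b) = μ ∧
    ∀ a : κ.ord.ToType, a < b ↔ #(Iio a) < μ := by
  have h : μ.ord < Ordinal.type (α := κ.ord.ToType) (· < ·) := by
    rw [Ordinal.type_toType]
    exact ord_lt_ord.2 hμ
  have hcard : ∀ a : κ.ord.ToType, (Ordinal.typein (α := κ.ord.ToType) (· < ·) a).card = #(Iio a) :=
    fun a => Ordinal.card_typein a
  refine ⟨Ordinal.enum (α := κ.ord.ToType) (· < ·) ⟨μ.ord, h⟩, ?_, fun a => ?_⟩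
  · rw [← hcard, Ordinal.typein_enum, card_ord]
  · rw [← hcard a, ← lt_ord]
    conv_rhs => rw [← Ordinal.typein_enum (α := κ.ord.ToType) (· < ·) h]
    exact (Ordinal.typein_lt_typein (α := κ.ord.ToType) (· < ·)).symm

/-- Shapes of the operations. -/
inductive Shape (G X : Type u) : Type u
  | leaf : G → Shape G X
  | compl : Shape G X
  | union : X → Shape G X

/-- Arities of the operations. -/
def arity (G X : Type u) [LT X] : Shape G X → Type u
  | .leaf _ => PEmpty
  | .compl => PUnit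
  | .union d => {y : X // y < d}

/-- Evaluation of terms. -/
def ev {G X Y : Type u} [LT X] (g : G → Set Y) : WType (arity G X) → Set Y
  | ⟨.leaf a, _⟩ => g a
  | ⟨.compl, f⟩ => (ev g (f PUnit.unit))ᶜ
  | ⟨.union _, f⟩ => ⋃ i, ev g (f i)

theorem power_lt_le (hκ : κ.IsInaccessible) {μ : Cardinal.{u}} (hμ : μ < κ) : κ ^ μ ≤ κ := by
  have hreg := hκ.isRegular
  have hμ' : #(μ.out) = μ := mk_out μ
  have h1 : κ ^ μ = #(μ.out → κ.ord.ToType) := by
    rw [← Cardinal.power_def, hμ', mk_pt]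
  rw [h1]
  have h2 : ∀ b : κ.ord.ToType, #(μ.out → Iic b) ≤ κ := by
    intro b
    rw [← Cardinal.power_def, hμ']
    have hb := mk_Iic_lt hreg b
    set ν := max (max #(Iic b) μ) ℵ₀ with hν
    have h3 : #(Iic b) ≤ ν := (le_max_left _ _).trans (le_max_left _ _)
    have h4 : μ ≤ ν := (le_max_right _ _).trans (le_max_left _ _)
    have h5 : ℵ₀ ≤ ν := le_max_right _ _
    have h6 : ν < κ := max_lt (max_lt hb hμ) hκ.aleph0_lt
    calc #(Iic b) ^ μ ≤ ν ^ μ := Cardinal.power_le_power_right h3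
      _ ≤ ν ^ ν := Cardinal.power_le_power_left (aleph0_pos.trans_le h5).ne' h4
      _ = 2 ^ ν := power_self_eq h5
      _ ≤ κ := (hκ.isStrongLimit.two_power_lt h6).le
  have h7 : #(μ.out → κ.ord.ToType) ≤ #(Σ b : κ.ord.ToType, (μ.out → Iic b)) := by
    have h8 : ∀ f : μ.out → κ.ord.ToType, ∃ b, ∀ i, f i < b := fun f =>
      bdd_of_lt hreg f (by rw [hμ']; exact hμ)
    choose b hb using h8
    refine ⟨⟨fun f => ⟨b f, fun i => ⟨f i, (hb f i).le⟩⟩, ?_⟩⟩
    intro f g hfg
    have key : ∀ (p q : Σ b : κ.ord.ToType, (μ.out → Iic b)), p = q → ∀ i,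
        (p.2 i).1 = (q.2 i).1 := by
      rintro p q rfl i
      rfl
    exact funext fun i => key _ _ hfg i
  refine h7.trans ?_
  rw [mk_sigma]
  refine (sum_le_sum _ (fun _ => κ) h2).trans ?_
  rw [sum_const, lift_id, lift_id, mk_pt, mul_eq_self hreg.aleph0_le]

/-- Every family of at most `κ` sets generates a `κ`-complete algebra of size at most `κ`. -/
theorem exists_algebra (hκ : κ.IsInaccessible) {G : Type u} (hG : #G ≤ κ)
    (g : G → Set κ.ord.ToType) :
    ∃ A, IsAlgebra κ A ∧ #A ≤ κ ∧ ∀ i, g i ∈ A := by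
  classical
  have hreg := hκ.isRegular
  have hne := nonempty_toType hreg
  refine ⟨range (ev (X := κ.ord.ToType) g), ⟨?_, ?_⟩, ?_, ?_⟩
  · rintro _ ⟨t, rfl⟩
    refine ⟨⟨.compl, fun _ => t⟩, ?_⟩
    simp only [ev]
  · intro S hS hSκ
    obtain ⟨d, hd, -⟩ := exists_pt hSκ
    -- an enumeration
    have hd' : #{y : κ.ord.ToType // y < d} = #S := hd
    obtain ⟨e⟩ := Cardinal.eq.1 hd'
    have hc : ∀ s : S, ∃ t, ev (X := κ.ord.ToType) g t = s.1 := fun s => hS s.2
    choose t ht using hc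
    refine ⟨⟨.union d, fun i => t (e i)⟩, ?_⟩
    simp only [ev]
    rw [sUnion_eq_iUnion]
    have : ∀ i : {y : κ.ord.ToType // y < d}, ev g (t (e i)) = (e i).1 := fun i => ht _
    apply Set.ext
    intro x
    simp only [mem_iUnion]
    constructor
    · rintro ⟨i, hi⟩
      exact ⟨e i, by rw [← this i]; exact hi⟩
    · rintro ⟨s, hs⟩
      obtain ⟨i, rfl⟩ := e.surjective s
      exact ⟨i, by rw [this i]; exact hs⟩
  · refine mk_range_le.trans ?_
    apply WType.cardinalMk_le_of_le
    have h1 : ∀ a : Shape G κ.ord.ToType, κ ^ #(arity G κ.ord.ToType a) ≤ κ := by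
      intro a
      apply power_lt_le hκ
      cases a with
      | leaf a =>
        change #PEmpty < κ
        rw [mk_pempty]
        exact hreg.pos
      | compl =>
        change #PUnit < κ
        rw [mk_punit]
        exact one_lt_aleph0.trans hκ.aleph0_lt
      | union d =>
        change #(Iio d) < κ
        exact (mk_le_mk_of_subset Iio_subset_Iic_self).trans_lt (mk_Iic_lt hreg d)
    refine (sum_le_sum _ (fun _ => κ) h1).trans ?_
    rw [sum_const, lift_id, lift_id]
    have h2 : #(Shape G κ.ord.ToType) ≤ κ := by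
      let f : Shape G κ.ord.ToType → G ⊕ (PUnit.{u+1} ⊕ κ.ord.ToType) := fun s =>
        match s with
        | .leaf a => Sum.inl a
        | .compl => Sum.inr (Sum.inl PUnit.unit)
        | .union d => Sum.inr (Sum.inr d)
      have hf : Function.Injective f := by
        intro a b hab
        cases a <;> cases b <;> simp_all [f]
      refine (mk_le_of_injective hf).trans ?_
      rw [mk_sum, mk_sum, lift_id, lift_id, lift_id, lift_id, mk_punit, mk_pt]
      exact add_le_of_le hreg.aleph0_le hG (add_le_of_le hreg.aleph0_le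
        (one_lt_aleph0.trans hκ.aleph0_lt).le le_rfl)
    calc #(Shape G κ.ord.ToType) * κ ≤ κ * κ := by gcongr
      _ = κ := mul_eq_self hreg.aleph0_le
  · intro i
    refine ⟨⟨.leaf i, fun x => x.elim⟩, ?_⟩
    simp only [ev]

end

end Q209.Ulam
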