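import Mathlib
import Pool.Agent.Q209.UlamAlg

/-!
If `κ` is inaccessible and there is no inaccessible cardinal strictly between `lam < κ` and `κ`, then
some `κ`-complete algebra of subsets of `κ` of size `κ` which contains the singletons carries no
uniform `κ`-complete ultrafilter.
-/

set_option autoImplicit false

namespace Q209.Ulam

open Cardinal Set Order Pool.Agent.H348R6.GV

universe u

section
variable {κ : Cardinal.{u}}

/-- The predecessors of `a` have a short cofinal sequence. -/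
def Bad1 (a : κ.ord.ToType) : Prop :=
  ∃ b < a, ∃ c : κ.ord.ToType → κ.ord.ToType, (∀ i < b, c i < a) ∧ ∀ y < a, ∃ i < b, y ≤ c i

/-- The number of predecessors of `a` is at most the size of a power set of a smaller number. -/
def Bad2 (a : κ.ord.ToType) : Prop := ∃ b < a, #(Iio a) ≤ 2 ^ #(Iio b)

theorem mk_Iio_lt' (hκ : κ.IsRegular) (a : κ.ord.ToType) : #(Iio a) < κ :=
  (mk_le_mk_of_subset Iio_subset_Iic_self).trans_lt (mk_Iic_lt hκ a)

theorem bad_of_lt (hκ : κ.IsInaccessible) {lam : Cardinal.{u}} (hω : ℵ₀ ≤ lam)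
    (hno : ∀ ν, lam < ν → ν < κ → ¬ ν.IsInaccessible) {x₀ : κ.ord.ToType} (hx₀ : #(Iio x₀) = lam)
    {a : κ.ord.ToType} (ha : x₀ < a) (h2 : ¬ Bad2 a) : Bad1 a := by
  classical
  by_contra h1
  set ν := #(Iio a) with hν
  have hνκ : ν < κ := mk_Iio_lt' hκ.isRegular a
  have h2' : ∀ b < a, 2 ^ #(Iio b) < ν := by
    intro b hb
    by_contra hcon
    exact h2 ⟨b, hb, not_lt.1 hcon⟩
  have hlam : lam < ν := (cantor lam).trans (by have := h2' x₀ ha; rwa [hx₀] at this)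
  -- smaller cardinals are represented by points below `a`
  have hpt : ∀ μ < ν, ∃ b < a, #(Iio b) = μ := by
    intro μ hμ
    obtain ⟨b, hb, -⟩ := exists_pt (hμ.trans hνκ)
    refine ⟨b, ?_, hb⟩
    by_contra hcon
    have : #(Iio a) ≤ #(Iio b) := mk_le_mk_of_subset (Iio_subset_Iio (not_lt.1 hcon))
    rw [hb] at this
    exact absurd hμ (not_lt.2 this)
  refine hno ν hlam hνκ (isInaccessible_def.2 ⟨hω.trans_lt hlam, ⟨hω.trans hlam.le, ?_⟩, ⟨?_, ?_⟩⟩)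
  · -- regular
    by_contra hcon
    rw [not_le] at hcon
    have hty : Ordinal.type (α := Iio a) (· < ·) = ν.ord := by
      apply le_antisymm
      · by_contra hlt
        rw [not_le] at hlt
        -- the point of `Iio a` at position `ν.ord`
        set p : Iio a := Ordinal.enum (α := Iio a) (· < ·) ⟨ν.ord, hlt⟩ with hp
        have h3 : (Ordinal.typein (α := Iio a) (· < ·) p).card = ν := by
          rw [hp, Ordinal.typein_enum, card_ord]
        rw [Ordinal.card_typein] at h3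
        have h4 : #{y : Iio a // y < p} ≤ #(Iio p.1) :=
          ⟨⟨fun y => ⟨y.1.1, y.2⟩, fun y z hyz => by
            apply Subtype.ext
            apply Subtype.ext
            exact congrArg (fun q : Iio p.1 => q.1) hyz⟩⟩
        rw [h3] at h4
        exact absurd ((h4.trans_lt (cantor _)).trans (h2' p.1 p.2)) (lt_irrefl _)
      · exact ord_le_type _
    have hcof : Order.cof (Iio a) < ν := by
      rw [← hty, Ordinal.cof_type] at hcon
      exact hcon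
    obtain ⟨s, hs, hsc⟩ := Order.exists_cof_eq (Iio a)
    rw [← hsc] at hcof
    obtain ⟨b, hb, hbs⟩ := hpt _ hcof
    obtain ⟨e⟩ := Cardinal.eq.1 hbs
    refine h1 ⟨b, hb, fun i => if h : i < b then ((e ⟨i, h⟩).1.1) else a, ?_, ?_⟩
    · intro i hi
      simp only [hi, dite_true]
      exact (e ⟨i, hi⟩).1.2
    · intro y hy
      obtain ⟨z, hz, hyz⟩ := hs ⟨y, hy⟩
      refine ⟨(e.symm ⟨z, hz⟩).1, (e.symm ⟨z, hz⟩).2, ?_⟩
      have h5 : (e.symm ⟨z, hz⟩).1 < b := (e.symm ⟨z, hz⟩).2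
      simp only [h5, dite_true]
      have h6 : e ⟨(e.symm ⟨z, hz⟩).1, h5⟩ = ⟨z, hz⟩ := e.apply_symm_apply ⟨z, hz⟩
      rw [h6]
      exact hyz
  · exact (aleph0_pos.trans_le (hω.trans hlam.le)).ne'
  · intro μ hμ
    obtain ⟨b, hb, hbμ⟩ := hpt μ hμ
    have := h2' b hb
    rwa [hbμ] at this

namespace IsUltra

variable {A U : Set (Set κ.ord.ToType)}

theorem inter (hκ : κ.IsRegular) (h : IsUltra κ A U) {a b : Set κ.ord.ToType} (ha : a ∈ U)
    (hb : b ∈ U) : a ∩ b ∈ U := by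
  have h1 := h.complete {a, b} (by rintro x (rfl | rfl) <;> assumption) ⟨a, by simp⟩
    ((Cardinal.lt_aleph0_iff_set_finite.2 ((finite_singleton b).insert a)).trans_le hκ.aleph0_le)
  rwa [sInter_pair] at h1

theorem nonempty (hκ : κ.IsRegular) (h : IsUltra κ A U) {a : Set κ.ord.ToType} (ha : a ∈ U) :
    a.Nonempty := by
  rw [nonempty_iff_ne_empty]
  rintro rfl
  have h1 := h.uniform ∅ ha
  rw [mk_emptyCollection] at h1
  exact hκ.pos.ne h1

theorem compl_mem (hA : IsAlgebra κ A) (h : IsUltra κ A U) {a : Set κ.ord.ToType} (ha : a ∈ A)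
    (haU : a ∉ U) : aᶜ ∈ U := by
  rw [h.mem_iff _ (hA.compl_mem a ha), compl_compl]
  exact haU

theorem iInter (hκ : κ.IsRegular) (h : IsUltra κ A U) {ι : Type u} [Nonempty ι] (hι : #ι < κ)
    (a : ι → Set κ.ord.ToType) (ha : ∀ i, a i ∈ U) : ⋂ i, a i ∈ U := by
  have h1 := h.complete (range a) (by rintro _ ⟨i, rfl⟩; exact ha i) (range_nonempty a)
    (mk_range_le.trans_lt hι)
  rwa [sInter_range] at h1

/-- One of fewer than `κ` sets is in `U` if their union contains a member of `U`. -/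
theorem exists_mem (hκ : κ.IsRegular) (hA : IsAlgebra κ A) (h : IsUltra κ A U) {ι : Type u}
    (hι : #ι < κ) (a : ι → Set κ.ord.ToType) (ha : ∀ i, a i ∈ A) {D : Set κ.ord.ToType}
    (hD : D ∈ U) (hDa : D ⊆ ⋃ i, a i) : ∃ i, a i ∈ U := by
  by_contra hcon
  push Not at hcon
  rcases isEmpty_or_nonempty ι with hemp | hne
  · obtain ⟨x, hx⟩ := h.nonempty hκ hD
    obtain ⟨i, -⟩ := mem_iUnion.1 (hDa hx)
    exact hemp.false i
  · have h1 := h.iInter hκ hι (fun i => (a i)ᶜ) (fun i => h.compl_mem hA (ha i) (hcon i))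
    obtain ⟨x, hx1, hx2⟩ := h.nonempty hκ (h.inter hκ hD h1)
    obtain ⟨i, hi⟩ := mem_iUnion.1 (hDa hx1)
    exact mem_iInter.1 hx2 i hi

end IsUltra

/-- The letters. -/
abbrev Letter (κ : Cardinal.{u}) : Type u := ULift.{u} Bool ⊕ κ.ord.ToType

/-- Compositions of the basic functions. -/
def fw (b1 b2 : κ.ord.ToType → κ.ord.ToType) (c : κ.ord.ToType → κ.ord.ToType → κ.ord.ToType) :
    List (Letter κ) → κ.ord.ToType → κ.ord.ToType
  | [], ξ => ξ
  | Sum.inl ⟨true⟩ :: w, ξ => b1 (fw b1 b2 c w ξ)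
  | Sum.inl ⟨false⟩ :: w, ξ => b2 (fw b1 b2 c w ξ)
  | Sum.inr i :: w, ξ => c (fw b1 b2 c w ξ) i

/-- Main theorem of this file. -/
theorem exists_no_ultra (hκ : κ.IsInaccessible) {lam : Cardinal.{u}} (hω : ℵ₀ ≤ lam)
    (hlam : lam < κ) (hno : ∀ ν, lam < ν → ν < κ → ¬ ν.IsInaccessible) :
    ∃ A, IsAlgebra κ A ∧ #A = κ ∧ (∀ x, {x} ∈ A) ∧ ∀ U, ¬ IsUltra κ A U := by
  classical
  have hreg := hκ.isRegular
  obtain ⟨x₀, hx₀, -⟩ := exists_pt hlam
  -- the basic functions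
  have hb1 : ∀ a : κ.ord.ToType, ∃ b : κ.ord.ToType, ∃ c : κ.ord.ToType → κ.ord.ToType,
      Bad1 a → b < a ∧ (∀ i < b, c i < a) ∧ ∀ y < a, ∃ i < b, y ≤ c i := by
    intro a
    by_cases h : Bad1 a
    · obtain ⟨b, hb, c, hc⟩ := h
      exact ⟨b, c, fun _ => ⟨hb, hc⟩⟩
    · exact ⟨a, fun _ => a, fun h' => absurd h' h⟩
  choose b1 c hb1 using hb1
  have hb2 : ∀ a : κ.ord.ToType, ∃ b : κ.ord.ToType, Bad2 a → b < a ∧ #(Iio a) ≤ 2 ^ #(Iio b) := by
    intro a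
    by_cases h : Bad2 a
    · obtain ⟨b, hb, hb'⟩ := h
      exact ⟨b, fun _ => ⟨hb, hb'⟩⟩
    · exact ⟨a, fun h' => absurd h' h⟩
  choose b2 hb2 using hb2
  let f := fw b1 b2 c
  -- the base sets
  let G : Type u := (List (Letter κ) × κ.ord.ToType) ⊕ (List (Letter κ) × List (Letter κ)) ⊕
    List (Letter κ)
  let g : G → Set κ.ord.ToType := fun s => match s with
    | Sum.inl (w, x) => {ξ | f w ξ = x}
    | Sum.inr (Sum.inl (w', w)) => {ξ | f w' ξ < f w ξ}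
    | Sum.inr (Sum.inr w) => {ξ | Bad1 (f w ξ)}
  have hG : #G ≤ κ := by
    have hL : #(Letter κ) ≤ κ := by
      rw [mk_sum, lift_id, lift_id, mk_pt]
      exact add_le_of_le hreg.aleph0_le (mk_le_aleph0.trans hreg.aleph0_le) le_rfl
    have hW : #(List (Letter κ)) ≤ κ :=
      (mk_list_le_max _).trans (max_le hreg.aleph0_le hL)
    simp only [G, mk_sum, mk_prod, lift_id, mk_pt]
    refine add_le_of_le hreg.aleph0_le ?_ (add_le_of_le hreg.aleph0_le ?_ hW)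
    · exact mul_le_of_le hreg.aleph0_le hW le_rfl
    · exact mul_le_of_le hreg.aleph0_le hW hW
  obtain ⟨A, hA, hAκ, hgA⟩ := exists_algebra hκ hG g
  have hE : ∀ w x, {ξ | f w ξ = x} ∈ A := fun w x => hgA (Sum.inl (w, x))
  have hLt : ∀ w' w, {ξ | f w' ξ < f w ξ} ∈ A := fun w' w => hgA (Sum.inr (Sum.inl (w', w)))
  have hBad : ∀ w, {ξ | Bad1 (f w ξ)} ∈ A := fun w => hgA (Sum.inr (Sum.inr w))
  have hsing : ∀ x : κ.ord.ToType, ({x} : Set κ.ord.ToType) ∈ A := fun x => hE [] x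
  refine ⟨A, hA, le_antisymm hAκ ?_, hsing, ?_⟩
  · have : #(κ.ord.ToType) ≤ #A :=
      ⟨⟨fun x => ⟨{x}, hsing x⟩, fun x y hxy => by simpa using hxy⟩⟩
    rwa [mk_pt] at this
  intro U hU
  -- a minimal nonconstant function
  let NC : List (Letter κ) → Prop := fun w => ∀ x, {ξ | f w ξ = x} ∉ U
  have hnil : NC [] := by
    intro x hx
    have h1 := hU.uniform _ hx
    have h2 : ({ξ | f [] ξ = x} : Set κ.ord.ToType) = {x} := rfl
    rw [h2, mk_singleton] at h1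
    exact absurd h1 (one_lt_aleph0.trans_le hreg.aleph0_le).ne
  obtain ⟨w, hw, hmin⟩ : ∃ w, NC w ∧ ∀ w', {ξ | f w' ξ < f w ξ} ∈ U → ¬ NC w' := by
    by_contra hcon
    push Not at hcon
    have hcon' : ∀ w : {w // NC w}, ∃ w' : {w // NC w}, {ξ | f w'.1 ξ < f w.1 ξ} ∈ U := by
      rintro ⟨w, hw⟩
      obtain ⟨w', h1, h2⟩ := hcon w hw
      exact ⟨⟨w', h2⟩, h1⟩
    choose nx hnx using hcon'
    let s : ℕ → {w // NC w} := fun n => Nat.rec ⟨[], hnil⟩ (fun _ w => nx w) n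
    have hs : ∀ n, {ξ | f (s (n + 1)).1 ξ < f (s n).1 ξ} ∈ U := fun n => hnx (s n)
    have h1 := hU.iInter hreg (ι := ULift.{u} ℕ) (mk_le_aleph0.trans_lt hκ.aleph0_lt)
      (fun n => {ξ | f (s (n.down + 1)).1 ξ < f (s n.down).1 ξ}) (fun n => hs n.down)
    obtain ⟨ξ, hξ⟩ := hU.nonempty hreg h1
    have hdec : ∀ n, f (s (n + 1)).1 ξ < f (s n).1 ξ := fun n => mem_iInter.1 hξ ⟨n⟩
    obtain ⟨m, ⟨n, rfl⟩, hm⟩ := (wellFounded_lt (α := κ.ord.ToType)).has_min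
      (range fun n => f (s n).1 ξ) (range_nonempty _)
    exact hm _ ⟨n + 1, rfl⟩ (hdec n)
  -- `f w` is unbounded
  have hbig : ∀ y : κ.ord.ToType, {ξ | y < f w ξ} ∈ U := by
    intro y
    have h1 : {ξ | f w ξ ≤ y} = ⋃₀ (range fun x : Iic y => {ξ | f w ξ = x.1}) := by
      ext ξ
      simp
    have h2 : {ξ | f w ξ ≤ y} ∈ A := by
      rw [h1]
      refine hA.sUnion_mem _ ?_ (mk_range_le.trans_lt (mk_Iic_lt hreg y))
      rintro _ ⟨x, rfl⟩
      exact hE w x.1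
    have h3 : {ξ | f w ξ ≤ y} ∉ U := by
      intro h3
      obtain ⟨x, hx⟩ := hU.exists_mem hreg hA (mk_Iic_lt hreg y)
        (fun x : Iic y => {ξ | f w ξ = x.1}) (fun x => hE w x.1) h3 (by rw [h1, sUnion_range])
      exact hw _ hx
    have h4 := hU.compl_mem hA h2 h3
    have h5 : {ξ | f w ξ ≤ y}ᶜ = {ξ | y < f w ξ} := by
      ext ξ
      simp
    rwa [h5] at h4
  -- functions below `f w` are constant
  have hconst : ∀ w', {ξ | f w' ξ < f w ξ} ∈ U → ∃ x, {ξ | f w' ξ = x} ∈ U := by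
    intro w' hw'
    have := hmin w' hw'
    simpa [NC] using this
  by_cases hG2 : {ξ | Bad1 (f w ξ)} ∈ U
  · have hlt1 : {ξ | f (Sum.inl ⟨true⟩ :: w) ξ < f w ξ} ∈ U := by
      refine hU.upward _ hG2 _ (hLt _ _) ?_
      intro ξ hξ
      exact (hb1 _ hξ).1
    obtain ⟨β, hβ⟩ := hconst _ hlt1
    have hD0 := hU.inter hreg hG2 hβ
    have hlt2 : ∀ i : Iio β, ∃ x, {ξ | f (Sum.inr i.1 :: w) ξ = x} ∈ U := by
      intro i
      apply hconst
      refine hU.upward _ hD0 _ (hLt _ _) ?_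
      rintro ξ ⟨h1, h2⟩
      have h3 : b1 (f w ξ) = β := h2
      exact (hb1 _ h1).2.1 i.1 (by rw [h3]; exact i.2)
    choose γ hγ using hlt2
    have hD : ∃ D ∈ U, (∀ ξ ∈ D, Bad1 (f w ξ)) ∧ (∀ ξ ∈ D, b1 (f w ξ) = β) ∧
        ∀ ξ ∈ D, ∀ i : Iio β, c (f w ξ) i.1 = γ i := by
      rcases isEmpty_or_nonempty (Iio β) with hemp | hne
      · exact ⟨_, hD0, fun ξ hξ => hξ.1, fun ξ hξ => hξ.2, fun ξ hξ i => (hemp.false i).elim⟩
      · have h1 := hU.iInter hreg (mk_Iio_lt' hreg β) (fun i => {ξ | f (Sum.inr i.1 :: w) ξ = γ i}) hγ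
        exact ⟨_, hU.inter hreg hD0 h1, fun ξ hξ => hξ.1.1, fun ξ hξ => hξ.1.2,
          fun ξ hξ i => mem_iInter.1 hξ.2 i⟩
    obtain ⟨D, hDU, hD1, hD2, hD3⟩ := hD
    obtain ⟨ξ₀, hξ₀⟩ := hU.nonempty hreg hDU
    -- `f w` is constant on `D`
    have hle : ∀ ξ ∈ D, ∀ η ∈ D, f w ξ ≤ f w η := by
      intro ξ hξ η hη
      by_contra hlt
      rw [not_le] at hlt
      obtain ⟨i, hi, hi2⟩ := (hb1 _ (hD1 ξ hξ)).2.2 _ hlt
      rw [hD2 ξ hξ] at hi
      have h1 := hD3 ξ hξ ⟨i, hi⟩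
      have h2 := hD3 η hη ⟨i, hi⟩
      have h3 := (hb1 _ (hD1 η hη)).2.1 i (by rw [hD2 η hη]; exact hi)
      simp only at h1 h2
      rw [h1] at hi2
      rw [h2] at h3
      exact absurd (hi2.trans_lt h3) (lt_irrefl _)
    refine hw (f w ξ₀) (hU.upward _ hDU _ (hE _ _) ?_)
    intro ξ hξ
    exact le_antisymm (hle ξ hξ ξ₀ hξ₀) (hle ξ₀ hξ₀ ξ hξ)
  · have hG2' := hU.compl_mem hA (hBad w) hG2
    have hD0 := hU.inter hreg (hbig x₀) hG2'
    have hbad2 : ∀ ξ ∈ {ξ | x₀ < f w ξ} ∩ {ξ | Bad1 (f w ξ)}ᶜ, Bad2 (f w ξ) := by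
      rintro ξ ⟨h1, h2⟩
      by_contra h3
      exact h2 (bad_of_lt hκ hω hno hx₀ h1 h3)
    have hlt1 : {ξ | f (Sum.inl ⟨false⟩ :: w) ξ < f w ξ} ∈ U := by
      refine hU.upward _ hD0 _ (hLt _ _) ?_
      intro ξ hξ
      exact (hb2 _ (hbad2 ξ hξ)).1
    obtain ⟨β, hβ⟩ := hconst _ hlt1
    have h2β : (2 : Cardinal.{u}) ^ #(Iio β) < κ :=
      hκ.isStrongLimit.isStrongPrelimit (mk_Iio_lt' hreg β)
    have h2β' : Order.succ ((2 : Cardinal.{u}) ^ #(Iio β)) < κ :=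
      hκ.isStrongLimit.isSuccLimit.succ_lt h2β
    obtain ⟨y, -, hy⟩ := exists_pt h2β'
    obtain ⟨ξ, ⟨h1, h2⟩, h3⟩ := hU.nonempty hreg (hU.inter hreg (hU.inter hreg hD0 hβ) (hbig y))
    have h4 := (hb2 _ (hbad2 ξ h1)).2
    have h5 : b2 (f w ξ) = β := h2
    rw [h5] at h4
    have h6 : f w ξ < y := (hy _).2 (Order.lt_succ_of_le h4)
    exact absurd h6 (not_lt.2 (le_of_lt h3))

end

end Q209.Ulam
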